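import Pool.Agent.MP_0f71ae_nt.R3.Defs

/-!
# [R3] Basic properties of the kernel `X` and of the averages `K`
-/

open Finset

namespace R3

variable {G : Type*} [AddCommGroup G] [Fintype G] [DecidableEq G]
variable (A : Finset G) (n : ℝ)

/-- the averaged indicator `kv S w = avg_{x ∈ S} 1_A(w + x)` -/
noncomputable def kv (S : Finset G) (w : G) : ℝ :=
  (∑ x ∈ S, if w + x ∈ A then (1 : ℝ) else 0) / #S

theorem cnt_eq_sum (x y : G) :
    (cnt A x y : ℝ) = ∑ w : G, (if w + x ∈ A then (1 : ℝ) else 0) *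
      (if w + y ∈ A then (1 : ℝ) else 0) := by
  unfold cnt
  rw [Finset.card_filter]
  push_cast
  refine Finset.sum_congr rfl fun w _ => ?_
  by_cases h1 : w + x ∈ A <;> by_cases h2 : w + y ∈ A <;> simp [h1, h2]

theorem cnt_comm (x y : G) : cnt A x y = cnt A y x := by
  unfold cnt
  congr 1
  ext w
  simp [and_comm]

theorem cnt_add_right (x y t : G) : cnt A (x + t) (y + t) = cnt A x y := by
  unfold cnt
  refine Finset.card_bij (fun w _ => w + t) ?_ ?_ ?_
  · intro w hw
    simp only [mem_filter, mem_univ, true_and] at hw ⊢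
    constructor
    · convert hw.1 using 1; abel
    · convert hw.2 using 1; abel
  · intro a _ b _ h
    exact add_right_cancel h
  · intro w hw
    refine ⟨w - t, ?_, by abel⟩
    simp only [mem_filter, mem_univ, true_and] at hw ⊢
    constructor
    · convert hw.1 using 1; abel
    · convert hw.2 using 1; abel

theorem cnt_self (x : G) : cnt A x x = #A := by
  unfold cnt
  refine Finset.card_bij (fun w _ => w + x) ?_ ?_ ?_
  · intro w hw
    simpa using hw
  · intro a _ b _ h
    exact add_right_cancel h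
  · intro w hw
    refine ⟨w - x, ?_, by abel⟩
    simp [hw]

theorem cnt_le (x y : G) : cnt A x y ≤ #A := by
  rw [← cnt_self A x]
  unfold cnt
  apply Finset.card_le_card
  intro w hw
  simp only [mem_filter, mem_univ, true_and] at hw ⊢
  exact ⟨hw.1, hw.1⟩

theorem X_nonneg (hn : 0 < n) (x y : G) : 0 ≤ X A n x y := by
  unfold X; positivity

theorem X_comm (x y : G) : X A n x y = X A n y x := by
  unfold X; rw [cnt_comm]

theorem X_add_right (x y t : G) : X A n (x + t) (y + t) = X A n x y := by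
  unfold X; rw [cnt_add_right]

theorem X_self (hA : A.Nonempty) (x : G) : X A n x x = n / #A := by
  have h : (#A : ℝ) ≠ 0 := by
    have := hA.card_pos
    positivity
  unfold X; rw [cnt_self]
  field_simp

theorem X_le (hn : 0 < n) (hA : A.Nonempty) (x y : G) : X A n x y ≤ n / #A := by
  rw [← X_self A n hA x]
  unfold X
  rw [cnt_self]
  have h : (cnt A x y : ℝ) ≤ #A := by exact_mod_cast cnt_le A x y
  gcongr

theorem K_comm (S Y : Finset G) : K A n S Y = K A n Y S := by
  unfold K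
  rw [Finset.sum_comm, mul_comm (#S : ℝ)]
  congr 1
  refine Finset.sum_congr rfl fun y _ => Finset.sum_congr rfl fun x _ => X_comm A n x y

theorem K_nonneg (hn : 0 < n) (S Y : Finset G) : 0 ≤ K A n S Y := by
  unfold K
  apply div_nonneg _ (by positivity)
  exact Finset.sum_nonneg fun x _ => Finset.sum_nonneg fun y _ => X_nonneg A n hn x y

theorem K_le (hn : 0 < n) (hA : A.Nonempty) (S Y : Finset G) : K A n S Y ≤ n / #A := by
  unfold K
  have h0 : 0 ≤ n / #A := by positivity
  rcases S.eq_empty_or_nonempty with rfl | hS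
  · simpa using h0
  rcases Y.eq_empty_or_nonempty with rfl | hY
  · simpa using h0
  have h1 : (0 : ℝ) < #S := by exact_mod_cast hS.card_pos
  have h2 : (0 : ℝ) < #Y := by exact_mod_cast hY.card_pos
  rw [div_le_iff₀ (by positivity)]
  calc ∑ x ∈ S, ∑ y ∈ Y, X A n x y ≤ ∑ x ∈ S, ∑ y ∈ Y, n / #A :=
        Finset.sum_le_sum fun x _ => Finset.sum_le_sum fun y _ => X_le A n hn hA x y
    _ = n / #A * (#S * #Y) := by simp; ring

theorem K_self_pos (hn : 0 < n) (hA : A.Nonempty) (S : Finset G) (hS : S.Nonempty) :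
    0 < K A n S S := by
  unfold K
  have h1 : (0 : ℝ) < #S := by exact_mod_cast hS.card_pos
  apply div_pos _ (by positivity)
  apply Finset.sum_pos' (fun x _ => Finset.sum_nonneg fun y _ => X_nonneg A n hn x y)
  obtain ⟨x, hx⟩ := hS
  refine ⟨x, hx, ?_⟩
  apply Finset.sum_pos' (fun y _ => X_nonneg A n hn x y)
  refine ⟨x, hx, ?_⟩
  rw [X_self A n hA]
  have : (0 : ℝ) < #A := by exact_mod_cast hA.card_pos
  positivity

/-- the inner product representation of `K` -/
theorem K_eq_inner (S Y : Finset G) :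
    K A n S Y = n / (#A : ℝ) ^ 2 * ∑ w : G, kv A S w * kv A Y w := by
  unfold K X kv
  simp_rw [cnt_eq_sum]
  simp_rw [← Finset.mul_sum]
  rw [mul_div_assoc]
  congr 1
  have : ∑ x ∈ S, ∑ y ∈ Y, ∑ w : G, (if w + x ∈ A then (1 : ℝ) else 0) *
      (if w + y ∈ A then (1 : ℝ) else 0) =
      ∑ w : G, (∑ x ∈ S, if w + x ∈ A then (1 : ℝ) else 0) *
        (∑ y ∈ Y, if w + y ∈ A then (1 : ℝ) else 0) := by
    simp_rw [Finset.sum_mul_sum]
    rw [Finset.sum_comm' (s := univ) (t := fun _ => S) (t' := S) (s' := fun _ => univ)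
      (by simp)]
    refine Finset.sum_congr rfl fun x _ => ?_
    rw [Finset.sum_comm' (s := univ) (t := fun _ => Y) (t' := Y) (s' := fun _ => univ)
      (by simp)]
  rw [this, Finset.sum_div]
  refine Finset.sum_congr rfl fun w _ => ?_
  rw [div_mul_div_comm]

/-- Cauchy-Schwarz `K(S,Y)² ≤ K(S,S) K(Y,Y)` -/
theorem K_cs (hn : 0 < n) (S Y : Finset G) :
    K A n S Y ^ 2 ≤ K A n S S * K A n Y Y := by
  rw [K_eq_inner, K_eq_inner, K_eq_inner, mul_pow]
  have h := Finset.sum_mul_sq_le_sq_mul_sq (univ : Finset G) (kv A S) (kv A Y)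
  calc (n / (#A : ℝ) ^ 2) ^ 2 * (∑ w : G, kv A S w * kv A Y w) ^ 2
      ≤ (n / (#A : ℝ) ^ 2) ^ 2 * ((∑ w : G, kv A S w ^ 2) * (∑ w : G, kv A Y w ^ 2)) := by
        gcongr
    _ = _ := by
        simp_rw [← sq]
        ring

/-- Cauchy-Schwarz for the difference `k_{S₁} - k_S` -/
theorem K_cs_sub (hn : 0 < n) (S₁ S Y : Finset G) :
    (K A n S₁ Y - K A n S Y) ^ 2 ≤
      (K A n S₁ S₁ - 2 * K A n S₁ S + K A n S S) * K A n Y Y := by
  simp only [K_eq_inner]
  have h := Finset.sum_mul_sq_le_sq_mul_sq (univ : Finset G)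
    (fun w => kv A S₁ w - kv A S w) (kv A Y)
  have e1 : ∑ w : G, (kv A S₁ w - kv A S w) * kv A Y w =
      (∑ w : G, kv A S₁ w * kv A Y w) - ∑ w : G, kv A S w * kv A Y w := by
    rw [← Finset.sum_sub_distrib]
    exact Finset.sum_congr rfl fun w _ => by ring
  have e2 : ∑ w : G, (kv A S₁ w - kv A S w) ^ 2 =
      (∑ w : G, kv A S₁ w * kv A S₁ w) - 2 * (∑ w : G, kv A S₁ w * kv A S w) +
        ∑ w : G, kv A S w * kv A S w := by
    rw [Finset.mul_sum, ← Finset.sum_sub_distrib, ← Finset.sum_add_distrib]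
    exact Finset.sum_congr rfl fun w _ => by ring
  have e3 : ∑ w : G, kv A Y w ^ 2 = ∑ w : G, kv A Y w * kv A Y w :=
    Finset.sum_congr rfl fun w _ => by ring
  rw [e1, e2, e3] at h
  calc (n / (#A : ℝ) ^ 2 * (∑ w : G, kv A S₁ w * kv A Y w) -
        n / (#A : ℝ) ^ 2 * (∑ w : G, kv A S w * kv A Y w)) ^ 2
      = (n / (#A : ℝ) ^ 2) ^ 2 * ((∑ w : G, kv A S₁ w * kv A Y w) -
        ∑ w : G, kv A S w * kv A Y w) ^ 2 := by ring
    _ ≤ (n / (#A : ℝ) ^ 2) ^ 2 * (((∑ w : G, kv A S₁ w * kv A S₁ w) -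
        2 * (∑ w : G, kv A S₁ w * kv A S w) +
        ∑ w : G, kv A S w * kv A S w) * ∑ w : G, kv A Y w * kv A Y w) := by gcongr
    _ = _ := by ring

/-- `|S₁||Y₁| K = ∑∑ X` (also for empty sets) -/
theorem card_mul_K (S Y : Finset G) :
    (#S * #Y : ℝ) * K A n S Y = ∑ x ∈ S, ∑ y ∈ Y, X A n x y := by
  unfold K
  rcases S.eq_empty_or_nonempty with rfl | hS
  · simp
  rcases Y.eq_empty_or_nonempty with rfl | hY
  · simp
  have h1 : (0 : ℝ) < #S := by exact_mod_cast hS.card_pos
  have h2 : (0 : ℝ) < #Y := by exact_mod_cast hY.card_pos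
  field_simp

theorem Phi_zero (S Y : Finset G) (hS : S.Nonempty) (hY : Y.Nonempty) :
    Phi A n S Y 0 = 1 := by
  unfold Phi
  have h1 : (0 : ℝ) < #S := by exact_mod_cast hS.card_pos
  have h2 : (0 : ℝ) < #Y := by exact_mod_cast hY.card_pos
  simp only [pow_zero, sum_const, nsmul_eq_mul, mul_one]
  field_simp

theorem Phi_one (S Y : Finset G) : Phi A n S Y 1 = K A n S Y := by
  unfold Phi K; simp

theorem Phi_nonneg (hn : 0 < n) (S Y : Finset G) (j : ℕ) : 0 ≤ Phi A n S Y j := by
  unfold Phi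
  apply div_nonneg _ (by positivity)
  exact Finset.sum_nonneg fun x _ => Finset.sum_nonneg fun y _ =>
    pow_nonneg (X_nonneg A n hn x y) j

/-- `K S Y` as the average over `Y` of `K S {y}` -/
theorem K_eq_avg_right (S Y : Finset G) :
    K A n S Y = (∑ y ∈ Y, K A n S {y}) / #Y := by
  rcases S.eq_empty_or_nonempty with rfl | hS
  · simp [K]
  have h1 : (0 : ℝ) < #S := by exact_mod_cast hS.card_pos
  unfold K
  simp only [sum_singleton, card_singleton, Nat.cast_one, mul_one]
  rw [← Finset.sum_div, Finset.sum_comm, div_div]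

end R3
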