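import Pool.Agent.MP_0f71ae_nt.R3.Defs

/-!
# [R3] Bohr sets (section 1 of R3_FIFTH.md)
-/

set_option linter.unusedSectionVars false

open Finset

namespace R3

variable {G : Type*} [AddCommGroup G] [Fintype G] [DecidableEq G]
variable {Γ : Finset (AddChar G ℂ)} {ρ ρ' : ℝ} {x y : G}

theorem mem_bohr : x ∈ bohr Γ ρ ↔ ∀ γ ∈ Γ, ‖γ x - 1‖ ≤ ρ := by
  simp [bohr]

theorem zero_mem_bohr (hρ : 0 ≤ ρ) : (0 : G) ∈ bohr Γ ρ := by
  rw [mem_bohr]; intro γ _; simpa using hρ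

theorem bohr_nonempty (hρ : 0 ≤ ρ) : (bohr (G := G) Γ ρ).Nonempty := ⟨0, zero_mem_bohr hρ⟩

theorem bohr_card_pos (hρ : 0 ≤ ρ) : (0 : ℝ) < #(bohr (G := G) Γ ρ) := by
  exact_mod_cast (bohr_nonempty hρ).card_pos

theorem bohr_mono (h : ρ ≤ ρ') : bohr (G := G) Γ ρ ⊆ bohr Γ ρ' := by
  intro x hx
  rw [mem_bohr] at hx ⊢
  exact fun γ hγ => (hx γ hγ).trans h

theorem bohr_anti {Γ' : Finset (AddChar G ℂ)} (h : Γ ⊆ Γ') : bohr Γ' ρ ⊆ bohr Γ ρ := by
  intro x hx
  rw [mem_bohr] at hx ⊢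
  exact fun γ hγ => hx γ (h hγ)

theorem norm_char_sub (γ : AddChar G ℂ) (x y : G) : ‖γ (x - y) - 1‖ = ‖γ x - γ y‖ := by
  have h : γ x = γ (x - y) * γ y := by rw [← AddChar.map_add_eq_mul]; congr 1; abel
  have h2 : γ x - γ y = (γ (x - y) - 1) * γ y := by rw [h]; ring
  rw [h2, norm_mul, AddChar.norm_apply, mul_one]

theorem neg_mem_bohr (hx : x ∈ bohr Γ ρ) : -x ∈ bohr Γ ρ := by
  rw [mem_bohr] at hx ⊢
  intro γ hγ
  have h := norm_char_sub γ 0 x
  rw [zero_sub] at h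
  rw [h, AddChar.map_zero_eq_one, norm_sub_rev]
  exact hx γ hγ

theorem add_mem_bohr (hx : x ∈ bohr Γ ρ) (hy : y ∈ bohr Γ ρ') : x + y ∈ bohr Γ (ρ + ρ') := by
  rw [mem_bohr] at hx hy ⊢
  intro γ hγ
  have h : γ (x + y) - 1 = (γ x - 1) * γ y + (γ y - 1) := by
    rw [AddChar.map_add_eq_mul]; ring
  rw [h]
  calc ‖(γ x - 1) * γ y + (γ y - 1)‖ ≤ ‖(γ x - 1) * γ y‖ + ‖γ y - 1‖ := norm_add_le _ _
    _ = ‖γ x - 1‖ + ‖γ y - 1‖ := by rw [norm_mul, AddChar.norm_apply, mul_one]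
    _ ≤ ρ + ρ' := add_le_add (hx γ hγ) (hy γ hγ)

theorem sub_mem_bohr (hx : x ∈ bohr Γ ρ) (hy : y ∈ bohr Γ ρ') : x - y ∈ bohr Γ (ρ + ρ') := by
  rw [sub_eq_add_neg]; exact add_mem_bohr hx (neg_mem_bohr hy)

theorem bohr_two (hρ : 2 ≤ ρ) : bohr (G := G) Γ ρ = univ := by
  ext x
  simp only [mem_bohr, mem_univ, iff_true]
  intro γ _
  calc ‖γ x - 1‖ ≤ ‖γ x‖ + ‖(1 : ℂ)‖ := norm_sub_le _ _
    _ = 2 := by rw [AddChar.norm_apply]; norm_num
    _ ≤ ρ := hρ

/-- the floor cell of a complex number relative to the mesh `ρ/2` -/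
noncomputable def cell (ρ : ℝ) (z : ℂ) : ℤ × ℤ := (⌊2 * z.re / ρ⌋, ⌊2 * z.im / ρ⌋)

theorem cell_mem (hρ : 0 < ρ) (z : ℂ) (hz : ‖z‖ ≤ 2 * ρ) :
    cell ρ z ∈ (Finset.Icc (-4 : ℤ) 4) ×ˢ (Finset.Icc (-4 : ℤ) 4) := by
  have h1 := (abs_le.1 ((Complex.abs_re_le_norm z).trans hz))
  have h2 := (abs_le.1 ((Complex.abs_im_le_norm z).trans hz))
  simp only [cell, mem_product, Finset.mem_Icc]
  refine ⟨⟨?_, ?_⟩, ?_, ?_⟩
  · rw [Int.le_floor]; push_cast; rw [le_div_iff₀ hρ]; linarith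
  · rw [Int.floor_le_iff]; push_cast; rw [div_lt_iff₀ hρ]; linarith
  · rw [Int.le_floor]; push_cast; rw [le_div_iff₀ hρ]; linarith
  · rw [Int.floor_le_iff]; push_cast; rw [div_lt_iff₀ hρ]; linarith

theorem cell_eq (hρ : 0 < ρ) (z w : ℂ) (h : cell ρ z = cell ρ w) : ‖z - w‖ ≤ ρ := by
  simp only [cell, Prod.mk.injEq] at h
  obtain ⟨h1, h2⟩ := h
  have a1 := Int.floor_le (2 * z.re / ρ)
  have a2 := Int.lt_floor_add_one (2 * z.re / ρ)
  have b1 := Int.floor_le (2 * w.re / ρ)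
  have b2 := Int.lt_floor_add_one (2 * w.re / ρ)
  have c1 := Int.floor_le (2 * z.im / ρ)
  have c2 := Int.lt_floor_add_one (2 * z.im / ρ)
  have d1 := Int.floor_le (2 * w.im / ρ)
  have d2 := Int.lt_floor_add_one (2 * w.im / ρ)
  rw [h1] at a1 a2
  rw [h2] at c1 c2
  have e1 : |2 * z.re / ρ - 2 * w.re / ρ| ≤ 1 := by rw [abs_le]; constructor <;> linarith
  have e2 : |2 * z.im / ρ - 2 * w.im / ρ| ≤ 1 := by rw [abs_le]; constructor <;> linarith
  have f1 : |(z - w).re| ≤ ρ / 2 := by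
    have : 2 * z.re / ρ - 2 * w.re / ρ = (z - w).re * (2 / ρ) := by
      simp only [Complex.sub_re]; ring
    rw [this, abs_mul, abs_of_pos (by positivity : (0 : ℝ) < 2 / ρ), mul_div_assoc',
      div_le_one hρ] at e1
    linarith
  have f2 : |(z - w).im| ≤ ρ / 2 := by
    have : 2 * z.im / ρ - 2 * w.im / ρ = (z - w).im * (2 / ρ) := by
      simp only [Complex.sub_im]; ring
    rw [this, abs_mul, abs_of_pos (by positivity : (0 : ℝ) < 2 / ρ), mul_div_assoc',
      div_le_one hρ] at e2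
    linarith
  calc ‖z - w‖ ≤ |(z - w).re| + |(z - w).im| := Complex.norm_le_abs_re_add_abs_im _
    _ ≤ ρ := by linarith

/-- 1.1 doubling -/
theorem bohr_doubling (Γ : Finset (AddChar G ℂ)) (hρ : 0 < ρ) :
    #(bohr (G := G) Γ (2 * ρ)) ≤ 81 ^ #Γ * #(bohr Γ ρ) := by
  classical
  set F : G → (AddChar G ℂ → ℤ × ℤ) := fun x γ => if γ ∈ Γ then cell ρ (γ x - 1) else (0, 0)
    with hF
  set T : Finset (AddChar G ℂ → ℤ × ℤ) := Fintype.piFinset (fun γ =>
    if γ ∈ Γ then (Finset.Icc (-4 : ℤ) 4) ×ˢ (Finset.Icc (-4 : ℤ) 4) else {(0, 0)}) with hT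
  have hTc : #T = 81 ^ #Γ := by
    rw [hT, Fintype.card_piFinset]
    have : ∀ γ : AddChar G ℂ, #(if γ ∈ Γ then (Finset.Icc (-4 : ℤ) 4) ×ˢ (Finset.Icc (-4 : ℤ) 4)
        else {(0, 0)}) = if γ ∈ Γ then 81 else 1 := by
      intro γ
      split_ifs
      · simp
      · simp
    simp_rw [this]
    rw [Finset.prod_ite]
    simp
  rw [← hTc]
  have hmaps : ∀ x ∈ bohr (G := G) Γ (2 * ρ), F x ∈ T := by
    intro x hx
    rw [mem_bohr] at hx
    rw [hT, Fintype.mem_piFinset]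
    intro γ
    by_cases hγ : γ ∈ Γ
    · simp only [hF, hγ, if_true]
      exact cell_mem hρ _ (hx γ hγ)
    · simp [hF, hγ]
  rw [mul_comm (#T)]
  apply Finset.card_le_mul_card_image_of_maps_to hmaps
  intro c _
  rcases (filter (fun x => F x = c) (bohr (G := G) Γ (2 * ρ))).eq_empty_or_nonempty with h | h
  · rw [h]; simp
  · obtain ⟨y, hy⟩ := h
    apply Finset.card_le_card_of_injOn (fun x => x - y)
    · intro x hx
      simp only [coe_filter, Set.mem_ofPred_eq] at hx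
      rw [mem_filter] at hy
      rw [mem_coe, mem_bohr]
      intro γ hγ
      rw [norm_char_sub]
      have h1 : F x γ = F y γ := by rw [hx.2, hy.2]
      simp only [hF, hγ, if_true] at h1
      have := cell_eq hρ _ _ h1
      simpa using this
    · intro a _ b _ hab
      simpa using hab

theorem bohr_size_pow (Γ : Finset (AddChar G ℂ)) (j : ℕ) :
    Fintype.card G ≤ 81 ^ (#Γ * j) * #(bohr (G := G) Γ (2 / 2 ^ j)) := by
  induction j with
  | zero => rw [bohr_two (by norm_num)]; simp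
  | succ j ih =>
    have h := bohr_doubling (G := G) Γ (ρ := 2 / 2 ^ (j + 1)) (by positivity)
    have e : 2 * (2 / 2 ^ (j + 1)) = (2 / 2 ^ j : ℝ) := by rw [pow_succ]; field_simp
    rw [e] at h
    calc Fintype.card G ≤ 81 ^ (#Γ * j) * #(bohr (G := G) Γ (2 / 2 ^ j)) := ih
      _ ≤ 81 ^ (#Γ * j) * (81 ^ #Γ * #(bohr Γ (2 / 2 ^ (j + 1)))) := Nat.mul_le_mul_left _ h
      _ = _ := by rw [← mul_assoc, ← pow_add]; ring_nf

/-- the size of a Bohr set, in the form used at the end -/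
theorem bohr_size (Γ : Finset (AddChar G ℂ)) (j : ℕ) (hj : 2 ≤ ρ * 2 ^ j) :
    (Fintype.card G : ℝ) ≤ 81 ^ (#Γ * j) * #(bohr (G := G) Γ ρ) := by
  have h1 : (2 : ℝ) / 2 ^ j ≤ ρ := by
    rw [div_le_iff₀ (by positivity)]; exact hj
  have h2 : (Fintype.card G : ℝ) ≤ 81 ^ (#Γ * j) * #(bohr (G := G) Γ (2 / 2 ^ j)) := by
    exact_mod_cast bohr_size_pow Γ j
  have h3 : (#(bohr (G := G) Γ (2 / 2 ^ j)) : ℝ) ≤ #(bohr (G := G) Γ ρ) := by
    exact_mod_cast Finset.card_le_card (bohr_mono h1)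
  exact h2.trans (by gcongr)

/-- 1.2 growth lemma (pigeonhole) -/
theorem bohr_growth (Γ : Finset (AddChar G ℂ)) (D η : ℝ) (hD : 1 ≤ D) (hΓ : (#Γ : ℝ) ≤ D)
    (hη : 0 < η) (hη1 : η ≤ 1) (r : ℝ) (hr : 0 < r) :
    ∃ r', r / 2 ≤ r' ∧ r' ≤ r ∧
      (#(bohr (G := G) Γ ((1 + η / (20 * D)) * r')) : ℝ) ≤ (1 + η) * #(bohr (G := G) Γ r') := by
  set κ : ℝ := η / (20 * D) with hκ
  have hκ0 : 0 < κ := by positivity
  have hκ1 : κ ≤ 1 / 20 := by
    rw [hκ, div_le_iff₀ (by positivity)]; nlinarith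
  have hlog : Real.log (1 + κ) ≤ κ := by
    have := Real.log_le_sub_one_of_pos (show 0 < 1 + κ by linarith); linarith
  have hlogpos : 0 < Real.log (1 + κ) := Real.log_pos (by linarith)
  set J : ℕ := ⌊Real.log 2 / Real.log (1 + κ)⌋₊ with hJ
  have hJ1 : (J : ℝ) * Real.log (1 + κ) ≤ Real.log 2 := by
    have := Nat.floor_le (show 0 ≤ Real.log 2 / Real.log (1 + κ) by positivity)
    rw [← hJ] at this
    rwa [le_div_iff₀ hlogpos] at this
  have hJ2 : Real.log 2 / κ - 1 ≤ J := by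
    have := (Nat.lt_floor_add_one (Real.log 2 / Real.log (1 + κ))).le
    rw [← hJ] at this
    have h2 : Real.log 2 / κ ≤ Real.log 2 / Real.log (1 + κ) := by
      apply div_le_div_of_nonneg_left (Real.log_nonneg (by norm_num)) hlogpos hlog
    linarith
  have hl2 := Real.log_two_gt_d9
  have hJ3 : 12 * D / η ≤ J := by
    have h1 : Real.log 2 / κ = 20 * Real.log 2 * (D / η) := by
      rw [hκ]; field_simp
    have h2 : 1 ≤ D / η := by rw [le_div_iff₀ hη]; linarith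
    have h3 : 12 * D / η = 12 * (D / η) := by ring
    rw [h1] at hJ2
    rw [h3]
    nlinarith
  by_contra hcon
  push Not at hcon
  have hpow : ((1 + κ) ^ J : ℝ) ≤ 2 := by
    rw [← Real.log_le_log_iff (by positivity) (by norm_num), Real.log_pow]
    exact hJ1
  have hstep : ∀ j ≤ J, (1 + η) ^ j * #(bohr (G := G) Γ (r / 2)) ≤
      (#(bohr (G := G) Γ ((1 + κ) ^ j * (r / 2))) : ℝ) := by
    intro j
    induction j with
    | zero => intro _; simp
    | succ j ih =>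
      intro hj
      have ih' := ih (by omega)
      have hj1 : (1 + κ) ^ j ≤ (1 + κ) ^ J :=
        pow_le_pow_right₀ (by linarith) (by omega)
      have h1 : r / 2 ≤ (1 + κ) ^ j * (r / 2) := by
        have : (1 : ℝ) ≤ (1 + κ) ^ j := one_le_pow₀ (by linarith)
        nlinarith
      have h2 : (1 + κ) ^ j * (r / 2) ≤ r := by nlinarith
      have h3 := hcon _ h1 h2
      have e : (1 + κ) * ((1 + κ) ^ j * (r / 2)) = (1 + κ) ^ (j + 1) * (r / 2) := by ring
      rw [e] at h3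
      calc (1 + η) ^ (j + 1) * #(bohr (G := G) Γ (r / 2))
          = (1 + η) * ((1 + η) ^ j * #(bohr (G := G) Γ (r / 2))) := by ring
        _ ≤ (1 + η) * #(bohr (G := G) Γ ((1 + κ) ^ j * (r / 2))) := by gcongr
        _ ≤ _ := h3.le
  have hJJ := hstep J le_rfl
  have hle : (#(bohr (G := G) Γ ((1 + κ) ^ J * (r / 2))) : ℝ) ≤ #(bohr (G := G) Γ r) := by
    exact_mod_cast Finset.card_le_card (bohr_mono (by nlinarith))
  have hdb : (#(bohr (G := G) Γ r) : ℝ) ≤ 81 ^ #Γ * #(bohr (G := G) Γ (r / 2)) := by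
    have := bohr_doubling (G := G) Γ (ρ := r / 2) (by positivity)
    rw [mul_div_cancel₀ r (two_ne_zero)] at this
    exact_mod_cast this
  have hpos : (0 : ℝ) < #(bohr (G := G) Γ (r / 2)) := bohr_card_pos (by positivity)
  have h5 : (1 + η) ^ J ≤ (81 : ℝ) ^ #Γ := by
    have := (hJJ.trans hle).trans hdb
    exact le_of_mul_le_mul_right this hpos
  have h6 : (J : ℝ) * Real.log (1 + η) ≤ #Γ * Real.log 81 := by
    have := Real.log_le_log (by positivity) h5
    rwa [Real.log_pow, Real.log_pow] at this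
  have h7 : η * Real.log 2 ≤ Real.log (1 + η) := by
    -- concavity of log
    have hc := (strictConcaveOn_log_Ioi.concaveOn).2 (show (1 : ℝ) ∈ Set.Ioi 0 by simp)
      (show (2 : ℝ) ∈ Set.Ioi 0 by simp) (show 0 ≤ 1 - η by linarith) hη.le (by ring)
    simp only [smul_eq_mul, Real.log_one, mul_zero, zero_add, mul_one] at hc
    have e : 1 - η + η * 2 = 1 + η := by ring
    rwa [e] at hc
  have h8 : Real.log 81 < 8 := by
    have : Real.log 81 = 4 * Real.log 3 := by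
      rw [show (81 : ℝ) = 3 ^ 4 by norm_num, Real.log_pow]; norm_num
    have h3 : Real.log 3 < 2 := by
      rw [Real.log_lt_iff_lt_exp (by norm_num)]
      have := Real.add_one_lt_exp (show (2 : ℝ) ≠ 0 by norm_num)
      have h1 := Real.exp_one_gt_d9
      have : Real.exp 2 = Real.exp 1 * Real.exp 1 := by rw [← Real.exp_add]; norm_num
      rw [this]; nlinarith
    linarith
  have h9 : (J : ℝ) * (η * Real.log 2) ≤ D * Real.log 81 := by
    calc (J : ℝ) * (η * Real.log 2) ≤ J * Real.log (1 + η) := by gcongr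
      _ ≤ #Γ * Real.log 81 := h6
      _ ≤ D * Real.log 81 := by gcongr
  have h10 : 12 * D * Real.log 2 ≤ J * (η * Real.log 2) := by
    have h11 : 12 * D ≤ J * η := by rwa [div_le_iff₀ hη] at hJ3
    have h12 : 0 ≤ Real.log 2 := Real.log_nonneg (by norm_num)
    nlinarith
  nlinarith

/-! ### halving -/

/-- the halving homomorphism of a finite abelian group of odd order -/
noncomputable def halfHom (G : Type*) [AddCommGroup G] [Fintype G] : G →+ G :=
  nsmulAddMonoidHom ((Fintype.card G + 1) / 2)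

theorem halfHom_add_self (hodd : Odd (Fintype.card G)) (x : G) : halfHom G (x + x) = x := by
  obtain ⟨k, hk⟩ := hodd
  unfold halfHom
  rw [nsmulAddMonoidHom_apply]
  have : (Fintype.card G + 1) / 2 = k + 1 := by omega
  rw [this, ← two_nsmul, ← mul_nsmul', show (k + 1) * 2 = Fintype.card G + 1 by omega,
    add_nsmul, one_nsmul, card_nsmul_eq_zero, zero_add]

theorem add_self_halfHom (hodd : Odd (Fintype.card G)) (x : G) :
    halfHom G x + halfHom G x = x := by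
  rw [← map_add, halfHom_add_self hodd]

/-- the frequencies `γ(·/2)` -/
noncomputable def half (Γ : Finset (AddChar G ℂ)) : Finset (AddChar G ℂ) := by
  classical
  exact Γ.image (fun γ => γ.compAddMonoidHom (halfHom G))

theorem card_half_le (Γ : Finset (AddChar G ℂ)) : #(half Γ) ≤ #Γ := by
  classical
  unfold half; exact Finset.card_image_le

theorem mem_bohr_half : x ∈ bohr (half Γ) ρ ↔ halfHom G x ∈ bohr Γ ρ := by
  classical
  rw [mem_bohr, mem_bohr]
  unfold half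
  simp [AddChar.compAddMonoidHom_apply]

theorem add_self_mem_bohr_half (hodd : Odd (Fintype.card G)) (hx : x ∈ bohr Γ ρ) :
    x + x ∈ bohr (half Γ) ρ := by
  rw [mem_bohr_half, halfHom_add_self hodd]; exact hx

theorem bohr_half_subset (hodd : Odd (Fintype.card G)) (Γ : Finset (AddChar G ℂ)) (ρ : ℝ) :
    bohr (half Γ) ρ ⊆ bohr Γ (2 * ρ) := by
  intro x hx
  rw [mem_bohr_half] at hx
  have := add_mem_bohr hx hx
  rw [add_self_halfHom hodd, ← two_mul] at this
  exact this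

theorem bohr_half_eq_image (hodd : Odd (Fintype.card G)) (Γ : Finset (AddChar G ℂ)) (ρ : ℝ) :
    bohr (half Γ) ρ = (bohr Γ ρ).image (fun x => x + x) := by
  ext x
  rw [mem_image]
  constructor
  · intro hx
    exact ⟨halfHom G x, mem_bohr_half.1 hx, add_self_halfHom hodd x⟩
  · rintro ⟨y, hy, rfl⟩
    exact add_self_mem_bohr_half hodd hy

theorem card_bohr_half (hodd : Odd (Fintype.card G)) (Γ : Finset (AddChar G ℂ)) (ρ : ℝ) :
    #(bohr (half Γ) ρ) = #(bohr Γ ρ) := by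
  rw [bohr_half_eq_image hodd]
  apply Finset.card_image_of_injective
  intro a b hab
  have := congrArg (halfHom G) hab
  simp only [halfHom_add_self hodd] at this
  exact this

/-! ### density and regularity -/

/-- some translate of the Bohr set contains `A` with relative density at least `a` -/
def Dens (A : Finset G) (Γ : Finset (AddChar G ℂ)) (ρ a : ℝ) : Prop :=
  ∃ x : G, a * #(bohr (G := G) Γ ρ) ≤ #((bohr (G := G) Γ ρ).filter (fun y => x + y ∈ A))

/-- regularity of the radius `ρ` (with the fixed parameter `D`, an upper bound for all ranks) -/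
def Reg (D : ℝ) (Γ : Finset (AddChar G ℂ)) (ρ : ℝ) : Prop :=
  (#(bohr (G := G) Γ ((1 + 1 / (40000 * D)) * ρ)) : ℝ) ≤ (1 + 1 / 1000) * #(bohr (G := G) Γ ρ)

/-- growth with double room: `Reg` for every radius in `[r', (1 + 1/(40000 D)) r']` -/
theorem reg_of_growth {D : ℝ} {r' s : ℝ}
    (h : (#(bohr (G := G) Γ ((1 + 1 / (20000 * D)) * r')) : ℝ) ≤
      (1 + 1 / 1000) * #(bohr (G := G) Γ r')) (h1 : r' ≤ s)
    (h2 : (1 + 1 / (40000 * D)) * s ≤ (1 + 1 / (20000 * D)) * r') : Reg D Γ s := by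
  unfold Reg
  have a1 : (#(bohr (G := G) Γ ((1 + 1 / (40000 * D)) * s)) : ℝ) ≤
      #(bohr (G := G) Γ ((1 + 1 / (20000 * D)) * r')) := by
    exact_mod_cast Finset.card_le_card (bohr_mono h2)
  have a2 : (#(bohr (G := G) Γ r') : ℝ) ≤ #(bohr (G := G) Γ s) := by
    exact_mod_cast Finset.card_le_card (bohr_mono h1)
  calc _ ≤ _ := a1
    _ ≤ _ := h
    _ ≤ _ := by gcongr

/-- existence of a regular radius in `[r/2, r]` -/
theorem exists_reg {D : ℝ} (hD : 1 ≤ D) (Γ : Finset (AddChar G ℂ)) (hΓ : (#Γ : ℝ) ≤ D) (r : ℝ)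
    (hr : 0 < r) : ∃ r', r / 2 ≤ r' ∧ r' ≤ r ∧ Reg D Γ r' ∧
      (#(bohr (G := G) Γ ((1 + 1 / (20000 * D)) * r')) : ℝ) ≤
        (1 + 1 / 1000) * #(bohr (G := G) Γ r') := by
  obtain ⟨r', h1, h2, h3⟩ := bohr_growth Γ D (1 / 1000) hD hΓ (by norm_num) (by norm_num) r hr
  have e : (1 : ℝ) / 1000 / (20 * D) = 1 / (20000 * D) := by
    have : D ≠ 0 := by positivity
    field_simp; norm_num
  rw [e] at h3
  refine ⟨r', h1, h2, reg_of_growth h3 le_rfl ?_, h3⟩
  have : (1 : ℝ) / (40000 * D) ≤ 1 / (20000 * D) := by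
    apply one_div_le_one_div_of_le (by positivity); nlinarith
  have hr' : 0 < r' := by linarith
  nlinarith

end R3
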