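import Pool.Agent.MP_0f71ae_nt.R3.Riesz

/-!
# [R3] 6.2: free sets of characters in the spectrum are small
-/

set_option linter.unusedSectionVars false

open Finset

namespace R3

variable {G : Type*} [AddCommGroup G] [Fintype G] [DecidableEq G]

/-- `exp (s u) ≤ cosh s + u sinh s` for `|u| ≤ 1` -/
theorem h2b_exp_le (s u : ℝ) (h1 : -1 ≤ u) (h2 : u ≤ 1) :
    Real.exp (s * u) ≤ Real.cosh s + Real.sinh s * u := by
  have h := convexOn_exp.2 (Set.mem_univ s) (Set.mem_univ (-s))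
    (show 0 ≤ (1 + u) / 2 by linarith) (show 0 ≤ (1 - u) / 2 by linarith) (by ring)
  simp only [smul_eq_mul] at h
  have e1 : (1 + u) / 2 * s + (1 - u) / 2 * -s = s * u := by ring
  rw [e1] at h
  refine h.trans (le_of_eq ?_)
  rw [Real.cosh_eq, Real.sinh_eq]
  ring

theorem h2b_jensen (T : Finset G) (hT : T.Nonempty) (U : G → ℝ) :
    (#T : ℝ) * Real.exp ((∑ x ∈ T, U x) / #T) ≤ ∑ x ∈ T, Real.exp (U x) := by
  have h0 : (0 : ℝ) < #T := by exact_mod_cast hT.card_pos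
  set m := (∑ x ∈ T, U x) / #T with hm
  have h1 : ∀ x ∈ T, Real.exp m * (1 + (U x - m)) ≤ Real.exp (U x) := by
    intro x _
    have h2 := Real.add_one_le_exp (U x - m)
    have h3 : Real.exp (U x) = Real.exp m * Real.exp (U x - m) := by
      rw [← Real.exp_add]; congr 1; ring
    rw [h3]
    apply mul_le_mul_of_nonneg_left _ (Real.exp_pos m).le
    linarith
  have h2 := Finset.sum_le_sum h1
  rw [← Finset.mul_sum, Finset.sum_add_distrib, Finset.sum_sub_distrib] at h2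
  simp only [sum_const, nsmul_eq_mul, mul_one] at h2
  have h3 : (∑ x ∈ T, U x) = #T * m := by
    rw [hm]; field_simp
  rw [h3] at h2
  calc (#T : ℝ) * Real.exp m = Real.exp m * (#T + (#T * m - #T * m)) := by ring
    _ ≤ _ := h2

/-- [R3-H2b] Free sets of characters in the spectrum are small.
Proof. `s₀ = 1/√2`, `c = cosh s₀`, `s = sinh s₀`, choose `ω_ξ` with `ω_ξ ft T ξ = ‖ft T ξ‖ ≥ 1/√2`,
`‖ω_ξ‖ = 1`.  Put `k = |Λ|`.  By Jensen (`exp` convex: `Real.exp` `ConvexOn.map_sum_le`, or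
`exp u ≥ exp m (1 + u - m)`), `avg_{x∈T} exp(s₀ ∑_{ξ∈Λ} Re ω_ξ ξ(x)) ≥ exp(s₀ ∑ ‖ft T ξ‖) ≥ exp(k/2)`.
`exp(s₀ u) ≤ c + s u` for `|u| ≤ 1` (convexity), `1/|T| ≤ e^M/|B| ≤ e^M β(x)` on `T ⊆ B`, so the left
side is `≤ e^M ∑_x β(x) ∏ (c + s Re ω_ξ ξ(x)) ≤ e^M (2 c^k + 2·2^{-N} (c+s)^k)` by `riesz_bound` with
`b = 2·2^{-N}` (each factor `c + s Re(..) ≥ c - s > 0`).  `c ≤ e^{s₀²/2} = e^{1/4}`
(`Real.cosh_le_exp_half_sq`), `(c+s)^k 2^{-N} = e^{s₀ k} 2^{-N} ≤ 1` as `N ≥ 3k`, `log 2 > 0.69`,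
`s₀ < 0.75`.  So `e^{k/2} ≤ 4 e^{M + k/4}`, `k ≤ 4M + 4 log 4 ≤ 4(M+2)`. -/
theorem free_card (B₅ B T : Finset G) (hT : T.Nonempty) (hTB : T ⊆ B) (M : ℝ)
    (hM : Real.exp (-M) * #B ≤ #T) (Λ : Finset (AddChar G ℂ)) (hΛ : Λ ⊆ Spec T)
    (hfree : Free B₅ Λ) (N : ℕ) (hN : 3 * #Λ ≤ N) (β : G → ℝ) (hβ : ∀ x, 0 ≤ β x)
    (hβB : ∀ x ∈ B, 1 / #B ≤ β x) (hβ2 : ∑ x, β x ≤ 2)
    (hβf : ∀ θ : AddChar G ℂ, ‖∑ x, (β x : ℂ) * θ x‖ ≤ 2 * ‖ft B₅ θ‖ ^ N) :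
    (#Λ : ℝ) ≤ 4 * (M + 2) := by
  have hT0 : (0 : ℝ) < #T := by exact_mod_cast hT.card_pos
  have hB0 : (0 : ℝ) < #B := by exact_mod_cast (hT.mono hTB).card_pos
  set k := #Λ with hk
  set s0 : ℝ := Real.sqrt (1 / 2) with hs0
  have hs0sq : s0 ^ 2 = 1 / 2 := Real.sq_sqrt (by norm_num)
  have hs0nn : 0 ≤ s0 := Real.sqrt_nonneg _
  have hs0lt : s0 ≤ 1 := by nlinarith
  have hc : 0 ≤ Real.cosh s0 := (Real.cosh_pos s0).le
  have hs : 0 ≤ Real.sinh s0 := Real.sinh_nonneg_iff.2 hs0nn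
  have hft : ∀ ξ ∈ Λ, s0 ≤ ‖ft T ξ‖ := by
    intro ξ hξ
    have h1 := hΛ hξ
    unfold Spec at h1
    simp only [mem_filter, mem_univ, true_and] at h1
    rw [hs0]
    exact Real.sqrt_le_iff.2 ⟨norm_nonneg _, h1⟩
  -- the phases
  set ω : AddChar G ℂ → ℂ := fun ξ => (starRingEnd ℂ) (ft T ξ) / ‖ft T ξ‖ with hω
  have hω1 : ∀ ξ, ‖ω ξ‖ ≤ 1 := by
    intro ξ
    rw [hω]
    simp only [norm_div, RCLike.norm_conj, Complex.norm_real, norm_norm]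
    exact div_self_le_one _
  have hω2 : ∀ ξ, ω ξ * ft T ξ = (‖ft T ξ‖ : ℂ) := by
    intro ξ
    rw [hω]
    by_cases h0 : ft T ξ = 0
    · simp [h0]
    · have h1 : (‖ft T ξ‖ : ℂ) ≠ 0 := by
        exact_mod_cast norm_ne_zero_iff.2 h0
      simp only
      rw [div_mul_eq_mul_div, div_eq_iff h1, Complex.conj_mul']
      ring
  have hre : ∀ ξ x, -1 ≤ (ω ξ * ξ x).re ∧ (ω ξ * ξ x).re ≤ 1 := by
    intro ξ x
    have h1 : |(ω ξ * ξ x).re| ≤ 1 := by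
      refine (Complex.abs_re_le_norm _).trans ?_
      rw [norm_mul, AddChar.norm_apply, mul_one]
      exact hω1 ξ
    exact abs_le.1 h1
  -- the upper bound
  have hup := riesz_bound Λ β hβ hβ2 (2 * (1 / 2) ^ N) (by positivity) (by
    intro ε h1 h2
    refine (hβf _).trans ?_
    have h3 := hfree ε h1 h2
    apply mul_le_mul_of_nonneg_left _ (by norm_num)
    exact pow_le_pow_left₀ (norm_nonneg _) h3 N) (Real.cosh s0) (Real.sinh s0) hc hs ω hω1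
  rw [Real.cosh_add_sinh] at hup
  -- factors are nonnegative
  have hfac : ∀ ξ x, 0 ≤ Real.cosh s0 + Real.sinh s0 * (ω ξ * ξ x).re := by
    intro ξ x
    have h1 := h2b_exp_le s0 _ (hre ξ x).1 (hre ξ x).2
    exact (Real.exp_pos _).le.trans h1
  -- the lower bound
  have hlow : (#T : ℝ) * Real.exp (k / 2) * (1 / #B) ≤
      ∑ x, β x * ∏ ξ ∈ Λ, (Real.cosh s0 + Real.sinh s0 * (ω ξ * ξ x).re) := by
    have h1 := h2b_jensen T hT (fun x => s0 * ∑ ξ ∈ Λ, (ω ξ * ξ x).re)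
    have h2 : (k : ℝ) / 2 ≤ (∑ x ∈ T, s0 * ∑ ξ ∈ Λ, (ω ξ * ξ x).re) / #T := by
      have h3 : (∑ x ∈ T, s0 * ∑ ξ ∈ Λ, (ω ξ * ξ x).re) / #T = s0 * ∑ ξ ∈ Λ, ‖ft T ξ‖ := by
        rw [← Finset.mul_sum, mul_div_assoc, Finset.sum_comm, Finset.sum_div]
        congr 1
        refine Finset.sum_congr rfl fun ξ _ => ?_
        have h4 : ((‖ft T ξ‖ : ℝ) : ℂ) = ω ξ * ((∑ t ∈ T, ξ t) / #T) := (hω2 ξ).symm
        have h5 : ‖ft T ξ‖ = (ω ξ * ((∑ t ∈ T, ξ t) / #T)).re := by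
          rw [← h4, Complex.ofReal_re]
        rw [h5, ← mul_div_assoc, Finset.mul_sum]
        have h6 : ((∑ i ∈ T, ω ξ * ξ i) / (#T : ℂ)).re = (∑ i ∈ T, ω ξ * ξ i).re / #T := by
          have : ((#T : ℕ) : ℂ) = (((#T : ℕ) : ℝ) : ℂ) := by push_cast; rfl
          rw [this, Complex.div_ofReal_re]
        rw [h6, Complex.re_sum]
      rw [h3]
      have h4 : (k : ℝ) * s0 ≤ ∑ ξ ∈ Λ, ‖ft T ξ‖ := by
        calc (k : ℝ) * s0 = ∑ ξ ∈ Λ, s0 := by simp [hk]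
          _ ≤ _ := Finset.sum_le_sum hft
      calc (k : ℝ) / 2 = s0 * (k * s0) := by
            rw [mul_comm s0, mul_assoc, ← sq, hs0sq]; ring
        _ ≤ _ := mul_le_mul_of_nonneg_left h4 hs0nn
    have h3 : (#T : ℝ) * Real.exp (k / 2) ≤
        ∑ x ∈ T, Real.exp (s0 * ∑ ξ ∈ Λ, (ω ξ * ξ x).re) := by
      refine le_trans ?_ h1
      exact mul_le_mul_of_nonneg_left (Real.exp_le_exp.2 h2) hT0.le
    have h4 : ∀ x : G, Real.exp (s0 * ∑ ξ ∈ Λ, (ω ξ * ξ x).re) ≤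
        ∏ ξ ∈ Λ, (Real.cosh s0 + Real.sinh s0 * (ω ξ * ξ x).re) := by
      intro x
      rw [Finset.mul_sum, Real.exp_sum]
      exact Finset.prod_le_prod (fun ξ _ => (Real.exp_pos _).le)
        (fun ξ _ => h2b_exp_le s0 _ (hre ξ x).1 (hre ξ x).2)
    calc (#T : ℝ) * Real.exp (k / 2) * (1 / #B)
        ≤ (∑ x ∈ T, Real.exp (s0 * ∑ ξ ∈ Λ, (ω ξ * ξ x).re)) * (1 / #B) :=
          mul_le_mul_of_nonneg_right h3 (by positivity)
      _ = ∑ x ∈ T, (1 / #B) * Real.exp (s0 * ∑ ξ ∈ Λ, (ω ξ * ξ x).re) := by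
          rw [Finset.sum_mul]
          exact Finset.sum_congr rfl fun x _ => mul_comm _ _
      _ ≤ ∑ x ∈ T, β x * ∏ ξ ∈ Λ, (Real.cosh s0 + Real.sinh s0 * (ω ξ * ξ x).re) := by
          refine Finset.sum_le_sum fun x hx => ?_
          exact mul_le_mul (hβB x (hTB hx)) (h4 x) (Real.exp_pos _).le (hβ x)
      _ ≤ _ := by
          apply Finset.sum_le_sum_of_subset_of_nonneg (Finset.subset_univ _)
          intro x _ _
          exact mul_nonneg (hβ x) (Finset.prod_nonneg fun ξ _ => hfac ξ x)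
  -- numbers
  have hcosh : Real.cosh s0 ≤ Real.exp (1 / 4) := by
    refine (Real.cosh_le_exp_half_sq s0).trans ?_
    rw [hs0sq]
    apply Real.exp_le_exp.2
    norm_num
  have hck : Real.cosh s0 ^ k ≤ Real.exp (k / 4) := by
    calc Real.cosh s0 ^ k ≤ Real.exp (1 / 4) ^ k := pow_le_pow_left₀ hc hcosh k
      _ = Real.exp (k / 4) := by rw [← Real.exp_nat_mul]; congr 1; ring
  have hsec : (1 / 2 : ℝ) ^ N * Real.exp s0 ^ k ≤ 1 := by
    have h1 : (1 / 2 : ℝ) ^ N ≤ (1 / 2 : ℝ) ^ (3 * k) :=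
      pow_le_pow_of_le_one (by norm_num) (by norm_num) hN
    have h2 : Real.exp s0 ≤ 8 := by
      have h3 : Real.exp s0 ≤ Real.exp 1 := Real.exp_le_exp.2 hs0lt
      have h4 := Real.exp_one_lt_d9
      linarith
    calc (1 / 2 : ℝ) ^ N * Real.exp s0 ^ k ≤ (1 / 2 : ℝ) ^ (3 * k) * 8 ^ k :=
          mul_le_mul h1 (pow_le_pow_left₀ (Real.exp_pos _).le h2 k)
            (pow_nonneg (Real.exp_pos _).le k) (by positivity)
      _ = 1 := by
          rw [pow_mul, ← mul_pow]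
          norm_num
  have hfin : Real.exp (k / 2) * Real.exp (-M) ≤ 4 * Real.exp (k / 4) := by
    have h1 : Real.exp (-M) ≤ #T * (1 / #B) := by
      rw [mul_one_div, le_div_iff₀ hB0]; exact hM
    have h2 : (1 : ℝ) ≤ Real.exp (k / 4) := Real.one_le_exp (by positivity)
    calc Real.exp (k / 2) * Real.exp (-M) ≤ Real.exp (k / 2) * (#T * (1 / #B)) :=
          mul_le_mul_of_nonneg_left h1 (Real.exp_pos _).le
      _ = (#T : ℝ) * Real.exp (k / 2) * (1 / #B) := by ring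
      _ ≤ 2 * Real.cosh s0 ^ k + 2 * (1 / 2) ^ N * Real.exp s0 ^ k := hlow.trans hup
      _ ≤ 2 * Real.exp (k / 4) + 2 * 1 := by
          rw [mul_assoc 2 ((1 / 2 : ℝ) ^ N)]
          apply add_le_add
          · exact mul_le_mul_of_nonneg_left hck (by norm_num)
          · exact mul_le_mul_of_nonneg_left hsec (by norm_num)
      _ ≤ 4 * Real.exp (k / 4) := by linarith
  have h4e : (4 : ℝ) ≤ Real.exp 2 := by
    have h1 := Real.add_one_le_exp (1 : ℝ)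
    have h2 : Real.exp 2 = Real.exp 1 * Real.exp 1 := by rw [← Real.exp_add]; norm_num
    rw [h2]
    nlinarith
  have hfin2 : Real.exp (k / 2 - M) ≤ Real.exp (2 + k / 4) := by
    rw [sub_eq_add_neg, Real.exp_add, Real.exp_add]
    exact hfin.trans (mul_le_mul_of_nonneg_right h4e (Real.exp_pos _).le)
  have h5 := Real.exp_le_exp.1 hfin2
  linarith

end R3
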