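import Pool.Agent.MP_0f71ae_nt.R3.FDefs

/-!
# [R3] 6.2: maximal free sets; characters with large coefficient are almost trivial on small shifts
-/

set_option linter.unusedSectionVars false

open Finset

namespace R3

variable {G : Type*} [AddCommGroup G] [Fintype G] [DecidableEq G]

theorem h3_ft_inv (T : Finset G) (θ : AddChar G ℂ) : ‖ft T θ⁻¹‖ = ‖ft T θ‖ := by
  have h : ft T θ⁻¹ = (starRingEnd ℂ) (ft T θ) := by
    unfold ft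
    rw [map_div₀, map_sum, Complex.conj_natCast]
    congr 1
    refine Finset.sum_congr rfl fun t _ => ?_
    rw [AddChar.inv_apply, AddChar.map_neg_eq_conj]
  rw [h, Complex.norm_conj]

/-- [R3-H3a] A maximal free subset of the spectrum.
Proof. Take `Λ ⊆ Spec T` free of maximal cardinality.  If `ξ₀ ∈ Spec T \ Λ` then `insert ξ₀ Λ` is not
free, so some `ε` with values in `{-1,0,1}` has `‖ft B₅ (∏_{insert ξ₀ Λ} ξ^{ε ξ})‖ > 1/2`; `ε ξ₀ ≠ 0`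
(else `Λ` not free), and replacing `ε` by `-ε` (`ft B₅ θ⁻¹ = conj (ft B₅ θ)`) we may take `ε ξ₀ = 1`. -/
theorem exists_max_free (B₅ T : Finset G) :
    ∃ Λ ⊆ Spec T, Free B₅ Λ ∧ ∀ ξ₀ ∈ Spec T, ξ₀ ∉ Λ →
      ∃ ε : AddChar G ℂ → ℤ, (∀ ξ, ε ξ = -1 ∨ ε ξ = 0 ∨ ε ξ = 1) ∧
        1 / 2 < ‖ft B₅ (ξ₀ * ∏ ξ ∈ Λ, ξ ^ ε ξ)‖ := by
  classical
  obtain ⟨Λ, hΛmem, hmax⟩ := Finset.exists_max_image
    ((Spec T).powerset.filter fun Λ => Free B₅ Λ) Finset.card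
    ⟨∅, by
      rw [Finset.mem_filter, Finset.mem_powerset]
      refine ⟨Finset.empty_subset _, ?_⟩
      rintro ε _ ⟨ξ, hξ, _⟩
      simp at hξ⟩
  rw [Finset.mem_filter, Finset.mem_powerset] at hΛmem
  obtain ⟨hsub, hfree⟩ := hΛmem
  refine ⟨Λ, hsub, hfree, ?_⟩
  intro ξ₀ hξ₀ hnot
  have hnf : ¬ Free B₅ (insert ξ₀ Λ) := by
    intro hf
    have := hmax (insert ξ₀ Λ) (by
      rw [Finset.mem_filter, Finset.mem_powerset]
      exact ⟨Finset.insert_subset hξ₀ hsub, hf⟩)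
    rw [Finset.card_insert_of_notMem hnot] at this
    omega
  unfold Free at hnf
  push Not at hnf
  obtain ⟨ε, hε, ⟨ξ₁, hξ₁, hne⟩, hlt⟩ := hnf
  rw [Finset.prod_insert hnot] at hlt
  rcases hε ξ₀ with h | h | h
  · refine ⟨fun ξ => - ε ξ, fun ξ => ?_, ?_⟩
    · rcases hε ξ with h' | h' | h' <;> simp [h']
    · have e : (ξ₀ * ∏ ξ ∈ Λ, ξ ^ (-ε ξ)) = (ξ₀ ^ (-1 : ℤ) * ∏ ξ ∈ Λ, ξ ^ ε ξ)⁻¹ := by
        rw [mul_inv, ← Finset.prod_inv_distrib]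
        simp [zpow_neg]
      rw [e, h3_ft_inv, ← h]
      exact hlt
  · exfalso
    rw [h, zpow_zero, one_mul] at hlt
    have hξ₁Λ : ξ₁ ∈ Λ := by
      rcases Finset.mem_insert.1 hξ₁ with h' | h'
      · subst h'
        exact absurd h hne
      · exact h'
    exact absurd (hfree ε hε ⟨ξ₁, hξ₁Λ, hne⟩) (not_le.2 hlt)
  · refine ⟨ε, hε, ?_⟩
    rw [h, zpow_one] at hlt
    exact hlt

/-- [R3-H3b] If `ft B₅ θ` is large then `θ` is almost trivial on small shifts.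
Proof. `(θ b - 1) ∑_{x∈B₅} θ x = ∑_{x ∈ B₅+b} θ - ∑_{x∈B₅} θ`, and `|B₅ + b \ B₅| ≤ |B₊| - |B₅| ≤ η|B₅|`,
`|B₅ \ (B₅+b)| = |(B₅+b) \ B₅|`; so `‖θ b - 1‖ ‖ft B₅ θ‖ ≤ 2η`. -/
theorem close_of_large (B₅ B' : Finset G) (hB₅ : B₅.Nonempty) (hsub : B₅ ⊆ B') (η : ℝ)
    (hcard : (#B' : ℝ) ≤ (1 + η) * #B₅) (b : G) (hb : ∀ x ∈ B₅, x + b ∈ B')
    (θ : AddChar G ℂ) (hθ : 1 / 2 < ‖ft B₅ θ‖) : ‖θ b - 1‖ ≤ 4 * η := by
  classical
  have hc : (0 : ℝ) < #B₅ := by exact_mod_cast hB₅.card_pos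
  set S₁ : Finset G := B₅.image fun x => x + b with hS₁
  have hinj : Function.Injective fun x : G => x + b := add_left_injective b
  have hcard₁ : #S₁ = #B₅ := Finset.card_image_of_injective _ hinj
  have hS₁B : S₁ ⊆ B' := by
    intro y hy
    obtain ⟨x, hx, rfl⟩ := Finset.mem_image.1 hy
    exact hb x hx
  have h1 : (θ b - 1) * ∑ x ∈ B₅, θ x = ∑ y ∈ S₁, θ y - ∑ x ∈ B₅, θ x := by
    rw [hS₁, Finset.sum_image (fun x _ y _ h => hinj h), sub_mul, one_mul, Finset.mul_sum]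
    congr 1
    refine Finset.sum_congr rfl fun x _ => ?_
    rw [AddChar.map_add_eq_mul, mul_comm]
  have h2 : ∑ y ∈ S₁, θ y - ∑ x ∈ B₅, θ x = ∑ y ∈ S₁ \ B₅, θ y - ∑ x ∈ B₅ \ S₁, θ x := by
    rw [← Finset.sum_sdiff_sub_sum_sdiff]
  have hcs : #(S₁ \ B₅) + #B₅ ≤ #B' := by
    rw [← Finset.card_union_of_disjoint Finset.sdiff_disjoint]
    apply Finset.card_le_card
    intro y hy
    rcases Finset.mem_union.1 hy with h | h
    · exact hS₁B (Finset.mem_sdiff.1 h).1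
    · exact hsub h
  have hcs' : (#(S₁ \ B₅) : ℝ) ≤ η * #B₅ := by
    have : (#(S₁ \ B₅) : ℝ) + #B₅ ≤ #B' := by exact_mod_cast hcs
    linarith
  have hcs2 : #(B₅ \ S₁) = #(S₁ \ B₅) := Finset.card_sdiff_comm hcard₁.symm
  have hn : ∀ S : Finset G, ‖∑ y ∈ S, θ y‖ ≤ #S := by
    intro S
    refine (norm_sum_le _ _).trans ?_
    simp
  have h3 : ‖θ b - 1‖ * ‖∑ x ∈ B₅, θ x‖ ≤ 2 * η * #B₅ := by
    rw [← norm_mul, h1, h2]
    refine (norm_sub_le _ _).trans ?_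
    have e1 := hn (S₁ \ B₅)
    have e2 := hn (B₅ \ S₁)
    rw [hcs2] at e2
    linarith
  have h4 : (1 / 2 : ℝ) * #B₅ < ‖∑ x ∈ B₅, θ x‖ := by
    unfold ft at hθ
    rw [norm_div, Complex.norm_natCast, lt_div_iff₀ hc] at hθ
    exact hθ
  have h5 : ‖θ b - 1‖ * ((1 / 2 : ℝ) * #B₅) ≤ 2 * η * #B₅ :=
    (mul_le_mul_of_nonneg_left h4.le (norm_nonneg _)).trans h3
  have h6 : ‖θ b - 1‖ * #B₅ ≤ (4 * η) * #B₅ := by linarith
  exact le_of_mul_le_mul_right h6 hc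

end R3
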