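import Pool.Agent.MP_0f71ae_nt.R3.FDefs

/-!
# [R3] 6.2: the smoothing weight
-/

set_option linter.unusedSectionVars false

open Finset

namespace R3

variable {G : Type*} [AddCommGroup G] [Fintype G] [DecidableEq G]

/-- the iterated averages -/
noncomputable def h2a_g (B₅ B B' : Finset G) : ℕ → G → ℝ
  | 0 => fun x => if x ∈ B' then 1 / #B else 0
  | i + 1 => fun x => (∑ b ∈ B₅, h2a_g B₅ B B' i (x + b)) / #B₅

theorem h2a_nonneg (B₅ B B' : Finset G) (i : ℕ) (x : G) : 0 ≤ h2a_g B₅ B B' i x := by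
  induction i generalizing x with
  | zero =>
    simp only [h2a_g]
    split_ifs <;> positivity
  | succ i ih =>
    simp only [h2a_g]
    exact div_nonneg (Finset.sum_nonneg fun b _ => ih _) (Nat.cast_nonneg _)

theorem h2a_sum (B₅ : Finset G) (B B' : Finset G) (i : ℕ) (θ : AddChar G ℂ) :
    ∑ x, (h2a_g B₅ B B' i x : ℂ) * θ x = (ft B₅ θ⁻¹) ^ i * ∑ x, (h2a_g B₅ B B' 0 x : ℂ) * θ x := by
  induction i with
  | zero => rw [pow_zero, one_mul]
  | succ i ih =>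
    have h1 : ∀ x, (h2a_g B₅ B B' (i + 1) x : ℂ) * θ x =
        (∑ b ∈ B₅, (h2a_g B₅ B B' i (x + b) : ℂ) * θ (x + b) * (θ⁻¹) b) / #B₅ := by
      intro x
      have h2 : ∀ b ∈ B₅, (h2a_g B₅ B B' i (x + b) : ℂ) * θ (x + b) * (θ⁻¹) b =
          (h2a_g B₅ B B' i (x + b) : ℂ) * θ x := by
        intro b _
        rw [AddChar.map_add_eq_mul, mul_assoc, mul_assoc]
        congr 1
        have h3 : θ b * (θ⁻¹) b = 1 := by
          rw [← AddChar.mul_apply, mul_inv_cancel, AddChar.one_apply]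
        rw [h3, mul_one]
      rw [Finset.sum_congr rfl h2, ← Finset.sum_mul]
      simp only [h2a_g]
      push_cast
      ring
    rw [Finset.sum_congr rfl fun x _ => h1 x, ← Finset.sum_div, Finset.sum_comm]
    have h4 : ∀ b ∈ B₅, ∑ x, (h2a_g B₅ B B' i (x + b) : ℂ) * θ (x + b) * (θ⁻¹) b =
        (∑ x, (h2a_g B₅ B B' i x : ℂ) * θ x) * (θ⁻¹) b := by
      intro b _
      rw [← Finset.sum_mul]
      congr 1
      exact Equiv.sum_comp (Equiv.addRight b) (fun x => (h2a_g B₅ B B' i x : ℂ) * θ x)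
    rw [Finset.sum_congr rfl h4, ← Finset.mul_sum, ih, pow_succ]
    unfold ft
    ring

theorem h2a_norm (B₅ : Finset G) (θ : AddChar G ℂ) : ‖ft B₅ θ⁻¹‖ = ‖ft B₅ θ‖ := by
  have h1 : ft B₅ θ⁻¹ = starRingEnd ℂ (ft B₅ θ) := by
    unfold ft
    rw [map_div₀, map_sum, Complex.conj_natCast]
    congr 1
    apply Finset.sum_congr rfl
    intro t _
    rw [← AddChar.inv_apply_eq_conj θ t]
    exact AddChar.inv_apply' θ t
  rw [h1, RCLike.norm_conj]

/-- [R3-H2a] The smoothing weight.  `B ⊆ B₊` and `B + N·B₅ ⊆ B₊`, `|B₊| ≤ 2|B|`, `B₅ = -B₅`.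
`β := |B|⁻¹ 1_{B₊} * μ_{B₅} * … * μ_{B₅}` (`N` times), defined by recursion on `N`:
`g_0 = |B|⁻¹ 1_{B₊}`, `g_{i+1}(x) = |B₅|⁻¹ ∑_{b∈B₅} g_i(x + b)`.
`β ≥ 0`, `∑ β = |B₊|/|B| ≤ 2`, `∑_x g_{i+1}(x) θ(x) = (∑_x g_i(x) θ(x)) · ft B₅ (θ⁻¹)`, and
`ft B₅ θ⁻¹ = conj (ft B₅ θ)`; so `|∑ β θ| ≤ 2 |ft B₅ θ|^N`.  `β = 1/|B|` on `B`. -/
theorem exists_weight (B₅ : Finset G) (hB₅ : B₅.Nonempty) (B B' : Finset G) (hB : B.Nonempty)
    (hBB' : (#B' : ℝ) ≤ 2 * #B) (N : ℕ) (E : ℕ → Finset G) (hE0 : E 0 = B') (hEN : B ⊆ E N)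
    (hE : ∀ i < N, ∀ x ∈ E (i + 1), ∀ b ∈ B₅, x + b ∈ E i) :
    ∃ β : G → ℝ, (∀ x, 0 ≤ β x) ∧ (∀ x ∈ B, 1 / #B ≤ β x) ∧ ∑ x, β x ≤ 2 ∧
      ∀ θ : AddChar G ℂ, ‖∑ x, (β x : ℂ) * θ x‖ ≤ 2 * ‖ft B₅ θ‖ ^ N := by
  have hB0 : (0 : ℝ) < #B := by exact_mod_cast hB.card_pos
  have hB50 : (0 : ℝ) < #B₅ := by exact_mod_cast hB₅.card_pos
  have h0 : ∑ x, h2a_g B₅ B B' 0 x = #B' / #B := by
    simp only [h2a_g]
    rw [Finset.sum_ite_mem, Finset.univ_inter, Finset.sum_const, nsmul_eq_mul]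
    ring
  have h02 : ∑ x, h2a_g B₅ B B' 0 x ≤ 2 := by
    rw [h0, div_le_iff₀ hB0]
    exact hBB'
  refine ⟨h2a_g B₅ B B' N, h2a_nonneg B₅ B B' N, ?_, ?_, ?_⟩
  · have h1 : ∀ i ≤ N, ∀ x ∈ E i, 1 / (#B : ℝ) ≤ h2a_g B₅ B B' i x := by
      intro i
      induction i with
      | zero =>
        intro _ x hx
        rw [hE0] at hx
        simp only [h2a_g, if_pos hx]
        exact le_rfl
      | succ i ih =>
        intro hi x hx
        simp only [h2a_g]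
        rw [le_div_iff₀ hB50]
        have h2 : ∑ b ∈ B₅, (1 / (#B : ℝ)) ≤ ∑ b ∈ B₅, h2a_g B₅ B B' i (x + b) :=
          Finset.sum_le_sum fun b hb => ih (by omega) (x + b) (hE i (by omega) x hx b hb)
        rw [Finset.sum_const, nsmul_eq_mul] at h2
        linarith
    intro x hx
    exact h1 N le_rfl x (hEN hx)
  · have h1 : ∀ i, ∑ x, h2a_g B₅ B B' i x = ∑ x, h2a_g B₅ B B' 0 x := by
      intro i
      induction i with
      | zero => rfl
      | succ i ih =>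
        simp only [h2a_g]
        rw [← Finset.sum_div, Finset.sum_comm]
        have h4 : ∀ b ∈ B₅, ∑ x, h2a_g B₅ B B' i (x + b) = ∑ x, h2a_g B₅ B B' 0 x := by
          intro b _
          rw [← ih]
          exact Equiv.sum_comp (Equiv.addRight b) (fun x => h2a_g B₅ B B' i x)
        rw [Finset.sum_congr rfl h4, Finset.sum_const, nsmul_eq_mul, mul_div_assoc, mul_comm, div_mul_cancel₀ _ hB50.ne']
        rfl
    rw [h1]
    exact h02
  · intro θ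
    rw [h2a_sum, norm_mul, norm_pow, h2a_norm, mul_comm (2 : ℝ)]
    apply mul_le_mul_of_nonneg_left _ (by positivity)
    refine le_trans (norm_sum_le _ _) (le_trans (le_of_eq ?_) h02)
    apply Finset.sum_congr rfl
    intro x _
    rw [norm_mul, AddChar.norm_apply, mul_one, Complex.norm_real, Real.norm_of_nonneg (h2a_nonneg B₅ B B' 0 x)]

end R3
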