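import Pool.Agent.MP_0f71ae_nt.R3.Four2
import Pool.Agent.MP_0f71ae_nt.R3.Weight
import Pool.Agent.MP_0f71ae_nt.R3.FreeCard
import Pool.Agent.MP_0f71ae_nt.R3.MaxFree

/-!
# [R3] 6.2, 6.3: relative Chang theorem and density increment
-/

set_option linter.unusedSectionVars false

open Finset

namespace R3

variable {G : Type*} [AddCommGroup G] [Fintype G] [DecidableEq G]

private theorem h4_zpow_close (ξ : AddChar G ℂ) (e : ℤ) (he : e = -1 ∨ e = 0 ∨ e = 1) (b : G) :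
    ‖(ξ ^ e) b - 1‖ ≤ ‖ξ b - 1‖ := by
  rcases he with rfl | rfl | rfl
  · rw [zpow_neg_one, AddChar.inv_apply]
    have h := norm_char_sub ξ 0 b
    rw [zero_sub, AddChar.map_zero_eq_one, norm_sub_rev 1 (ξ b)] at h
    exact h.le
  · rw [zpow_zero, AddChar.one_apply, sub_self, norm_zero]
    exact norm_nonneg _
  · rw [zpow_one]

private theorem h4_mul_close (u v : AddChar G ℂ) (b : G) :
    ‖(u * v) b - 1‖ ≤ ‖u b - 1‖ + ‖v b - 1‖ := by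
  have e : (u * v) b - 1 = (u b - 1) * v b + (v b - 1) := by
    rw [AddChar.mul_apply]; ring
  rw [e]
  calc ‖(u b - 1) * v b + (v b - 1)‖ ≤ ‖(u b - 1) * v b‖ + ‖v b - 1‖ := norm_add_le _ _
    _ = ‖u b - 1‖ + ‖v b - 1‖ := by rw [norm_mul, AddChar.norm_apply, mul_one]

private theorem h4_prod_close (Λ : Finset (AddChar G ℂ)) (ε : AddChar G ℂ → ℤ)
    (hε : ∀ ξ, ε ξ = -1 ∨ ε ξ = 0 ∨ ε ξ = 1) (b : G) :
    ‖(∏ ξ ∈ Λ, ξ ^ ε ξ) b - 1‖ ≤ ∑ ξ ∈ Λ, ‖ξ b - 1‖ := by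
  classical
  induction Λ using Finset.induction_on with
  | empty => simp [AddChar.one_apply]
  | insert ξ Λ hξ ih =>
    rw [Finset.prod_insert hξ, Finset.sum_insert hξ]
    exact (h4_mul_close _ _ b).trans (add_le_add (h4_zpow_close ξ _ (hε ξ) b) ih)

/-- `‖ξ₀ b - 1‖ ≤ ‖θ b - 1‖ + ∑_Λ ‖ξ b - 1‖`, `θ = ξ₀ ∏_Λ ξ^{ε ξ}` -/
private theorem h4_close (Λ : Finset (AddChar G ℂ)) (ε : AddChar G ℂ → ℤ)
    (hε : ∀ ξ, ε ξ = -1 ∨ ε ξ = 0 ∨ ε ξ = 1) (ξ₀ : AddChar G ℂ) (b : G) :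
    ‖ξ₀ b - 1‖ ≤ ‖(ξ₀ * ∏ ξ ∈ Λ, ξ ^ ε ξ) b - 1‖ + ∑ ξ ∈ Λ, ‖ξ b - 1‖ := by
  set P : AddChar G ℂ := ∏ ξ ∈ Λ, ξ ^ ε ξ with hP
  have h1 : ‖P b - 1‖ ≤ ∑ ξ ∈ Λ, ‖ξ b - 1‖ := h4_prod_close Λ ε hε b
  have e : (ξ₀ b - 1) * P b = ((ξ₀ * P) b - 1) - (P b - 1) := by
    rw [AddChar.mul_apply]; ring
  have h2 : ‖ξ₀ b - 1‖ = ‖(ξ₀ b - 1) * P b‖ := by
    rw [norm_mul, AddChar.norm_apply, mul_one]
  rw [h2, e]
  exact (norm_sub_le _ _).trans (add_le_add le_rfl h1)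

private theorem h4_free_sub {B₅ : Finset G} {Λ Λ' : Finset (AddChar G ℂ)} (h : Free B₅ Λ)
    (hs : Λ' ⊆ Λ) : Free B₅ Λ' := by
  classical
  intro ε hε hne
  obtain ⟨ξ, hξ, hξ0⟩ := hne
  have h1 := h (fun ξ => if ξ ∈ Λ' then ε ξ else 0) (fun ξ => by
      by_cases hm : ξ ∈ Λ'
      · simp only [hm, if_true]; exact hε ξ
      · simp [hm])
    ⟨ξ, hs hξ, by simpa only [hξ, if_true] using hξ0⟩
  have h2 : (∏ ξ ∈ Λ, ξ ^ (if ξ ∈ Λ' then ε ξ else 0)) = ∏ ξ ∈ Λ', ξ ^ ε ξ := by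
    rw [← Finset.prod_subset hs]
    · refine Finset.prod_congr rfl fun ξ hξ => ?_
      simp only [hξ, if_true]
    · intro ξ _ hξ
      simp only [hξ, if_false, zpow_zero]
  rw [h2] at h1
  exact h1

/-- [R3-H4] CHANG + INCREMENT, final form.  `δ = 1/25`.
Proof. `k₀ := ⌊4(M+2)⌋₊`, `N := 3(k₀+1)`.  By `bohr_growth` (with `η = δ/16 = 1/400`,
`r = ρ₄/(20 D N)`) choose `ρ₅ ∈ [ρ₄/(40 D N), ρ₄/(20 D N)]` with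
`|bohr Γ ((1+1/(8000 D))ρ₅)| ≤ (1+1/400) |B₅|`, `B₅ = bohr Γ ρ₅`.  `exists_weight` with
`B = bohr Γ ρ₄`, `B' = bohr Γ ((1+1/(20D))ρ₄)`, `E i = bohr Γ ((1+1/(20D))ρ₄ - i ρ₅)`.
Take `Λ` from `exists_max_free`.  `|Λ| ≤ k₀`: otherwise a subset `Λ' ⊆ Λ` with `k₀+1` elements is free
(extend `ε` by `0` outside `Λ'`) and `free_card` gives `k₀ + 1 ≤ 4(M+2)`.  For `ρ₆` as below, every
`ξ₀ ∈ Spec T` and `b ∈ B₆ = bohr (Γ ∪ Λ) ρ₆`: either `ξ₀ ∈ Λ` and `‖ξ₀ b - 1‖ ≤ ρ₆ ≤ δ`, or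
`θ = ξ₀ ∏_Λ ξ^{ε ξ}` has `‖θ b - 1‖ ≤ 4/400 = 1/100` (`close_of_large`, `ρ₆ ≤ ρ₅/(8000 D)`), and
`‖ξ₀ b - 1‖ ≤ ‖θ b - 1‖ + ∑_{ξ∈Λ} ‖ξ b - 1‖ ≤ 1/100 + k₀ ρ₆ ≤ 1/25` as `k₀ ρ₆ ≤ 1/100`.
Conclude with `spec_mass` and `increment` (`1 - 4/25 = 21/25`). -/
theorem chang_increment (A : Finset G) (n : ℝ) (hn : 0 < n) (hA : A.Nonempty) (S : Finset G)
    (hS : S.Nonempty) (Γ : Finset (AddChar G ℂ)) (D : ℝ) (hD : 1 ≤ D) (hΓ : (#Γ : ℝ) ≤ D)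
    (ρ₄ : ℝ) (hρ : 0 < ρ₄) (hρ2 : ρ₄ ≤ 2)
    (hgrow : (#(bohr (G := G) Γ ((1 + 1 / (20 * D)) * ρ₄)) : ℝ) ≤ 2 * #(bohr (G := G) Γ ρ₄))
    (T : Finset G) (hT : T.Nonempty) (hTB : T ⊆ bohr Γ ρ₄) (M : ℝ) (hM0 : 0 ≤ M)
    (hM : Real.exp (-M) * #(bohr (G := G) Γ ρ₄) ≤ #T)
    (h : ∀ t ∈ T, ∀ t' ∈ T, (1 - 1 / 25) * K A n S S * (#S : ℝ) ^ 2 ≤
      ∑ x ∈ S, ∑ y ∈ S, X A n (x + t) (y + t')) :
    ∃ Λ : Finset (AddChar G ℂ), (#Λ : ℝ) ≤ 4 * (M + 2) ∧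
      ∀ Γ' : Finset (AddChar G ℂ), Γ ⊆ Γ' → Λ ⊆ Γ' →
        ∀ ρ₆, 0 < ρ₆ → ρ₆ ≤ ρ₄ / (10 ^ 8 * D ^ 2 * (M + 3)) →
          Dens A Γ' ρ₆ (21 / 25 * K A n S S * (#A / n)) := by
  classical
  have hD0 : 0 < D := lt_of_lt_of_le one_pos hD
  set k₀ : ℕ := ⌊4 * (M + 2)⌋₊ with hk₀
  have hk1 : (k₀ : ℝ) ≤ 4 * (M + 2) := Nat.floor_le (by linarith)
  have hk2 : 4 * (M + 2) < (k₀ : ℝ) + 1 := Nat.lt_floor_add_one _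
  set N : ℕ := 3 * (k₀ + 1) with hN
  have hNr : (N : ℝ) = 3 * ((k₀ : ℝ) + 1) := by rw [hN]; push_cast; ring
  have hN0 : (0 : ℝ) < N := by rw [hNr]; positivity
  have hN12 : (N : ℝ) ≤ 12 * (M + 3) := by rw [hNr]; linarith
  obtain ⟨ρ₅, hr1, hr2, hr3⟩ := bohr_growth (G := G) Γ D (1 / 400) hD hΓ (by norm_num)
    (by norm_num) (ρ₄ / (20 * D * N)) (by positivity)
  have hρ5 : 0 < ρ₅ := lt_of_lt_of_le (by positivity) hr1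
  have hNρ : N * ρ₅ ≤ ρ₄ / (20 * D) := by
    have h1 : N * ρ₅ ≤ N * (ρ₄ / (20 * D * N)) := mul_le_mul_of_nonneg_left hr2 hN0.le
    have h2 : N * (ρ₄ / (20 * D * N)) = ρ₄ / (20 * D) := by field_simp
    linarith
  -- the smoothing weight
  have hB₅ : (bohr (G := G) Γ ρ₅).Nonempty := bohr_nonempty hρ5.le
  obtain ⟨β, hβ, hβB, hβ2, hβf⟩ := exists_weight (bohr (G := G) Γ ρ₅) hB₅ (bohr (G := G) Γ ρ₄)
    (bohr (G := G) Γ ((1 + 1 / (20 * D)) * ρ₄)) (bohr_nonempty hρ.le) hgrow N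
    (fun i => bohr (G := G) Γ ((1 + 1 / (20 * D)) * ρ₄ - i * ρ₅)) (by simp) (by
      apply bohr_mono
      have : (1 + 1 / (20 * D)) * ρ₄ = ρ₄ + ρ₄ / (20 * D) := by ring
      linarith) (by
      intro i _ x hx b hb
      have h1 := add_mem_bohr hx hb
      have e : (1 + 1 / (20 * D)) * ρ₄ - ((i + 1 : ℕ) : ℝ) * ρ₅ + ρ₅ =
          (1 + 1 / (20 * D)) * ρ₄ - i * ρ₅ := by push_cast; ring
      rw [e] at h1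
      exact h1)
  obtain ⟨Λ, hΛT, hfree, hmax⟩ := exists_max_free (bohr (G := G) Γ ρ₅) T
  have hΛk : #Λ ≤ k₀ := by
    by_contra hcon
    have hlt : k₀ + 1 ≤ #Λ := by omega
    obtain ⟨Λ', hsub, hcard⟩ := Finset.exists_subset_card_eq hlt
    have h1 := free_card (bohr (G := G) Γ ρ₅) (bohr (G := G) Γ ρ₄) T hT hTB M hM Λ'
      (hsub.trans hΛT) (h4_free_sub hfree hsub) N (by rw [hcard]) β hβ hβB hβ2 hβf
    rw [hcard] at h1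
    push_cast at h1
    linarith
  have hΛk' : (#Λ : ℝ) ≤ k₀ := by exact_mod_cast hΛk
  refine ⟨Λ, hΛk'.trans hk1, ?_⟩
  intro Γ' hΓ' hΛΓ' ρ₆ hρ6 hρ6le
  -- numerical consequences
  have hM3 : 0 < M + 3 := by linarith
  have hden : (0 : ℝ) < 10 ^ 8 * D ^ 2 * (M + 3) := by positivity
  have hD2 : 1 ≤ D ^ 2 := one_le_pow₀ hD
  have hρ6a : ρ₆ * (10 ^ 8 * D ^ 2 * (M + 3)) ≤ ρ₄ := by
    rwa [le_div_iff₀ hden] at hρ6le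
  have hρ6b : ρ₆ * (M + 3) ≤ 2 / 10 ^ 8 := by
    have h1 : ρ₆ * (10 ^ 8 * D ^ 2 * (M + 3)) = 10 ^ 8 * (ρ₆ * (M + 3)) * D ^ 2 := by ring
    have h2 : 10 ^ 8 * (ρ₆ * (M + 3)) * 1 ≤ 10 ^ 8 * (ρ₆ * (M + 3)) * D ^ 2 :=
      mul_le_mul_of_nonneg_left hD2 (by positivity)
    rw [le_div_iff₀ (by norm_num)]
    linarith
  have hρ6c : ρ₆ ≤ 1 / 100 := by
    have h1 : ρ₆ * 3 ≤ ρ₆ * (M + 3) := mul_le_mul_of_nonneg_left (by linarith) hρ6.le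
    have h2 : (2 : ℝ) / 10 ^ 8 ≤ 1 / 100 := by norm_num
    linarith
  have hρ6d : (k₀ : ℝ) * ρ₆ ≤ 1 / 100 := by
    have h1 : (k₀ : ℝ) * ρ₆ ≤ (4 * (M + 3)) * ρ₆ :=
      mul_le_mul_of_nonneg_right (by linarith) hρ6.le
    have h2 : (4 * (M + 3)) * ρ₆ = 4 * (ρ₆ * (M + 3)) := by ring
    have h3 : 4 * ((2 : ℝ) / 10 ^ 8) ≤ 1 / 100 := by norm_num
    linarith
  have hρ65 : ρ₆ ≤ 1 / (8000 * D) * ρ₅ := by
    have h0 : ρ₄ / (20 * D * N) / 2 ≤ ρ₅ := hr1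
    have h1 : ρ₄ ≤ 40 * D * N * ρ₅ := by
      rw [div_div, div_le_iff₀ (by positivity)] at h0
      linarith
    have h2 : 40 * D * N * ρ₅ ≤ 40 * D * (12 * (M + 3)) * ρ₅ := by gcongr
    have h3 : ρ₆ * (10 ^ 8 * D ^ 2 * (M + 3)) ≤ 40 * D * (12 * (M + 3)) * ρ₅ := by linarith
    have h4 : (D * (M + 3)) * (ρ₆ * (10 ^ 8 * D)) ≤ (D * (M + 3)) * (480 * ρ₅) := by linarith
    have h5 : ρ₆ * (10 ^ 8 * D) ≤ 480 * ρ₅ := le_of_mul_le_mul_left h4 (by positivity)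
    have h6 : 1 / (8000 * D) * ρ₅ = ρ₅ / (8000 * D) := by ring
    rw [h6, le_div_iff₀ (by positivity)]
    have h7 : ρ₆ * (8000 * D) * 12500 = ρ₆ * (10 ^ 8 * D) := by ring
    linarith
  have hsub6 : bohr (G := G) Γ' ρ₆ ⊆ bohr Γ (1 / (8000 * D) * ρ₅) :=
    (bohr_anti hΓ').trans (bohr_mono hρ65)
  have hgr : (#(bohr (G := G) Γ ((1 + 1 / (8000 * D)) * ρ₅)) : ℝ) ≤
      (1 + 1 / 400) * #(bohr (G := G) Γ ρ₅) := by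
    have e : (1 : ℝ) / 400 / (20 * D) = 1 / (8000 * D) := by
      field_simp; norm_num
    rwa [e] at hr3
  have hclose : ∀ ξ ∈ Spec T, ∀ b ∈ bohr (G := G) Γ' ρ₆, ‖ξ b - 1‖ ≤ 1 / 25 := by
    intro ξ₀ hξ₀ b hb
    by_cases hm : ξ₀ ∈ Λ
    · have h1 := (mem_bohr.1 hb) ξ₀ (hΛΓ' hm)
      have h2 : (1 : ℝ) / 100 ≤ 1 / 25 := by norm_num
      linarith
    · obtain ⟨ε, hε, hθ⟩ := hmax ξ₀ hξ₀ hm
      have h1 := close_of_large (bohr (G := G) Γ ρ₅) (bohr (G := G) Γ ((1 + 1 / (8000 * D)) * ρ₅))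
        hB₅ (bohr_mono (by
          have : 0 ≤ 1 / (8000 * D) * ρ₅ := by positivity
          linarith)) (1 / 400) hgr b (by
          intro x hx
          have h2 := add_mem_bohr hx (hsub6 hb)
          have e : ρ₅ + 1 / (8000 * D) * ρ₅ = (1 + 1 / (8000 * D)) * ρ₅ := by ring
          rwa [e] at h2) _ hθ
      have h3 := h4_close Λ ε hε ξ₀ b
      have h4 : ∑ ξ ∈ Λ, ‖ξ b - 1‖ ≤ 1 / 100 := by
        calc ∑ ξ ∈ Λ, ‖ξ b - 1‖ ≤ ∑ ξ ∈ Λ, ρ₆ :=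
              Finset.sum_le_sum fun ξ hξ => (mem_bohr.1 hb) ξ (hΛΓ' hξ)
          _ = #Λ * ρ₆ := by rw [Finset.sum_const, nsmul_eq_mul]
          _ ≤ k₀ * ρ₆ := mul_le_mul_of_nonneg_right hΛk' hρ6.le
          _ ≤ 1 / 100 := hρ6d
      linarith
  have hspec := spec_mass A n hn S T hS hT (1 / 25) h
  obtain ⟨v, hv⟩ := increment A n hn hA S T (bohr (G := G) Γ' ρ₆) hS (bohr_nonempty hρ6.le)
    (1 / 25) (by norm_num) (by norm_num) hspec hclose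
  refine ⟨v, ?_⟩
  have e : (1 : ℝ) - 4 * (1 / 25) = 21 / 25 := by norm_num
  rw [e] at hv
  exact hv

end R3
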