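import Pool.Agent.MP_0f71ae_nt.R3.Ext0

/-!
# [R3] Existence of the extremal set
-/

open Finset

namespace R3

variable {G : Type*} [AddCommGroup G] [Fintype G] [DecidableEq G]

/-- the penalised functional -/
private noncomputable def psi (A : Finset G) (n L : ℝ) (D S : Finset G) : ℝ :=
  Real.log (K A n S S) - 1 / 12 * Real.exp (Real.log ((#D : ℝ) / #S) / hh L)

private lemma hh_pos' {L : ℝ} (hL : 1 ≤ L) : 0 < hh L := by
  unfold hh; positivity

private lemma exp_le_two {t : ℝ} (h0 : 0 ≤ t) (h1 : t ≤ 1) : Real.exp t ≤ 1 + 2 * t := by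
  have h := Real.abs_exp_sub_one_sub_id_le (x := t) (by rw [abs_of_nonneg h0]; exact h1)
  have h2 := le_abs_self (Real.exp t - 1 - t)
  nlinarith

private lemma logK_le (A : Finset G) (n L : ℝ) (hn : 0 < n) (hA : A.Nonempty)
    (hα : Real.exp (-L) * n ≤ #A) (S : Finset G) (hS : S.Nonempty) :
    Real.log (K A n S S) ≤ L := by
  have hA0 : (0 : ℝ) < #A := by exact_mod_cast hA.card_pos
  have h1 : K A n S S ≤ Real.exp L := by
    refine (K_le A n hn hA S S).trans ?_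
    rw [div_le_iff₀ hA0]
    calc n = Real.exp L * (Real.exp (-L) * n) := by
          rw [← mul_assoc, ← Real.exp_add]; simp
      _ ≤ Real.exp L * #A := mul_le_mul_of_nonneg_left hα (Real.exp_pos _).le
  rw [Real.log_le_iff_le_exp (K_self_pos A n hn hA S hS)]
  exact h1

/-- the basic comparison: if `log K(S') ≤ J + φ(H')` with `H' ≤ H + Δ` -/
private lemma compare {h0 γ J H H' Δ e lK : ℝ} (hh0 : 0 < h0) (hJ : 0 ≤ J)
    (hγ : γ = J + 1 / 12 * Real.exp (H / h0)) (hΔ : 0 ≤ Δ) (hΔ' : Δ ≤ h0)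
    (hH' : H' ≤ H + Δ) (h : lK ≤ J + e + 1 / 12 * Real.exp (H' / h0)) :
    lK ≤ γ + e + 2 * γ / h0 * Δ := by
  have h1 : Real.exp (H' / h0) ≤ Real.exp (H / h0) * Real.exp (Δ / h0) := by
    rw [← Real.exp_add, ← add_div]
    exact Real.exp_le_exp.2 (div_le_div_of_nonneg_right hH' hh0.le)
  have h2 : Real.exp (Δ / h0) ≤ 1 + 2 * (Δ / h0) :=
    exp_le_two (div_nonneg hΔ hh0.le) (by rw [div_le_one hh0]; exact hΔ')
  have h3 : 0 < Real.exp (H / h0) := Real.exp_pos _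
  have h4 : Real.exp (H / h0) * Real.exp (Δ / h0) ≤ Real.exp (H / h0) * (1 + 2 * (Δ / h0)) :=
    mul_le_mul_of_nonneg_left h2 h3.le
  have h5 : 0 ≤ Δ / h0 := div_nonneg hΔ hh0.le
  have h6 : 2 * γ / h0 * Δ = 2 * γ * (Δ / h0) := by ring
  rw [h6]
  have h7 : 1 / 12 * Real.exp (H / h0) ≤ γ := by linarith
  have h8 : 1 / 12 * Real.exp (H / h0) * (2 * (Δ / h0)) ≤ γ * (2 * (Δ / h0)) :=
    mul_le_mul_of_nonneg_right h7 (by linarith)
  linarith

private lemma log_ratio {a b c : ℝ} (Δ : ℝ) (ha : 0 < a) (hb : 0 < b) (hc : 0 < c)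
    (h : Real.exp (-Δ) * b ≤ c) : Real.log (a / c) ≤ Real.log (a / b) + Δ := by
  rw [Real.log_div ha.ne' hc.ne', Real.log_div ha.ne' hb.ne']
  have h1 := Real.log_le_log (by positivity) h
  rw [Real.log_mul (Real.exp_pos _).ne' hb.ne', Real.log_exp] at h1
  linarith

/-- [R3-E1] Existence of an extremal set (beginning of section 4).
Proof.  `h0 = hh L`, `φ(t) = (1/12) exp(t/h0)`, for nonempty `S ⊆ D i`:
`Ψ_i(S) = log K(S,S) - φ(log(|D_i|/|S|))`, `J_i = max_{∅ ≠ S ⊆ D_i} Ψ_i(S)` (`Finset.exists_max_image` on the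
nonempty subsets).  Sizes: `|D_i| ≤ |D_k| ≤ e^{1/100}|D_0| ≤ e^{1/100}|D_i|`, also `|D_{i+1}| ≤ e^{1/100}|D_i|`.
* `J_i ≤ L` for all `i ≤ k`: `K ≤ n/|A| ≤ e^L` (`K_le`), `φ ≥ 0`.
* `J_i ≥ Ψ_i(S₀) ≥ log 1.7 - (1/12) exp((141 L² + 1/100)/h0) ≥ 0.53 - 0.0834 ≥ 3/10`
  (`log(|D_i|/|S₀|) ≤ log(|D_0|/|S₀|) + 1/100`).
* Pigeonhole: if `J_{i+1} > J_i + 1/100` for all `i < k` then `J_k > J_0 + k/100 ≥ L`; contradiction.  So some `i < k`
  has `J_{i+1} ≤ J_i + 1/100`; `S` := a maximiser for `i`; `H = log(|D_i|/|S|) ≥ 0`, `γ = log K(S,S) = J_i + φ(H)`.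
* `lo`: `J_i ≥ 3/10`, `φ(H) ≥ 1/12`.  `hH`: `exp(H/h0) = 12 φ(H) ≤ 12 γ`.
* `grow1`: `log K(S') ≤ J_i + φ(log(|D_i|/|S'|)) ≤ J_i + φ(H + Δ)` and
  `φ(H+Δ) - φ(H) = φ(H)(e^{Δ/h0} - 1) ≤ γ · 2 Δ/h0` (`e^t ≤ 1 + 2t` on `[0,1]`, convexity or `Real.exp_bound`).
* `grow2`: `log K(Y') ≤ J_{i+1} + φ(log(|D_{i+1}|/|Y'|)) ≤ J_i + 1/100 + φ(H + Δ + 1/100)`, same estimate. -/
theorem exists_extremal (A : Finset G) (n L : ℝ) (hn : 0 < n) (hL : 1 ≤ L) (hA : A.Nonempty)
    (hα : Real.exp (-L) * n ≤ #A) (k : ℕ) (hk : 100 * L ≤ k) (D : ℕ → Finset G)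
    (hD : ∀ i < k, D i ⊆ D (i + 1)) (hcard : (#(D k) : ℝ) ≤ Real.exp (1 / 100) * #(D 0))
    (S₀ : Finset G) (hS₀ : S₀ ⊆ D 0) (hne : S₀.Nonempty) (hK : 17 / 10 ≤ K A n S₀ S₀)
    (hH : Real.log ((#(D 0) : ℝ) / #S₀) ≤ 141 * L ^ 2) :
    ∃ i < k, ∃ S, Extremal A n L (D i) (D (i + 1)) S := by
  classical
  have hh0 : 0 < hh L := hh_pos' hL
  -- inclusions
  have hmono : ∀ j ≤ k, ∀ i ≤ j, D i ⊆ D j := by
    intro j
    induction j with
    | zero => intro _ i hi; rw [Nat.le_zero.1 hi]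
    | succ j ih =>
      intro hj i hi
      rcases Nat.lt_or_ge i (j + 1) with h | h
      · exact (ih (by omega) i (by omega)).trans (hD j (by omega))
      · rw [le_antisymm hi h]
  have hD0 : ∀ i ≤ k, D 0 ⊆ D i := fun i hi => hmono i hi 0 (Nat.zero_le _)
  have hDk : ∀ i ≤ k, D i ⊆ D k := fun i hi => hmono k le_rfl i hi
  have hDne : ∀ i ≤ k, (D i).Nonempty := fun i hi => hne.mono (hS₀.trans (hD0 i hi))
  have hcpos : ∀ T : Finset G, T.Nonempty → (0 : ℝ) < #T := fun T hT => by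
    exact_mod_cast hT.card_pos
  have hsize : ∀ i ≤ k, ∀ j ≤ k, (#(D j) : ℝ) ≤ Real.exp (1 / 100) * #(D i) := by
    intro i hi j hj
    have h1 : (#(D j) : ℝ) ≤ #(D k) := by exact_mod_cast card_le_card (hDk j hj)
    have h2 : (#(D 0) : ℝ) ≤ #(D i) := by exact_mod_cast card_le_card (hD0 i hi)
    exact h1.trans (hcard.trans (mul_le_mul_of_nonneg_left h2 (Real.exp_pos _).le))
  -- maximisers
  have hmax : ∀ i, ∃ M : Finset G, i ≤ k → (M ⊆ D i ∧ M.Nonempty ∧
      ∀ S' ⊆ D i, S'.Nonempty → psi A n L (D i) S' ≤ psi A n L (D i) M) := by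
    intro i
    by_cases hi : i ≤ k
    · obtain ⟨M, hM, hM'⟩ := Finset.exists_max_image
        ((D i).powerset.filter fun T => T.Nonempty) (psi A n L (D i))
        ⟨D i, mem_filter.2 ⟨mem_powerset.2 subset_rfl, hDne i hi⟩⟩
      rw [mem_filter, mem_powerset] at hM
      exact ⟨M, fun _ => ⟨hM.1, hM.2, fun S' h1 h2 =>
        hM' S' (mem_filter.2 ⟨mem_powerset.2 h1, h2⟩)⟩⟩
    · exact ⟨∅, fun h => absurd h hi⟩
  choose M hM using hmax
  set J : ℕ → ℝ := fun i => psi A n L (D i) (M i) with hJ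
  have hJle : ∀ i ≤ k, J i ≤ L := by
    intro i hi
    have h1 := logK_le A n L hn hA hα (M i) (hM i hi).2.1
    have h2 := Real.exp_pos (Real.log ((#(D i) : ℝ) / #(M i)) / hh L)
    simp only [hJ, psi]
    linarith
  have hJge : ∀ i ≤ k, 3 / 10 ≤ J i := by
    intro i hi
    have h1 := (hM i hi).2.2 S₀ (hS₀.trans (hD0 i hi)) hne
    refine le_trans ?_ h1
    unfold psi
    have hlog : (1 / 2 : ℝ) ≤ Real.log (K A n S₀ S₀) := by
      rw [Real.le_log_iff_exp_le (by linarith)]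
      refine le_trans ?_ hK
      have h2 : Real.exp (1 / 2) ^ 2 = Real.exp 1 := by
        rw [← Real.exp_nat_mul]; norm_num
      have h3 := Real.exp_one_lt_d9
      have h4 := Real.exp_pos (1 / 2 : ℝ)
      nlinarith
    have h5 : Real.log ((#(D i) : ℝ) / #S₀) ≤ 141 * L ^ 2 + 1 / 100 := by
      have h6 : Real.log ((#(D i) : ℝ) / #S₀) ≤ Real.log ((#(D 0) : ℝ) / #S₀) + 1 / 100 := by
        rw [Real.log_div (hcpos _ (hDne i hi)).ne' (hcpos _ hne).ne',
          Real.log_div (hcpos _ (hDne 0 (Nat.zero_le _))).ne' (hcpos _ hne).ne']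
        have h7 := Real.log_le_log (hcpos _ (hDne i hi)) (hsize 0 (Nat.zero_le _) i hi)
        rw [Real.log_mul (Real.exp_pos _).ne' (hcpos _ (hDne 0 (Nat.zero_le _))).ne',
          Real.log_exp] at h7
        linarith
      linarith
    have h8 : Real.log ((#(D i) : ℝ) / #S₀) / hh L ≤ 1 / 1000 := by
      rw [div_le_iff₀ hh0]
      refine h5.trans ?_
      unfold hh
      nlinarith
    have h9 : Real.exp (Real.log ((#(D i) : ℝ) / #S₀) / hh L) ≤ 1 + 2 * (1 / 1000) :=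
      (Real.exp_le_exp.2 h8).trans (exp_le_two (by norm_num) (by norm_num))
    linarith
  -- pigeonhole
  obtain ⟨i, hik, hi⟩ : ∃ i < k, J (i + 1) ≤ J i + 1 / 100 := by
    by_contra hcon
    push Not at hcon
    have h1 : ∀ j ≤ k, J 0 + j * (1 / 100) ≤ J j := by
      intro j
      induction j with
      | zero => intro _; simp
      | succ j ih =>
        intro hj
        have h2 := hcon j (by omega)
        have h3 := ih (by omega)
        push_cast
        linarith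
    have h2 := h1 k le_rfl
    have h3 := hJle k le_rfl
    have h4 := hJge 0 (Nat.zero_le _)
    linarith
  have hi0 : i ≤ k := hik.le
  obtain ⟨hSD, hSne, hSmax⟩ := hM i hi0
  set S := M i with hSdef
  have hSpos := hcpos S hSne
  have hDpos := hcpos _ (hDne i hi0)
  have hKpos := K_self_pos A n hn hA S hSne
  set H := Real.log ((#(D i) : ℝ) / #S) with hHdef
  set γ := Real.log (K A n S S) with hγdef
  have hγ : γ = J i + 1 / 12 * Real.exp (H / hh L) := by
    simp only [hJ, psi]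
    rw [← hSdef, ← hHdef, ← hγdef]
    ring
  have hJ0 := hJge i hi0
  have hH0 : 0 ≤ H := by
    apply Real.log_nonneg
    rw [one_le_div hSpos]
    exact_mod_cast card_le_card hSD
  have hphi : 1 ≤ Real.exp (H / hh L) := Real.one_le_exp (div_nonneg hH0 hh0.le)
  have hexp : ∀ S' : Finset G, S'.Nonempty → ∀ b : ℝ, Real.log (K A n S' S') ≤ γ + b →
      K A n S' S' ≤ K A n S S * Real.exp b := by
    intro S' hS' b hb
    rw [Real.log_le_iff_le_exp (K_self_pos A n hn hA S' hS'), Real.exp_add, hγdef,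
      Real.exp_log hKpos] at hb
    exact hb
  refine ⟨i, hik, S, ?_⟩
  refine
    { sub := hSD
      sub' := hD i hik
      ne := hSne
      card_le := hsize i hi0 (i + 1) hik
      lo := ?_
      hi := logK_le A n L hn hA hα S hSne
      hH := ?_
      grow1 := ?_
      grow2 := ?_ }
  · rw [← hγdef, hγ]; linarith
  · rw [← hγdef, ← hHdef]
    have h1 : Real.exp (H / hh L) ≤ 12 * γ := by linarith
    have h2 := Real.log_le_log (Real.exp_pos _) h1
    rw [Real.log_exp, div_le_iff₀ hh0] at h2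
    linarith
  · intro S' hS' hS'ne Δ hΔ hΔ' hcardS
    rw [← hγdef]
    apply hexp S' hS'ne
    have h1 := hSmax S' hS' hS'ne
    have h2 := log_ratio Δ hDpos hSpos (hcpos S' hS'ne) hcardS
    have h3 := compare (e := 0) (lK := Real.log (K A n S' S')) hh0 (by linarith) hγ hΔ hΔ' h2 (by
      have h4 : psi A n L (D i) S' ≤ J i := h1
      unfold psi at h4
      linarith)
    linarith
  · intro Y' hY' hY'ne Δ hΔ hΔ' hcardS
    rw [← hγdef]
    apply hexp Y' hY'ne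
    have h1 := (hM (i + 1) hik).2.2 Y' hY' hY'ne
    have hD1pos := hcpos _ (hDne (i + 1) hik)
    have h2 : Real.log ((#(D (i + 1)) : ℝ) / #Y') ≤ H + (Δ + 1 / 100) := by
      have h5 := log_ratio Δ hDpos hSpos (hcpos Y' hY'ne) hcardS
      have h6 : Real.log ((#(D (i + 1)) : ℝ) / #Y') ≤ Real.log ((#(D i) : ℝ) / #Y') + 1 / 100 := by
        rw [Real.log_div hD1pos.ne' (hcpos _ hY'ne).ne',
          Real.log_div hDpos.ne' (hcpos _ hY'ne).ne']
        have h7 := Real.log_le_log hD1pos (hsize i hi0 (i + 1) hik)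
        rw [Real.log_mul (Real.exp_pos _).ne' hDpos.ne', Real.log_exp] at h7
        linarith
      rw [← hHdef] at h5
      linarith
    have h3 := compare (e := 1 / 100) (lK := Real.log (K A n Y' Y')) hh0 (by linarith) hγ
      (by linarith : 0 ≤ Δ + 1 / 100) hΔ' h2 (by
      have h4 : psi A n L (D (i + 1)) Y' ≤ J (i + 1) := h1
      unfold psi at h4
      linarith)
    linarith

end R3
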