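import Pool.Agent.MP_0f71ae_nt.R3.Sift1

/-!
# [R3] The minimal exponent (3.2) and the start (3.3)
-/

open Finset

namespace R3

variable {G : Type*} [AddCommGroup G] [Fintype G] [DecidableEq G]

/-- [R3-S2] The minimal exponent (3.2): smallest `j ≥ 1` with `b^j ≤ Φ j`, `q = j - 1`. -/
theorem exists_ratio (Φ : ℕ → ℝ) (h0 : Φ 0 = 1) (b : ℝ) (hb : 0 < b) (p : ℕ) (hp : 1 ≤ p)
    (h : b ^ p ≤ Φ p) : ∃ q < p, b * Φ q ≤ Φ (q + 1) ∧ b ^ (q + 1) ≤ Φ (q + 1) := by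
  classical
  have hex : ∃ q, b ^ (q + 1) ≤ Φ (q + 1) := ⟨p - 1, by rw [Nat.sub_add_cancel hp]; exact h⟩
  have hspec := Nat.find_spec hex
  have hmin := fun m => @Nat.find_min _ _ hex m
  have hle : Nat.find hex ≤ p - 1 := Nat.find_min' hex (by rw [Nat.sub_add_cancel hp]; exact h)
  set q := Nat.find hex with hq
  refine ⟨q, by omega, ?_, hspec⟩
  rcases Nat.eq_zero_or_pos q with h1 | h1
  · rw [h1] at hspec ⊢
    rw [h0, mul_one]
    simpa using hspec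
  · have h2 := hmin (q - 1) (by omega)
    rw [Nat.sub_add_cancel h1] at h2
    push Not at h2
    calc b * Φ q ≤ b * b ^ q := mul_le_mul_of_nonneg_left h2.le hb.le
      _ = b ^ (q + 1) := by ring
      _ ≤ Φ (q + 1) := hspec

/-- [R3-S3] The start (3.3).
Proof. `exists_ratio` for `Φ j = Phi A n D D j`, `b = 9/5` (`Phi_zero`) gives `q < p` with
`(9/5) Φ_q ≤ Φ_{q+1}`, `(9/5)^{q+1} ≤ Φ_{q+1}`, so `Φ_{q+1} - (17/10) Φ_q ≥ (1 - 17/18) Φ_{q+1} ≥ 1/10 > 0`.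
`sift` with `S = Y = D`, `θ = 17/10` (both filters are the same set `S₀`): `17/10 ≤ K(S₀,S₀)`,
`|S₀|² ≥ |D|² 2^{-q} (|A|/n)^{2q+1} / 10 ≥ |D|² exp(-(q log 2 + (2q+1) L + log 10))`, and `q ≤ 104 L - 1`:
`½ (q log 2 + (2q+1) L + log 10) ≤ ½ (0.6932·104 L + 208 L² - L + 2.31) ≤ 104 L² + 35.6 L + 1.16 ≤ 141 L²`. -/
theorem start (A : Finset G) (n L : ℝ) (hn : 0 < n) (hL : 1 ≤ L) (hA : A.Nonempty)
    (hα : Real.exp (-L) * n ≤ #A) (D W : Finset G)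
    (hD : D.Nonempty) (hW : (#W : ℝ) ≤ 2 * n)
    (hDW : ∀ x ∈ D, ∀ w, w + x ∈ A → w ∈ W) (p : ℕ) (hp : 1 ≤ p) (hpL : (p : ℝ) ≤ 104 * L)
    (h : (9 / 5 : ℝ) ^ p ≤ Phi A n D D p) :
    ∃ S₀ ⊆ D, S₀.Nonempty ∧ 17 / 10 ≤ K A n S₀ S₀ ∧
      Real.log ((#D : ℝ) / #S₀) ≤ 141 * L ^ 2 := by
  obtain ⟨q, hqp, h1, h2⟩ := exists_ratio (fun j => Phi A n D D j) (Phi_zero A n D D hD hD) (9 / 5)
    (by norm_num) p hp h
  have hq : (q : ℝ) ≤ 104 * L - 1 := by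
    have : ((q + 1 : ℕ) : ℝ) ≤ p := by exact_mod_cast hqp
    push_cast at this
    linarith
  have h3 : (9 / 5 : ℝ) ≤ (9 / 5) ^ (q + 1) := by
    have : (1 : ℝ) ≤ (9 / 5) ^ q := one_le_pow₀ (by norm_num)
    rw [pow_succ]
    linarith
  have h4 : 1 / 10 ≤ Phi A n D D (q + 1) - 17 / 10 * Phi A n D D q := by linarith
  obtain ⟨w, hne, -, hK, hcard⟩ := sift A n hn hA D D W hD hD hW hDW q (17 / 10) (by norm_num)
    (by linarith)
  set S₀ := D.filter (fun x => ∀ i, w i + x ∈ A) with hS₀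
  refine ⟨S₀, Finset.filter_subset _ _, hne, hK, ?_⟩
  have hD0 : (0 : ℝ) < #D := by exact_mod_cast hD.card_pos
  have hS0 : (0 : ℝ) < #S₀ := by exact_mod_cast hne.card_pos
  have hA0 : (0 : ℝ) < #A := by exact_mod_cast hA.card_pos
  have hα' : Real.exp (-L) ≤ #A / n := by
    rw [le_div_iff₀ hn]
    exact hα
  have h5 : (#D : ℝ) ^ 2 * ((1 / 2) ^ q * Real.exp (-L) ^ (2 * q + 1) * (1 / 10)) ≤ (#S₀ : ℝ) ^ 2 := by
    calc (#D : ℝ) ^ 2 * ((1 / 2) ^ q * Real.exp (-L) ^ (2 * q + 1) * (1 / 10))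
        ≤ (#D : ℝ) ^ 2 * ((1 / 2) ^ q * (#A / n) ^ (2 * q + 1) *
          (Phi A n D D (q + 1) - 17 / 10 * Phi A n D D q)) := by
          gcongr
      _ = (#D * #D : ℝ) * ((1 / 2) ^ q * (#A / n) ^ (2 * q + 1) *
          (Phi A n D D (q + 1) - 17 / 10 * Phi A n D D q)) := by ring
      _ ≤ #S₀ * #S₀ := hcard
      _ = (#S₀ : ℝ) ^ 2 := by ring
  have h6 := Real.log_le_log (by positivity) h5
  rw [Real.log_mul (by positivity) (by positivity), Real.log_mul (by positivity) (by positivity),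
    Real.log_mul (by positivity) (by positivity), Real.log_pow, Real.log_pow, Real.log_pow,
    Real.log_pow, Real.log_exp, one_div, one_div, Real.log_inv, Real.log_inv] at h6
  push_cast at h6
  have h7 : Real.log 10 ≤ 4 * Real.log 2 := by
    have : Real.log 10 ≤ Real.log 16 := Real.log_le_log (by norm_num) (by norm_num)
    rwa [show (16 : ℝ) = 2 ^ 4 by norm_num, Real.log_pow] at this
  have h8 := Real.log_two_lt_d9
  have h9 := Real.log_two_gt_d9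
  rw [Real.log_div hD0.ne' hS0.ne']
  have hq0 : (0 : ℝ) ≤ q := Nat.cast_nonneg q
  have h10 : (q : ℝ) * Real.log 2 ≤ (104 * L - 1) * (6932 / 10000) := by
    apply mul_le_mul hq (by linarith) (by linarith)
    linarith
  have h11 : (2 * (q : ℝ) + 1) * L ≤ (208 * L - 1) * L :=
    mul_le_mul_of_nonneg_right (by linarith) (by linarith)
  nlinarith [mul_self_nonneg (L - 1)]

end R3
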