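import Pool.Agent.MP_0f71ae_nt.R3.Samp3
import Pool.Agent.MP_0f71ae_nt.R3.Ext1
import Pool.Agent.MP_0f71ae_nt.R3.Sift2

/-!
# [R3] The core theorem (sections 3-5 together)
-/

open Finset

namespace R3

variable {G : Type*} [AddCommGroup G] [Fintype G] [DecidableEq G]

private lemma core_log12 : Real.log 12 ≤ 5 / 2 := by
  rw [Real.log_le_iff_le_exp (by norm_num)]
  have h1 : Real.exp (5 / 2) ^ 2 = Real.exp 1 ^ 5 := by
    rw [← Real.exp_nat_mul, ← Real.exp_nat_mul]; norm_num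
  have h2 := Real.exp_one_gt_d9
  have h3 : (2.7182818283 : ℝ) ^ 5 ≤ Real.exp 1 ^ 5 := pow_le_pow_left₀ (by norm_num) h2.le 5
  have h4 : (12 : ℝ) ^ 2 ≤ Real.exp (5 / 2) ^ 2 := by
    rw [h1]; refine le_trans ?_ h3; norm_num
  exact le_of_sq_le_sq h4 (Real.exp_pos _).le

private lemma core_log1600 : Real.log 1600 ≤ 8 := by
  rw [Real.log_le_iff_le_exp (by norm_num)]
  have h1 : Real.exp 8 = Real.exp 1 ^ 8 := by
    rw [← Real.exp_nat_mul]; norm_num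
  have h2 := Real.exp_one_gt_d9
  have h3 : (2.7182818283 : ℝ) ^ 8 ≤ Real.exp 1 ^ 8 := pow_le_pow_left₀ (by norm_num) h2.le 8
  rw [h1]; refine le_trans ?_ h3; norm_num

/-- the numerics of the core theorem -/
private lemma core_num {L γ H l : ℝ} (m : ℝ) (hL : 1 ≤ L) (hγ : 3 / 10 ≤ γ) (hl : 1 ≤ l)
    (hH : H ≤ 10 ^ 10 * L ^ 2 * (7 / 2 * l)) (hH0 : 0 ≤ H)
    (hm : m ≤ 4 * (H + 1 / 100 + 8) / ((1 / 200) ^ 3 * (10 ^ 10 * L ^ 2) / (128 * γ * L)) + 1) :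
    1 + m * (H + 1 / 100) ≤ 10 ^ 22 * (1 + γ) * L ^ 3 * l ^ 2 := by
  have hL0 : 0 < L := by linarith
  have hγ0 : 0 < γ := by linarith
  have hLl : 1 ≤ L ^ 2 * l := by
    have : 1 ≤ L ^ 2 := by nlinarith
    nlinarith
  have h1 : H + 1 / 100 + 8 ≤ 36 / 10 * 10 ^ 10 * (L ^ 2 * l) := by nlinarith
  have h2 : 4 * (H + 1 / 100 + 8) / ((1 / 200) ^ 3 * (10 ^ 10 * L ^ 2) / (128 * γ * L)) =
      256 / 625 * γ / L * (H + 1 / 100 + 8) := by
    field_simp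
    ring
  rw [h2] at hm
  have h3 : 256 / 625 * γ / L * (H + 1 / 100 + 8) ≤
      256 / 625 * γ / L * (36 / 10 * 10 ^ 10 * (L ^ 2 * l)) :=
    mul_le_mul_of_nonneg_left h1 (by positivity)
  have h4 : 256 / 625 * γ / L * (36 / 10 * 10 ^ 10 * (L ^ 2 * l)) =
      (256 / 625 * 36 / 10 * 10 ^ 10) * (γ * L * l) := by
    field_simp
  have h5 : m ≤ 1 + 15 / 10 * 10 ^ 10 * (γ * L * l) := by
    have : 0 ≤ γ * L * l := by positivity
    nlinarith
  have h6 : H + 1 / 100 ≤ 36 / 10 * 10 ^ 10 * (L ^ 2 * l) := by linarith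
  have h7 : m * (H + 1 / 100) ≤
      (1 + 15 / 10 * 10 ^ 10 * (γ * L * l)) * (36 / 10 * 10 ^ 10 * (L ^ 2 * l)) := by
    refine (mul_le_mul_of_nonneg_right h5 (by linarith)).trans ?_
    exact mul_le_mul_of_nonneg_left h6 (by positivity)
  have h8 : (1 + 15 / 10 * 10 ^ 10 * (γ * L * l)) * (36 / 10 * 10 ^ 10 * (L ^ 2 * l)) =
      36 / 10 * 10 ^ 10 * (L ^ 2 * l) + 54 * 10 ^ 19 * (γ * (L ^ 3 * l ^ 2)) := by ring
  have h9 : L ^ 2 * l ≤ L ^ 3 * l ^ 2 := by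
    have e1 : L ^ 3 * l ^ 2 = (L ^ 2 * l) * (L * l) := by ring
    rw [e1]
    have : 1 ≤ L * l := by nlinarith
    nlinarith
  have h10 : 0 ≤ γ * (L ^ 3 * l ^ 2) := by positivity
  have h11 : 10 ^ 22 * (1 + γ) * L ^ 3 * l ^ 2 =
      10 ^ 22 * (L ^ 3 * l ^ 2) + 10 ^ 22 * (γ * (L ^ 3 * l ^ 2)) := by ring
  rw [h11]
  linarith

/-- [R3-C0] CORE THEOREM.
Proof.  `D i ⊆ D k` (chain).  `start` on `D 0` (`W`), `exists_extremal`, then `Extremal.sampling` with `B` and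
`m = ⌈4 (H + 1/100 + log 1600)/ℓ0⌉₊`, `H = log(|D_i|/|S|)`:
`|T|/|B| ≥ ½ (|S|/|D_{i+1}|)^m ≥ exp(-(1 + m (H + 1/100)))` (`card_le`).
Numerics (`γ = log K`, `ℒ = log(e+L) ≥ 1`, `ℓ0 = 9.765625 L/γ`): `m ≤ 1 + 0.41 γ (H + 7.4)/L`, `H ≤ 10^10 L² log(12γ)`,
`log(12γ) ≤ log 12 + log L ≤ 3.5 ℒ`: `m ≤ 1 + 1.6·10^10 γ L ℒ`, `1 + m(H+1/100) ≤ 1 + 1.7·10^10 (1+γ)Lℒ · 3.6·10^10 L²ℒ
≤ 10^22 (1+γ) L³ ℒ²`.  `T` is nonempty because `|T| ≥ (positive)·|B| > 0`. -/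
theorem core (A : Finset G) (n L : ℝ) (hn : 0 < n) (hL : 1 ≤ L) (hA : A.Nonempty)
    (hα : Real.exp (-L) * n ≤ #A) (k : ℕ) (hk : 100 * L ≤ k) (D : ℕ → Finset G)
    (hD : ∀ i < k, D i ⊆ D (i + 1)) (hD0 : (D 0).Nonempty)
    (hcard : (#(D k) : ℝ) ≤ Real.exp (1 / 100) * #(D 0))
    (W : Finset G) (hW : (#W : ℝ) ≤ 2 * n) (hDW : ∀ x ∈ D k, ∀ w, w + x ∈ A → w ∈ W)
    (p : ℕ) (hp : 1 ≤ p) (hpL : (p : ℝ) ≤ 104 * L)
    (hPhi : (9 / 5 : ℝ) ^ p ≤ Phi A n (D 0) (D 0) p)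
    (B : Finset G) (hB0 : 0 ∈ B)
    (hB : ∀ i < k, ∀ y ∈ D i, ∀ t ∈ B, ∀ t' ∈ B, y + (t' - t) ∈ D (i + 1)) :
    ∃ S ⊆ D k, S.Nonempty ∧ 3 / 10 + 1 / 12 ≤ Real.log (K A n S S) ∧
      Real.log (K A n S S) ≤ L ∧
      ∃ T ⊆ B, T.Nonempty ∧
        Real.exp (-(10 ^ 22 * (1 + Real.log (K A n S S)) * L ^ 3 *
          Real.log (Real.exp 1 + L) ^ 2)) * #B ≤ #T ∧
        ∀ t ∈ T, ∀ t' ∈ T, (1 - 1 / 25) * K A n S S * (#S : ℝ) ^ 2 ≤
          ∑ x ∈ S, ∑ y ∈ S, X A n (x + t) (y + t') := by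
  classical
  have hmono : ∀ j ≤ k, ∀ i ≤ j, D i ⊆ D j := by
    intro j
    induction j with
    | zero => intro _ i hi; rw [Nat.le_zero.1 hi]
    | succ j ih =>
      intro hj i hi
      rcases Nat.lt_or_ge i (j + 1) with h | h
      · exact (ih (by omega) i (by omega)).trans (hD j (by omega))
      · rw [le_antisymm hi h]
  have hDk : ∀ i ≤ k, D i ⊆ D k := fun i hi => hmono k le_rfl i hi
  obtain ⟨S₀, hS₀, hS₀ne, hK₀, hH₀⟩ := start A n L hn hL hA hα (D 0) W hD0 hW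
    (fun x hx w hw => hDW x (hDk 0 (Nat.zero_le _) hx) w hw) p hp hpL hPhi
  obtain ⟨i, hik, S, hE⟩ := exists_extremal A n L hn hL hA hα k hk D hD hcard S₀ hS₀ hS₀ne hK₀ hH₀
  have hSk : S ⊆ D k := hE.sub.trans (hDk i hik.le)
  set m : ℕ := ⌈4 * (Real.log ((#(D i) : ℝ) / #S) + 1 / 100 + Real.log 1600) /
    ell0 L (K A n S S)⌉₊ with hmdef
  set γ := Real.log (K A n S S) with hγdef
  set H := Real.log ((#(D i) : ℝ) / #S) with hHdef
  have hγ : 3 / 10 + 1 / 12 ≤ γ := hE.lo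
  have hγ0 : 0 < γ := by linarith
  have hL0 : 0 < L := by linarith
  have hell : 0 < ell0 L (K A n S S) := by
    unfold ell0 hh
    rw [← hγdef]
    positivity
  have hSpos : (0 : ℝ) < #S := by exact_mod_cast hE.ne.card_pos
  have hDne : (D i).Nonempty := hE.ne.mono hE.sub
  have hDpos : (0 : ℝ) < #(D i) := by exact_mod_cast hDne.card_pos
  have hD'ne : (D (i + 1)).Nonempty := hDne.mono hE.sub'
  have hD'pos : (0 : ℝ) < #(D (i + 1)) := by exact_mod_cast hD'ne.card_pos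
  have hH0 : 0 ≤ H := by
    apply Real.log_nonneg
    rw [one_le_div hSpos]
    exact_mod_cast card_le_card hE.sub
  obtain ⟨T, hTB, hTcard, hT⟩ := hE.sampling hn hL hA hα W hW
    (fun x hx w hw => hDW x (hSk hx) w hw) B hB0 (hB i hik) m (by
      have h1 := Nat.le_ceil (4 * (H + 1 / 100 + Real.log 1600) / ell0 L (K A n S S))
      rw [← hmdef, div_le_iff₀ hell] at h1
      exact h1)
  have hBpos : (0 : ℝ) < #B := by exact_mod_cast (card_pos.2 ⟨0, hB0⟩)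
  -- the size of `T`
  have hsize : Real.exp (-(1 + m * (H + 1 / 100))) ≤ (#S / #(D (i + 1)) : ℝ) ^ m / 2 := by
    have h1 : Real.exp (-(H + 1 / 100)) ≤ (#S / #(D (i + 1)) : ℝ) := by
      rw [le_div_iff₀ hD'pos]
      have h2 : Real.exp (-(H + 1 / 100)) = (#S / #(D i) : ℝ) * Real.exp (-(1 / 100)) := by
        rw [neg_add, Real.exp_add]
        congr 1
        rw [hHdef, Real.exp_neg, Real.exp_log (div_pos hDpos hSpos), inv_div]
      rw [h2]
      calc (#S / #(D i) : ℝ) * Real.exp (-(1 / 100)) * #(D (i + 1))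
          ≤ (#S / #(D i) : ℝ) * Real.exp (-(1 / 100)) * (Real.exp (1 / 100) * #(D i)) :=
            mul_le_mul_of_nonneg_left hE.card_le (by positivity)
        _ = #S * (Real.exp (-(1 / 100)) * Real.exp (1 / 100)) := by
            field_simp
        _ = #S := by rw [← Real.exp_add]; simp
    have h3 : Real.exp (-(H + 1 / 100)) ^ m ≤ (#S / #(D (i + 1)) : ℝ) ^ m :=
      pow_le_pow_left₀ (Real.exp_pos _).le h1 m
    have h4 : Real.exp (-(1 + m * (H + 1 / 100))) =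
        Real.exp (-1) * Real.exp (-(H + 1 / 100)) ^ m := by
      rw [← Real.exp_nat_mul, ← Real.exp_add]
      congr 1
      ring
    have h5 : Real.exp (-1) ≤ 1 / 2 := by
      rw [Real.exp_neg, one_div]
      refine inv_anti₀ (by norm_num) ?_
      have := Real.exp_one_gt_d9
      linarith
    rw [h4]
    have h6 : 0 < Real.exp (-(H + 1 / 100)) ^ m := by positivity
    calc Real.exp (-1) * Real.exp (-(H + 1 / 100)) ^ m
        ≤ 1 / 2 * Real.exp (-(H + 1 / 100)) ^ m := mul_le_mul_of_nonneg_right h5 h6.le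
      _ ≤ 1 / 2 * (#S / #(D (i + 1)) : ℝ) ^ m := mul_le_mul_of_nonneg_left h3 (by norm_num)
      _ = _ := by ring
  -- numerics
  set l := Real.log (Real.exp 1 + L) with hl
  have hl1 : 1 ≤ l := by
    rw [hl, Real.le_log_iff_exp_le (by positivity)]
    linarith
  have hlog12 : Real.log (12 * γ) ≤ 7 / 2 * l := by
    rw [Real.log_mul (by norm_num) hγ0.ne']
    have h1 := core_log12
    have h2 : Real.log γ ≤ l := by
      rw [hl]
      refine Real.log_le_log hγ0 ?_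
      have := hE.hi
      have h3 := Real.exp_pos (1 : ℝ)
      linarith
    linarith
  have hHle : H ≤ 10 ^ 10 * L ^ 2 * (7 / 2 * l) := by
    have h1 := hE.hH
    rw [← hγdef, ← hHdef] at h1
    refine h1.trans ?_
    unfold hh
    exact mul_le_mul_of_nonneg_left hlog12 (by positivity)
  have hmle : (m : ℝ) ≤ 4 * (H + 1 / 100 + 8) /
      ((1 / 200) ^ 3 * (10 ^ 10 * L ^ 2) / (128 * γ * L)) + 1 := by
    have h1 : (m : ℝ) < 4 * (H + 1 / 100 + Real.log 1600) / ell0 L (K A n S S) + 1 := by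
      rw [hmdef]
      apply Nat.ceil_lt_add_one
      have : 0 ≤ Real.log 1600 := Real.log_nonneg (by norm_num)
      positivity
    have h2 : ell0 L (K A n S S) = (1 / 200) ^ 3 * (10 ^ 10 * L ^ 2) / (128 * γ * L) := by
      unfold ell0 hh; rw [← hγdef]
    rw [h2] at h1
    refine h1.le.trans ?_
    have h3 : 0 < (1 / 200) ^ 3 * (10 ^ 10 * L ^ 2) / (128 * γ * L) := by positivity
    have h4 := core_log1600
    have h5 : 4 * (H + 1 / 100 + Real.log 1600) ≤ 4 * (H + 1 / 100 + 8) := by linarith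
    have h6 := div_le_div_of_nonneg_right h5 h3.le
    linarith
  have hnum := core_num (m : ℝ) hL (by linarith : 3 / 10 ≤ γ) hl1 hHle hH0 hmle
  refine ⟨S, hSk, hE.ne, hγ, hE.hi, T, hTB, ?_, ?_, hT⟩
  · have h1 : (0 : ℝ) < #T := by
      refine lt_of_lt_of_le ?_ hTcard
      positivity
    exact card_pos.1 (by exact_mod_cast h1)
  · refine le_trans ?_ hTcard
    rw [mul_comm]
    refine mul_le_mul_of_nonneg_left ?_ hBpos.le
    refine le_trans ?_ hsize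
    apply Real.exp_le_exp.2
    linarith

end R3
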