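import Mathlib

/-!
# [R3] Definitions: the kernel `X`, the averages `K`, `Phi`, Bohr sets

Project `R3` (problem MP_0f71ae_nt): `r_3(N) ≤ N exp(-c (log N)^{1/5} / (log log N)^{3/5})`.
-/

open Finset

namespace R3

variable {G : Type*} [AddCommGroup G] [Fintype G] [DecidableEq G]

/-- `cnt A x y = #{w : w + x ∈ A, w + y ∈ A}`. -/
def cnt (A : Finset G) (x y : G) : ℕ := #{w : G | w + x ∈ A ∧ w + y ∈ A}

/-- The kernel `X(x,y) = (n/|A|²) #{w : w + x ∈ A, w + y ∈ A} = (1/n) ∑_w f(w+x) f(w+y)`,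
`f = (n/|A|) 1_A`. -/
noncomputable def X (A : Finset G) (n : ℝ) (x y : G) : ℝ := n / (#A : ℝ) ^ 2 * cnt A x y

/-- `K(S,Y) = avg_{x ∈ S, y ∈ Y} X(x,y)`. -/
noncomputable def K (A : Finset G) (n : ℝ) (S Y : Finset G) : ℝ :=
  (∑ x ∈ S, ∑ y ∈ Y, X A n x y) / (#S * #Y)

/-- `Phi_j = avg_{x ∈ S, y ∈ Y} X(x,y)^j`. -/
noncomputable def Phi (A : Finset G) (n : ℝ) (S Y : Finset G) (j : ℕ) : ℝ :=
  (∑ x ∈ S, ∑ y ∈ Y, X A n x y ^ j) / (#S * #Y)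

/-- The Bohr set `{x : |γ(x) - 1| ≤ ρ for all γ ∈ Γ}`. -/
noncomputable def bohr (Γ : Finset (AddChar G ℂ)) (ρ : ℝ) : Finset G :=
  {x : G | ∀ γ ∈ Γ, ‖γ x - 1‖ ≤ ρ}

end R3
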