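import Pool.Agent.MP_0f71ae_nt.R3.FDefs

/-!
# [R3] The final real analysis, for general exponents `1/k`, `b/k`
-/

open Finset Filter Topology

namespace R3

theorem eg_tendsto (k b : ℕ) (hk : 1 ≤ k) :
    Tendsto (fun x : ℝ => x ^ (1 / (k : ℝ)) / Real.log x ^ ((b : ℝ) / k)) atTop atTop := by
  have hk0 : (0 : ℝ) < k := by exact_mod_cast hk
  have h1 : (fun x : ℝ => Real.log x ^ ((b : ℝ) / k)) =o[atTop] fun x : ℝ => x ^ (1 / (k : ℝ)) :=
    isLittleO_log_rpow_rpow_atTop _ (by positivity)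
  have h2 := h1.tendsto_div_nhds_zero
  have h3 : ∀ᶠ x : ℝ in atTop, 0 < Real.log x ^ ((b : ℝ) / k) / x ^ (1 / (k : ℝ)) := by
    filter_upwards [eventually_gt_atTop (1 : ℝ)] with x hx
    have := Real.log_pos hx
    have : 0 < x := by linarith
    positivity
  have h4 : Tendsto (fun x : ℝ => Real.log x ^ ((b : ℝ) / k) / x ^ (1 / (k : ℝ))) atTop (𝓝[>] 0) :=
    tendsto_nhdsWithin_iff.2 ⟨h2, h3⟩
  have h5 := h4.inv_tendsto_nhdsGT_zero
  refine h5.congr fun x => ?_
  simp only [Pi.inv_apply, inv_div]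

/-- The final analysis.  If `log(2N+1) ≤ C L^k log(e+L)^b` whenever `r(N) ≥ e^{1-L}(2N+1)`, then
`r(N) ≤ N exp(-c (log N)^{1/k} / (log log N)^{b/k})`. -/
theorem endgame (k b : ℕ) (hk : 1 ≤ k) (C : ℝ) (hC : 1 ≤ C) (r : ℕ → ℝ)
    (h : ∀ N : ℕ, 1 ≤ N → ∀ L : ℝ, 1 ≤ L → Real.exp (1 - L) * (2 * N + 1) ≤ r N →
      Real.log (2 * N + 1) ≤ C * L ^ k * ll L ^ b) :
    ∃ c : ℝ, 0 < c ∧ ∃ N₀ : ℕ, ∀ N : ℕ, N₀ ≤ N →
      r N ≤ N * Real.exp (-c * Real.log N ^ (1 / (k : ℝ)) /
        Real.log (Real.log N) ^ ((b : ℝ) / k)) := by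
  have hk0 : (0 : ℝ) < k := by exact_mod_cast hk
  have hk00 : k ≠ 0 := by omega
  obtain ⟨c, hc⟩ : ∃ c : ℝ, c = 1 / (4 * C) := ⟨_, rfl⟩
  have hc0 : 0 < c := by rw [hc]; positivity
  have hc4 : c ≤ 1 / 4 := by
    rw [hc]
    apply one_div_le_one_div_of_le (by norm_num)
    linarith
  have h2c : C * (2 * c) ^ k ≤ 1 := by
    have h1 : (2 * c) ^ k ≤ (2 * c) ^ 1 := pow_le_pow_of_le_one (by positivity) (by linarith) hk
    calc C * (2 * c) ^ k ≤ C * (2 * c) ^ 1 := by gcongr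
      _ = 1 / 2 := by rw [hc]; field_simp; norm_num
      _ ≤ 1 := by norm_num
  set E : ℝ → ℝ := fun x => x ^ (1 / (k : ℝ)) / Real.log x ^ ((b : ℝ) / k) with hE
  have hEt : Tendsto E atTop atTop := eg_tendsto k b hk
  have hlogN : Tendsto (fun N : ℕ => Real.log (N : ℝ)) atTop atTop :=
    Real.tendsto_log_atTop.comp tendsto_natCast_atTop_atTop
  have hev : ∀ᶠ N : ℕ in atTop, 3 / c ≤ E (Real.log N) ∧ 6 ≤ Real.log (N : ℝ) ∧ 1 ≤ N := by
    have e1 := (hEt.comp hlogN).eventually_ge_atTop (3 / c)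
    have e2 := hlogN.eventually_ge_atTop 6
    filter_upwards [e1, e2, eventually_ge_atTop 1] with N h1 h2 h3
    exact ⟨h1, h2, h3⟩
  obtain ⟨N₀, hN₀⟩ := eventually_atTop.1 hev
  refine ⟨c, hc0, N₀, fun N hN => ?_⟩
  obtain ⟨hE3, hx6, hN1⟩ := hN₀ N hN
  have hexp : -c * Real.log N ^ (1 / (k : ℝ)) / Real.log (Real.log N) ^ ((b : ℝ) / k) =
      -(c * E (Real.log N)) := by
    simp only [hE]; ring
  rw [hexp]
  by_contra hcon
  push Not at hcon
  set x : ℝ := Real.log (N : ℝ) with hx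
  have hx0 : 0 < x := by linarith
  have hlx : 1 ≤ Real.log x := by
    rw [Real.le_log_iff_exp_le hx0]
    have := Real.exp_one_lt_d9
    linarith
  have hcE : 3 ≤ c * E x := by
    rw [div_le_iff₀ hc0] at hE3
    linarith
  set L : ℝ := 3 + c * E x with hL
  have hL1 : 1 ≤ L := by linarith
  have hN0 : (1 : ℝ) ≤ N := by exact_mod_cast hN1
  have h1 : Real.exp (1 - L) * (2 * N + 1) ≤ r N := by
    refine le_trans ?_ hcon.le
    have e1 : Real.exp (1 - L) = Real.exp (-2) * Real.exp (-(c * E x)) := by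
      rw [← Real.exp_add]; congr 1; rw [hL]; ring
    have e2 : Real.exp (-2 : ℝ) ≤ 1 / 3 := by
      rw [Real.exp_neg]
      rw [inv_le_comm₀ (Real.exp_pos _) (by norm_num)]
      have := Real.add_one_le_exp (2 : ℝ)
      norm_num
      linarith
    rw [e1]
    have e3 : 0 < Real.exp (-(c * E x)) := Real.exp_pos _
    calc Real.exp (-2) * Real.exp (-(c * E x)) * (2 * N + 1)
        ≤ 1 / 3 * Real.exp (-(c * E x)) * (3 * N) := by
          gcongr
          linarith
      _ = N * Real.exp (-(c * E x)) := by ring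
  have h2 := h N hN1 L hL1 h1
  have hEx : E x ≤ x := by
    simp only [hE]
    rw [div_le_iff₀ (by positivity)]
    have e1 : x ^ (1 / (k : ℝ)) ≤ x := by
      calc x ^ (1 / (k : ℝ)) ≤ x ^ (1 : ℝ) := by
            apply Real.rpow_le_rpow_of_exponent_le (by linarith)
            rw [div_le_one hk0]
            exact_mod_cast hk
        _ = x := Real.rpow_one x
    have e2 : 1 ≤ Real.log x ^ ((b : ℝ) / k) := Real.one_le_rpow hlx (by positivity)
    calc x ^ (1 / (k : ℝ)) ≤ x * 1 := by linarith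
      _ ≤ x * Real.log x ^ ((b : ℝ) / k) := by gcongr
  have hE0 : 0 ≤ E x := by
    have := div_pos (show (0 : ℝ) < 3 by norm_num) hc0
    linarith
  have hL2 : L ≤ 2 * c * E x := by rw [hL]; linarith
  have hll : ll L ≤ Real.log x := by
    unfold ll
    apply Real.log_le_log (by positivity)
    have := Real.exp_one_lt_d9
    have h3 : 2 * c * E x ≤ x / 2 := by
      calc 2 * c * E x ≤ 2 * (1 / 4) * x := by gcongr
        _ = x / 2 := by ring
    linarith
  have hll0 : 0 ≤ ll L := by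
    have := one_lt_ll hL1
    linarith
  have hEk : E x ^ k * Real.log x ^ b = x := by
    simp only [hE]
    rw [div_pow, ← Real.rpow_natCast (x ^ (1 / (k : ℝ))) k, ← Real.rpow_mul hx0.le,
      one_div_mul_cancel hk0.ne', Real.rpow_one,
      ← Real.rpow_natCast (Real.log x ^ ((b : ℝ) / k)) k, ← Real.rpow_mul (by linarith),
      div_mul_cancel₀ _ hk0.ne', Real.rpow_natCast]
    have : Real.log x ^ b ≠ 0 := by positivity
    field_simp
  have h3 : C * L ^ k * ll L ^ b ≤ x := by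
    calc C * L ^ k * ll L ^ b ≤ C * (2 * c * E x) ^ k * Real.log x ^ b := by gcongr
      _ = (C * (2 * c) ^ k) * (E x ^ k * Real.log x ^ b) := by ring
      _ ≤ 1 * (E x ^ k * Real.log x ^ b) := by
          apply mul_le_mul_of_nonneg_right h2c
          rw [hEk]; exact hx0.le
      _ = x := by rw [one_mul, hEk]
  have h4 : x < Real.log (2 * N + 1) := by
    rw [hx]
    apply Real.log_lt_log (by linarith)
    linarith
  linarith

end R3
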