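import Pool.Agent.MP_0f71ae_nt.R3.Basic

/-!
# [R3] Definitions for the extremal set (section 4)
-/

open Finset

namespace R3

variable {G : Type*} [AddCommGroup G] [Fintype G] [DecidableEq G]

/-- `h0 = 10^10 L²` -/
noncomputable def hh (L : ℝ) : ℝ := 10 ^ 10 * L ^ 2

/-- `S ⊆ D ⊆ D'` is extremal: it (nearly) maximises `log K(S) - (1/12) exp(log(|D|/|S|)/h0)`.
We only record the consequences that are used. -/
structure Extremal (A : Finset G) (n L : ℝ) (D D' S : Finset G) : Prop where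
  sub : S ⊆ D
  sub' : D ⊆ D'
  ne : S.Nonempty
  card_le : (#D' : ℝ) ≤ Real.exp (1 / 100) * #D
  lo : 3 / 10 + 1 / 12 ≤ Real.log (K A n S S)
  hi : Real.log (K A n S S) ≤ L
  hH : Real.log ((#D : ℝ) / #S) ≤ hh L * Real.log (12 * Real.log (K A n S S))
  grow1 : ∀ S' ⊆ D, S'.Nonempty → ∀ Δ : ℝ, 0 ≤ Δ → Δ ≤ hh L →
    Real.exp (-Δ) * #S ≤ #S' →
    K A n S' S' ≤ K A n S S * Real.exp (2 * Real.log (K A n S S) / hh L * Δ)
  grow2 : ∀ Y' ⊆ D', Y'.Nonempty → ∀ Δ : ℝ, 0 ≤ Δ → Δ + 1 / 100 ≤ hh L →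
    Real.exp (-Δ) * #S ≤ #Y' →
    K A n Y' Y' ≤ K A n S S *
      Real.exp (1 / 100 + 2 * Real.log (K A n S S) / hh L * (Δ + 1 / 100))

/-- `ℓ0 = δ1³ h0 / (128 γ L)` with `δ1 = 1/200`, `γ = log K` -/
noncomputable def ell0 (L K : ℝ) : ℝ := (1 / 200) ^ 3 * hh L / (128 * Real.log K * L)

/-- the exceptional set of (iii) -/
noncomputable def badSet (A : Finset G) (n L : ℝ) (D' S : Finset G) : Finset G :=
  D'.filter (fun y => K A n S {y} ≤ (1 - 1 / 50) * K A n S S ∧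
    Real.exp (-ell0 L (K A n S S)) * #S ≤
      #(S.filter (fun x => (1 - 1 / 200) * K A n S S ≤ X A n x y)))

end R3
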