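import Pool.Agent.MP_0f71ae_nt.R3.Ext0

/-!
# [R3] 4.1 (i)
-/

open Finset

namespace R3

variable {G : Type*} [AddCommGroup G] [Fintype G] [DecidableEq G]

variable {A : Finset G} {n L : ℝ} {D D' S : Finset G}

private theorem ext2_hh_bounds (hL : 1 ≤ L) :
    10 ^ 10 ≤ hh L ∧ 10 ^ 10 * L ≤ hh L := by
  unfold hh
  constructor
  · nlinarith
  · nlinarith

private theorem ext2_exp_bound (hL : 1 ≤ L) :
    hh L * Real.exp (L - hh L) ≤ 3 / 10 := by
  obtain ⟨h1, h2⟩ := ext2_hh_bounds (L := L) hL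
  set h := hh L with hdef
  have hpos : 0 < h := by linarith
  have hx : h / 2 ≤ h - L := by linarith
  have h3 : (h / 2) ^ 2 / 2 ≤ Real.exp (h - L) := by
    have h4 := Real.quadratic_le_exp_of_nonneg (x := h / 2) (by linarith)
    have h5 : Real.exp (h / 2) ≤ Real.exp (h - L) := Real.exp_le_exp.mpr hx
    nlinarith
  have h6 : Real.exp (L - h) = (Real.exp (h - L))⁻¹ := by
    rw [← Real.exp_neg]; congr 1; ring
  rw [h6, ← div_eq_mul_inv, div_le_iff₀ (Real.exp_pos _)]
  nlinarith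

private theorem ext2_sdiff (S₁ : Finset G) (h₁ : S₁ ⊆ S) :
    (∑ x ∈ S \ S₁, ∑ y ∈ S \ S₁, X A n x y =
      (∑ x ∈ S, ∑ y ∈ S, X A n x y) - 2 * (∑ x ∈ S₁, ∑ y ∈ S, X A n x y) +
        ∑ x ∈ S₁, ∑ y ∈ S₁, X A n x y) ∧
    (∑ x ∈ S \ S₁, ∑ y ∈ S, X A n x y =
      (∑ x ∈ S, ∑ y ∈ S, X A n x y) - ∑ x ∈ S₁, ∑ y ∈ S, X A n x y) := by
  have e1 : ∑ x ∈ S \ S₁, ∑ y ∈ S, X A n x y + ∑ x ∈ S₁, ∑ y ∈ S, X A n x y =
      ∑ x ∈ S, ∑ y ∈ S, X A n x y := Finset.sum_sdiff h₁
  have e2 : ∑ x ∈ S \ S₁, ∑ y ∈ S, X A n x y =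
      ∑ x ∈ S \ S₁, ∑ y ∈ S \ S₁, X A n x y + ∑ x ∈ S \ S₁, ∑ y ∈ S₁, X A n x y := by
    rw [← Finset.sum_add_distrib]
    exact Finset.sum_congr rfl fun x _ => (Finset.sum_sdiff h₁).symm
  have e3 : ∑ x ∈ S \ S₁, ∑ y ∈ S₁, X A n x y = ∑ x ∈ S₁, ∑ y ∈ S \ S₁, X A n x y := by
    rw [Finset.sum_comm]
    exact Finset.sum_congr rfl fun x _ => Finset.sum_congr rfl fun y _ => X_comm A n y x
  have e4 : ∑ x ∈ S₁, ∑ y ∈ S, X A n x y =
      ∑ x ∈ S₁, ∑ y ∈ S \ S₁, X A n x y + ∑ x ∈ S₁, ∑ y ∈ S₁, X A n x y := by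
    rw [← Finset.sum_add_distrib]
    exact Finset.sum_congr rfl fun x _ => (Finset.sum_sdiff h₁).symm
  constructor
  · linarith
  · linarith

/-- [R3-E2] 4.1 (i): `K(S₁,S) ≥ (1 - γ/h0) K` for nonempty `S₁ ⊆ S` (`K = K(S,S)`, `γ = log K`, `h0 = hh L`).
Proof.  If `S₁ = S` trivial (`γ ≥ 0`, `h0 > 0`).  Otherwise `β = |S₁|/|S| ∈ (0,1)`, `S₂ = S \ S₁` nonempty.  Write
`K(S₁,S) = (1-u) K`.  `|S| k_S = |S₁| k_{S₁} + |S₂| k_{S₂}`, so (bilinearity, `card_mul_K` on sums)
`(1-β)² K(S₂) = K - 2β K(S₁,S) + β² K(S₁)` and `K(S₁) K ≥ K(S₁,S)²` (`K_cs`), hence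
`(1-β)² K(S₂) ≥ K (1 - β(1-u))²`.
Case `1-β ≥ e^{-h0}`: `grow1` with `Δ = -log(1-β)` gives `K(S₂) ≤ K (1-β)^{-2γ/h0}`, so with `s = 1 - γ/h0 ∈ (0,1]`
(`γ ≤ L ≤ h0`): `1 - β(1-u) ≤ (1-β)^s ≤ 1 - sβ` (concavity/Bernoulli: `rpow_one_add_le_one_add_mul_self` or
`Real.one_sub..`), i.e. `1-u ≥ s`.   (If `1 - β(1-u) < 0` then `1-u > 1` and we are done.)
Case `1-β < e^{-h0}`: `|S₁||S| K(S₁,S) = |S|² K - |S₂||S| K(S₂,S) ≥ |S|² K - |S₂||S| e^L`, so
`K(S₁,S) ≥ β K(S₁,S) ≥ K - (1-β) e^L ≥ K - e^{L-h0} ≥ K - γ K/h0` because `γ K ≥ 3/10` and `e^{L - h0} ≤ (3/10)/h0`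
(`h0 = 10^10 L²`, `L ≥ 1`: e.g. `e^{h0 - L} ≥ e^{h0/2} ≥ (h0/2)²/2`). -/
theorem Extremal.sub_inner (hE : Extremal A n L D D' S) (hn : 0 < n) (hL : 1 ≤ L)
    (hA : A.Nonempty) (hα : Real.exp (-L) * n ≤ #A) (S₁ : Finset G) (h₁ : S₁ ⊆ S)
    (hne : S₁.Nonempty) :
    (1 - Real.log (K A n S S) / hh L) * K A n S S ≤ K A n S₁ S := by
  classical
  obtain ⟨hh1, hh2⟩ := ext2_hh_bounds (L := L) hL
  have hhexp := ext2_exp_bound (L := L) hL
  have hKpos : 0 < K A n S S := K_self_pos A n hn hA S hE.ne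
  have hγ0 : 3 / 10 + 1 / 12 ≤ Real.log (K A n S S) := hE.lo
  have hγL : Real.log (K A n S S) ≤ L := hE.hi
  have hKexp : Real.exp (Real.log (K A n S S)) = K A n S S := Real.exp_log hKpos
  have hg1 := hE.grow1 (S \ S₁) ((sdiff_subset).trans hE.sub)
  set h := hh L with hdef
  set γ := Real.log (K A n S S) with hγdef
  set K0 := K A n S S with hK0
  have hpos : 0 < h := by linarith
  have hK1 : 1 ≤ K0 := by
    rw [← hKexp]; exact Real.one_le_exp (by linarith)
  have hb : (0 : ℝ) < #S := by exact_mod_cast hE.ne.card_pos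
  have ha : (0 : ℝ) < #S₁ := by exact_mod_cast hne.card_pos
  by_cases hSS : S₁ = S
  · rw [hSS]
    have : 0 ≤ γ / h := by positivity
    nlinarith
  -- sdiff nonempty
  have hS₂ne : (S \ S₁).Nonempty := by
    rw [Finset.sdiff_nonempty]
    intro hsub
    exact hSS (Finset.Subset.antisymm h₁ hsub)
  have hc : (0 : ℝ) < #(S \ S₁) := by exact_mod_cast hS₂ne.card_pos
  have hcard : (#(S \ S₁) : ℝ) = #S - #S₁ := by
    rw [Finset.card_sdiff_of_subset h₁, Nat.cast_sub (Finset.card_le_card h₁)]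
  have hab : (#S₁ : ℝ) ≤ #S := by exact_mod_cast Finset.card_le_card h₁
  obtain ⟨e1, e2⟩ := ext2_sdiff (A := A) (n := n) S₁ h₁
  rw [← card_mul_K, ← card_mul_K, ← card_mul_K, ← card_mul_K, ← hK0] at e1
  rw [← card_mul_K, ← card_mul_K, ← card_mul_K, ← hK0] at e2
  have hcs := K_cs A n hn S₁ S
  rw [← hK0] at hcs
  have hK1nn : 0 ≤ K A n S₁ S := K_nonneg A n hn S₁ S
  set K1 := K A n S₁ S with hK1def
  set K11 := K A n S₁ S₁ with hK11def
  set K2 := K A n (S \ S₁) (S \ S₁) with hK2def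
  set a : ℝ := ((#S₁ : ℕ) : ℝ) with hadef
  set b : ℝ := ((#S : ℕ) : ℝ) with hbdef
  set c : ℝ := ((#(S \ S₁) : ℕ) : ℝ) with hcdef
  by_cases hcase : Real.exp (-h) * b ≤ c
  · -- growth
    have hΔ0 : 0 ≤ Real.log (b / c) := Real.log_nonneg (by
      rw [le_div_iff₀ hc]; linarith)
    have hΔh : Real.log (b / c) ≤ h := by
      have : b / c ≤ Real.exp h := by
        rw [div_le_iff₀ hc]
        have h1 : Real.exp h * (Real.exp (-h) * b) ≤ Real.exp h * c :=
          mul_le_mul_of_nonneg_left hcase (Real.exp_pos _).le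
        rw [← mul_assoc, ← Real.exp_add, add_neg_cancel, Real.exp_zero, one_mul] at h1
        exact h1
      calc Real.log (b / c) ≤ Real.log (Real.exp h) := Real.log_le_log (by positivity) this
        _ = h := Real.log_exp h
    have hg := hg1 hS₂ne (Real.log (b / c)) hΔ0 hΔh (by
      rw [Real.exp_neg, Real.exp_log (by positivity)]
      have : (b / c)⁻¹ * b = c := by field_simp
      exact this.le)
    -- K2 ≤ K0 exp(2γ/h log(b/c))
    set s := 1 - γ / h with hs
    have hs1 : s ≤ 1 := by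
      have : 0 ≤ γ / h := by positivity
      linarith
    have hs0 : 0 ≤ s := by
      have : γ / h ≤ 1 := by
        rw [div_le_one hpos]; linarith
      linarith
    -- quadratics
    have hq : K0 * (b * K0 - a * K1) ^ 2 ≤ K0 * (K0 * c) ^ 2 * Real.exp (2 * γ / h * Real.log (b / c)) := by
      have t1 : c * c * K2 = b * b * K0 - 2 * (a * b * K1) + a * a * K11 := e1
      have t2 : a * a * (K1 ^ 2) ≤ a * a * (K11 * K0) :=
        mul_le_mul_of_nonneg_left hcs (by positivity)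
      have t3 : K0 * (c * c * K2) ≤ K0 * (c * c * (K0 * Real.exp (2 * γ / h * Real.log (b / c)))) := by
        apply mul_le_mul_of_nonneg_left _ hKpos.le
        apply mul_le_mul_of_nonneg_left hg (by positivity)
      have t4 : (b * K0 - a * K1) ^ 2 ≤ K0 * (c * c * K2) := by
        rw [t1]; nlinarith
      have t5 : K0 * (b * K0 - a * K1) ^ 2 ≤ K0 * (K0 * (c * c * K2)) :=
        mul_le_mul_of_nonneg_left t4 hKpos.le
      calc K0 * (b * K0 - a * K1) ^ 2 ≤ K0 * (K0 * (c * c * K2)) := t5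
        _ ≤ K0 * (K0 * (c * c * (K0 * Real.exp (2 * γ / h * Real.log (b / c))))) :=
            mul_le_mul_of_nonneg_left t3 hKpos.le
        _ = K0 * (K0 * c) ^ 2 * Real.exp (2 * γ / h * Real.log (b / c)) := by ring
    have hq2 : (b * K0 - a * K1) ^ 2 ≤ (K0 * c * Real.exp (γ / h * Real.log (b / c))) ^ 2 := by
      have : K0 * (b * K0 - a * K1) ^ 2 ≤ K0 * (K0 * c * Real.exp (γ / h * Real.log (b / c))) ^ 2 := by
        calc _ ≤ _ := hq
          _ = _ := by
            have hee : Real.exp (2 * γ / h * Real.log (b / c)) =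
                Real.exp (γ / h * Real.log (b / c)) ^ 2 := by
              rw [← Real.exp_nat_mul]
              congr 1
              push_cast
              ring
            rw [hee]
            ring
      exact le_of_mul_le_mul_left this hKpos
    have hq3 : b * K0 - a * K1 ≤ K0 * c * Real.exp (γ / h * Real.log (b / c)) :=
      le_of_sq_le_sq hq2 (by positivity)
    -- rpow: c * exp(γ/h log(b/c)) = b * (c/b)^s ≤ b (1 - s β)
    have hbern : c * Real.exp (γ / h * Real.log (b / c)) ≤ b - s * a := by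
      have hcb : 0 < c / b := by positivity
      have r1 : c * Real.exp (γ / h * Real.log (b / c)) = b * (c / b) ^ s := by
        rw [Real.rpow_def_of_pos hcb]
        have l1 : Real.log (b / c) = - Real.log (c / b) := by
          rw [← Real.log_inv, inv_div]
        have l2 : c = b * Real.exp (Real.log (c / b)) := by
          rw [Real.exp_log hcb]; field_simp
        rw [l1]
        conv_lhs => rw [l2]
        rw [mul_assoc, ← Real.exp_add]
        congr 2
        rw [hs]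
        conv_rhs => rw [mul_sub, mul_one]
        rw [Real.exp_log hcb]
        have : b * (c / b) = c := by field_simp
        rw [this]
        ring
      have r2 : (c / b) ^ s ≤ 1 + s * (c / b - 1) := by
        have := rpow_one_add_le_one_add_mul_self (s := c / b - 1) (by linarith) hs0 hs1
        simpa using this
      rw [r1]
      calc b * (c / b) ^ s ≤ b * (1 + s * (c / b - 1)) := mul_le_mul_of_nonneg_left r2 hb.le
        _ = b + s * (c - b) := by field_simp
        _ = b - s * a := by rw [hcard]; ring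
    have hfin : K0 * (c * Real.exp (γ / h * Real.log (b / c))) ≤ K0 * (b - s * a) :=
      mul_le_mul_of_nonneg_left hbern hKpos.le
    have : a * (s * K0) ≤ a * K1 := by nlinarith
    exact le_of_mul_le_mul_left this ha
  · -- tiny complement
    push Not at hcase
    have hKle : K A n (S \ S₁) S ≤ Real.exp L := by
      refine (K_le A n hn hA _ _).trans ?_
      have hA0 : (0 : ℝ) < #A := by exact_mod_cast hA.card_pos
      rw [div_le_iff₀ hA0]
      have h1 : Real.exp L * (Real.exp (-L) * n) ≤ Real.exp L * #A :=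
        mul_le_mul_of_nonneg_left hα (Real.exp_pos _).le
      rw [← mul_assoc, ← Real.exp_add, add_neg_cancel, Real.exp_zero, one_mul] at h1
      exact h1
    have t1 : c * b * K A n (S \ S₁) S = b * b * K0 - a * b * K1 := e2
    have t2 : c * b * K A n (S \ S₁) S ≤ c * b * Real.exp L :=
      mul_le_mul_of_nonneg_left hKle (by positivity)
    have t3 : b * (b * K0 - a * K1) ≤ b * (c * Real.exp L) := by nlinarith
    have t4 : b * K0 - a * K1 ≤ c * Real.exp L := le_of_mul_le_mul_left t3 hb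
    have t5 : c * Real.exp L ≤ Real.exp (-h) * b * Real.exp L :=
      mul_le_mul_of_nonneg_right hcase.le (Real.exp_pos _).le
    have t6 : Real.exp (-h) * b * Real.exp L = b * Real.exp (L - h) := by
      rw [sub_eq_add_neg, Real.exp_add]; ring
    have t7 : a * K1 ≤ b * K1 := mul_le_mul_of_nonneg_right hab hK1nn
    have t8 : b * (K0 - Real.exp (L - h)) ≤ b * K1 := by nlinarith
    have t9 : K0 - Real.exp (L - h) ≤ K1 := le_of_mul_le_mul_left t8 hb
    have t10 : Real.exp (L - h) ≤ γ / h * K0 := by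
      have : γ / h * K0 = (γ * K0) / h := by ring
      rw [this, le_div_iff₀ hpos]
      nlinarith
    nlinarith

end R3
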