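import Pool.Agent.MP_0f71ae_nt.R3.Basic

/-!
# [R3] Sifting lemma for pairs (3.1)
-/

open Finset

namespace R3

variable {G : Type*} [AddCommGroup G] [Fintype G] [DecidableEq G]

private theorem s1_exchange (A S Y : Finset G) (q : ℕ) (h : G → G → ℝ) :
    ∑ w : Fin q → G, ∑ x ∈ S.filter (fun x => ∀ i, w i + x ∈ A),
      ∑ y ∈ Y.filter (fun y => ∀ i, w i + y ∈ A), h x y =
    ∑ x ∈ S, ∑ y ∈ Y, h x y * (cnt A x y : ℝ) ^ q := by
  have hind : ∀ (w : Fin q → G) (x : G),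
      (∏ i, if w i + x ∈ A then (1 : ℝ) else 0) = if ∀ i, w i + x ∈ A then 1 else 0 := by
    intro w x
    by_cases hx : ∀ i, w i + x ∈ A
    · rw [if_pos hx]
      exact Finset.prod_eq_one fun i _ => if_pos (hx i)
    · rw [if_neg hx]
      push Not at hx
      obtain ⟨i, hi⟩ := hx
      exact Finset.prod_eq_zero (Finset.mem_univ i) (if_neg hi)
  have h1 : ∀ w : Fin q → G, ∑ x ∈ S.filter (fun x => ∀ i, w i + x ∈ A),
      ∑ y ∈ Y.filter (fun y => ∀ i, w i + y ∈ A), h x y =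
      ∑ x ∈ S, ∑ y ∈ Y, h x y * ∏ i, ((if w i + x ∈ A then (1 : ℝ) else 0) *
        (if w i + y ∈ A then (1 : ℝ) else 0)) := by
    intro w
    rw [Finset.sum_filter]
    refine Finset.sum_congr rfl fun x _ => ?_
    rw [Finset.sum_filter]
    by_cases hx : ∀ i, w i + x ∈ A
    · rw [if_pos hx]
      refine Finset.sum_congr rfl fun y _ => ?_
      rw [Finset.prod_mul_distrib, hind, hind, if_pos hx, one_mul, mul_ite, mul_one, mul_zero]
    · rw [if_neg hx]
      symm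
      refine Finset.sum_eq_zero fun y _ => ?_
      rw [Finset.prod_mul_distrib, hind, if_neg hx, zero_mul, mul_zero]
  simp_rw [h1]
  rw [Finset.sum_comm]
  refine Finset.sum_congr rfl fun x _ => ?_
  rw [Finset.sum_comm]
  refine Finset.sum_congr rfl fun y _ => ?_
  rw [← Finset.mul_sum, cnt_eq_sum, Fintype.sum_pow]

/-- [R3-S1] Sifting for pairs.
Proof. For `h = X` or `h = 1`: `∑_{w ∈ G^q} ∑_{x ∈ S_w, y ∈ Y_w} h(x,y) = ∑_{S×Y} h(x,y) cnt(x,y)^q`
(exchange sums; `∑_{w : Fin q → G} ∏ i, 1[w i + x ∈ A ∧ w i + y ∈ A] = cnt^q`), and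
`cnt = (|A|²/n) X`.  So `∑_w (|S_w||Y_w| K(S_w,Y_w) - θ |S_w||Y_w|) = |S||Y| (|A|²/n)^q (Φ_{q+1} - θ Φ_q) = P > 0`
(use `card_mul_K`).  Terms vanish unless `w ∈ W^q` (if some `w i ∉ W` then `S_w = ∅`), and each term is
`≤ |S_w||Y_w| n/|A|`.  So some `w ∈ W^q` has term `≥ P / (2n)^q > 0` (`#(W^q) ≤ (2n)^q`), hence
`K(S_w,Y_w) ≥ θ`, `|S_w||Y_w| ≥ P/(2n)^q · |A|/n`. -/
theorem sift (A : Finset G) (n : ℝ) (hn : 0 < n) (hA : A.Nonempty) (S Y W : Finset G)
    (hS : S.Nonempty) (hY : Y.Nonempty) (hW : (#W : ℝ) ≤ 2 * n)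
    (hSW : ∀ x ∈ S, ∀ w, w + x ∈ A → w ∈ W) (q : ℕ) (θ : ℝ) (hθ0 : 0 ≤ θ)
    (hθ : θ * Phi A n S Y q < Phi A n S Y (q + 1)) :
    ∃ w : Fin q → G,
      (S.filter (fun x => ∀ i, w i + x ∈ A)).Nonempty ∧
      (Y.filter (fun y => ∀ i, w i + y ∈ A)).Nonempty ∧
      θ ≤ K A n (S.filter (fun x => ∀ i, w i + x ∈ A)) (Y.filter (fun y => ∀ i, w i + y ∈ A)) ∧
      (#S * #Y : ℝ) * ((1 / 2) ^ q * (#A / n) ^ (2 * q + 1) *
        (Phi A n S Y (q + 1) - θ * Phi A n S Y q)) ≤
        #(S.filter (fun x => ∀ i, w i + x ∈ A)) * #(Y.filter (fun y => ∀ i, w i + y ∈ A)) := by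
  have hA0 : (0 : ℝ) < #A := by exact_mod_cast hA.card_pos
  have hS0 : (0 : ℝ) < #S := by exact_mod_cast hS.card_pos
  have hY0 : (0 : ℝ) < #Y := by exact_mod_cast hY.card_pos
  set c : ℝ := (#A : ℝ) ^ 2 / n with hc
  have hc0 : 0 < c := by positivity
  have hcnt : ∀ x y : G, (cnt A x y : ℝ) = c * X A n x y := by
    intro x y
    unfold X
    rw [hc]
    field_simp
  set P : ℝ := (#S * #Y : ℝ) * (c ^ q * (Phi A n S Y (q + 1) - θ * Phi A n S Y q)) with hP
  have hP0 : 0 < P := by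
    have : 0 < Phi A n S Y (q + 1) - θ * Phi A n S Y q := by linarith
    positivity
  set term : (Fin q → G) → ℝ := fun w => ∑ x ∈ S.filter (fun x => ∀ i, w i + x ∈ A),
      ∑ y ∈ Y.filter (fun y => ∀ i, w i + y ∈ A), (X A n x y - θ) with hterm
  have htot : ∑ w, term w = P := by
    rw [hterm]
    simp only
    rw [s1_exchange A S Y q (fun x y => X A n x y - θ)]
    have h1 : ∀ x y : G, (X A n x y - θ) * (cnt A x y : ℝ) ^ q =
        c ^ q * (X A n x y ^ (q + 1)) - c ^ q * θ * X A n x y ^ q := by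
      intro x y
      rw [hcnt, mul_pow]
      ring
    simp_rw [h1, Finset.sum_sub_distrib, ← Finset.mul_sum]
    rw [hP]
    unfold Phi
    field_simp
  have hterm2 : ∀ w, term w = (#(S.filter (fun x => ∀ i, w i + x ∈ A)) *
      #(Y.filter (fun y => ∀ i, w i + y ∈ A)) : ℝ) *
      (K A n (S.filter (fun x => ∀ i, w i + x ∈ A)) (Y.filter (fun y => ∀ i, w i + y ∈ A)) - θ) := by
    intro w
    rw [mul_sub, card_mul_K, hterm]
    simp only [Finset.sum_sub_distrib, Finset.sum_const, nsmul_eq_mul]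
    ring
  have hzero : ∀ w : Fin q → G, w ∉ Fintype.piFinset (fun _ : Fin q => W) → term w = 0 := by
    intro w hw
    rw [Fintype.mem_piFinset] at hw
    push Not at hw
    obtain ⟨i, hi⟩ := hw
    rw [hterm]
    simp only
    have : S.filter (fun x => ∀ i, w i + x ∈ A) = ∅ := by
      rw [Finset.filter_eq_empty_iff]
      intro x hx hcon
      exact hi (hSW x hx (w i) (hcon i))
    rw [this, Finset.sum_empty]
  have htot2 : ∑ w ∈ Fintype.piFinset (fun _ : Fin q => W), term w = P := by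
    rw [← htot]
    exact Finset.sum_subset (Finset.subset_univ _) fun w _ hw => hzero w hw
  have hne : (Fintype.piFinset (fun _ : Fin q => W)).Nonempty := by
    rw [Finset.nonempty_iff_ne_empty]
    intro h
    rw [h, Finset.sum_empty] at htot2
    exact hP0.ne htot2
  have hcard : ((Fintype.piFinset (fun _ : Fin q => W)).card : ℝ) ≤ (2 * n) ^ q := by
    rw [Fintype.card_piFinset_const, Nat.cast_pow]
    exact pow_le_pow_left₀ (by positivity) hW _
  have h2n : 0 < (2 * n) ^ q := by positivity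
  obtain ⟨w, -, hw⟩ := Finset.exists_le_of_sum_le (f := fun _ => P / (2 * n) ^ q) (g := term) hne (by
    rw [htot2, Finset.sum_const, nsmul_eq_mul, mul_div_assoc', div_le_iff₀ h2n, mul_comm]
    exact mul_le_mul_of_nonneg_left hcard hP0.le)
  have hw0 : 0 < term w := lt_of_lt_of_le (by positivity) hw
  refine ⟨w, ?_, ?_, ?_, ?_⟩
  · rw [Finset.nonempty_iff_ne_empty]
    intro h
    rw [hterm2, h] at hw0
    simp at hw0
  · rw [Finset.nonempty_iff_ne_empty]
    intro h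
    rw [hterm2, h] at hw0
    simp at hw0
  · by_contra hcon
    push Not at hcon
    rw [hterm2] at hw0
    have h3 : (#(S.filter (fun x => ∀ i, w i + x ∈ A)) *
      #(Y.filter (fun y => ∀ i, w i + y ∈ A)) : ℝ) *
      (K A n (S.filter (fun x => ∀ i, w i + x ∈ A)) (Y.filter (fun y => ∀ i, w i + y ∈ A)) - θ) ≤ 0 :=
      mul_nonpos_of_nonneg_of_nonpos (by positivity) (by linarith)
    linarith
  · have hK := K_le A n hn hA (S.filter (fun x => ∀ i, w i + x ∈ A))
      (Y.filter (fun y => ∀ i, w i + y ∈ A))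
    set B : ℝ := (#(S.filter (fun x => ∀ i, w i + x ∈ A)) *
      #(Y.filter (fun y => ∀ i, w i + y ∈ A)) : ℝ) with hB
    have hB0 : 0 ≤ B := by positivity
    have h4 : P / (2 * n) ^ q ≤ B * (n / #A) := by
      refine hw.trans ?_
      rw [hterm2]
      exact mul_le_mul_of_nonneg_left (by linarith) hB0
    have h5 : (#S * #Y : ℝ) * ((1 / 2) ^ q * (#A / n) ^ (2 * q + 1) *
        (Phi A n S Y (q + 1) - θ * Phi A n S Y q)) = P / (2 * n) ^ q * (#A / n) := by
      have h6 : (1 / 2 : ℝ) ^ q * ((#A : ℝ) / n) ^ (2 * q + 1) = c ^ q / (2 * n) ^ q * (#A / n) := by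
        rw [pow_succ, pow_mul, ← mul_assoc, ← mul_pow, ← div_pow, hc]
        congr 2
        field_simp
      rw [h6, hP]
      ring
    rw [h5]
    calc P / (2 * n) ^ q * (#A / n) ≤ B * (n / #A) * (#A / n) :=
          mul_le_mul_of_nonneg_right h4 (by positivity)
      _ = B := by field_simp

end R3
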