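import Pool.Agent.MP_0f71ae_nt.R3.Ext0
import Pool.Agent.MP_0f71ae_nt.R3.Sift1

/-!
# [R3] 4.2 (ii): the second moment
-/

open Finset

namespace R3

variable {G : Type*} [AddCommGroup G] [Fintype G] [DecidableEq G]

variable {A : Finset G} {n L : ℝ} {D D' S : Finset G}

/-- [R3-E3] 4.2 (ii): second moment, `s0 = 1/64000000`.
Proof.  `K = K(S,S) = Phi 1 ≥ 1`, `K ≤ e^L`.  Suppose `Φ₂ := Phi A n S S 2 > (1+s0) K²` (so `Φ₂ ≥ 1`).
`sift` with `Y = S`, `q = 1`, `θ = (1 - s0/4) Φ₂/K` (`θ Φ₁ < Φ₂`): a set `S₁ ⊆ S` (both filters coincide),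
`θ ≤ K(S₁,S₁)`, `|S₁|² ≥ |S|² · ½ (|A|/n)³ (s0/4) Φ₂ ≥ |S|² exp(-2Δ)`, `Δ = ½ (log 2 + 3L + log(4/s0)) ≤ h0`.
`grow1` (with `S' = S₁ ⊆ S ⊆ D`): `(1 - s0/4) Φ₂ ≤ K² exp(2γΔ/h0)`, and
`2γΔ/h0 ≤ L (0.7 + 3L + 19.4)/(10^10 L²) ≤ 2.4·10^{-9}`, `s0/4 ≤ 4·10^{-9}`; so `Φ₂ ≤ (1 + 10^{-8}) K²`. -/
theorem Extremal.second_moment (hE : Extremal A n L D D' S) (hn : 0 < n) (hL : 1 ≤ L)
    (hA : A.Nonempty) (hα : Real.exp (-L) * n ≤ #A) (W : Finset G) (hW : (#W : ℝ) ≤ 2 * n)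
    (hSW : ∀ x ∈ S, ∀ w, w + x ∈ A → w ∈ W) :
    Phi A n S S 2 ≤ (1 + 1 / 64000000) * K A n S S ^ 2 := by
  by_contra hcon
  rw [not_le] at hcon
  set κ : ℝ := K A n S S with hκ
  set Φ : ℝ := Phi A n S S 2 with hΦ
  have hκ0 : 0 < κ := K_self_pos A n hn hA S hE.ne
  have hγ0 : 0 ≤ Real.log κ := by
    have := hE.lo
    rw [← hκ] at this
    linarith
  have hκ1 : 1 ≤ κ := by
    by_contra h
    rw [not_le] at h
    have h1 := Real.log_neg hκ0 h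
    linarith
  have hκ2 : 1 ≤ κ ^ 2 := one_le_pow₀ hκ1
  have hΦ1 : 1 ≤ Φ := by nlinarith
  have hΦ0 : 0 < Φ := by linarith
  -- sifting
  obtain ⟨w, hne, -, hθ, hcard⟩ := sift A n hn hA S S W hE.ne hE.ne hW hSW 1
    ((1 - 1 / 256000000) * Φ / κ) (by
      apply div_nonneg _ hκ0.le
      apply mul_nonneg (by norm_num) hΦ0.le) (by
      rw [Phi_one, ← hκ, div_mul_cancel₀ _ hκ0.ne']
      show (1 - 1 / 256000000) * Φ < Phi A n S S 2
      rw [← hΦ]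
      linarith)
  set S₁ : Finset G := S.filter (fun x => ∀ i, w i + x ∈ A) with hS₁
  have hS₁S : S₁ ⊆ S := Finset.filter_subset _ _
  have hbS : (0 : ℝ) < #S := by exact_mod_cast hE.ne.card_pos
  have hbS₁ : (0 : ℝ) < #S₁ := by exact_mod_cast hne.card_pos
  have e1 : Phi A n S S (1 + 1) - (1 - 1 / 256000000) * Φ / κ * Phi A n S S 1 =
      1 / 256000000 * Φ := by
    rw [Phi_one, ← hκ, div_mul_cancel₀ _ hκ0.ne']
    show Phi A n S S 2 - _ = _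
    rw [← hΦ]
    ring
  rw [e1] at hcard
  -- the density
  have hdens : Real.exp (-L) ≤ (#A : ℝ) / n := by
    rw [le_div_iff₀ hn]
    exact hα
  have hdens3 : Real.exp (-L) ^ 3 ≤ ((#A : ℝ) / n) ^ 3 :=
    pow_le_pow_left₀ (Real.exp_pos _).le hdens 3
  set Δ : ℝ := (29 * Real.log 2 + 3 * L) / 2 with hΔ
  have hlog2 : 0 < Real.log 2 := Real.log_pos (by norm_num)
  have hlog2' := Real.log_two_lt_d9
  have hΔ0 : 0 ≤ Δ := by positivity
  have hΔL : 2 * Δ ≤ 23.2 * L := by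
    rw [hΔ]
    norm_num at hlog2' ⊢
    linarith
  have hexp : Real.exp (-Δ) ^ 2 ≤ (1 / 2) ^ 1 * Real.exp (-L) ^ 3 * (1 / 256000000) := by
    have h1 : Real.exp (-Δ) ^ 2 = Real.exp (-L) ^ 3 * (1 / 2) ^ 29 := by
      have h2 : (1 / 2 : ℝ) = Real.exp (-Real.log 2) := by
        rw [Real.exp_neg, Real.exp_log (by norm_num)]
        norm_num
      rw [h2, ← Real.exp_nat_mul, ← Real.exp_nat_mul, ← Real.exp_nat_mul, ← Real.exp_add]
      congr 1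
      rw [hΔ]
      push_cast
      ring
    rw [h1]
    have h3 : (0 : ℝ) < Real.exp (-L) ^ 3 := by positivity
    calc Real.exp (-L) ^ 3 * (1 / 2) ^ 29 ≤ Real.exp (-L) ^ 3 * (1 / 2 * (1 / 256000000)) :=
          mul_le_mul_of_nonneg_left (by norm_num) h3.le
      _ = _ := by ring
  have hsq : (Real.exp (-Δ) * #S) ^ 2 ≤ (#S₁ : ℝ) ^ 2 := by
    calc (Real.exp (-Δ) * #S) ^ 2 = (#S * #S : ℝ) * Real.exp (-Δ) ^ 2 := by ring
      _ ≤ (#S * #S : ℝ) * ((1 / 2) ^ 1 * Real.exp (-L) ^ 3 * (1 / 256000000)) :=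
          mul_le_mul_of_nonneg_left hexp (by positivity)
      _ ≤ (#S * #S : ℝ) * ((1 / 2) ^ 1 * ((#A : ℝ) / n) ^ (2 * 1 + 1) * (1 / 256000000 * Φ)) := by
          apply mul_le_mul_of_nonneg_left _ (by positivity)
          apply mul_le_mul _ _ (by norm_num) (by positivity)
          · exact mul_le_mul_of_nonneg_left hdens3 (by norm_num)
          · linarith
      _ ≤ #S₁ * #S₁ := hcard
      _ = (#S₁ : ℝ) ^ 2 := by ring
  have hle : Real.exp (-Δ) * #S ≤ #S₁ := le_of_sq_le_sq hsq hbS₁.le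
  have hh0 : 0 < hh L := by unfold hh; positivity
  have hΔh : Δ ≤ hh L := by
    unfold hh
    nlinarith
  have hg := hE.grow1 S₁ (hS₁S.trans hE.sub) hne Δ hΔ0 hΔh hle
  rw [← hκ] at hg
  have hγL : Real.log κ ≤ L := hE.hi
  set x : ℝ := 2 * Real.log κ / hh L * Δ with hx
  have hx1 : x ≤ 2.4e-9 := by
    rw [hx, div_mul_eq_mul_div, div_le_iff₀ hh0]
    unfold hh
    have h1 : 2 * Real.log κ * Δ ≤ L * (2 * Δ) := by
      have := mul_le_mul_of_nonneg_right hγL hΔ0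
      linarith
    have h2 : L * (2 * Δ) ≤ L * (23.2 * L) := mul_le_mul_of_nonneg_left hΔL (by linarith)
    norm_num at h2 ⊢
    nlinarith
  have hx0 : 0 ≤ x := by positivity
  have hex : Real.exp x * (1 - x) ≤ 1 := by
    have h1 : 1 - x ≤ Real.exp (-x) := Real.one_sub_le_exp_neg x
    calc Real.exp x * (1 - x) ≤ Real.exp x * Real.exp (-x) :=
          mul_le_mul_of_nonneg_left h1 (Real.exp_pos _).le
      _ = 1 := by rw [← Real.exp_add, add_neg_cancel, Real.exp_zero]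
  have hfin : (1 - 1 / 256000000) * Φ ≤ κ ^ 2 * Real.exp x := by
    have h1 := hθ.trans hg
    rw [div_le_iff₀ hκ0] at h1
    calc (1 - 1 / 256000000) * Φ ≤ κ * Real.exp x * κ := h1
      _ = _ := by ring
  have hfin2 : (1 - 1 / 256000000) * Φ * (1 - x) ≤ κ ^ 2 := by
    calc (1 - 1 / 256000000) * Φ * (1 - x) ≤ κ ^ 2 * Real.exp x * (1 - x) :=
          mul_le_mul_of_nonneg_right hfin (by norm_num at hx1 ⊢; linarith)
      _ = κ ^ 2 * (Real.exp x * (1 - x)) := by ring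
      _ ≤ κ ^ 2 * 1 := mul_le_mul_of_nonneg_left hex (by positivity)
      _ = κ ^ 2 := mul_one _
  have hfin3 : (1 - 1 / 256000000) * Φ * (1 - 2.4e-9) ≤ κ ^ 2 := by
    refine le_trans ?_ hfin2
    apply mul_le_mul_of_nonneg_left _ (by
      apply mul_nonneg (by norm_num) hΦ0.le)
    linarith
  norm_num at hfin3 hcon
  nlinarith

end R3
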