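import Pool.Agent.MP_0f71ae_nt.R3.Ext2
import Pool.Agent.MP_0f71ae_nt.R3.Sift2

/-!
# [R3] 4.3 (iii): the KEY LEMMA
-/

open Finset

namespace R3

variable {G : Type*} [AddCommGroup G] [Fintype G] [DecidableEq G]

variable {A : Finset G} {n L : ℝ} {D D' S : Finset G}

private theorem ext4_ell0 {K : ℝ} (hL : 1 ≤ L) (hγ : 0 < Real.log K) :
    ell0 L K = 9.765625 * (L / Real.log K) := by
  unfold ell0 hh
  have : L ≠ 0 := by linarith
  field_simp
  norm_num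

/-- (a) -/
private theorem ext4_phi {K0 ℓ : ℝ} (hn : 0 < n) (hK0 : 0 < K0) (Y : Finset G) (hS : S.Nonempty)
    (hY : Y.Nonempty)
    (h : ∀ y ∈ Y, Real.exp (-ℓ) * #S ≤ #(S.filter (fun x => (1 - 1 / 200) * K0 ≤ X A n x y)))
    (j : ℕ) : Real.exp (-ℓ) * ((1 - 1 / 200) * K0) ^ j ≤ Phi A n S Y j := by
  unfold Phi
  have h1 : (0 : ℝ) < #S := by exact_mod_cast hS.card_pos
  have h2 : (0 : ℝ) < #Y := by exact_mod_cast hY.card_pos
  rw [le_div_iff₀ (by positivity), Finset.sum_comm]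
  have hbase : 0 ≤ (1 - 1 / 200) * K0 := by
    have : (0 : ℝ) ≤ 1 - 1 / 200 := by norm_num
    positivity
  have key : ∀ y ∈ Y, Real.exp (-ℓ) * #S * ((1 - 1 / 200) * K0) ^ j ≤ ∑ x ∈ S, X A n x y ^ j := by
    intro y hy
    calc Real.exp (-ℓ) * #S * ((1 - 1 / 200) * K0) ^ j
        ≤ #(S.filter (fun x => (1 - 1 / 200) * K0 ≤ X A n x y)) * ((1 - 1 / 200) * K0) ^ j :=
          mul_le_mul_of_nonneg_right (h y hy) (by positivity)
      _ = ∑ x ∈ S.filter (fun x => (1 - 1 / 200) * K0 ≤ X A n x y), ((1 - 1 / 200) * K0) ^ j := by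
          rw [sum_const, nsmul_eq_mul]
      _ ≤ ∑ x ∈ S.filter (fun x => (1 - 1 / 200) * K0 ≤ X A n x y), X A n x y ^ j := by
          apply Finset.sum_le_sum
          intro x hx
          rw [mem_filter] at hx
          exact pow_le_pow_left₀ hbase hx.2 j
      _ ≤ ∑ x ∈ S, X A n x y ^ j :=
          Finset.sum_le_sum_of_subset_of_nonneg (filter_subset _ _)
            fun x _ _ => pow_nonneg (X_nonneg A n hn x y) j
  calc Real.exp (-ℓ) * ((1 - 1 / 200) * K0) ^ j * (#S * #Y)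
      = ∑ y ∈ Y, Real.exp (-ℓ) * #S * ((1 - 1 / 200) * K0) ^ j := by
        rw [sum_const, nsmul_eq_mul]; ring
    _ ≤ _ := Finset.sum_le_sum key

/-- [R3-E4] 4.3 (iii): the KEY LEMMA.
Proof.  `K = K(S,S)`, `γ = log K ∈ [3/10+1/12, L]`, `h0 = 10^10 L²`, `δ1 = 1/200`,
`ℓ0 = ell0 L K = 9.765625 L/γ ≥ 9.7`.  Let `Y = badSet` and suppose `|Y| ≥ |S|/1600` (so `Y` is nonempty).
(a) `Φ_j := Phi A n S Y j ≥ e^{-ℓ0} ((1-δ1) K)^j` (sum over `y ∈ Y` of the `x ∈ S` in the second filter).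
    `q0 := ⌈ℓ0/δ1⌉`, `b := (1-δ1)² K ≥ 1` : `Φ_{q0} ≥ b^{q0}` since `(1-δ1)^{q0} ≤ e^{-δ1 q0} ≤ e^{-ℓ0}`.
(b) `exists_ratio`: `q < q0` with `b Φ_q ≤ Φ_{q+1}`, `Φ_{q+1} ≥ b^{q+1} ≥ 1`.  `sift` with `θ = (1-δ1) b`
    (`Φ_{q+1} - θΦ_q ≥ δ1 Φ_{q+1} ≥ δ1`): nonempty `S₁ ⊆ S`, `Y₁ ⊆ Y` with `K(S₁,Y₁) ≥ (1-δ1)³ K` and
    `|S₁||Y₁| ≥ ζ |S||Y|`, `ζ = 2^{-q} (|A|/n)^{2q+1} δ1`; hence `|S₁| ≥ ζ|S|`, `|Y₁| ≥ ζ|Y| ≥ ζ|S|/1600`.
    `log(1/ζ) ≤ q(log 2 + 2L) + L + log 200 ≤ Δ1 := 4 ℓ0 L/δ1 = 800 ℓ0 L` (`q ≤ ℓ0/δ1`, `ℓ0 ≥ 9.7`).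
(c) `K(S,Y₁) ≤ (1-1/50) K` (`K_eq_avg_right`).  So `K(S₁,Y₁) - K(S,Y₁) ≥ ((1-δ1)³ - (1-4δ1)) K ≥ δ1 K`.
(d) `K_cs_sub`: `(δ1 K)² ≤ (K(S₁) - 2K(S₁,S) + K) K(Y₁)`; `grow1`: `K(S₁) ≤ K e^{τΔ1}`, `τ = 2γ/h0`;
    `sub_inner`: `K(S₁,S) ≥ (1-γ/h0) K`; `grow2` (`Δ = Δ1 + log 1600`): `K(Y₁) ≤ K exp(1/100 + τ(Δ1 + log 1600 + 1/100))`.
    `τΔ1 = δ1²/16`; `τ(log 1600 + 1/100) ≤ δ1²/16`; `2γ/h0 ≤ δ1²/16`.  So RHS `≤ K (2·δ1²/16 + δ1²/16) · K e^{1/50} < (δ1 K)²`. -/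
theorem Extremal.key (hE : Extremal A n L D D' S) (hn : 0 < n) (hL : 1 ≤ L)
    (hA : A.Nonempty) (hα : Real.exp (-L) * n ≤ #A) (W : Finset G) (hW : (#W : ℝ) ≤ 2 * n)
    (hSW : ∀ x ∈ S, ∀ w, w + x ∈ A → w ∈ W) :
    (#(badSet A n L D' S) : ℝ) < 1 / 1600 * #S := by
  classical
  by_contra hcon
  push Not at hcon
  have hKpos : 0 < K A n S S := K_self_pos A n hn hA S hE.ne
  have hγ0 : 3 / 10 + 1 / 12 ≤ Real.log (K A n S S) := hE.lo
  have hγL : Real.log (K A n S S) ≤ L := hE.hi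
  have hKexp : Real.exp (Real.log (K A n S S)) = K A n S S := Real.exp_log hKpos
  have hell := ext4_ell0 (K := K A n S S) hL (by linarith)
  have hY1 : ∀ y ∈ badSet A n L D' S, K A n S {y} ≤ (1 - 1 / 50) * K A n S S := by
    intro y hy
    unfold badSet at hy
    rw [mem_filter] at hy
    exact hy.2.1
  have hY2 : ∀ y ∈ badSet A n L D' S, Real.exp (-ell0 L (K A n S S)) * #S ≤
      #(S.filter (fun x => (1 - 1 / 200) * K A n S S ≤ X A n x y)) := by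
    intro y hy
    unfold badSet at hy
    rw [mem_filter] at hy
    exact hy.2.2
  have hYD : badSet A n L D' S ⊆ D' := by
    unfold badSet
    exact filter_subset _ _
  set Y := badSet A n L D' S with hYdef
  have hSpos : (0 : ℝ) < #S := by exact_mod_cast hE.ne.card_pos
  have hYpos : (0 : ℝ) < #Y := by linarith
  have hYne : Y.Nonempty := by
    rw [← Finset.card_pos]; exact_mod_cast hYpos
  have hph := ext4_phi (A := A) (n := n) (S := S) hn hKpos Y hE.ne hYne hY2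
  have hinner := fun S₁ h₁ h₂ => hE.sub_inner hn hL hA hα S₁ h₁ h₂
  have hg1 := hE.grow1
  have hg2 := hE.grow2
  set ℓ := ell0 L (K A n S S) with hℓdef
  set γ := Real.log (K A n S S) with hγdef
  set K0 := K A n S S with hK0
  have hLpos : 0 < L := by linarith
  have hγpos : 0 < γ := by linarith
  have hℓ1 : 9.7 ≤ ℓ := by
    rw [hell]
    have : 1 ≤ L / γ := by rw [one_le_div hγpos]; exact hγL
    linarith
  have hK1 : 1.38 ≤ K0 := by
    rw [← hKexp]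
    have := Real.add_one_le_exp γ
    linarith
  -- (b)
  set b : ℝ := (1 - 1 / 200) ^ 2 * K0 with hb
  have hb1 : 1 ≤ b := by rw [hb]; linarith
  have hq0 : 200 * ℓ ≤ ⌈200 * ℓ⌉₊ := Nat.le_ceil _
  have hq0' : 1 ≤ ⌈200 * ℓ⌉₊ := Nat.one_le_ceil_iff.mpr (by linarith)
  have hstart : b ^ ⌈200 * ℓ⌉₊ ≤ Phi A n S Y ⌈200 * ℓ⌉₊ := by
    refine le_trans ?_ (hph ⌈200 * ℓ⌉₊)
    set q0 := ⌈200 * ℓ⌉₊ with hq0def
    have h1 : ((1 : ℝ) - 1 / 200) ^ q0 ≤ Real.exp (-ℓ) := by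
      calc ((1 : ℝ) - 1 / 200) ^ q0 ≤ (Real.exp (-(1 / 200))) ^ q0 := by
            apply pow_le_pow_left₀ (by norm_num)
            exact Real.one_sub_le_exp_neg (1 / 200)
        _ = Real.exp (-(q0 / 200)) := by
            rw [← Real.exp_nat_mul]; congr 1; ring
        _ ≤ Real.exp (-ℓ) := by
            apply Real.exp_le_exp.mpr
            linarith
    have h2 : b ^ q0 = ((1 : ℝ) - 1 / 200) ^ q0 * ((1 - 1 / 200) * K0) ^ q0 := by
      rw [← mul_pow, hb]; congr 1; ring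
    rw [h2]
    apply mul_le_mul_of_nonneg_right h1
    apply pow_nonneg
    have : (0 : ℝ) ≤ 1 - 1 / 200 := by norm_num
    positivity
  obtain ⟨q, hq, hr1, hr2⟩ := exists_ratio (fun j => Phi A n S Y j)
    (Phi_zero A n S Y hE.ne hYne) b (by linarith) _ hq0' hstart
  have hqℓ : (q : ℝ) ≤ 200 * ℓ := by
    have := Nat.lt_ceil.mp hq
    exact this.le
  have hΦ1 : 1 ≤ Phi A n S Y (q + 1) := le_trans (one_le_pow₀ hb1) hr2
  have hΦ0 : 0 ≤ Phi A n S Y q := Phi_nonneg A n hn S Y q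
  obtain ⟨w, hS1, hY1ne, hθ, hcard⟩ := sift A n hn hA S Y W hE.ne hYne hW hSW q
    ((1 - 1 / 200) * b) (by have : (0 : ℝ) ≤ 1 - 1 / 200 := by norm_num
                            positivity) (by linarith)
  set S₁ := S.filter (fun x => ∀ i, w i + x ∈ A) with hS₁def
  set Y₁ := Y.filter (fun y => ∀ i, w i + y ∈ A) with hY₁def
  have hS₁S : S₁ ⊆ S := filter_subset _ _
  have hY₁Y : Y₁ ⊆ Y := filter_subset _ _
  have hs1 : (0 : ℝ) < #S₁ := by exact_mod_cast hS1.card_pos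
  have hy1 : (0 : ℝ) < #Y₁ := by exact_mod_cast hY1ne.card_pos
  have hs1le : (#S₁ : ℝ) ≤ #S := by exact_mod_cast Finset.card_le_card hS₁S
  have hy1le : (#Y₁ : ℝ) ≤ #Y := by exact_mod_cast Finset.card_le_card hY₁Y
  -- size
  have hzeta : Real.exp (-(800 * ℓ * L)) ≤ (1 / 2) ^ q * (#A / n) ^ (2 * q + 1) *
        (Phi A n S Y (q + 1) - (1 - 1 / 200) * b * Phi A n S Y q) := by
    have z1 : 1 / 200 ≤ Phi A n S Y (q + 1) - (1 - 1 / 200) * b * Phi A n S Y q := by linarith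
    have z2 : Real.exp (-L) ≤ #A / n := by
      rw [le_div_iff₀ hn]; exact hα
    have z3 : Real.exp (-L) ^ (2 * q + 1) ≤ ((#A : ℝ) / n) ^ (2 * q + 1) :=
      pow_le_pow_left₀ (Real.exp_pos _).le z2 _
    have z4 : ((1 : ℝ) / 2) ^ q = Real.exp (-(q * Real.log 2)) := by
      have : (1 : ℝ) / 2 = Real.exp (-Real.log 2) := by
        rw [Real.exp_neg, Real.exp_log (by norm_num)]; norm_num
      rw [this, ← Real.exp_nat_mul]; congr 1; ring
    have z5 : Real.exp (-6) ≤ 1 / 200 := by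
      rw [Real.exp_neg]
      have : (200 : ℝ) ≤ Real.exp 6 := by
        have h1 := Real.exp_one_gt_d9
        have h2 : Real.exp 6 = Real.exp 1 ^ 6 := by
          rw [← Real.exp_nat_mul]; norm_num
        rw [h2]
        calc (200 : ℝ) ≤ 2.7 ^ 6 := by norm_num
          _ ≤ Real.exp 1 ^ 6 := by
            apply pow_le_pow_left₀ (by norm_num)
            linarith
      rw [one_div]
      exact inv_anti₀ (by norm_num) this
    have z6 : Real.exp (-(800 * ℓ * L)) ≤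
        Real.exp (-(q * Real.log 2)) * Real.exp (-L) ^ (2 * q + 1) * Real.exp (-6) := by
      rw [← Real.exp_nat_mul, ← Real.exp_add, ← Real.exp_add]
      apply Real.exp_le_exp.mpr
      push_cast
      have l2 : Real.log 2 ≤ 0.7 := by have := Real.log_two_lt_d9; linarith
      have l2' : 0 ≤ Real.log 2 := Real.log_nonneg (by norm_num)
      have a1 : (q : ℝ) * Real.log 2 ≤ 200 * ℓ * 0.7 := by
        apply mul_le_mul hqℓ l2 l2' (by linarith)
      have a2 : (q : ℝ) * L ≤ 200 * ℓ * L := mul_le_mul_of_nonneg_right hqℓ hLpos.le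
      have a3 : ℓ * 1 ≤ ℓ * L := mul_le_mul_of_nonneg_left hL (by linarith)
      have a4 : 9.7 * L ≤ ℓ * L := mul_le_mul_of_nonneg_right hℓ1 hLpos.le
      linarith
    calc Real.exp (-(800 * ℓ * L)) ≤ _ := z6
      _ ≤ Real.exp (-(q * Real.log 2)) * ((#A : ℝ) / n) ^ (2 * q + 1) * (1 / 200) := by
          apply mul_le_mul _ z5 (Real.exp_pos _).le (by positivity)
          exact mul_le_mul_of_nonneg_left z3 (Real.exp_pos _).le
      _ ≤ _ := by
          rw [z4]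
          apply mul_le_mul_of_nonneg_left z1 (by positivity)
  have hprod : (#S * #Y : ℝ) * Real.exp (-(800 * ℓ * L)) ≤ #S₁ * #Y₁ :=
    le_trans (mul_le_mul_of_nonneg_left hzeta (by positivity)) hcard
  set Δ := 800 * ℓ * L with hΔ
  have hΔ0 : 0 ≤ Δ := by rw [hΔ]; positivity
  have hsize1 : Real.exp (-Δ) * #S ≤ #S₁ := by
    have : (Real.exp (-Δ) * #S) * #Y ≤ #S₁ * #Y := by
      calc (Real.exp (-Δ) * #S) * #Y = (#S * #Y : ℝ) * Real.exp (-Δ) := by ring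
        _ ≤ #S₁ * #Y₁ := hprod
        _ ≤ #S₁ * #Y := mul_le_mul_of_nonneg_left hy1le hs1.le
    exact le_of_mul_le_mul_right this hYpos
  have hsize2 : Real.exp (-Δ) * #Y ≤ #Y₁ := by
    have : (Real.exp (-Δ) * #Y) * #S ≤ #Y₁ * #S := by
      calc (Real.exp (-Δ) * #Y) * #S = (#S * #Y : ℝ) * Real.exp (-Δ) := by ring
        _ ≤ #S₁ * #Y₁ := hprod
        _ ≤ #S * #Y₁ := mul_le_mul_of_nonneg_right hs1le hy1.le
        _ = #Y₁ * #S := by ring
    exact le_of_mul_le_mul_right this hSpos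
  have hl1600 : Real.log 1600 ≤ 8 := by
    rw [Real.log_le_iff_le_exp (by norm_num)]
    have h1 := Real.exp_one_gt_d9
    have h2 : Real.exp 8 = Real.exp 1 ^ 8 := by
      rw [← Real.exp_nat_mul]; norm_num
    rw [h2]
    calc (1600 : ℝ) ≤ 2.7 ^ 8 := by norm_num
      _ ≤ Real.exp 1 ^ 8 := by
        apply pow_le_pow_left₀ (by norm_num)
        linarith
  have hl1600' : 0 ≤ Real.log 1600 := Real.log_nonneg (by norm_num)
  have hsize3 : Real.exp (-(Δ + Real.log 1600)) * #S ≤ #Y₁ := by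
    refine le_trans ?_ hsize2
    rw [neg_add, Real.exp_add, Real.exp_neg (Real.log 1600), Real.exp_log (by norm_num)]
    have : (1600 : ℝ)⁻¹ * #S ≤ #Y := by
      rw [← one_div]; exact hcon
    calc Real.exp (-Δ) * (1600 : ℝ)⁻¹ * #S = Real.exp (-Δ) * ((1600 : ℝ)⁻¹ * #S) := by ring
      _ ≤ _ := mul_le_mul_of_nonneg_left this (Real.exp_pos _).le
  -- h bounds
  set h := hh L with hhdef
  have hh0 : h = 10 ^ 10 * L ^ 2 := hhdef
  have hhpos : 0 < h := by rw [hh0]; positivity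
  have hτΔ : 2 * γ / h * Δ = 1.5625e-6 := by
    rw [hΔ, hell, hh0]
    field_simp
    norm_num
  have hLL : L ≤ L ^ 2 := by
    have := mul_le_mul_of_nonneg_left hL hLpos.le
    rw [pow_two]; linarith
  have hγh : γ / h ≤ 1e-10 := by
    rw [div_le_iff₀ hhpos, hh0]
    norm_num
    linarith
  have hγh0 : 0 ≤ γ / h := by positivity
  have hΔh : Δ ≤ 1 / 100 * h := by
    have : Δ = 1.5625e-6 / 2 * (h / γ) := by
      have h3 : Δ = (2 * γ / h * Δ) * (h / γ) / 2 := by field_simp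
      rw [h3, hτΔ]; ring
    rw [this]
    have h4 : h / γ ≤ 4 * h := by
      rw [div_le_iff₀ hγpos]
      have h5 : h * 1 ≤ h * (4 * γ) := mul_le_mul_of_nonneg_left (by linarith) hhpos.le
      linarith
    have h6 : 1.5625e-6 / 2 * (h / γ) ≤ 1.5625e-6 / 2 * (4 * h) :=
      mul_le_mul_of_nonneg_left h4 (by norm_num)
    refine h6.trans ?_
    norm_num
    linarith
  have hh10 : 10 ^ 10 ≤ h := by rw [hh0]; linarith
  have G1 := hg1 S₁ (hS₁S.trans hE.sub) hS1 Δ hΔ0 (by linarith) hsize1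
  have G2 := hg2 Y₁ (hY₁Y.trans hYD) hY1ne (Δ + Real.log 1600) (by positivity) (by
    linarith) hsize3
  have I1 := hinner S₁ hS₁S hS1
  rw [hτΔ] at G1
  -- (c)
  have hc : K A n S Y₁ ≤ (1 - 1 / 50) * K0 := by
    rw [K_eq_avg_right, div_le_iff₀ hy1]
    calc ∑ y ∈ Y₁, K A n S {y} ≤ ∑ y ∈ Y₁, (1 - 1 / 50) * K0 :=
          Finset.sum_le_sum fun y hy => hY1 y (hY₁Y hy)
      _ = (1 - 1 / 50) * K0 * #Y₁ := by rw [sum_const, nsmul_eq_mul]; ring
  have hdiff : 1 / 200 * K0 ≤ K A n S₁ Y₁ - K A n S Y₁ := by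
    have : (1 - 1 / 200) * b = (1 - 1 / 200) ^ 3 * K0 := by rw [hb]; ring
    rw [this] at hθ
    linarith
  have hcs := K_cs_sub A n hn S₁ S Y₁
  have hYY : 0 ≤ K A n Y₁ Y₁ := K_nonneg A n hn _ _
  -- exponentials
  have ex1 : Real.exp 1.5625e-6 ≤ 1 + 1.6e-6 := by
    have := Real.exp_bound_div_one_sub_of_interval (x := 1.5625e-6) (by norm_num) (by norm_num)
    refine this.trans ?_
    rw [div_le_iff₀ (by norm_num)]
    norm_num
  have ex2 : 1 / 100 + 2 * γ / h * (Δ + Real.log 1600 + 1 / 100) ≤ 0.0101 := by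
    have e1 : 2 * γ / h * (Δ + Real.log 1600 + 1 / 100) =
        2 * γ / h * Δ + 2 * (γ / h) * (Real.log 1600 + 1 / 100) := by ring
    rw [e1, hτΔ]
    have e2 : 2 * (γ / h) * (Real.log 1600 + 1 / 100) ≤ 2 * 1e-10 * (8 + 1 / 100) := by
      apply mul_le_mul
      · linarith
      · linarith
      · linarith
      · norm_num
    norm_num at e2 ⊢
    linarith
  have ex3 : Real.exp (1 / 100 + 2 * γ / h * (Δ + Real.log 1600 + 1 / 100)) ≤ 1.02 := by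
    refine (Real.exp_le_exp.mpr ex2).trans ?_
    have := Real.exp_bound_div_one_sub_of_interval (x := 0.0101) (by norm_num) (by norm_num)
    refine this.trans ?_
    rw [div_le_iff₀ (by norm_num)]
    norm_num
  have G2' : K A n Y₁ Y₁ ≤ K0 * 1.02 := G2.trans (mul_le_mul_of_nonneg_left ex3 hKpos.le)
  have G1' : K A n S₁ S₁ ≤ K0 * (1 + 1.6e-6) := G1.trans (mul_le_mul_of_nonneg_left ex1 hKpos.le)
  have I1' : K0 - 1e-10 * K0 ≤ K A n S₁ S := by
    refine le_trans ?_ I1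
    have := mul_le_mul_of_nonneg_right hγh hKpos.le
    rw [sub_mul, one_mul]
    linarith
  have hfac : K A n S₁ S₁ - 2 * K A n S₁ S + K A n S S ≤ 2e-6 * K0 := by
    rw [← hK0]
    norm_num at G1' I1' ⊢
    linarith
  have hR : (K A n S₁ Y₁ - K A n S Y₁) ^ 2 ≤ 2e-6 * K0 * (K0 * 1.02) := by
    refine hcs.trans ?_
    calc (K A n S₁ S₁ - 2 * K A n S₁ S + K A n S S) * K A n Y₁ Y₁
        ≤ 2e-6 * K0 * K A n Y₁ Y₁ := mul_le_mul_of_nonneg_right hfac hYY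
      _ ≤ _ := mul_le_mul_of_nonneg_left G2' (by positivity)
  have hLft : (1 / 200 * K0) ^ 2 ≤ (K A n S₁ Y₁ - K A n S Y₁) ^ 2 :=
    pow_le_pow_left₀ (by positivity) hdiff 2
  have hfinal := hLft.trans hR
  have hK2 : 0 < K0 ^ 2 := by positivity
  norm_num at hfinal
  linarith

end R3
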