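import Pool.Agent.MP_0f71ae_nt.R3.Basic
import Pool.Agent.MP_0f71ae_nt.R3.Bohr

/-!
# [R3] Definitions: Fourier transform, spectral weights, spectrum, free sets, log factor
-/

set_option linter.unusedSectionVars false

open Finset

namespace R3

variable {G : Type*} [AddCommGroup G] [Fintype G] [DecidableEq G]

/-- normalised Fourier transform of a finite set -/
noncomputable def ft (T : Finset G) (ξ : AddChar G ℂ) : ℂ := (∑ t ∈ T, ξ t) / #T

/-- the spectral weights of the kernel `F(t-t') = avg_{x,y ∈ S} X(x+t, y+t')` -/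
noncomputable def lam (A : Finset G) (n : ℝ) (S : Finset G) (ξ : AddChar G ℂ) : ℝ :=
  n / ((#A : ℝ) ^ 2 * Fintype.card G * (#S : ℝ) ^ 2) * ‖∑ a ∈ A, ξ a‖ ^ 2 * ‖∑ x ∈ S, ξ x‖ ^ 2

theorem lam_nonneg (A : Finset G) (n : ℝ) (hn : 0 < n) (S : Finset G) (ξ : AddChar G ℂ) :
    0 ≤ lam A n S ξ := by
  unfold lam; positivity

/-- the large spectrum of `T` -/
noncomputable def Spec (T : Finset G) : Finset (AddChar G ℂ) :=
  {ξ : AddChar G ℂ | 1 / 2 ≤ ‖ft T ξ‖ ^ 2}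

/-- `Λ` is free with respect to `B₅`: nontrivial signed sums have small Fourier coefficient -/
def Free (B₅ : Finset G) (Λ : Finset (AddChar G ℂ)) : Prop :=
  ∀ ε : AddChar G ℂ → ℤ, (∀ ξ, ε ξ = -1 ∨ ε ξ = 0 ∨ ε ξ = 1) → (∃ ξ ∈ Λ, ε ξ ≠ 0) →
    ‖ft B₅ (∏ ξ ∈ Λ, ξ ^ ε ξ)‖ ≤ 1 / 2

/-- `λ = log(e + L)` -/
noncomputable def ll (L : ℝ) : ℝ := Real.log (Real.exp 1 + L)

theorem one_lt_ll {L : ℝ} (hL : 1 ≤ L) : 1 < ll L := by
  unfold ll
  rw [Real.lt_log_iff_exp_lt (by positivity)]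
  linarith

end R3
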