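import Pool.Agent.MP_0f71ae_nt.R3.FDefs

/-!
# [R3] 6.1: Fourier expansion of the kernel
-/

set_option linter.unusedSectionVars false

open Finset

namespace R3

variable {G : Type*} [AddCommGroup G] [Fintype G] [DecidableEq G]

theorem f1_conj (ξ : AddChar G ℂ) (a : G) : ξ (-a) = (starRingEnd ℂ) (ξ a) :=
  AddChar.map_neg_eq_conj ξ a

/-- [R3-F1a] Parseval for a real valued function.
Proof. Expand `|∑_w r(w) ξ(w)|² = ∑_{w,w'} r(w) r(w') ξ(w - w')` (`ξ(w) conj ξ(w') = ξ(w-w')`: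
`AddChar.map_neg_eq_conj`, `map_add_eq_mul`), exchange the sums and use
`AddChar.sum_apply_eq_ite (a) : ∑ ψ, ψ a = if a = 0 then card G else 0`. -/
theorem parseval (r : G → ℝ) :
    ∑ ξ : AddChar G ℂ, ‖∑ w : G, (r w : ℂ) * ξ w‖ ^ 2 = Fintype.card G * ∑ w : G, r w ^ 2 := by
  apply Complex.ofReal_injective
  push_cast
  have h1 : ∀ ξ : AddChar G ℂ, ((‖∑ w : G, (r w : ℂ) * ξ w‖ : ℝ) : ℂ) ^ 2 =
      ∑ w : G, ∑ w' : G, (r w : ℂ) * (r w' : ℂ) * ξ (w - w') := by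
    intro ξ
    rw [← Complex.mul_conj', map_sum, Finset.sum_mul_sum]
    refine Finset.sum_congr rfl fun w _ => Finset.sum_congr rfl fun w' _ => ?_
    rw [map_mul, Complex.conj_ofReal, ← f1_conj, sub_eq_add_neg, AddChar.map_add_eq_mul]
    ring
  rw [Finset.sum_congr rfl fun ξ _ => h1 ξ, Finset.sum_comm, Finset.mul_sum]
  refine Finset.sum_congr rfl fun w _ => ?_
  rw [Finset.sum_comm]
  have h2 : ∀ w' : G, ∑ ξ : AddChar G ℂ, (r w : ℂ) * (r w' : ℂ) * ξ (w - w') =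
      if w = w' then (Fintype.card G : ℂ) * (r w : ℂ) ^ 2 else 0 := by
    intro w'
    rw [← Finset.mul_sum, AddChar.sum_apply_eq_ite]
    by_cases h : w = w'
    · subst h; simp; ring
    · rw [if_neg h, if_neg (fun hc => h (sub_eq_zero.1 hc)), mul_zero]
  rw [Finset.sum_congr rfl fun w' _ => h2 w', Finset.sum_ite_eq, if_pos (Finset.mem_univ _)]

/-- the kernel sum as a sum of squares -/
theorem f1_sum_eq (A : Finset G) (n : ℝ) (S T : Finset G) :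
    ∑ t ∈ T, ∑ t' ∈ T, ∑ x ∈ S, ∑ y ∈ S, X A n (x + t) (y + t') =
      n / (#A : ℝ) ^ 2 * ∑ w : G,
        (∑ x ∈ S, ∑ t ∈ T, if w + (x + t) ∈ A then (1 : ℝ) else 0) ^ 2 := by
  have h1 : ∀ t t' x y : G, X A n (x + t) (y + t') = n / (#A : ℝ) ^ 2 *
      ∑ w : G, (if w + (x + t) ∈ A then (1 : ℝ) else 0) *
      (if w + (y + t') ∈ A then (1 : ℝ) else 0) := by
    intro t t' x y
    unfold X
    rw [cnt_eq_sum]
  simp_rw [h1, ← Finset.mul_sum]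
  congr 1
  have h2 : ∀ w : G, (∑ x ∈ S, ∑ t ∈ T, if w + (x + t) ∈ A then (1 : ℝ) else 0) ^ 2 =
      ∑ t ∈ T, ∑ t' ∈ T, ∑ x ∈ S, ∑ y ∈ S, (if w + (x + t) ∈ A then (1 : ℝ) else 0) *
      (if w + (y + t') ∈ A then (1 : ℝ) else 0) := by
    intro w
    rw [Finset.sum_comm, sq, Finset.sum_mul_sum]
    refine Finset.sum_congr rfl fun t _ => Finset.sum_congr rfl fun t' _ => ?_
    rw [Finset.sum_mul_sum]
  simp_rw [h2]
  symm
  rw [Finset.sum_comm]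
  refine Finset.sum_congr rfl fun t _ => ?_
  rw [Finset.sum_comm]
  refine Finset.sum_congr rfl fun t' _ => ?_
  rw [Finset.sum_comm]
  refine Finset.sum_congr rfl fun x _ => ?_
  rw [Finset.sum_comm]

theorem f1_norm_neg (ξ : AddChar G ℂ) (S : Finset G) : ‖∑ x ∈ S, ξ (-x)‖ = ‖∑ x ∈ S, ξ x‖ := by
  have h : ∑ x ∈ S, ξ (-x) = (starRingEnd ℂ) (∑ x ∈ S, ξ x) := by
    rw [map_sum]
    exact Finset.sum_congr rfl fun x _ => f1_conj ξ x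
  rw [h, Complex.norm_conj]

theorem f1_transform (A S T : Finset G) (ξ : AddChar G ℂ) :
    ∑ w : G, (((∑ x ∈ S, ∑ t ∈ T, if w + (x + t) ∈ A then (1 : ℝ) else 0 : ℝ)) : ℂ) * ξ w =
      (∑ a ∈ A, ξ a) * (∑ x ∈ S, ξ (-x)) * (∑ t ∈ T, ξ (-t)) := by
  have h1 : ∀ x t : G, ∑ w : G, (if w + (x + t) ∈ A then (1 : ℂ) else 0) * ξ w =
      ∑ a ∈ A, ξ a * ξ (-x) * ξ (-t) := by
    intro x t
    have h2 : ∀ w : G, (if w + (x + t) ∈ A then (1 : ℂ) else 0) * ξ w =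
        (fun v : G => if v ∈ A then ξ v * ξ (-x) * ξ (-t) else 0) (w + (x + t)) := by
      intro w
      simp only
      by_cases h : w + (x + t) ∈ A
      · rw [if_pos h, if_pos h, one_mul, ← AddChar.map_add_eq_mul, ← AddChar.map_add_eq_mul]
        congr 1
        abel
      · rw [if_neg h, if_neg h, zero_mul]
    rw [Finset.sum_congr rfl fun w _ => h2 w]
    have h4 : ∑ w : G, (fun v : G => if v ∈ A then ξ v * ξ (-x) * ξ (-t) else 0) (w + (x + t)) =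
        ∑ v : G, if v ∈ A then ξ v * ξ (-x) * ξ (-t) else 0 :=
      Equiv.sum_comp (Equiv.addRight (x + t))
        (fun v : G => if v ∈ A then ξ v * ξ (-x) * ξ (-t) else 0)
    rw [h4, ← Finset.sum_filter]
    congr 1
    ext v
    simp
  have h5 : ∀ w : G, (((∑ x ∈ S, ∑ t ∈ T, if w + (x + t) ∈ A then (1 : ℝ) else 0 : ℝ)) : ℂ) * ξ w =
      ∑ x ∈ S, ∑ t ∈ T, (if w + (x + t) ∈ A then (1 : ℂ) else 0) * ξ w := by
    intro w
    rw [Complex.ofReal_sum, Finset.sum_mul]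
    refine Finset.sum_congr rfl fun x _ => ?_
    rw [Complex.ofReal_sum, Finset.sum_mul]
    refine Finset.sum_congr rfl fun t _ => ?_
    by_cases h : w + (x + t) ∈ A
    · rw [if_pos h, if_pos h]; simp
    · rw [if_neg h, if_neg h]; simp
  rw [Finset.sum_congr rfl fun w _ => h5 w, Finset.sum_comm]
  have h3 : ∀ x ∈ S, ∑ w : G, ∑ t ∈ T, (if w + (x + t) ∈ A then (1 : ℂ) else 0) * ξ w =
      (∑ a ∈ A, ξ a) * ξ (-x) * ∑ t ∈ T, ξ (-t) := by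
    intro x _
    rw [Finset.sum_comm, Finset.mul_sum]
    refine Finset.sum_congr rfl fun t _ => ?_
    rw [h1 x t, Finset.sum_mul, Finset.sum_mul]
  rw [Finset.sum_congr rfl h3, ← Finset.sum_mul, ← Finset.mul_sum]

/-- [R3-F1b] the expansion of the kernel over a set `T`.
Proof. `X A n (x+t) (y+t') = n/|A|² · #{w : w+x+t ∈ A, w+y+t' ∈ A}` so with
`r(w) := ∑_{x ∈ S} ∑_{t ∈ T} 1[w + (x+t) ∈ A]` the left side is `n/|A|² ∑_w r(w)²` (use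
`cnt_eq_sum` from `Basic.lean`).  By `parseval`, `∑_w r(w)² = |G|⁻¹ ∑_ξ |∑_w r(w) ξ(w)|²`, and
`∑_w r(w) ξ(w) = ∑_{x,t} ∑_{a ∈ A} ξ(a - x - t) = (∑_{a∈A} ξ a) · conj(∑_{x∈S} ξ x) · conj(∑_{t∈T} ξ t)`. -/
theorem sum_X_shift (A : Finset G) (n : ℝ) (S T : Finset G) (hS : S.Nonempty) :
    ∑ t ∈ T, ∑ t' ∈ T, ∑ x ∈ S, ∑ y ∈ S, X A n (x + t) (y + t') =
      (#S : ℝ) ^ 2 * ∑ ξ : AddChar G ℂ, lam A n S ξ * ‖∑ t ∈ T, ξ t‖ ^ 2 := by
  have hG : (Fintype.card G : ℝ) ≠ 0 := Nat.cast_ne_zero.2 Fintype.card_ne_zero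
  have hS0 : (#S : ℝ) ≠ 0 := Nat.cast_ne_zero.2 hS.card_pos.ne'
  rw [f1_sum_eq]
  have h1 := parseval (fun w : G => ∑ x ∈ S, ∑ t ∈ T, if w + (x + t) ∈ A then (1 : ℝ) else 0)
  have h2 : ∀ ξ : AddChar G ℂ, ‖∑ w : G,
      (((∑ x ∈ S, ∑ t ∈ T, if w + (x + t) ∈ A then (1 : ℝ) else 0 : ℝ)) : ℂ) * ξ w‖ ^ 2 =
      ‖∑ a ∈ A, ξ a‖ ^ 2 * ‖∑ x ∈ S, ξ x‖ ^ 2 * ‖∑ t ∈ T, ξ t‖ ^ 2 := by
    intro ξ
    rw [f1_transform, norm_mul, norm_mul, f1_norm_neg, f1_norm_neg, mul_pow, mul_pow]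
  simp only [h2] at h1
  have h3 : ∑ w : G, (∑ x ∈ S, ∑ t ∈ T, if w + (x + t) ∈ A then (1 : ℝ) else 0) ^ 2 =
      (Fintype.card G : ℝ)⁻¹ * ∑ ξ : AddChar G ℂ,
        ‖∑ a ∈ A, ξ a‖ ^ 2 * ‖∑ x ∈ S, ξ x‖ ^ 2 * ‖∑ t ∈ T, ξ t‖ ^ 2 := by
    rw [h1, ← mul_assoc, inv_mul_cancel₀ hG, one_mul]
  rw [h3, Finset.mul_sum, Finset.mul_sum, Finset.mul_sum]
  refine Finset.sum_congr rfl fun ξ _ => ?_
  unfold lam
  by_cases hA : (#A : ℝ) = 0
  · rw [hA]; simp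
  · field_simp

/-- [R3-F1c] total mass: `sum_X_shift` with `T = {0}`. -/
theorem sum_lam (A : Finset G) (n : ℝ) (S : Finset G) (hS : S.Nonempty) :
    ∑ ξ : AddChar G ℂ, lam A n S ξ = K A n S S := by
  have hS0 : (#S : ℝ) ≠ 0 := Nat.cast_ne_zero.2 hS.card_pos.ne'
  have h1 := sum_X_shift A n S {0} hS
  simp only [sum_singleton, add_zero, AddChar.map_zero_eq_one, norm_one, one_pow, mul_one] at h1
  rw [← card_mul_K] at h1
  have h2 : (#S : ℝ) ^ 2 ≠ 0 := pow_ne_zero _ hS0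
  apply mul_left_cancel₀ h2
  rw [← h1]
  ring

end R3
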