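import Pool.Agent.MP_0f71ae_nt.R3.Four1

/-!
# [R3] 6.1, 6.3: mass of the spectrum; from the spectrum to a density increment
-/

set_option linter.unusedSectionVars false

open Finset

namespace R3

variable {G : Type*} [AddCommGroup G] [Fintype G] [DecidableEq G]

theorem f2_ft_norm (T : Finset G) (hT : T.Nonempty) (ξ : AddChar G ℂ) :
    ‖∑ t ∈ T, ξ t‖ ^ 2 = (#T : ℝ) ^ 2 * ‖ft T ξ‖ ^ 2 := by
  have h0 : (#T : ℝ) ≠ 0 := Nat.cast_ne_zero.2 hT.card_pos.ne'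
  unfold ft
  rw [norm_div, Complex.norm_natCast, div_pow]
  field_simp

theorem f2_norm_char (ξ : AddChar G ℂ) (a : G) : ‖ξ a‖ = 1 := AddChar.norm_apply ξ a

theorem f2_ft_le (T : Finset G) (hT : T.Nonempty) (ξ : AddChar G ℂ) : ‖ft T ξ‖ ^ 2 ≤ 1 := by
  have h0 : (0 : ℝ) < #T := by exact_mod_cast hT.card_pos
  have h1 : ‖∑ t ∈ T, ξ t‖ ≤ #T := by
    refine (norm_sum_le _ _).trans ?_
    simp [f2_norm_char]
  have h2 := f2_ft_norm T hT ξ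
  have h3 : ‖∑ t ∈ T, ξ t‖ ^ 2 ≤ (#T : ℝ) ^ 2 := pow_le_pow_left₀ (norm_nonneg _) h1 2
  rw [h2] at h3
  have h4 : (0 : ℝ) < (#T : ℝ) ^ 2 := by positivity
  by_contra hc
  push Not at hc
  nlinarith

/-- the kernel sum over `S × S` of a shift, as a weighted sum of `‖ft T ξ‖²` -/
theorem f2_shift (A : Finset G) (n : ℝ) (S T : Finset G) (hS : S.Nonempty) (hT : T.Nonempty) :
    ∑ t ∈ T, ∑ t' ∈ T, ∑ x ∈ S, ∑ y ∈ S, X A n (x + t) (y + t') =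
      (#S : ℝ) ^ 2 * (#T : ℝ) ^ 2 * ∑ ξ : AddChar G ℂ, lam A n S ξ * ‖ft T ξ‖ ^ 2 := by
  rw [sum_X_shift A n S T hS, mul_assoc]
  congr 1
  rw [Finset.mul_sum]
  refine Finset.sum_congr rfl fun ξ _ => ?_
  rw [f2_ft_norm T hT ξ]
  ring

/-- [R3-F2a] `λ(Spec) ≥ (1-2δ) K`.
Proof. Sum the hypothesis over `t,t' ∈ T` and use `sum_X_shift`: with `q(ξ) = ‖ft T ξ‖² ∈ [0,1]`
(`‖∑_{t∈T} ξ t‖ ≤ |T|`) one gets `∑ λ(ξ) q(ξ) ≥ (1-δ) K`.  With `sum_lam`: `∑ λ(ξ)(1-q(ξ)) ≤ δ K`, and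
`1 - q(ξ) > 1/2` outside `Spec T`, so `λ(Specᶜ) ≤ 2δK`. -/
theorem spec_mass (A : Finset G) (n : ℝ) (hn : 0 < n) (S T : Finset G) (hS : S.Nonempty)
    (hT : T.Nonempty) (δ : ℝ)
    (h : ∀ t ∈ T, ∀ t' ∈ T, (1 - δ) * K A n S S * (#S : ℝ) ^ 2 ≤
      ∑ x ∈ S, ∑ y ∈ S, X A n (x + t) (y + t')) :
    (1 - 2 * δ) * K A n S S ≤ ∑ ξ ∈ Spec T, lam A n S ξ := by
  have hS0 : (0 : ℝ) < #S := by exact_mod_cast hS.card_pos
  have hT0 : (0 : ℝ) < #T := by exact_mod_cast hT.card_pos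
  have h1 : (1 - δ) * K A n S S ≤ ∑ ξ : AddChar G ℂ, lam A n S ξ * ‖ft T ξ‖ ^ 2 := by
    have h2 : ∑ t ∈ T, ∑ t' ∈ T, (1 - δ) * K A n S S * (#S : ℝ) ^ 2 ≤
        ∑ t ∈ T, ∑ t' ∈ T, ∑ x ∈ S, ∑ y ∈ S, X A n (x + t) (y + t') :=
      Finset.sum_le_sum fun t ht => Finset.sum_le_sum fun t' ht' => h t ht t' ht'
    rw [f2_shift A n S T hS hT] at h2
    simp only [sum_const, nsmul_eq_mul] at h2
    have h3 : (0 : ℝ) < (#S : ℝ) ^ 2 * (#T : ℝ) ^ 2 := by positivity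
    refine le_of_mul_le_mul_left ?_ h3
    calc (#S : ℝ) ^ 2 * (#T : ℝ) ^ 2 * ((1 - δ) * K A n S S)
        = #T * (#T * ((1 - δ) * K A n S S * (#S : ℝ) ^ 2)) := by ring
      _ ≤ _ := h2
  have h2 := sum_lam A n S hS
  have h3 : ∑ ξ : AddChar G ℂ, lam A n S ξ =
      ∑ ξ ∈ Spec T, lam A n S ξ + ∑ ξ ∈ (Spec T)ᶜ, lam A n S ξ :=
    (Finset.sum_add_sum_compl _ _).symm
  have h4 : ∑ ξ ∈ (Spec T)ᶜ, lam A n S ξ ≤
      ∑ ξ : AddChar G ℂ, 2 * (lam A n S ξ * (1 - ‖ft T ξ‖ ^ 2)) := by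
    calc ∑ ξ ∈ (Spec T)ᶜ, lam A n S ξ
        ≤ ∑ ξ ∈ (Spec T)ᶜ, 2 * (lam A n S ξ * (1 - ‖ft T ξ‖ ^ 2)) := by
          refine Finset.sum_le_sum fun ξ hξ => ?_
          have h5 : ‖ft T ξ‖ ^ 2 < 1 / 2 := by
            have h6 := Finset.mem_compl.1 hξ
            unfold Spec at h6
            simp only [mem_filter, mem_univ, true_and, not_le] at h6
            exact h6
          nlinarith [lam_nonneg A n hn S ξ]
      _ ≤ _ := by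
          apply Finset.sum_le_sum_of_subset_of_nonneg (Finset.subset_univ _)
          intro ξ _ _
          have h5 := f2_ft_le T hT ξ
          have h6 := lam_nonneg A n hn S ξ
          have h7 : 0 ≤ 1 - ‖ft T ξ‖ ^ 2 := by linarith
          positivity
  have h5 : ∑ ξ : AddChar G ℂ, 2 * (lam A n S ξ * (1 - ‖ft T ξ‖ ^ 2)) =
      2 * (∑ ξ : AddChar G ℂ, lam A n S ξ - ∑ ξ : AddChar G ℂ, lam A n S ξ * ‖ft T ξ‖ ^ 2) := by
    rw [← Finset.mul_sum, ← Finset.sum_sub_distrib]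
    congr 1
    exact Finset.sum_congr rfl fun ξ _ => by ring
  rw [h5] at h4
  linarith

/-- [R3-F2b] from the spectrum to a density increment (6.3).
Proof. For `ξ ∈ Spec T`, `‖ft B ξ‖ ≥ 1 - δ` (`ft B ξ = 1 - avg (1 - ξ b)`), so
`∑_ξ λ(ξ) ‖∑_{b∈B} ξ b‖² ≥ (1-2δ)(1-δ)² K |B|² ≥ (1-4δ) K |B|²`, i.e. (`sum_X_shift` with `T := B`)
`(1-4δ) K |B|² |S|² ≤ ∑_{b,b'} ∑_{x,y} X(x+b, y+b') = n/|A|² ∑_w r(w)²`, `r(w) = ∑_{x∈S} N(w+x)`,
`N(v) = #{b ∈ B : v + b ∈ A}`.  If `N(v) ≤ c|B|` for all `v` then `r(w)² ≤ |S| c |B| r(w)` and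
`∑_w r(w) = |S| |B| |A|`, so the right side is `≤ n/|A|² · |S| c |B| · |S||B||A| = c n |S|²|B|²/|A|`;
so `c ≥ (1-4δ) K |A|/n`.  Take `c = max_v N(v)/|B|`. -/
theorem increment (A : Finset G) (n : ℝ) (hn : 0 < n) (hA : A.Nonempty) (S T B : Finset G)
    (hS : S.Nonempty) (hB : B.Nonempty) (δ : ℝ) (hδ : 0 ≤ δ) (hδ1 : δ ≤ 1 / 2)
    (hspec : (1 - 2 * δ) * K A n S S ≤ ∑ ξ ∈ Spec T, lam A n S ξ)
    (hclose : ∀ ξ ∈ Spec T, ∀ b ∈ B, ‖ξ b - 1‖ ≤ δ) :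
    ∃ v : G, (1 - 4 * δ) * K A n S S * (#A / n) * #B ≤ #(B.filter fun b => v + b ∈ A) := by
  have hS0 : (0 : ℝ) < #S := by exact_mod_cast hS.card_pos
  have hB0 : (0 : ℝ) < #B := by exact_mod_cast hB.card_pos
  have hA0 : (0 : ℝ) < #A := by exact_mod_cast hA.card_pos
  have hK := K_nonneg A n hn S S
  -- lower bound
  have hlow : ∀ ξ ∈ Spec T, ((1 - δ) * #B) ^ 2 ≤ ‖∑ b ∈ B, ξ b‖ ^ 2 := by
    intro ξ hξ
    have h1 : ‖∑ b ∈ B, (ξ b - 1)‖ ≤ #B * δ := by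
      refine (norm_sum_le _ _).trans ?_
      refine (Finset.sum_le_sum fun b hb => hclose ξ hξ b hb).trans ?_
      simp
    have h2 : ∑ b ∈ B, (ξ b - 1) = ∑ b ∈ B, ξ b - (#B : ℂ) := by
      rw [Finset.sum_sub_distrib]; simp
    rw [h2] at h1
    have h3 : (#B : ℝ) ≤ ‖∑ b ∈ B, ξ b‖ + ‖∑ b ∈ B, ξ b - (#B : ℂ)‖ := by
      have h4 : ‖(#B : ℂ)‖ = (#B : ℝ) := Complex.norm_natCast _
      rw [← h4]
      calc ‖(#B : ℂ)‖ = ‖∑ b ∈ B, ξ b - (∑ b ∈ B, ξ b - (#B : ℂ))‖ := by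
            congr 1; ring
        _ ≤ _ := norm_sub_le _ _
    have h5 : (1 - δ) * #B ≤ ‖∑ b ∈ B, ξ b‖ := by nlinarith
    have h6 : 0 ≤ (1 - δ) * #B := mul_nonneg (by linarith) hB0.le
    exact pow_le_pow_left₀ h6 h5 2
  have h1 : (1 - 4 * δ) * K A n S S * (#B : ℝ) ^ 2 ≤
      ∑ ξ : AddChar G ℂ, lam A n S ξ * ‖∑ b ∈ B, ξ b‖ ^ 2 := by
    calc (1 - 4 * δ) * K A n S S * (#B : ℝ) ^ 2
        ≤ (1 - 2 * δ) * K A n S S * ((1 - δ) * #B) ^ 2 := by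
          have h2 : (1 - 4 * δ) ≤ (1 - 2 * δ) * (1 - δ) ^ 2 := by
            nlinarith [mul_nonneg hδ hδ, mul_nonneg (mul_nonneg hδ hδ) (by linarith : 0 ≤ 1 / 2 - δ)]
          have h3 : 0 ≤ K A n S S * (#B : ℝ) ^ 2 := by positivity
          calc (1 - 4 * δ) * K A n S S * (#B : ℝ) ^ 2
              = (1 - 4 * δ) * (K A n S S * (#B : ℝ) ^ 2) := by ring
            _ ≤ ((1 - 2 * δ) * (1 - δ) ^ 2) * (K A n S S * (#B : ℝ) ^ 2) :=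
                mul_le_mul_of_nonneg_right h2 h3
            _ = _ := by ring
      _ ≤ (∑ ξ ∈ Spec T, lam A n S ξ) * ((1 - δ) * #B) ^ 2 :=
          mul_le_mul_of_nonneg_right hspec (sq_nonneg _)
      _ = ∑ ξ ∈ Spec T, lam A n S ξ * ((1 - δ) * #B) ^ 2 := by rw [Finset.sum_mul]
      _ ≤ ∑ ξ ∈ Spec T, lam A n S ξ * ‖∑ b ∈ B, ξ b‖ ^ 2 :=
          Finset.sum_le_sum fun ξ hξ =>
            mul_le_mul_of_nonneg_left (hlow ξ hξ) (lam_nonneg A n hn S ξ)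
      _ ≤ _ := by
          apply Finset.sum_le_sum_of_subset_of_nonneg (Finset.subset_univ _)
          intro ξ _ _
          exact mul_nonneg (lam_nonneg A n hn S ξ) (sq_nonneg _)
  have h2 := sum_X_shift A n S B hS
  rw [f1_sum_eq] at h2
  -- the maximal number
  obtain ⟨v, _, hv⟩ := Finset.exists_max_image (univ : Finset G)
    (fun v => #(B.filter fun b => v + b ∈ A)) ⟨0, Finset.mem_univ _⟩
  refine ⟨v, ?_⟩
  set m : ℝ := (#(B.filter fun b => v + b ∈ A) : ℝ) with hm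
  have hr : ∀ w : G, (∑ x ∈ S, ∑ t ∈ B, if w + (x + t) ∈ A then (1 : ℝ) else 0) ≤ #S * m := by
    intro w
    calc (∑ x ∈ S, ∑ t ∈ B, if w + (x + t) ∈ A then (1 : ℝ) else 0)
        ≤ ∑ x ∈ S, m := by
          refine Finset.sum_le_sum fun x _ => ?_
          have h3 : (∑ t ∈ B, if w + (x + t) ∈ A then (1 : ℝ) else 0) =
              (#(B.filter fun b => (w + x) + b ∈ A) : ℝ) := by
            rw [Finset.sum_ite, Finset.sum_const_zero, add_zero, Finset.sum_const, nsmul_eq_mul,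
              mul_one]
            simp only [add_assoc]
          rw [h3, hm]
          exact_mod_cast hv (w + x) (Finset.mem_univ _)
      _ = #S * m := by simp
  have hr0 : ∀ w : G, 0 ≤ (∑ x ∈ S, ∑ t ∈ B, if w + (x + t) ∈ A then (1 : ℝ) else 0) := by
    intro w
    refine Finset.sum_nonneg fun x _ => Finset.sum_nonneg fun t _ => ?_
    split_ifs <;> norm_num
  have hsum : ∑ w : G, (∑ x ∈ S, ∑ t ∈ B, if w + (x + t) ∈ A then (1 : ℝ) else 0) =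
      #S * (#B * #A) := by
    rw [Finset.sum_comm]
    have h3 : ∀ x ∈ S, ∑ w : G, ∑ t ∈ B, (if w + (x + t) ∈ A then (1 : ℝ) else 0) = #B * #A := by
      intro x _
      rw [Finset.sum_comm]
      have h4 : ∀ t ∈ B, ∑ w : G, (if w + (x + t) ∈ A then (1 : ℝ) else 0) = #A := by
        intro t _
        have h5 : ∑ w : G, (if w + (x + t) ∈ A then (1 : ℝ) else 0) =
            ∑ w : G, if w ∈ A then (1 : ℝ) else 0 :=
          Equiv.sum_comp (Equiv.addRight (x + t)) (fun w : G => if w ∈ A then (1 : ℝ) else 0)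
        rw [h5]
        simp
      rw [Finset.sum_congr rfl h4]
      simp
    rw [Finset.sum_congr rfl h3]
    simp
  have hsq : ∑ w : G, (∑ x ∈ S, ∑ t ∈ B, if w + (x + t) ∈ A then (1 : ℝ) else 0) ^ 2 ≤
      (#S * m) * (#S * (#B * #A)) := by
    rw [← hsum, Finset.mul_sum]
    refine Finset.sum_le_sum fun w _ => ?_
    rw [sq]
    exact mul_le_mul_of_nonneg_right (hr w) (hr0 w)
  have h4 : (#S : ℝ) ^ 2 * ((1 - 4 * δ) * K A n S S * (#B : ℝ) ^ 2) ≤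
      n / (#A : ℝ) ^ 2 * ((#S * m) * (#S * (#B * #A))) := by
    calc (#S : ℝ) ^ 2 * ((1 - 4 * δ) * K A n S S * (#B : ℝ) ^ 2)
        ≤ (#S : ℝ) ^ 2 * ∑ ξ : AddChar G ℂ, lam A n S ξ * ‖∑ b ∈ B, ξ b‖ ^ 2 :=
          mul_le_mul_of_nonneg_left h1 (by positivity)
      _ = n / (#A : ℝ) ^ 2 * ∑ w : G,
        (∑ x ∈ S, ∑ t ∈ B, if w + (x + t) ∈ A then (1 : ℝ) else 0) ^ 2 := h2.symm
      _ ≤ _ := mul_le_mul_of_nonneg_left hsq (by positivity)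
  have h5 : n / (#A : ℝ) ^ 2 * ((#S * m) * (#S * (#B * #A))) =
      (#S : ℝ) ^ 2 * #B * (n / #A) * m := by
    field_simp
  rw [h5] at h4
  have h6 : (0 : ℝ) < (#S : ℝ) ^ 2 * #B * (n / #A) := by positivity
  refine le_of_mul_le_mul_left ?_ h6
  calc (#S : ℝ) ^ 2 * #B * (n / #A) * ((1 - 4 * δ) * K A n S S * (#A / n) * #B)
      = (#S : ℝ) ^ 2 * ((1 - 4 * δ) * K A n S S * (#B : ℝ) ^ 2) := by
        field_simp
    _ ≤ _ := h4

end R3
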