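import Pool.Agent.MP_0f71ae_nt.R3.Iter1

/-!
# [R3] 8: the bound in a group of odd order
-/

set_option linter.unusedSectionVars false

open Finset

namespace R3

variable {G : Type*} [AddCommGroup G] [Fintype G] [DecidableEq G]

theorem it2_log81 : Real.log 81 ≤ 8 := by
  have h81 : Real.log 81 = 4 * Real.log 3 := by
    rw [show (81 : ℝ) = 3 ^ 4 by norm_num, Real.log_pow]; norm_num
  have h3 : Real.log 3 ≤ 2 := by
    have := Real.log_le_sub_one_of_pos (show (0 : ℝ) < 3 by norm_num)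
    linarith
  linarith

theorem it2_log10 : Real.log 10 ≤ 24 / 10 := by
  have h : Real.log 10 ≤ Real.log (Real.exp (24 / 10)) := by
    apply Real.log_le_log (by norm_num)
    have h1 : Real.exp (24 / 10 : ℝ) = Real.exp 1 ^ 2 * Real.exp (4 / 10) := by
      rw [← Real.exp_nat_mul, ← Real.exp_add]; norm_num
    have h2 := Real.exp_one_gt_d9
    have h3 := Real.quadratic_le_exp_of_nonneg (show (0 : ℝ) ≤ 4 / 10 by norm_num)
    rw [h1]
    have h4 : (2.7182818283 : ℝ) ^ 2 ≤ Real.exp 1 ^ 2 := pow_le_pow_left₀ (by norm_num) h2.le 2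
    calc (10 : ℝ) ≤ 2.7182818283 ^ 2 * (1 + 4 / 10 + (4 / 10) ^ 2 / 2) := by norm_num
      _ ≤ Real.exp 1 ^ 2 * Real.exp (4 / 10) := by gcongr
  rwa [Real.log_exp] at h

/-- size of the group in terms of a small Bohr set -/
theorem it2_size (Γ : Finset (AddChar G ℂ)) {ρ D B : ℝ} (m : ℕ) (hD : 1 ≤ D)
    (hρ : 2 / D ^ m ≤ ρ) (hB : (#(bohr (G := G) Γ ρ) : ℝ) ≤ B) :
    Real.log (Fintype.card G) ≤ #Γ * ((m : ℝ) * Real.log D / Real.log 2 + 1) * 8 +
      Real.log B := by
  have hlD : 0 ≤ Real.log D := Real.log_nonneg hD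
  have hl2 : 0 < Real.log 2 := Real.log_pos (by norm_num)
  set i : ℕ := ⌈(m : ℝ) * Real.log D / Real.log 2⌉₊ with hi
  have hi1 : (m : ℝ) * Real.log D / Real.log 2 ≤ i := Nat.le_ceil _
  have hi2 : (i : ℝ) ≤ (m : ℝ) * Real.log D / Real.log 2 + 1 :=
    (Nat.ceil_lt_add_one (by positivity)).le
  have hD0 : 0 < D := by linarith
  have h2i : D ^ m ≤ (2 : ℝ) ^ i := by
    rw [← Real.log_le_log_iff (by positivity) (by positivity), Real.log_pow, Real.log_pow]
    rwa [div_le_iff₀ hl2] at hi1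
  have hρ2 : 2 ≤ ρ * 2 ^ i := by
    calc (2 : ℝ) = 2 / D ^ m * D ^ m := by field_simp
      _ ≤ ρ * 2 ^ i := mul_le_mul hρ h2i (by positivity) (le_trans (by positivity) hρ)
  have hsz := bohr_size (G := G) (ρ := ρ) Γ i hρ2
  have hB0 : 0 < B := lt_of_lt_of_le (bohr_card_pos (le_trans (by positivity) hρ)) hB
  have hcard : (0 : ℝ) < Fintype.card G := by
    have : 0 < Fintype.card G := Fintype.card_pos_iff.2 ⟨0⟩
    exact_mod_cast this
  have h1 : (Fintype.card G : ℝ) ≤ 81 ^ (#Γ * i) * B := hsz.trans (by gcongr)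
  have h2 := Real.log_le_log hcard h1
  rw [Real.log_mul (by positivity) hB0.ne', Real.log_pow] at h2
  refine h2.trans ?_
  have h3 : ((#Γ * i : ℕ) : ℝ) * Real.log 81 ≤
      #Γ * ((m : ℝ) * Real.log D / Real.log 2 + 1) * 8 := by
    push_cast
    have h81 : 0 ≤ Real.log 81 := Real.log_nonneg (by norm_num)
    exact mul_le_mul (by gcongr) it2_log81 h81 (by positivity)
  linarith

/-- [R3-IT2] The final bound in a group of odd order. -/
theorem card_bound (hodd : Odd (Fintype.card G)) (A : Finset G)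
    (hA : ThreeAPFree (A : Set G)) (L : ℝ) (hL : 1 ≤ L)
    (hdens : Real.exp (1 - L) * Fintype.card G ≤ #A) :
    Real.log (Fintype.card G) ≤ 10 ^ 33 * L ^ 5 * ll L ^ 3 := by
  obtain ⟨Γ, ρ, j, hj, hΓ, hρ, hb⟩ := exists_terminal hodd A hA L hL hdens
  have hl : 1 < ll L := one_lt_ll hL
  have hl0 : 0 < ll L := by linarith
  have hL0 : 0 < L := by linarith
  obtain ⟨D, hD⟩ : ∃ D : ℝ, D = 2 * 10 ^ 24 * L ^ 4 * ll L ^ 2 := ⟨_, rfl⟩
  rw [← hD] at hρ
  have hP1 : 1 ≤ L ^ 4 * ll L ^ 2 :=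
    one_le_mul_of_one_le_of_one_le (one_le_pow₀ hL) (one_le_pow₀ hl.le)
  have hD1 : 1 ≤ D := by
    have : D = 2 * 10 ^ 24 * (L ^ 4 * ll L ^ 2) := by rw [hD]; ring
    rw [this]; linarith
  have hlogD : Real.log D ≤ 113 * ll L := by
    rw [hD, Real.log_mul (by positivity) (by positivity),
      Real.log_mul (by positivity) (by positivity), Real.log_mul (by positivity) (by positivity),
      Real.log_pow, Real.log_pow, Real.log_pow]
    have h2 : Real.log 2 ≤ 1 := by
      have := Real.log_le_sub_one_of_pos (show (0 : ℝ) < 2 by norm_num)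
      linarith
    have h10 := it2_log10
    have h3 : Real.log L ≤ ll L := by
      unfold ll
      apply Real.log_le_log (by linarith)
      have := Real.exp_pos 1
      linarith
    have h4 : Real.log (ll L) ≤ ll L := (Real.log_le_sub_one_of_pos hl0).trans (by linarith)
    push_cast
    linarith
  have h := it2_size (G := G) Γ (10 * j + 2) hD1 hρ hb
  have hl2 : (0.69 : ℝ) ≤ Real.log 2 := by have := Real.log_two_gt_d9; linarith
  have h5 : ((10 * j + 2 : ℕ) : ℝ) * Real.log D / Real.log 2 + 1 ≤ 4 * 10 ^ 6 * (L * ll L) := by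
    have hLl : 1 ≤ L * ll L := one_le_mul_of_one_le_of_one_le hL hl.le
    have hlD0 : 0 ≤ Real.log D := Real.log_nonneg hD1
    have h6 : ((10 * j + 2 : ℕ) : ℝ) ≤ 20002 * L := by push_cast; linarith
    have h7 : ((10 * j + 2 : ℕ) : ℝ) * Real.log D ≤ (20002 * L) * (113 * ll L) :=
      mul_le_mul h6 hlogD hlD0 (by positivity)
    have h8 : ((10 * j + 2 : ℕ) : ℝ) * Real.log D / Real.log 2 ≤
        (20002 * L) * (113 * ll L) / 0.69 := by
      apply div_le_div₀ (by positivity) h7 (by norm_num) hl2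
    refine (add_le_add_left h8 1).trans ?_
    have h9 : (20002 * L) * (113 * ll L) / 0.69 = (20002 * 113 / 0.69) * (L * ll L) := by ring
    rw [h9]
    norm_num
    linarith
  have hB : Real.log (1000 * Real.exp (2 * L)) ≤ 8 + 2 * L := by
    rw [Real.log_mul (by norm_num) (Real.exp_pos _).ne', Real.log_exp]
    have h10 := it2_log10
    have : Real.log 1000 = 3 * Real.log 10 := by
      rw [show (1000 : ℝ) = 10 ^ 3 by norm_num, Real.log_pow]; norm_num
    linarith
  have h11 : (#Γ : ℝ) * (((10 * j + 2 : ℕ) : ℝ) * Real.log D / Real.log 2 + 1) * 8 ≤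
      (10 ^ 24 * L ^ 4 * ll L ^ 2) * (4 * 10 ^ 6 * (L * ll L)) * 8 := by
    have h12 : 0 ≤ ((10 * j + 2 : ℕ) : ℝ) * Real.log D / Real.log 2 + 1 := by
      have : 0 ≤ Real.log D := Real.log_nonneg hD1
      have : 0 < Real.log 2 := by linarith
      positivity
    gcongr
  have h13 : (10 ^ 24 * L ^ 4 * ll L ^ 2) * (4 * 10 ^ 6 * (L * ll L)) * 8 =
      32 * 10 ^ 30 * (L ^ 5 * ll L ^ 3) := by ring
  have h14 : L ≤ L ^ 5 * ll L ^ 3 := by
    calc L = L ^ 1 * 1 := by ring
      _ ≤ L ^ 5 * ll L ^ 3 := mul_le_mul (pow_le_pow_right₀ hL (by norm_num))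
          (one_le_pow₀ hl.le) (by norm_num) (by positivity)
  have h15 : 10 ^ 33 * L ^ 5 * ll L ^ 3 = 10 ^ 33 * (L ^ 5 * ll L ^ 3) := by ring
  rw [h15]
  rw [h13] at h11
  linarith

end R3
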