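import Pool.Agent.MP_0f71ae_nt.R3.Step

/-!
# [R3] 8: the iteration
-/

set_option linter.unusedSectionVars false

open Finset

namespace R3

variable {G : Type*} [AddCommGroup G] [Fintype G] [DecidableEq G]

theorem it1_dens_le {A : Finset G} {Γ : Finset (AddChar G ℂ)} {ρ a : ℝ} (hρ : 0 ≤ ρ)
    (h : Dens A Γ ρ a) : a ≤ 1 := by
  obtain ⟨x, hx⟩ := h
  have h1 : (#((bohr (G := G) Γ ρ).filter (fun y => x + y ∈ A)) : ℝ) ≤ #(bohr (G := G) Γ ρ) := by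
    exact_mod_cast Finset.card_filter_le _ _
  have h2 := bohr_card_pos (G := G) (Γ := Γ) hρ
  by_contra hc
  push Not at hc
  nlinarith

/-- the state after `j` steps -/
def it1_State (A : Finset G) (L : ℝ) (j : ℕ) : Prop :=
  ∃ (Γ : Finset (AddChar G ℂ)) (ρ a : ℝ), (j : ℝ) / 2000 ≤ a ∧ 0 ≤ a ∧
    (#Γ : ℝ) ≤ 10 ^ 24 * a * L ^ 3 * ll L ^ 2 ∧
    2 / (2 * 10 ^ 24 * L ^ 4 * ll L ^ 2) ^ (10 * j) ≤ ρ ∧ ρ ≤ 2 ∧
    Reg (2 * 10 ^ 24 * L ^ 4 * ll L ^ 2) Γ ρ ∧ Dens A Γ ρ (Real.exp a * Real.exp (1 - L))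

/-- a terminal state -/
def it1_Term (G : Type*) [AddCommGroup G] [Fintype G] (L : ℝ) : Prop :=
  ∃ (Γ : Finset (AddChar G ℂ)) (ρ : ℝ) (j : ℕ), (j : ℝ) ≤ 2000 * L ∧
      (#Γ : ℝ) ≤ 10 ^ 24 * L ^ 4 * ll L ^ 2 ∧
      2 / (2 * 10 ^ 24 * L ^ 4 * ll L ^ 2) ^ (10 * j + 2) ≤ ρ ∧
      (#(bohr (G := G) Γ ρ) : ℝ) ≤ 1000 * Real.exp (2 * L)

theorem it1_a_le {A : Finset G} {L a ρ : ℝ} {Γ : Finset (AddChar G ℂ)} (hρ : 0 ≤ ρ)
    (h : Dens A Γ ρ (Real.exp a * Real.exp (1 - L))) : a ≤ L - 1 := by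
  have h1 := it1_dens_le hρ h
  rw [← Real.exp_add] at h1
  have h2 : Real.exp (a + (1 - L)) ≤ Real.exp 0 := by rwa [Real.exp_zero]
  have h3 := Real.exp_le_exp.1 h2
  linarith

theorem it1_base (A : Finset G) (L : ℝ)
    (hdens : Real.exp (1 - L) * Fintype.card G ≤ #A) : it1_State A L 0 := by
  have hb : ∀ r : ℝ, bohr (G := G) ∅ r = univ := by
    intro r
    ext x
    rw [mem_bohr]
    simp
  refine ⟨∅, 2, 0, by norm_num, le_refl _, ?_, ?_, le_refl _, ?_, ?_⟩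
  · simp
  · simp
  · unfold Reg
    rw [hb, hb]
    have : (0 : ℝ) ≤ #(univ : Finset G) := Nat.cast_nonneg _
    linarith
  · refine ⟨0, ?_⟩
    rw [hb, Real.exp_zero, one_mul]
    have h1 : (univ : Finset G).filter (fun y => 0 + y ∈ A) = A := by
      ext y; simp
    rw [h1, Finset.card_univ]
    exact hdens

theorem it1_step (hodd : Odd (Fintype.card G)) (A : Finset G)
    (hA : ThreeAPFree (A : Set G)) (L : ℝ) (hL : 1 ≤ L) (j : ℕ) (hj : it1_State A L j) :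
    it1_Term G L ∨ it1_State A L (j + 1) := by
  obtain ⟨Γ, ρ, a, hja, ha0, hΓ, hρ1, hρ2, hreg, hd⟩ := hj
  have hl := one_lt_ll hL
  have hL3 : (0 : ℝ) < L := by linarith
  have hD0 : (1 : ℝ) ≤ 2 * 10 ^ 24 * L ^ 4 * ll L ^ 2 := by
    have h1 : (1 : ℝ) ≤ L ^ 4 := one_le_pow₀ hL
    have h2 : (1 : ℝ) ≤ ll L ^ 2 := one_le_pow₀ hl.le
    calc (1 : ℝ) = 1 * 1 * 1 := by norm_num
      _ ≤ 2 * 10 ^ 24 * L ^ 4 * ll L ^ 2 := by
        apply mul_le_mul (mul_le_mul (by norm_num) h1 (by norm_num) (by norm_num)) h2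
          (by norm_num) (by positivity)
  set D : ℝ := 2 * 10 ^ 24 * L ^ 4 * ll L ^ 2 with hD
  have hDpos : 0 < D := by linarith
  have hρ : 0 < ρ := lt_of_lt_of_le (by positivity) hρ1
  have haL := it1_a_le hρ.le hd
  have hΓ2 : (#Γ : ℝ) ≤ 10 ^ 24 * L ^ 4 * ll L ^ 2 := by
    refine hΓ.trans ?_
    have h1 : 10 ^ 24 * a * L ^ 3 * ll L ^ 2 = 10 ^ 24 * L ^ 3 * ll L ^ 2 * a := by ring
    have h2 : 10 ^ 24 * L ^ 4 * ll L ^ 2 = 10 ^ 24 * L ^ 3 * ll L ^ 2 * L := by ring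
    rw [h1, h2]
    exact mul_le_mul_of_nonneg_left (by linarith) (by positivity)
  have hΓ3 : (#Γ : ℝ) ≤ D / 2 := by
    refine hΓ2.trans (le_of_eq ?_)
    rw [hD]; ring
  have hDge : 10 ^ 24 * L ^ 4 * ll L ^ 2 ≤ D := by
    rw [hD]
    have : 0 ≤ 10 ^ 24 * L ^ 4 * ll L ^ 2 := by positivity
    linarith
  have hα : Real.exp (1 - L) ≤ Real.exp a * Real.exp (1 - L) := by
    have h1 : 1 ≤ Real.exp a := Real.one_le_exp ha0
    nlinarith [Real.exp_pos (1 - L)]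
  rcases step hodd A hA Γ D L hL hDge hΓ3 ρ hρ hρ2 hreg _ hα hd with h | h
  · left
    refine ⟨Γ, ρ / D ^ 2, j, ?_, hΓ2, ?_, h⟩
    · have h1 : (j : ℝ) ≤ 2000 * a := by linarith
      linarith
    · rw [← hD, pow_add, ← div_div]
      exact div_le_div_of_nonneg_right hρ1 (by positivity)
  · right
    obtain ⟨Γ', ρ', g, hg, h1, h2, h3, h4, h5⟩ := h
    refine ⟨Γ', ρ', a + g, ?_, by linarith, ?_, ?_, h2, ?_, ?_⟩
    · push_cast
      linarith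
    · refine h5.trans ?_
      have h6 : 10 ^ 24 * (a + g) * L ^ 3 * ll L ^ 2 =
          10 ^ 24 * a * L ^ 3 * ll L ^ 2 + 10 ^ 24 * g * L ^ 3 * ll L ^ 2 := by ring
      rw [h6]
      linarith
    · refine le_trans ?_ h1
      rw [← hD]
      have h6 : 10 * (j + 1) = 10 * j + 10 := by ring
      rw [h6, pow_add, ← div_div]
      exact div_le_div_of_nonneg_right hρ1 (by positivity)
    · exact h3
    · have h6 : Real.exp (a + g) * Real.exp (1 - L) =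
          Real.exp g * (Real.exp a * Real.exp (1 - L)) := by
        rw [Real.exp_add]; ring
      rw [h6]
      exact h4

/-- [R3-IT1] The iteration.  `D := 2·10^24 L⁴ λ²`.  By induction on `j`: either a terminal state was
reached, or there is a state after `j` steps: `Γ, ρ, a` with `j/2000 ≤ a`, `|Γ| ≤ 10^24 a L³ λ²`,
`2 / D^(10 j) ≤ ρ ≤ 2`, `Reg D Γ ρ`, `Dens A Γ ρ (e^{a} e^{1-L})`.  (`j = 0`: `Γ = ∅`, `ρ = 2`,
`a = 0`, `bohr = univ`.)  `Dens` implies `e^{a+1-L} ≤ 1`, i.e. `a ≤ L - 1`, so `|Γ| ≤ 10^24 L⁴λ² = D/2`,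
and for `j > 2000 L` no state exists; so a terminal state occurs with `j ≤ 2000 L`. -/
theorem exists_terminal (hodd : Odd (Fintype.card G)) (A : Finset G)
    (hA : ThreeAPFree (A : Set G)) (L : ℝ) (hL : 1 ≤ L)
    (hdens : Real.exp (1 - L) * Fintype.card G ≤ #A) :
    ∃ (Γ : Finset (AddChar G ℂ)) (ρ : ℝ) (j : ℕ), (j : ℝ) ≤ 2000 * L ∧
      (#Γ : ℝ) ≤ 10 ^ 24 * L ^ 4 * ll L ^ 2 ∧
      2 / (2 * 10 ^ 24 * L ^ 4 * ll L ^ 2) ^ (10 * j + 2) ≤ ρ ∧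
      (#(bohr (G := G) Γ ρ) : ℝ) ≤ 1000 * Real.exp (2 * L) := by
  have main : ∀ j : ℕ, it1_Term G L ∨ it1_State A L j := by
    intro j
    induction j with
    | zero => exact Or.inr (it1_base A L hdens)
    | succ j ih =>
      rcases ih with h | h
      · exact Or.inl h
      · exact it1_step hodd A hA L hL j h
  rcases main (⌊2000 * L⌋₊ + 1) with h | h
  · exact h
  · exfalso
    obtain ⟨Γ, ρ, a, hja, ha0, hΓ, hρ1, hρ2, hreg, hd⟩ := h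
    have hl := one_lt_ll hL
    have hρ : 0 < ρ := lt_of_lt_of_le (by positivity) hρ1
    have haL := it1_a_le hρ.le hd
    have h1 := Nat.lt_floor_add_one (2000 * L)
    push_cast at hja
    linarith

end R3
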