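import Mathlib

/-!
# [R3-KM2] Unbalancing (2.5): a statement on finite sums of real numbers
-/

open Finset

namespace R3

/-- [R3-KM2] the pointwise inequality -/
theorem km2_pointwise (g X : ℝ) (s : ℕ) (hs : 1 ≤ s) (hg : |g - X + 1| ≤ 15 / 1000) (hX : 0 ≤ X) :
    (39 / 10 : ℝ) ^ (2 * s) * (g ^ (2 * s) + 1015 / 1000 * g ^ (2 * s - 1)
      - 23 / 10 * (8 / 10 : ℝ) ^ (2 * s)) ≤ 23 / 10 * X ^ (4 * s) := by
  obtain ⟨m, hm⟩ : ∃ m, 2 * s = m + 1 := ⟨2 * s - 1, by omega⟩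
  have hm1 : 2 * s - 1 = m := by omega
  have hodd : Odd m := ⟨s - 1, by omega⟩
  have h4 : 4 * s = 2 * (m + 1) := by omega
  rw [hm1, h4, hm]
  obtain ⟨ha, hb⟩ := abs_le.1 hg
  have hp : (0 : ℝ) < (39 / 10 : ℝ) ^ (m + 1) := by positivity
  have hR : 0 ≤ 23 / 10 * X ^ (2 * (m + 1)) := by positivity
  have hform : g ^ (m + 1) + 1015 / 1000 * g ^ m = g ^ m * (g + 1015 / 1000) := by ring
  rw [hform]
  rcases le_total g 0 with h0 | h0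
  · have h1 : g ^ m ≤ 0 := hodd.pow_nonpos h0
    have h2 : g ^ m * (g + 1015 / 1000) ≤ 0 := mul_nonpos_of_nonpos_of_nonneg h1 (by linarith)
    have h3 : (0 : ℝ) ≤ 23 / 10 * (8 / 10 : ℝ) ^ (m + 1) := by positivity
    exact le_trans (mul_nonpos_of_nonneg_of_nonpos hp.le (by linarith)) hR
  · rcases le_total g (8 / 10) with h8 | h8
    · have h1 : g ^ m ≤ (8 / 10 : ℝ) ^ m := pow_le_pow_left₀ h0 h8 m
      have h2 : g ^ m * (g + 1015 / 1000) ≤ (8 / 10 : ℝ) ^ m * (1815 / 1000) :=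
        mul_le_mul h1 (by linarith) (by linarith) (by positivity)
      have h3 : 23 / 10 * (8 / 10 : ℝ) ^ (m + 1) = (8 / 10 : ℝ) ^ m * (184 / 100) := by ring
      have h4 : (0 : ℝ) ≤ (8 / 10 : ℝ) ^ m := by positivity
      exact le_trans (mul_nonpos_of_nonneg_of_nonpos hp.le (by rw [h3]; nlinarith)) hR
    · have h1 : 0 ≤ g ^ m := by positivity
      have h2 : g ^ m * (g + 1015 / 1000) ≤ 23 / 10 * g ^ (m + 1) := by
        have : g ^ (m + 1) = g ^ m * g := pow_succ g m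
        rw [this]
        nlinarith
      have h3 : (0 : ℝ) ≤ 23 / 10 * (8 / 10 : ℝ) ^ (m + 1) := by positivity
      have h5 : 39 / 10 * g ≤ X ^ 2 := by
        have h7 : (g + 985 / 1000) ^ 2 ≤ X ^ 2 := pow_le_pow_left₀ (by linarith) (by linarith) 2
        nlinarith [sq_nonneg (g - 985 / 1000)]
      have h6 : (39 / 10 * g) ^ (m + 1) ≤ (X ^ 2) ^ (m + 1) :=
        pow_le_pow_left₀ (by positivity) h5 _
      rw [← pow_mul, mul_pow] at h6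
      calc (39 / 10 : ℝ) ^ (m + 1) * (g ^ m * (g + 1015 / 1000) - 23 / 10 * (8 / 10 : ℝ) ^ (m + 1))
          ≤ (39 / 10 : ℝ) ^ (m + 1) * (23 / 10 * g ^ (m + 1)) :=
            mul_le_mul_of_nonneg_left (by linarith) hp.le
        _ = 23 / 10 * ((39 / 10 : ℝ) ^ (m + 1) * g ^ (m + 1)) := by ring
        _ ≤ 23 / 10 * X ^ (2 * (m + 1)) := mul_le_mul_of_nonneg_left h6 (by norm_num)

/-- [R3-KM2] the numbers -/
theorem km2_numbers (L : ℝ) (hL : 1 ≤ L) (s : ℕ) (hs : 25 * L ≤ s) :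
    23 / 10 * (9 / 5 : ℝ) ^ (4 * s) ≤ (39 / 10 : ℝ) ^ (2 * s) *
      (Real.exp (-L) * (984 / 1000 : ℝ) ^ (2 * s) - 23 / 10 * (8 / 10 : ℝ) ^ (2 * s)) := by
  have hs25 : (25 : ℝ) ≤ s := by linarith
  have e1 : (98 / 100 : ℝ) ^ (2 * s) ≤ Real.exp (-L) := by
    have h1 : (98 / 100 : ℝ) ≤ Real.exp (-(1 / 50)) := by
      have := Real.add_one_le_exp (-(1 / 50 : ℝ))
      linarith
    have h2 : (98 / 100 : ℝ) ^ (2 * s) ≤ Real.exp (-(1 / 50)) ^ (2 * s) :=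
      pow_le_pow_left₀ (by norm_num) h1 _
    have h3 : Real.exp (-(1 / 50)) ^ (2 * s) = Real.exp (-(s / 25 : ℝ)) := by
      rw [← Real.exp_nat_mul]
      congr 1
      push_cast
      ring
    rw [h3] at h2
    refine h2.trans (Real.exp_le_exp.2 ?_)
    have : L ≤ s / 25 := by rw [le_div_iff₀ (by norm_num)]; linarith
    linarith
  have e2 : (95 / 100 : ℝ) ^ (2 * s) ≤ Real.exp (-L) * (984 / 1000 : ℝ) ^ (2 * s) := by
    have h1 : (98 / 100 : ℝ) ^ (2 * s) * (984 / 1000 : ℝ) ^ (2 * s) ≤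
        Real.exp (-L) * (984 / 1000 : ℝ) ^ (2 * s) :=
      mul_le_mul_of_nonneg_right e1 (by positivity)
    rw [← mul_pow] at h1
    exact (pow_le_pow_left₀ (by norm_num) (by norm_num) _).trans h1
  have e3 : 46 / 10 * (8 / 10 : ℝ) ^ (2 * s) ≤ (95 / 100 : ℝ) ^ (2 * s) := by
    have h1 : 1 + ((2 * s : ℕ) : ℝ) * (3 / 16) ≤ (1 + 3 / 16 : ℝ) ^ (2 * s) :=
      one_add_mul_le_pow (by norm_num) _
    push_cast at h1
    have h2 : (95 / 100 : ℝ) ^ (2 * s) = (1 + 3 / 16 : ℝ) ^ (2 * s) * (8 / 10 : ℝ) ^ (2 * s) := by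
      rw [← mul_pow]
      norm_num
    rw [h2]
    exact mul_le_mul_of_nonneg_right (by linarith) (by positivity)
  have e4 : 46 / 10 * (9 / 5 : ℝ) ^ (4 * s) ≤ (39 / 10 : ℝ) ^ (2 * s) * (95 / 100 : ℝ) ^ (2 * s) := by
    have h1 : 1 + ((2 * s : ℕ) : ℝ) * (14 / 100) ≤ (1 + 14 / 100 : ℝ) ^ (2 * s) :=
      one_add_mul_le_pow (by norm_num) _
    push_cast at h1
    have h2 : (9 / 5 : ℝ) ^ (4 * s) = (81 / 25 : ℝ) ^ (2 * s) := by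
      have : 4 * s = 2 * (2 * s) := by ring
      rw [this, pow_mul (9 / 5 : ℝ) 2 (2 * s)]
      norm_num
    have h3 : (1 + 14 / 100 : ℝ) ^ (2 * s) * (81 / 25 : ℝ) ^ (2 * s) ≤
        (39 / 10 : ℝ) ^ (2 * s) * (95 / 100 : ℝ) ^ (2 * s) := by
      rw [← mul_pow, ← mul_pow]
      exact pow_le_pow_left₀ (by norm_num) (by norm_num) _
    rw [h2]
    exact (mul_le_mul_of_nonneg_right (by linarith) (by positivity)).trans h3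
  have hp : (0 : ℝ) < (39 / 10 : ℝ) ^ (2 * s) := by positivity
  have e5 : (1 / 2 : ℝ) * (95 / 100 : ℝ) ^ (2 * s) ≤
      Real.exp (-L) * (984 / 1000 : ℝ) ^ (2 * s) - 23 / 10 * (8 / 10 : ℝ) ^ (2 * s) := by linarith
  have e6 := mul_le_mul_of_nonneg_left e5 hp.le
  linarith

/-- [R3-KM2] unbalancing.
PROOF. (1) Pointwise: for real `g ≥ -1.015`, `X ≥ 0`, `X ≥ g + 0.985` and `s ≥ 1`:
`(3.9^(2s)/2.3) * (g^(2s) + 1.015 g^(2s-1) - 2.3 * 0.8^(2s)) ≤ X^(4s)`.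
 Indeed `g^(2s) + 1.015 g^(2s-1) = g^(2s-1) (g + 1.015)`.
 * `g ≤ 0`: `g^(2s-1) ≤ 0` (odd power) and `g + 1.015 ≥ 0`, so the left side is `≤ 0 ≤ X^(4s)`.
 * `0 ≤ g ≤ 0.8`: `g^(2s-1)(g+1.015) ≤ 0.8^(2s-1) * 1.815 = 0.8^(2s) * 2.26875 ≤ 2.3 * 0.8^(2s)`,
   so again the left side is `≤ 0`.
 * `g ≥ 0.8`: `g^(2s-1)(g+1.015) ≤ g^(2s) (1 + 1.015/0.8) ≤ 2.3 g^(2s)`, so the left side is
   `≤ 3.9^(2s) g^(2s) = (3.9 g)^(2s) ≤ (X^2)^(2s) = X^(4s)`, because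
   `X^2 ≥ (g + 0.985)^2 ≥ 4 * 0.985 * g = 3.94 g`.
(2) Sum over `i ∈ T`, use `0 ≤ ∑ g^(2s-1)` and `heven`:
`∑ X^(4s) ≥ (3.9^(2s)/2.3) (exp(-L) 0.984^(2s) - 2.3 * 0.8^(2s)) #T`.
(3) Numbers: `s ≥ 25 L` gives `exp(-L) ≥ exp(-s/25)` and
`exp(-s/25) * 0.984^(2s) ≥ 0.95^(2s)`, because `exp(-1/50) * 0.984 ≥ 0.95`
(`exp(-1/50) ≥ 1 - 1/50 = 0.98`, `0.98 * 0.984 = 0.96432`). Then
`0.95^(2s) - 2.3 * 0.8^(2s) ≥ 0.95^(2s)/2` because `(0.95/0.8)^(2s) ≥ (0.95/0.8)^50 ≥ 4.6`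
(`s ≥ 25`; or Bernoulli: `(1 + 0.1875)^50 ≥ 1 + 50 * 0.1875 > 4.6`), and
`(3.9 * 0.95)^(2s) / 4.6 ≥ (3.24)^(2s)` because `(3.705/3.24)^50 ≥ 1 + 50 * 0.1435 > 4.6`.
Finally `(3.24)^(2s) = (9/5)^(4s)`. -/
theorem unbalance {ι : Type*} (T : Finset ι) (g X : ι → ℝ) (L : ℝ) (hL : 1 ≤ L) (s : ℕ)
    (hs : 25 * L ≤ s) (hg : ∀ i ∈ T, |g i - X i + 1| ≤ 15 / 1000) (hX : ∀ i ∈ T, 0 ≤ X i)
    (hodd : 0 ≤ ∑ i ∈ T, g i ^ (2 * s - 1))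
    (heven : Real.exp (-L) * (984 / 1000 : ℝ) ^ (2 * s) * #T ≤ ∑ i ∈ T, g i ^ (2 * s)) :
    (9 / 5 : ℝ) ^ (4 * s) * #T ≤ ∑ i ∈ T, X i ^ (4 * s) := by
  have hs25 : (25 : ℝ) ≤ s := by linarith
  have hs1 : 1 ≤ s := by
    have : (1 : ℝ) ≤ s := by linarith
    exact_mod_cast this
  have h1 : ∑ i ∈ T, (39 / 10 : ℝ) ^ (2 * s) * (g i ^ (2 * s) + 1015 / 1000 * g i ^ (2 * s - 1)
      - 23 / 10 * (8 / 10 : ℝ) ^ (2 * s)) ≤ ∑ i ∈ T, 23 / 10 * X i ^ (4 * s) :=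
    Finset.sum_le_sum fun i hi => km2_pointwise (g i) (X i) s hs1 (hg i hi) (hX i hi)
  rw [← Finset.mul_sum, ← Finset.mul_sum, Finset.sum_sub_distrib, Finset.sum_add_distrib,
    ← Finset.mul_sum, Finset.sum_const, nsmul_eq_mul] at h1
  have hp : (0 : ℝ) < (39 / 10 : ℝ) ^ (2 * s) := by positivity
  have h2 : (Real.exp (-L) * (984 / 1000 : ℝ) ^ (2 * s) - 23 / 10 * (8 / 10 : ℝ) ^ (2 * s)) * #T ≤
      ∑ i ∈ T, g i ^ (2 * s) + 1015 / 1000 * ∑ i ∈ T, g i ^ (2 * s - 1)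
        - #T * (23 / 10 * (8 / 10 : ℝ) ^ (2 * s)) := by
    nlinarith
  have h3 := mul_le_mul_of_nonneg_left h2 hp.le
  have h4 := mul_le_mul_of_nonneg_right (km2_numbers L hL s hs) (Nat.cast_nonneg (α := ℝ) #T)
  nlinarith

end R3
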