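import Pool.Agent.MP_0f71ae_nt.R3.KMDefs

/-!
# [R3-KM3] Boundary layers (2.2) and the count of progressions (2.3)
-/

open Finset

namespace R3

variable {G : Type*} [AddCommGroup G] [Fintype G] [DecidableEq G]

omit [AddCommGroup G] [Fintype G] in
/-- [R3-KM3] the balanced function as a combination of indicators -/
theorem km3_bal (A₁ B : Finset G) (n : ℝ) (w : G) :
    bal A₁ B n w = n / #A₁ * (if w ∈ A₁ then (1 : ℝ) else 0) - (if w ∈ B then (1 : ℝ) else 0) := by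
  unfold bal
  split_ifs <;> simp

omit [AddCommGroup G] in
/-- [R3-KM3] counting through two bijections: upper bound -/
theorem km3_upper (S T : Finset G) (p q : G ≃ G) :
    ∑ w : G, (if p w ∈ S then (1 : ℝ) else 0) * (if q w ∈ T then (1 : ℝ) else 0) ≤ #S := by
  have h1 : ∑ w : G, (if p w ∈ S then (1 : ℝ) else 0) = #S := by
    rw [p.sum_comp (fun v => if v ∈ S then (1 : ℝ) else 0)]
    simp
  rw [← h1]
  refine Finset.sum_le_sum fun w _ => ?_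
  split_ifs <;> simp

omit [AddCommGroup G] in
/-- [R3-KM3] counting through two bijections: lower bound -/
theorem km3_lower (S T V : Finset G) (p q : G ≃ G) (hVS : V ⊆ S)
    (h : ∀ v ∈ V, q (p.symm v) ∈ T) :
    (#V : ℝ) ≤ ∑ w : G, (if p w ∈ S then (1 : ℝ) else 0) * (if q w ∈ T then (1 : ℝ) else 0) := by
  have h1 : ∑ w : G, (if p w ∈ V then (1 : ℝ) else 0) = #V := by
    rw [p.sum_comp (fun v => if v ∈ V then (1 : ℝ) else 0)]
    simp
  rw [← h1]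
  refine Finset.sum_le_sum fun w _ => ?_
  by_cases hw : p w ∈ V
  · have h2 := h _ hw
    rw [Equiv.symm_apply_apply] at h2
    rw [if_pos hw, if_pos (hVS hw), if_pos h2, one_mul]
  · rw [if_neg hw]
    split_ifs <;> simp

/-- [R3-KM3] the common computation -/
theorem km3_general (A₁ B Bm : Finset G) (hA : A₁.Nonempty) (hAB : A₁ ⊆ B) (hBm : Bm ⊆ B)
    (p q : G ≃ G) (h1 : ∀ v ∈ Bm, q (p.symm v) ∈ B) (h2 : ∀ v ∈ Bm, p (q.symm v) ∈ B)
    (hB1 : (999 / 1000 : ℝ) * #B ≤ #Bm) (hA1 : (#(A₁ \ Bm) : ℝ) ≤ 7 / 1000 * #A₁) :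
    |(∑ w : G, bal A₁ B #B (p w) * bal A₁ B #B (q w)) / #B
      - (#B : ℝ) / (#A₁ : ℝ) ^ 2 * (∑ w : G, (if p w ∈ A₁ then (1 : ℝ) else 0) *
        (if q w ∈ A₁ then (1 : ℝ) else 0)) + 1| ≤ 15 / 1000 := by
  have hApos : (0 : ℝ) < #A₁ := by exact_mod_cast hA.card_pos
  have hBpos : (0 : ℝ) < #B := by exact_mod_cast (hA.mono hAB).card_pos
  set SAA := ∑ w : G, (if p w ∈ A₁ then (1 : ℝ) else 0) * (if q w ∈ A₁ then (1 : ℝ) else 0)
  set SAB := ∑ w : G, (if p w ∈ A₁ then (1 : ℝ) else 0) * (if q w ∈ B then (1 : ℝ) else 0)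
    with hSAB
  set SBA := ∑ w : G, (if p w ∈ B then (1 : ℝ) else 0) * (if q w ∈ A₁ then (1 : ℝ) else 0)
    with hSBA
  set SBB := ∑ w : G, (if p w ∈ B then (1 : ℝ) else 0) * (if q w ∈ B then (1 : ℝ) else 0)
    with hSBB
  have hsum : ∑ w : G, bal A₁ B #B (p w) * bal A₁ B #B (q w) =
      ((#B : ℝ) / #A₁) ^ 2 * SAA - (#B : ℝ) / #A₁ * SAB - (#B : ℝ) / #A₁ * SBA + SBB := by
    rw [Finset.mul_sum, hSAB, hSBA, hSBB, Finset.mul_sum, Finset.mul_sum, ← Finset.sum_sub_distrib,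
      ← Finset.sum_sub_distrib, ← Finset.sum_add_distrib]
    refine Finset.sum_congr rfl fun w _ => ?_
    rw [km3_bal, km3_bal]
    ring
  have hAm : (993 / 1000 : ℝ) * #A₁ ≤ #(A₁ ∩ Bm) := by
    have h3 : (#(A₁ ∩ Bm) : ℝ) + #(A₁ \ Bm) = #A₁ := by
      exact_mod_cast Finset.card_inter_add_card_sdiff A₁ Bm
    linarith
  have u1 : SAB ≤ #A₁ := km3_upper A₁ B p q
  have l1 : (993 / 1000 : ℝ) * #A₁ ≤ SAB :=
    hAm.trans (km3_lower A₁ B (A₁ ∩ Bm) p q Finset.inter_subset_left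
      (fun v hv => h1 v (Finset.mem_inter.1 hv).2))
  have hcomm : SBA = ∑ w : G, (if q w ∈ A₁ then (1 : ℝ) else 0) * (if p w ∈ B then (1 : ℝ) else 0) := by
    rw [hSBA]
    exact Finset.sum_congr rfl fun w _ => mul_comm _ _
  have u2 : SBA ≤ #A₁ := by
    rw [hcomm]
    exact km3_upper A₁ B q p
  have l2 : (993 / 1000 : ℝ) * #A₁ ≤ SBA := by
    rw [hcomm]
    exact hAm.trans (km3_lower A₁ B (A₁ ∩ Bm) q p Finset.inter_subset_left
      (fun v hv => h2 v (Finset.mem_inter.1 hv).2))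
  have u3 : SBB ≤ #B := km3_upper B B p q
  have l3 : (999 / 1000 : ℝ) * #B ≤ SBB := hB1.trans (km3_lower B B Bm p q hBm h1)
  have hform : (∑ w : G, bal A₁ B #B (p w) * bal A₁ B #B (q w)) / #B
      - (#B : ℝ) / (#A₁ : ℝ) ^ 2 * SAA + 1 = 1 - SAB / #A₁ - SBA / #A₁ + SBB / #B := by
    rw [hsum]
    field_simp
    ring
  rw [hform, abs_le]
  have a1 : 993 / 1000 ≤ SAB / #A₁ := by rwa [le_div_iff₀ hApos]
  have a2 : SAB / #A₁ ≤ 1 := by rwa [div_le_one hApos]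
  have a3 : 993 / 1000 ≤ SBA / #A₁ := by rwa [le_div_iff₀ hApos]
  have a4 : SBA / #A₁ ≤ 1 := by rwa [div_le_one hApos]
  have a5 : 999 / 1000 ≤ SBB / #B := by rwa [le_div_iff₀ hBpos]
  have a6 : SBB / #B ≤ 1 := by rwa [div_le_one hBpos]
  constructor <;> linarith

/-- [R3-KM3] (a) `|g*(c) - (R(c) - 1)| ≤ 15/1000`.
PROOF. `n = #B`. Expand `h(w) h(c-w)`:
`n g*(c) = ∑ f(w) f(c-w) - ∑ f(w) 1_B(c-w) - ∑ 1_B(w) f(c-w) + ∑ 1_B(w) 1_B(c-w)`,
`f = (n/#A₁) 1_{A₁}`. The first sum is `n R(c)`. Second: `(n/#A₁) #{w∈A₁ : c-w∈B}`; here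
`#{w∈A₁ : c-w∈B} ≤ #A₁`, and for `w∈A₁∩Bm` we have `w - c ∈ B` (`hU`), so `c - w ∈ B` (`hneg`);
hence it is `≥ #A₁ - #(A₁\Bm) ≥ (993/1000) #A₁`. Third sum = second sum (substitute `w ↦ c - w`,
`Equiv.subLeft`). Fourth: `#{w∈B : c-w∈B} ≤ #B` and `≥ #Bm ≥ (999/1000) #B` in the same way.
So `g* - R + 1 = 1 - 2a + b`, `a∈[0.993,1]`, `b∈[0.999,1]`. -/
theorem gs_close (A₁ B Bm U : Finset G) (hA : A₁.Nonempty) (hAB : A₁ ⊆ B) (hBm : Bm ⊆ B)
    (hneg : ∀ b ∈ B, -b ∈ B) (hU : ∀ b ∈ Bm, ∀ u ∈ U, b + u ∈ B ∧ b - u ∈ B)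
    (hB1 : (999 / 1000 : ℝ) * #B ≤ #Bm) (hA1 : (#(A₁ \ Bm) : ℝ) ≤ 7 / 1000 * #A₁)
    (c : G) (hc : c ∈ U) :
    |gs A₁ B #B c - RR A₁ #B c + 1| ≤ 15 / 1000 := by
  have key := km3_general A₁ B Bm hA hAB hBm (Equiv.refl G) (Equiv.subLeft c)
    (fun v hv => by
      have h := hneg _ (hU v hv c hc).2
      simpa using h)
    (fun v hv => by
      have h := hneg _ (hU v hv c hc).2
      have e : (Equiv.refl G) ((Equiv.subLeft c).symm v) = -(v - c) := by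
        simp only [Equiv.refl_apply, Equiv.subLeft_symm_apply]
        abel
      rw [e]
      exact h) hB1 hA1
  have h1 : (#(A₁.filter fun w => c - w ∈ A₁) : ℝ) = ∑ w : G, (if (Equiv.refl G) w ∈ A₁ then (1 : ℝ)
      else 0) * (if (Equiv.subLeft c) w ∈ A₁ then (1 : ℝ) else 0) := by
    have h2 : (A₁.filter fun w => c - w ∈ A₁) = Finset.univ.filter fun w => w ∈ A₁ ∧ c - w ∈ A₁ := by
      ext w
      simp
    rw [h2, Finset.card_filter]
    push_cast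
    refine Finset.sum_congr rfl fun w _ => ?_
    by_cases h3 : w ∈ A₁ <;> by_cases h4 : c - w ∈ A₁ <;> simp [h3, h4]
  unfold gs RR
  rw [h1]
  exact key

/-- [R3-KM3] (b) `|g(x,y) - (X(x,y) - 1)| ≤ 15/1000` when `x - y ∈ U`.
PROOF. The same with `h(w+x) h(w+y)`: first sum `n X(x,y)` (see `cnt_eq_sum` in Basic.lean);
`∑ f(w+x) 1_B(w+y) = (n/#A₁) #{v∈A₁ : v - (x-y) ∈ B}` (`v = w + x`),
`∑ 1_B(w+x) f(w+y) = (n/#A₁) #{v∈A₁ : v + (x-y) ∈ B}` (`v = w + y`),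
`∑ 1_B(w+x) 1_B(w+y) = #{v∈B : v - (x-y) ∈ B}`; for `v∈Bm` use `hU`. -/
theorem gg_close (A₁ B Bm U : Finset G) (hA : A₁.Nonempty) (hAB : A₁ ⊆ B) (hBm : Bm ⊆ B)
    (hneg : ∀ b ∈ B, -b ∈ B) (hU : ∀ b ∈ Bm, ∀ u ∈ U, b + u ∈ B ∧ b - u ∈ B)
    (hB1 : (999 / 1000 : ℝ) * #B ≤ #Bm) (hA1 : (#(A₁ \ Bm) : ℝ) ≤ 7 / 1000 * #A₁)
    (x y : G) (hc : x - y ∈ U) :
    |gg A₁ B #B x y - X A₁ #B x y + 1| ≤ 15 / 1000 := by
  have key := km3_general A₁ B Bm hA hAB hBm (Equiv.addRight x) (Equiv.addRight y)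
    (fun v hv => by
      have h := (hU v hv (x - y) hc).2
      have e : (Equiv.addRight y) ((Equiv.addRight x).symm v) = v - (x - y) := by
        simp only [Equiv.coe_addRight, Equiv.addRight_symm_apply]
        abel
      rw [e]
      exact h)
    (fun v hv => by
      have h := (hU v hv (x - y) hc).1
      have e : (Equiv.addRight x) ((Equiv.addRight y).symm v) = v + (x - y) := by
        simp only [Equiv.coe_addRight, Equiv.addRight_symm_apply]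
        abel
      rw [e]
      exact h) hB1 hA1
  unfold gg X
  rw [cnt_eq_sum]
  exact key

/-- [R3-KM3] (c) no progressions: `∑_{a∈A₂} g*(2a)^(2s) ≥ 0.984^(2s) #A₂`.
PROOF. For `a∈A₂` the set `{w∈A₁ : a+a-w∈A₁}` is contained in `{a}`: `w + (a+a-w) = a + a` with
all three elements in the 3AP-free set `A'`, so `w = a` (definition of `ThreeAPFree`). Hence
`RR A₁ n (a+a) ≤ n/#A₁^2 ≤ 1/1000` (`hn`), so `gs (a+a) ≤ 1/1000 - 1 + 15/1000 = -984/1000`, so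
pointwise (for every `a∈A₂`!) `gs (a+a)^(2s) = (-gs (a+a))^(2s) ≥ (984/1000)^(2s)`
(`Even.neg_pow`, `pow_le_pow_left₀`). Sum over `a∈A₂`. -/
theorem gs_pow_lower (A' A₁ A₂ : Finset G) (hfree : ThreeAPFree (A' : Set G)) (hA₁ : A₁ ⊆ A')
    (hA₂ : A₂ ⊆ A') (B : Finset G) (n : ℝ) (hn0 : 0 < n) (hA : A₁.Nonempty)
    (hn : 1000 * n ≤ (#A₁ : ℝ) ^ 2)
    (hcl : ∀ a ∈ A₂, |gs A₁ B n (a + a) - RR A₁ n (a + a) + 1| ≤ 15 / 1000) (s : ℕ) :
    (984 / 1000 : ℝ) ^ (2 * s) * #A₂ ≤ ∑ a ∈ A₂, gs A₁ B n (a + a) ^ (2 * s) := by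
  have hApos : (0 : ℝ) < #A₁ := by exact_mod_cast hA.card_pos
  have h1 : ∀ a ∈ A₂, (984 / 1000 : ℝ) ^ (2 * s) ≤ gs A₁ B n (a + a) ^ (2 * s) := by
    intro a ha
    have hsub : (A₁.filter fun w => a + a - w ∈ A₁) ⊆ {a} := by
      intro w hw
      rw [Finset.mem_filter] at hw
      rw [Finset.mem_singleton]
      have h2 := hfree (hA₁ hw.1) (hA₂ ha) (hA₁ hw.2) (by abel)
      exact h2
    have hcard : (#(A₁.filter fun w => a + a - w ∈ A₁) : ℝ) ≤ 1 := by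
      have := Finset.card_le_card hsub
      rw [Finset.card_singleton] at this
      exact_mod_cast this
    have hRR : RR A₁ n (a + a) ≤ 1 / 1000 := by
      unfold RR
      have h3 : n / (#A₁ : ℝ) ^ 2 ≤ 1 / 1000 := by
        rw [div_le_div_iff₀ (by positivity) (by norm_num)]
        linarith
      have h4 : 0 ≤ n / (#A₁ : ℝ) ^ 2 := by positivity
      nlinarith
    have h5 := (abs_le.1 (hcl a ha)).2
    have h6 : 984 / 1000 ≤ -gs A₁ B n (a + a) := by linarith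
    have h7 := pow_le_pow_left₀ (by norm_num) h6 (2 * s)
    rwa [Even.neg_pow (even_two_mul s)] at h7
  have h2 := Finset.sum_le_sum h1
  rw [Finset.sum_const, nsmul_eq_mul, mul_comm] at h2
  exact h2

end R3
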