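import Pool.Agent.MP_0f71ae_nt.R3.KMDefs

/-!
# [R3-KM4] Localisation (2.1)
-/

open Finset

namespace R3

variable {G : Type*} [AddCommGroup G] [Fintype G] [DecidableEq G]

/-- [R3-KM4] (a) averaging over translates.
PROOF. For every `a ∈ A` with `a - x₀ ∈ B₀` the number of `x ∈ T` with `x₀ + x + b = a` for some
`b ∈ B₁`, i.e. `#{x∈T : a - x₀ - x ∈ B₁}`, is at least `#B₁`: the map `b ↦ a - x₀ - b` is an
injection of `B₁` into this set (`hT`). Double counting (`Finset.sum_comm`):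
`∑_{x∈T} #{y∈B₁ : x₀+x+y∈A} = ∑_{x∈T} ∑_{y∈B₁} 1_A(x₀+x+y) ≥ ∑_{z∈B₀, x₀+z∈A} #B₁`
(for fixed `y∈B₁`, `z ↦ z - y` is an injection of `{z∈B₀ : x₀+z∈A}` into
`{x∈T : x₀+x+y∈A}`; this is the simplest way: exchange the sums and do it for each `y`). -/
theorem avg_translates (A B₀ B₁ T : Finset G) (x₀ : G)
    (hT : ∀ z ∈ B₀, ∀ b ∈ B₁, z - b ∈ T) :
    #B₁ * #(B₀.filter fun z => x₀ + z ∈ A) ≤
      ∑ x ∈ T, #(B₁.filter fun y => x₀ + x + y ∈ A) := by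
  have h1 : ∑ x ∈ T, #(B₁.filter fun y => x₀ + x + y ∈ A) =
      ∑ y ∈ B₁, #(T.filter fun x => x₀ + x + y ∈ A) := by
    simp_rw [Finset.card_filter]
    exact Finset.sum_comm
  rw [h1]
  have h2 : ∀ y ∈ B₁, #(B₀.filter fun z => x₀ + z ∈ A) ≤ #(T.filter fun x => x₀ + x + y ∈ A) := by
    intro y hy
    apply Finset.card_le_card_of_injOn (fun z => z - y)
    · intro z hz
      rw [Finset.mem_coe, Finset.mem_filter] at hz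
      rw [Finset.mem_coe, Finset.mem_filter]
      refine ⟨hT z hz.1 y hy, ?_⟩
      have e : x₀ + (z - y) + y = x₀ + z := by abel
      rw [e]
      exact hz.2
    · intro z _ z' _ hzz
      exact sub_left_injective hzz
  calc #B₁ * #(B₀.filter fun z => x₀ + z ∈ A)
      = ∑ y ∈ B₁, #(B₀.filter fun z => x₀ + z ∈ A) := by rw [Finset.sum_const, smul_eq_mul]
    _ ≤ _ := Finset.sum_le_sum h2

private theorem km4_reg {Γ : Finset (AddChar G ℂ)} {D r' s : ℝ}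
    (h : (#(bohr (G := G) Γ ((1 + 1 / (20000 * D)) * r')) : ℝ) ≤
      (1 + 1 / 1000) * #(bohr (G := G) Γ r')) (h1 : r' ≤ s)
    (h2 : (1 + 1 / (40000 * D)) * s ≤ (1 + 1 / (20000 * D)) * r') : Reg D Γ s := by
  unfold Reg
  have a1 : (#(bohr (G := G) Γ ((1 + 1 / (40000 * D)) * s)) : ℝ) ≤
      #(bohr (G := G) Γ ((1 + 1 / (20000 * D)) * r')) := by
    exact_mod_cast Finset.card_le_card (bohr_mono h2)
  have a2 : (#(bohr (G := G) Γ r') : ℝ) ≤ #(bohr (G := G) Γ s) := by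
    exact_mod_cast Finset.card_le_card (bohr_mono h1)
  have a3 : (1 + 1 / 1000 : ℝ) * #(bohr (G := G) Γ r') ≤ (1 + 1 / 1000) * #(bohr (G := G) Γ s) :=
    mul_le_mul_of_nonneg_left a2 (by norm_num)
  exact (a1.trans h).trans a3

/-- the averaging step: if the mean of `N₁/b₁ + N₂/b₂` is large and both are bounded above then
both are large at some point -/
private theorem km4_pick (T : Finset G) (N₁ N₂ : G → ℝ) (b₁ b₂ α₀ M t : ℝ) (hb₁ : 0 < b₁)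
    (hb₂ : 0 < b₂) (hα₀ : 0 < α₀) (hTne : T.Nonempty)
    (hN₁ : ∀ x, N₁ x ≤ (1 + 1 / 1000) * α₀ * b₁) (hN₂ : ∀ x, N₂ x ≤ (1 + 1 / 1000) * α₀ * b₂)
    (hS₁ : b₁ * M ≤ ∑ x ∈ T, N₁ x) (hS₂ : b₂ * M ≤ ∑ x ∈ T, N₂ x) (hM : α₀ * t ≤ M)
    (hT : (#T : ℝ) ≤ (1 + 1 / 1000) * t) :
    ∃ x ∈ T, (1 - 3 / 1000) * α₀ * b₁ ≤ N₁ x ∧ (1 - 3 / 1000) * α₀ * b₂ ≤ N₂ x := by
  by_contra hcon
  push Not at hcon
  have hlt : ∀ x ∈ T, N₁ x / b₁ + N₂ x / b₂ < (2 - 2 / 1000) * α₀ := by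
    intro x hx
    have u₁ : N₁ x / b₁ ≤ (1 + 1 / 1000) * α₀ := by
      rw [div_le_iff₀ hb₁]; exact hN₁ x
    have u₂ : N₂ x / b₂ ≤ (1 + 1 / 1000) * α₀ := by
      rw [div_le_iff₀ hb₂]; exact hN₂ x
    by_cases h1 : (1 - 3 / 1000) * α₀ * b₁ ≤ N₁ x
    · have h2 := hcon x hx h1
      have u₃ : N₂ x / b₂ < (1 - 3 / 1000) * α₀ := by
        rw [div_lt_iff₀ hb₂]; exact h2
      linarith
    · have u₃ : N₁ x / b₁ < (1 - 3 / 1000) * α₀ := by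
        rw [div_lt_iff₀ hb₁]; exact not_le.1 h1
      linarith
  have hsum : ∑ x ∈ T, (N₁ x / b₁ + N₂ x / b₂) < #T * ((2 - 2 / 1000) * α₀) := by
    have h := Finset.sum_lt_sum_of_nonempty hTne hlt
    rwa [Finset.sum_const, nsmul_eq_mul] at h
  rw [Finset.sum_add_distrib, ← Finset.sum_div, ← Finset.sum_div] at hsum
  have v₁ : M ≤ (∑ x ∈ T, N₁ x) / b₁ := by
    rw [le_div_iff₀ hb₁]; linarith
  have v₂ : M ≤ (∑ x ∈ T, N₂ x) / b₂ := by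
    rw [le_div_iff₀ hb₂]; linarith
  have hT0 : (0 : ℝ) < #T := by exact_mod_cast hTne.card_pos
  have ht : 0 < t := by
    by_contra h
    have := not_lt.1 h
    nlinarith
  have w : (#T : ℝ) * ((2 - 2 / 1000) * α₀) ≤
      ((1 + 1 / 1000) * t) * ((2 - 2 / 1000) * α₀) :=
    mul_le_mul_of_nonneg_right hT (by positivity)
  have hat : 0 < α₀ * t := mul_pos hα₀ ht
  nlinarith

/-- [R3-KM4] (b) localisation: either a density increment on the same frequency set or a point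
where `A` has the expected density on both scales.
PROOF. `κ = 1/(40000 D)`, so `1/(20000 D) = 2κ`, `κ ≤ 1/40000`.
`exists_reg` (Bohr.lean) with `r = κρ/4` gives `ρ₁ ∈ [κρ/8, κρ/4]` with the growth bound
(`1/(20000D)`) and with `r = κρ₁/32` gives `ρ₂ ∈ [κρ₁/64, κρ₁/32]`. `Reg D Γ ρ₁`, `Reg D Γ ρ₂` and
`Reg D Γ ((1+κ/2)ρ₁)` hold (`reg_of_growth`: `(1+κ)(1+κ/2) ≤ 1+2κ`). All three radii are in
`[ρ/(10^12 D²), ρ]`: `ρ₂ ≥ κ²ρ/512 = ρ/(8.192*10^11 D²)`.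
Suppose the first alternative fails. Then for each of the three radii `r` and every `x`:
`#(B(r) ∩ (A-x)) < (1+1/1000) α₀ #B(r)` (`Dens` is an existence statement: negate it).
Let `x₀` be the point of `hdens`, `T = B((1+κ)ρ)`, `#T ≤ (1+1/1000) #B(ρ)` (`hreg`, with
`1/(40000D) = κ`). By (a) with `B₀ = B(ρ)`, `B₁ = B(ρ₁)` resp. `B(ρ₂)` (`sub_mem_bohr`,
`ρ+ρ₁ ≤ (1+κ)ρ`): `∑_{x∈T} d_i(x) ≥ #{z∈B₀: x₀+z∈A} ≥ α₀ #B(ρ) ≥ α₀ #T/(1+1/1000)`, where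
`d_i(x) = #{y∈B(ρ_i) : x₀+x+y∈A}/#B(ρ_i)`. So some `x∈T` has
`d_1(x) + d_2(x) ≥ 2α₀/(1+1/1000)`, while both are `≤ (1+1/1000) α₀`; hence both are
`≥ (2/(1.001) - 1.001) α₀ ≥ (1 - 3/1000) α₀`. Take the point `x₀ + x`. -/
theorem localize (A : Finset G) (Γ : Finset (AddChar G ℂ)) (D : ℝ) (hD : 1 ≤ D)
    (hΓ : (#Γ : ℝ) ≤ D) (ρ : ℝ) (hρ : 0 < ρ) (hreg : Reg D Γ ρ) (α₀ : ℝ) (hα₀ : 0 < α₀)
    (hdens : Dens A Γ ρ α₀) :
    (∃ ρ', ρ / (10 ^ 12 * D ^ 2) ≤ ρ' ∧ ρ' ≤ ρ ∧ Reg D Γ ρ' ∧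
      Dens A Γ ρ' ((1 + 1 / 1000) * α₀)) ∨
    ∃ (x : G) (ρ₁ ρ₂ : ℝ), ρ / (320000 * D) ≤ ρ₁ ∧ ρ₁ ≤ ρ / (160000 * D) ∧
      ρ₁ / (2560000 * D) ≤ ρ₂ ∧ ρ₂ ≤ ρ₁ / (1280000 * D) ∧
      (#(bohr (G := G) Γ ((1 + 1 / (20000 * D)) * ρ₁)) : ℝ) ≤
        (1 + 1 / 1000) * #(bohr (G := G) Γ ρ₁) ∧
      (#(bohr (G := G) Γ ((1 + 1 / (20000 * D)) * ρ₂)) : ℝ) ≤
        (1 + 1 / 1000) * #(bohr (G := G) Γ ρ₂) ∧
      (1 - 3 / 1000) * α₀ * #(bohr (G := G) Γ ρ₁) ≤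
        #((bohr (G := G) Γ ρ₁).filter fun y => x + y ∈ A) ∧
      (1 - 3 / 1000) * α₀ * #(bohr (G := G) Γ ρ₂) ≤
        #((bohr (G := G) Γ ρ₂).filter fun y => x + y ∈ A) ∧
      (#((bohr (G := G) Γ ((1 + 1 / (80000 * D)) * ρ₁)).filter fun y => x + y ∈ A) : ℝ) ≤
        (1 + 1 / 1000) * α₀ * #(bohr (G := G) Γ ((1 + 1 / (80000 * D)) * ρ₁)) := by
  have hD0 : 0 < D := lt_of_lt_of_le one_pos hD
  set κ : ℝ := 1 / (40000 * D) with hκ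
  have hκ0 : 0 < κ := by positivity
  have hκ1 : κ ≤ 1 / 40000 := by
    rw [hκ]
    apply one_div_le_one_div_of_le (by norm_num)
    linarith
  have hκD : κ * (40000 * D) = 1 := by
    rw [hκ]; field_simp
  obtain ⟨ρ₁, h11, h12, hR1, hg1⟩ := exists_reg (G := G) hD Γ hΓ (κ * ρ / 4) (by positivity)
  have hρ1 : 0 < ρ₁ := lt_of_lt_of_le (by positivity) h11
  obtain ⟨ρ₂, h21, h22, hR2, hg2⟩ := exists_reg (G := G) hD Γ hΓ (κ * ρ₁ / 32) (by positivity)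
  have hρ2 : 0 < ρ₂ := lt_of_lt_of_le (by positivity) h21
  have e8 : (1 : ℝ) / (80000 * D) = κ / 2 := by
    rw [hκ]; field_simp; norm_num
  have e2 : (1 : ℝ) / (20000 * D) = 2 * κ := by
    rw [hκ]; field_simp; norm_num
  have hR3 : Reg D Γ ((1 + 1 / (80000 * D)) * ρ₁) := by
    apply km4_reg hg1
    · rw [e8]
      have : 0 ≤ κ / 2 * ρ₁ := by positivity
      linarith
    · rw [e8, e2, ← hκ]
      have e : (1 + κ) * ((1 + κ / 2) * ρ₁) =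
          (1 + 2 * κ) * ρ₁ - κ * ρ₁ * (1 - κ) / 2 := by ring
      have : 0 ≤ κ * ρ₁ * (1 - κ) / 2 := by
        have : 0 ≤ 1 - κ := by linarith
        positivity
      rw [e]
      linarith
  by_cases hfirst : ∃ ρ', ρ / (10 ^ 12 * D ^ 2) ≤ ρ' ∧ ρ' ≤ ρ ∧ Reg D Γ ρ' ∧
      Dens A Γ ρ' ((1 + 1 / 1000) * α₀)
  · exact Or.inl hfirst
  right
  push Not at hfirst
  -- the three radii are in the admissible range
  have hκρ : κ * ρ ≤ ρ := by nlinarith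
  have hκρ1 : κ * ρ₁ ≤ ρ₁ := by nlinarith
  have hlow2 : ρ / (10 ^ 12 * D ^ 2) ≤ ρ₂ := by
    have s1 : κ * ρ / 8 ≤ ρ₁ := by linarith
    have s2 : κ * ρ₁ / 64 ≤ ρ₂ := by linarith
    have s3 : κ * (κ * ρ / 8) / 64 ≤ ρ₂ := by
      have : κ * (κ * ρ / 8) ≤ κ * ρ₁ := mul_le_mul_of_nonneg_left s1 hκ0.le
      linarith
    have s4 : ρ / (10 ^ 12 * D ^ 2) ≤ κ * (κ * ρ / 8) / 64 := by
      rw [div_le_iff₀ (by positivity)]
      have s5 : κ * (κ * ρ / 8) / 64 * (10 ^ 12 * D ^ 2) =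
          (κ * (40000 * D)) ^ 2 * ρ * (10 ^ 12 / (512 * 40000 ^ 2)) := by ring
      rw [s5, hκD]
      norm_num
      linarith
    linarith
  have hlow1 : ρ / (10 ^ 12 * D ^ 2) ≤ ρ₁ := by linarith
  have hup1 : ρ₁ ≤ ρ := by linarith
  have hup2 : ρ₂ ≤ ρ := by linarith
  have hlow3 : ρ / (10 ^ 12 * D ^ 2) ≤ (1 + 1 / (80000 * D)) * ρ₁ := by
    rw [e8]
    have : 0 ≤ κ / 2 * ρ₁ := by positivity
    linarith
  have hup3 : (1 + 1 / (80000 * D)) * ρ₁ ≤ ρ := by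
    rw [e8]
    have : κ / 2 * ρ₁ ≤ ρ₁ := by linarith
    linarith
  have hneg : ∀ r, ρ / (10 ^ 12 * D ^ 2) ≤ r → r ≤ ρ → Reg D Γ r → ∀ x : G,
      (#((bohr (G := G) Γ r).filter fun y => x + y ∈ A) : ℝ) ≤
        (1 + 1 / 1000) * α₀ * #(bohr (G := G) Γ r) := by
    intro r hr1 hr2 hr3 x
    by_contra hx
    exact hfirst r hr1 hr2 hr3 ⟨x, (not_le.1 hx).le⟩
  obtain ⟨x₀, hx₀⟩ := hdens
  have hsubT : ∀ r, r ≤ κ * ρ → ∀ z ∈ bohr (G := G) Γ ρ, ∀ b ∈ bohr (G := G) Γ r,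
      z - b ∈ bohr (G := G) Γ ((1 + 1 / (40000 * D)) * ρ) := by
    intro r hr z hz b hb
    apply bohr_mono _ (sub_mem_bohr hz hb)
    rw [← hκ]
    linarith
  have hav : ∀ r, r ≤ κ * ρ → (#(bohr (G := G) Γ r) : ℝ) *
      #((bohr (G := G) Γ ρ).filter fun z => x₀ + z ∈ A) ≤
      ∑ x ∈ bohr (G := G) Γ ((1 + 1 / (40000 * D)) * ρ),
        (#((bohr (G := G) Γ r).filter fun y => x₀ + x + y ∈ A) : ℝ) := by
    intro r hr
    exact_mod_cast avg_translates A (bohr (G := G) Γ ρ) (bohr (G := G) Γ r) _ x₀ (hsubT r hr)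
  have hκρ0 : 0 < κ * ρ := by positivity
  have hr1 : ρ₁ ≤ κ * ρ := by linarith
  have hr2 : ρ₂ ≤ κ * ρ := by linarith
  obtain ⟨x, -, hx1, hx2⟩ := km4_pick (bohr (G := G) Γ ((1 + 1 / (40000 * D)) * ρ))
    (fun x => (#((bohr (G := G) Γ ρ₁).filter fun y => x₀ + x + y ∈ A) : ℝ))
    (fun x => (#((bohr (G := G) Γ ρ₂).filter fun y => x₀ + x + y ∈ A) : ℝ))
    (#(bohr (G := G) Γ ρ₁)) (#(bohr (G := G) Γ ρ₂)) α₀
    (#((bohr (G := G) Γ ρ).filter fun z => x₀ + z ∈ A)) (#(bohr (G := G) Γ ρ))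
    (bohr_card_pos hρ1.le) (bohr_card_pos hρ2.le) hα₀ (bohr_nonempty (by positivity))
    (fun x => hneg ρ₁ hlow1 hup1 hR1 (x₀ + x)) (fun x => hneg ρ₂ hlow2 hup2 hR2 (x₀ + x))
    (hav ρ₁ hr1) (hav ρ₂ hr2) hx₀ hreg
  have q1 : ρ / (320000 * D) = κ * ρ / 8 := by
    rw [hκ]; field_simp; norm_num
  have q2 : ρ / (160000 * D) = κ * ρ / 4 := by
    rw [hκ]; field_simp; norm_num
  have q3 : ρ₁ / (2560000 * D) = κ * ρ₁ / 64 := by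
    rw [hκ]; field_simp; norm_num
  have q4 : ρ₁ / (1280000 * D) = κ * ρ₁ / 32 := by
    rw [hκ]; field_simp; norm_num
  refine ⟨x₀ + x, ρ₁, ρ₂, ?_, ?_, ?_, ?_, hg1, hg2, hx1, hx2, ?_⟩
  · rw [q1]; linarith
  · rw [q2]; exact h12
  · rw [q3]; linarith
  · rw [q4]; exact h22
  · exact hneg _ hlow3 hup3 hR3 (x₀ + x)

end R3
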