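import Pool.Agent.MP_0f71ae_nt.R3.KM1
import Pool.Agent.MP_0f71ae_nt.R3.KM2
import Pool.Agent.MP_0f71ae_nt.R3.KM3
import Pool.Agent.MP_0f71ae_nt.R3.KM4

/-!
# [R3] The Kelley-Meka input (section 2 of R3_FIFTH.md), with radii not depending on the density
-/

open Finset

namespace R3

variable {G : Type*} [AddCommGroup G] [Fintype G] [DecidableEq G]

/-- the numerical step of 2.4 -/
theorem km_num {e2 P α₀ V S c1 a2 f0 g2 eL : ℝ} (he2 : 0 ≤ e2) (hP : 0 ≤ P) (hV : 0 < V)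
    (h1 : (1 - 3 / 1000) * α₀ * V ≤ a2) (h2 : P * a2 ≤ f0) (h3 : e2 * f0 ≤ c1 * g2)
    (h4 : g2 ≤ S) (hS : 0 ≤ S) (hc1 : 0 ≤ c1) (h5 : c1 ≤ (1 + 1 / 1000) * V)
    (h6 : 2 * eL ≤ α₀) (heL : 0 < eL) : e2 * (P * eL) ≤ S := by
  have a1 : (1 + 1 / 1000) * eL ≤ (1 - 3 / 1000) * α₀ := by linarith
  have a2' : (1 + 1 / 1000) * eL * V ≤ a2 := le_trans (mul_le_mul_of_nonneg_right a1 hV.le) h1
  have a3 : P * ((1 + 1 / 1000) * eL * V) ≤ f0 := le_trans (mul_le_mul_of_nonneg_left a2' hP) h2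
  have a4 : e2 * (P * ((1 + 1 / 1000) * eL * V)) ≤ c1 * g2 :=
    le_trans (mul_le_mul_of_nonneg_left a3 he2) h3
  have a5 : c1 * g2 ≤ ((1 + 1 / 1000) * V) * S :=
    le_trans (mul_le_mul_of_nonneg_left h4 hc1) (mul_le_mul_of_nonneg_right h5 hS)
  have a6 : ((1 + 1 / 1000) * V) * (e2 * (P * eL)) ≤ ((1 + 1 / 1000) * V) * S := by
    calc ((1 + 1 / 1000) * V) * (e2 * (P * eL)) = e2 * (P * ((1 + 1 / 1000) * eL * V)) := by ring
      _ ≤ _ := a4.trans a5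
  exact le_of_mul_le_mul_left a6 (by positivity)

theorem km_exp {L α₀ : ℝ} (hα₀ : Real.exp (1 - L) ≤ α₀) : 2 * Real.exp (-L) ≤ α₀ := by
  have h1 : Real.exp (1 - L) = Real.exp 1 * Real.exp (-L) := by
    rw [← Real.exp_add]; ring_nf
  have h2 := Real.exp_one_gt_d9
  have h3 := Real.exp_pos (-L)
  calc 2 * Real.exp (-L) ≤ Real.exp 1 * Real.exp (-L) :=
        mul_le_mul_of_nonneg_right (by linarith) h3.le
    _ = Real.exp (1 - L) := h1.symm
    _ ≤ α₀ := hα₀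

/-- the moment bound for one small set `E` (steps 2.2-2.5) -/
theorem km_moment (hodd : Odd (Fintype.card G)) (A' : Finset G)
    (hfree : ThreeAPFree (A' : Set G)) (Γ : Finset (AddChar G ℂ)) (κ ρ₁ ρ₂ α₀ L : ℝ)
    (hκ : 0 < κ) (hκ1 : κ ≤ 1 / 40000) (hρ₁ : 0 < ρ₁) (hρ₂ : 0 < ρ₂) (h2u : ρ₂ ≤ κ * ρ₁ / 32)
    (hL : 1 ≤ L) (hα₀ : Real.exp (1 - L) ≤ α₀) (A₁ B Bm : Finset G)
    (hBm : Bm = bohr Γ ρ₁) (hB : B = bohr Γ ((1 + κ / 4) * ρ₁))
    (hA₁ : A₁ ⊆ A') (hA₁B : A₁ ⊆ B) (hA₁ne : A₁.Nonempty)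
    (hB1 : (999 / 1000 : ℝ) * #B ≤ #Bm) (hA1 : (#(A₁ \ Bm) : ℝ) ≤ 7 / 1000 * #A₁)
    (hn : 1000 * (#B : ℝ) ≤ (#A₁ : ℝ) ^ 2)
    (hg2 : (#(bohr (G := G) Γ ((1 + 2 * κ) * ρ₂)) : ℝ) ≤
        (1 + 1 / 1000) * #(bohr (G := G) Γ ρ₂))
    (hd2 : (1 - 3 / 1000) * α₀ * #(bohr (G := G) Γ ρ₂) ≤
        #((bohr (G := G) Γ ρ₂).filter fun y => y ∈ A'))
    (s : ℕ) (hs : 25 * L ≤ s) (δ : ℝ) (hδ : 0 ≤ δ) (hδ2 : 2 * δ ≤ κ * ρ₂) :
    (9 / 5 : ℝ) ^ (4 * s) ≤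
      Phi A₁ #B (bohr (half Γ) δ) (bohr (half Γ) δ) (4 * s) := by
  have hα0 : 0 < α₀ := (Real.exp_pos _).trans_le hα₀
  have hκρ : 0 < κ * ρ₁ := by positivity
  have hκρ2 : 0 < κ * ρ₂ := by positivity
  have hκρ3 : κ * ρ₂ ≤ κ * ρ₁ / 8 := by
    have h1 : κ * ρ₁ ≤ 1 / 40000 * ρ₁ := mul_le_mul_of_nonneg_right hκ1 hρ₁.le
    have h2 : κ * ρ₂ ≤ κ * (ρ₁ / 8) := mul_le_mul_of_nonneg_left (by linarith) hκ.le
    linarith
  have hBpos : (0 : ℝ) < #B := by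
    rw [hB]; exact bohr_card_pos (by positivity)
  set U : Finset G := bohr Γ (κ * ρ₁ / 4) with hUdef
  have hBmB : Bm ⊆ B := by
    rw [hBm, hB]; exact bohr_mono (by linarith)
  have hneg : ∀ b ∈ B, -b ∈ B := by
    intro b hb; rw [hB] at hb ⊢; exact neg_mem_bohr hb
  have hU : ∀ b ∈ Bm, ∀ u ∈ U, b + u ∈ B ∧ b - u ∈ B := by
    intro b hb u hu
    rw [hBm] at hb
    rw [hUdef] at hu
    have e : (1 + κ / 4) * ρ₁ = ρ₁ + κ * ρ₁ / 4 := by ring
    rw [hB, e]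
    exact ⟨add_mem_bohr hb hu, sub_mem_bohr hb hu⟩
  set E : Finset G := bohr (half Γ) δ with hE
  have hEne : E.Nonempty := bohr_nonempty hδ
  have hEpos : (0 : ℝ) < #E := by exact_mod_cast hEne.card_pos
  have hEneg : ∀ x ∈ E, -x ∈ E := fun x hx => neg_mem_bohr hx
  have hEU : ∀ x ∈ E, ∀ y ∈ E, x - y ∈ U := by
    intro x hx y hy
    have h1 := bohr_half_subset hodd Γ δ hx
    have h2 := bohr_half_subset hodd Γ δ hy
    refine bohr_mono ?_ (sub_mem_bohr h1 h2)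
    linarith
  -- the sets of 2.4
  set C₀ : Finset G := bohr (half Γ) ρ₂ with hC₀
  set C₁ : Finset G := bohr (half Γ) ((1 + 2 * κ) * ρ₂) with hC₁
  have hC₁ne : C₁.Nonempty := bohr_nonempty (by positivity)
  have hCC : ∀ c ∈ C₀, ∀ x ∈ E, ∀ y ∈ E, c - x + y ∈ C₁ := by
    intro c hc x hx y hy
    refine bohr_mono ?_ (add_mem_bohr (sub_mem_bohr hc hx) hy)
    linarith
  obtain ⟨c, hc, hcE⟩ := km_exists_translate C₀ C₁ E hC₁ne hCC
    (fun c => gs A₁ B #B c ^ (2 * s)) (fun c => (even_two_mul s).pow_nonneg _)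
  -- lower bound on `C₀`
  set A₂ : Finset G := (bohr (G := G) Γ ρ₂).filter (fun y => y ∈ A') with hA₂
  have hlow := gs_pow_lower A' A₁ A₂ hfree hA₁ (fun y hy => (mem_filter.1 hy).2) B #B hBpos
    hA₁ne hn (by
      intro a ha
      apply gs_close A₁ B Bm U hA₁ne hA₁B hBmB hneg hU hB1 hA1
      have ha' := (mem_filter.1 ha).1
      refine bohr_mono ?_ (add_mem_bohr ha' ha')
      linarith) s
  have hsumC : (∑ a ∈ A₂, gs A₁ B #B (a + a) ^ (2 * s)) ≤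
      ∑ c ∈ C₀, gs A₁ B #B c ^ (2 * s) := by
    have hinj : Set.InjOn (fun a : G => a + a) (bohr (G := G) Γ ρ₂ : Set G) := by
      intro a _ b _ hab
      have := congrArg (halfHom G) hab
      simp only [halfHom_add_self hodd] at this
      exact this
    have e : C₀ = (bohr Γ ρ₂).image (fun x => x + x) := bohr_half_eq_image hodd Γ ρ₂
    rw [e, Finset.sum_image hinj]
    exact Finset.sum_le_sum_of_subset_of_nonneg (filter_subset _ _)
      (fun _ _ _ => (even_two_mul s).pow_nonneg _)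
  have hgg := gs_le_gg A₁ B #B hBpos E hEneg c (2 * s)
  have hC₁card : (#C₁ : ℝ) ≤ (1 + 1 / 1000) * #(bohr (G := G) Γ ρ₂) := by
    rw [hC₁, card_bohr_half hodd]; exact hg2
  have hC₁card0 : (0 : ℝ) ≤ #C₁ := Nat.cast_nonneg _
  have hS0 := gg_psd A₁ B #B hBpos E (2 * s)
  have hmain2 := km_num (sq_nonneg (#E : ℝ)) (pow_nonneg (by norm_num) (2 * s) :
    (0 : ℝ) ≤ (984 / 1000 : ℝ) ^ (2 * s)) (bohr_card_pos hρ₂.le) hd2 (hlow.trans hsumC) hcE hgg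
    hS0 hC₁card0 hC₁card (km_exp hα₀) (Real.exp_pos (-L))
  -- unbalancing
  have hun := unbalance (E ×ˢ E) (fun i => gg A₁ B #B i.1 i.2) (fun i => X A₁ #B i.1 i.2)
    L hL s hs (by
      rintro ⟨x, y⟩ hxy
      rw [mem_product] at hxy
      exact gg_close A₁ B Bm U hA₁ne hA₁B hBmB hneg hU hB1 hA1 x y (hEU x hxy.1 y hxy.2))
    (fun i _ => X_nonneg A₁ #B hBpos i.1 i.2)
    (by
      rw [Finset.sum_product]
      exact gg_psd A₁ B #B hBpos E (2 * s - 1))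
    (by
      rw [Finset.sum_product, card_product]
      push_cast
      refine le_trans (le_of_eq ?_) hmain2
      ring)
  rw [Finset.sum_product, card_product] at hun
  push_cast at hun
  unfold Phi
  rw [le_div_iff₀ (by positivity)]
  exact hun

/-- [R3-KM] OUTPUT of section 2 (interface between helper40's rows and `Step.lean`).
`κ = 1/(40000 D)`; the increment radius is `≥ κ²ρ/512`, the terminal radius is `κρ/8`,
`σ = κ ρ₂ ≥ κ³ ρ/512`. -/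
theorem km (hodd : Odd (Fintype.card G)) (A : Finset G) (hA : ThreeAPFree (A : Set G))
    (Γ : Finset (AddChar G ℂ)) (D : ℝ) (hD : 1 ≤ D) (hΓ : (#Γ : ℝ) ≤ D) (ρ : ℝ) (hρ : 0 < ρ)
    (hreg : Reg D Γ ρ) (α₀ L : ℝ) (hL : 1 ≤ L) (hα₀ : Real.exp (1 - L) ≤ α₀)
    (hdens : Dens A Γ ρ α₀) :
    (∃ ρ', ρ / (10 ^ 12 * D ^ 2) ≤ ρ' ∧ ρ' ≤ ρ ∧ Reg D Γ ρ' ∧
      Dens A Γ ρ' ((1 + 1 / 1000) * α₀)) ∨
    (#(bohr (G := G) Γ (ρ / (320000 * D))) : ℝ) ≤ 1000 * Real.exp (2 * L) ∨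
    ∃ (x : G) (A₁ : Finset G) (n σ : ℝ), 0 < n ∧ A₁.Nonempty ∧ (∀ a ∈ A₁, x + a ∈ A) ∧
      (1 - 4 / 1000) * α₀ * n ≤ #A₁ ∧ ρ / (10 ^ 17 * D ^ 3) ≤ σ ∧ σ ≤ ρ ∧
      (∃ W : Finset G, (#W : ℝ) ≤ 2 * n ∧
        ∀ y ∈ bohr (G := G) Γ σ, ∀ w, w + y ∈ A₁ → w ∈ W) ∧
      ∃ p : ℕ, 1 ≤ p ∧ (p : ℝ) ≤ 104 * L ∧ ∀ δ, 0 ≤ δ → 2 * δ ≤ σ →
        (9 / 5 : ℝ) ^ p ≤ Phi A₁ n (bohr (half Γ) δ) (bohr (half Γ) δ) p := by
  have hα0 : 0 < α₀ := (Real.exp_pos _).trans_le hα₀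
  have hD0 : 0 < D := by linarith
  rcases localize A Γ D hD hΓ ρ hρ hreg α₀ hα0 hdens with
    h | ⟨x, ρ₁, ρ₂, h1l, h1u, h2l, h2u, hg1, hg2, hd1, hd2, hdp⟩
  · exact Or.inl h
  right
  by_cases hterm : (#(bohr (G := G) Γ (ρ / (320000 * D))) : ℝ) ≤ 1000 * Real.exp (2 * L)
  · exact Or.inl hterm
  right
  push Not at hterm
  set κ : ℝ := 1 / (40000 * D) with hκ
  have hκ0 : 0 < κ := by positivity
  have hκ1 : κ ≤ 1 / 40000 := by
    rw [hκ]; apply one_div_le_one_div_of_le (by norm_num); linarith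
  have e1 : (1 : ℝ) / (20000 * D) = 2 * κ := by rw [hκ]; field_simp; norm_num
  have e2 : (1 : ℝ) / (80000 * D) = κ / 2 := by rw [hκ]; field_simp; norm_num
  have e3 : ρ / (320000 * D) = κ * ρ / 8 := by rw [hκ]; field_simp; norm_num
  have e4 : ρ / (160000 * D) = κ * ρ / 4 := by rw [hκ]; field_simp; norm_num
  have e5 : ρ₁ / (2560000 * D) = κ * ρ₁ / 64 := by rw [hκ]; field_simp; ring
  have e6 : ρ₁ / (1280000 * D) = κ * ρ₁ / 32 := by rw [hκ]; field_simp; ring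
  rw [e1] at hg1 hg2
  rw [e2] at hdp
  rw [e3] at h1l hterm
  rw [e4] at h1u
  rw [e5] at h2l
  rw [e6] at h2u
  have hρ₁ : 0 < ρ₁ := by
    have : 0 < κ * ρ := by positivity
    linarith
  have hκρ₁ : 0 < κ * ρ₁ := by positivity
  have hρ₂ : 0 < ρ₂ := by linarith
  have hκρ₂ : 0 < κ * ρ₂ := by positivity
  have hκρ3 : κ * ρ₂ ≤ κ * ρ₁ / 8 := by
    have h1 : κ * ρ₁ ≤ 1 / 40000 * ρ₁ := mul_le_mul_of_nonneg_right hκ1 hρ₁.le
    have h2 : κ * ρ₂ ≤ κ * (ρ₁ / 8) := mul_le_mul_of_nonneg_left (by linarith) hκ0.le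
    linarith
  have hσρ : κ * ρ₂ ≤ ρ := by
    have h1 : κ * ρ₁ ≤ 1 / 40000 * ρ₁ := mul_le_mul_of_nonneg_right hκ1 hρ₁.le
    have h2 : κ * ρ ≤ 1 / 40000 * ρ := mul_le_mul_of_nonneg_right hκ1 hρ.le
    linarith
  set Bm : Finset G := bohr Γ ρ₁ with hBm
  set B : Finset G := bohr Γ ((1 + κ / 4) * ρ₁) with hB
  set Bp : Finset G := bohr Γ ((1 + κ / 2) * ρ₁) with hBp
  set A' : Finset G := univ.filter (fun y => x + y ∈ A) with hA'
  set A₁ : Finset G := B.filter (fun y => x + y ∈ A) with hA₁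
  have hBmpos : (0 : ℝ) < #Bm := bohr_card_pos hρ₁.le
  have hBmB : Bm ⊆ B := bohr_mono (by linarith)
  have hBBp : B ⊆ Bp := bohr_mono (by linarith)
  have hBmBc : (#Bm : ℝ) ≤ #B := by exact_mod_cast card_le_card hBmB
  have hBBpc : (#B : ℝ) ≤ #Bp := by exact_mod_cast card_le_card hBBp
  have hBpc : (#Bp : ℝ) ≤ (1 + 1 / 1000) * #Bm := by
    refine le_trans ?_ hg1
    exact_mod_cast card_le_card (bohr_mono (by linarith))
  have hBpos : (0 : ℝ) < #B := by linarith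
  -- sizes
  have hsub : Bm.filter (fun y => x + y ∈ A) ⊆ A₁ := by
    rw [hA₁]; exact filter_subset_filter _ hBmB
  have hA₁low : (1 - 3 / 1000) * α₀ * #Bm ≤ #A₁ := by
    refine hd1.trans ?_
    exact_mod_cast card_le_card hsub
  have hA₁pos : (0 : ℝ) < #A₁ := by
    have : 0 < α₀ * (#Bm : ℝ) := by positivity
    linarith
  have hA₁ne : A₁.Nonempty := by
    rw [← card_pos]; exact_mod_cast hA₁pos
  have hA₁n : (1 - 4 / 1000) * α₀ * #B ≤ #A₁ := by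
    refine le_trans ?_ hA₁low
    have h1 : α₀ * (#B : ℝ) ≤ α₀ * ((1 + 1 / 1000) * #Bm) :=
      mul_le_mul_of_nonneg_left (by linarith) hα0.le
    have h2 : 0 < α₀ * (#Bm : ℝ) := by positivity
    linarith
  have hlayer : (#(A₁ \ Bm) : ℝ) ≤ 7 / 1000 * #A₁ := by
    have h1 : #(A₁ \ Bm) + #(Bm.filter (fun y => x + y ∈ A)) ≤
        #(Bp.filter (fun y => x + y ∈ A)) := by
      rw [← card_union_of_disjoint]
      · apply card_le_card
        intro y hy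
        rw [mem_union, mem_sdiff] at hy
        rw [mem_filter]
        rcases hy with hy | hy
        · have := (mem_filter.1 hy.1)
          exact ⟨hBBp this.1, this.2⟩
        · have := (mem_filter.1 hy)
          exact ⟨hBBp (hBmB this.1), this.2⟩
      · rw [Finset.disjoint_left]
        intro y hy hy2
        exact (mem_sdiff.1 hy).2 (mem_filter.1 hy2).1
    have h2 : (#(A₁ \ Bm) : ℝ) + #(Bm.filter (fun y => x + y ∈ A)) ≤
        #(Bp.filter (fun y => x + y ∈ A)) := by exact_mod_cast h1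
    have h3 : (1 + 1 / 1000) * α₀ * (#Bp : ℝ) ≤ (1 + 1 / 1000) * α₀ * ((1 + 1 / 1000) * #Bm) :=
      mul_le_mul_of_nonneg_left hBpc (by positivity)
    have h4 : 0 < α₀ * (#Bm : ℝ) := by positivity
    linarith
  have hB1 : (999 / 1000 : ℝ) * #B ≤ #Bm := by linarith
  have hBig : 1000 * Real.exp (2 * L) < #B := by
    refine hterm.trans_le ?_
    exact_mod_cast card_le_card (bohr_mono (by linarith))
  have hn : 1000 * (#B : ℝ) ≤ (#A₁ : ℝ) ^ 2 := by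
    have h1 : Real.exp (-L) * #B ≤ #A₁ := by
      refine le_trans ?_ hA₁n
      have h4 := km_exp hα₀
      have h5 : Real.exp (-L) ≤ (1 - 4 / 1000) * α₀ := by linarith
      exact mul_le_mul_of_nonneg_right h5 hBpos.le
    have h2 : (Real.exp (-L) * #B) ^ 2 ≤ (#A₁ : ℝ) ^ 2 :=
      pow_le_pow_left₀ (by positivity) h1 2
    refine le_trans ?_ h2
    have h3 : (Real.exp (-L) * #B) ^ 2 = Real.exp (-(2 * L)) * #B * #B := by
      rw [mul_pow, ← Real.exp_nat_mul]; push_cast; ring_nf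
    rw [h3]
    have h4 : 1000 ≤ Real.exp (-(2 * L)) * #B := by
      have h5 : Real.exp (-(2 * L)) * Real.exp (2 * L) = 1 := by
        rw [← Real.exp_add]; simp
      have h6 := Real.exp_pos (-(2 * L))
      have h7 := mul_lt_mul_of_pos_left hBig h6
      have h8 : Real.exp (-(2 * L)) * (1000 * Real.exp (2 * L)) = 1000 := by
        rw [mul_left_comm, h5, mul_one]
      linarith
    exact mul_le_mul_of_nonneg_right h4 hBpos.le
  have hfree : ThreeAPFree (A' : Set G) := by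
    intro a ha b hb c hc habc
    have ha' : x + a ∈ A := by simpa [hA'] using ha
    have hb' : x + b ∈ A := by simpa [hA'] using hb
    have hc' : x + c ∈ A := by simpa [hA'] using hc
    have := hA (mem_coe.2 ha') (mem_coe.2 hb') (mem_coe.2 hc')
      (by rw [show x + a + (x + c) = x + x + (a + c) by abel, habc]; abel)
    exact add_left_cancel this
  refine ⟨x, A₁, #B, κ * ρ₂, hBpos, hA₁ne, fun a ha => (mem_filter.1 ha).2, hA₁n, ?_, ?_,
    ⟨Bp, ?_, ?_⟩, 4 * ⌈25 * L⌉₊, ?_, ?_, ?_⟩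
  · -- σ lower bound
    have h1 : κ * (κ * (κ * ρ / 8) / 64) ≤ κ * ρ₂ := by
      have : κ * (κ * ρ / 8) / 64 ≤ ρ₂ := by
        refine le_trans ?_ h2l
        gcongr
      gcongr
    refine le_trans ?_ h1
    have h2 : κ * (κ * (κ * ρ / 8) / 64) = ρ / (32768000000000000 * D ^ 3) := by
      rw [hκ]; field_simp; norm_num
    rw [h2]
    gcongr
    norm_num
  · linarith
  · linarith
  · intro y hy w hw
    have hw' := (mem_filter.1 hw).1
    have h1 := sub_mem_bohr hw' hy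
    rw [add_sub_cancel_right] at h1
    exact bohr_mono (by linarith) h1
  · have : 0 < ⌈25 * L⌉₊ := Nat.ceil_pos.2 (by linarith)
    omega
  · have := (Nat.ceil_lt_add_one (show 0 ≤ 25 * L by linarith)).le
    push_cast
    linarith
  · intro δ hδ hδ2
    have hd2' : (1 - 3 / 1000) * α₀ * #(bohr (G := G) Γ ρ₂) ≤
        #((bohr (G := G) Γ ρ₂).filter fun y => y ∈ A') := by
      have : ((bohr (G := G) Γ ρ₂).filter fun y => y ∈ A') =
          ((bohr (G := G) Γ ρ₂).filter fun y => x + y ∈ A) := by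
        apply filter_congr
        intro y _
        simp [hA']
      rw [this]; exact hd2
    exact km_moment hodd A' hfree Γ κ ρ₁ ρ₂ α₀ L hκ0 hκ1 hρ₁ hρ₂ h2u hL hα₀ A₁ B Bm hBm hB
      (by
        intro y hy
        rw [hA']
        simpa using (mem_filter.1 hy).2)
      (filter_subset _ _) hA₁ne hB1 hlayer hn hg2 hd2' _ (Nat.le_ceil _) δ hδ hδ2

end R3
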