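import Pool.Agent.MP_0f71ae_nt.R3.KMDefs

/-!
# [R3-KM1] Powers of inner products: Cauchy-Schwarz, positivity, and the translation trick (2.4)
-/

open Finset

namespace R3

/-- The basic expansion. -/
theorem km1_expand {ι κ Ω : Type*} [Fintype Ω] (S : Finset ι) (T : Finset κ)
    (u : ι → Ω → ℝ) (v : κ → Ω → ℝ) (p : ℕ) :
    ∑ x ∈ S, ∑ y ∈ T, (∑ w, u x w * v y w) ^ p =
      ∑ ω : Fin p → Ω, (∑ x ∈ S, ∏ i, u x (ω i)) * (∑ y ∈ T, ∏ i, v y (ω i)) := by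
  have h1 : ∀ x y, (∑ w, u x w * v y w) ^ p =
      ∑ ω : Fin p → Ω, (∏ i, u x (ω i)) * (∏ i, v y (ω i)) := by
    intro x y
    rw [Fintype.sum_pow]
    exact Finset.sum_congr rfl fun ω _ => Finset.prod_mul_distrib
  simp_rw [h1, Finset.sum_mul_sum]
  rw [Finset.sum_comm]
  have h2 : ∀ y ∈ T, ∑ x ∈ S, ∑ ω : Fin p → Ω, (∏ i, u x (ω i)) * (∏ i, v y (ω i)) =
      ∑ ω : Fin p → Ω, ∑ x ∈ S, (∏ i, u x (ω i)) * (∏ i, v y (ω i)) := fun y _ =>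
    Finset.sum_comm
  rw [Finset.sum_congr rfl h2, Finset.sum_comm]
  exact Finset.sum_congr rfl fun ω _ => Finset.sum_comm

/-- [R3-KM1] (a) Cauchy-Schwarz for powers of inner products.
PROOF. By `Fintype.sum_pow` (or `Finset.sum_pow'`/`Finset.prod_univ_sum`),
`(∑_w u x w * v y w)^p = ∑_{ω : Fin p → Ω} (∏ i, u x (ω i)) * (∏ i, v y (ω i))`
(`Finset.prod_mul_distrib`). With `P ω = ∑_{x∈S} ∏ i, u x (ω i)` and
`Q ω = ∑_{y∈T} ∏ i, v y (ω i)`: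
`∑_{x∈S} ∑_{y∈T} (..)^p = ∑_ω P ω * Q ω`, `∑_{x,x'∈S} (∑_w u x w * u x' w)^p = ∑_ω (P ω)^2`, the
same for `v`, and the claim is `Finset.sum_mul_sq_le_sq_mul_sq`. -/
theorem pow_cs {ι κ Ω : Type*} [Fintype Ω] (S : Finset ι) (T : Finset κ)
    (u : ι → Ω → ℝ) (v : κ → Ω → ℝ) (p : ℕ) :
    (∑ x ∈ S, ∑ y ∈ T, (∑ w, u x w * v y w) ^ p) ^ 2 ≤
      (∑ x ∈ S, ∑ x' ∈ S, (∑ w, u x w * u x' w) ^ p) *
        (∑ y ∈ T, ∑ y' ∈ T, (∑ w, v y w * v y' w) ^ p) := by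
  rw [km1_expand, km1_expand, km1_expand]
  simp_rw [← pow_two]
  exact Finset.sum_mul_sq_le_sq_mul_sq _ _ _

/-- [R3-KM1] (b) positivity: by the same identity the sum equals `∑_ω (P ω)^2`. -/
theorem pow_psd {ι Ω : Type*} [Fintype Ω] (S : Finset ι) (u : ι → Ω → ℝ) (p : ℕ) :
    0 ≤ ∑ x ∈ S, ∑ x' ∈ S, (∑ w, u x w * u x' w) ^ p := by
  rw [km1_expand]
  exact Finset.sum_nonneg fun ω _ => mul_self_nonneg _

variable {G : Type*} [AddCommGroup G] [Fintype G] [DecidableEq G]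

theorem km1_gg (A₁ B : Finset G) (n : ℝ) (E : Finset G) (p : ℕ) :
    ∑ x ∈ E, ∑ y ∈ E, gg A₁ B n x y ^ p =
      (∑ x ∈ E, ∑ y ∈ E, (∑ w, bal A₁ B n (w + x) * bal A₁ B n (w + y)) ^ p) / n ^ p := by
  simp_rw [gg, div_pow, Finset.sum_div]

/-- [R3-KM1] (c) `∑_{x,y∈E} g(x,y)^p ≥ 0` (from `pow_psd`, pulling out `1/n^p`; `n > 0`). -/
theorem gg_psd (A₁ B : Finset G) (n : ℝ) (hn : 0 < n) (E : Finset G) (p : ℕ) :
    0 ≤ ∑ x ∈ E, ∑ y ∈ E, gg A₁ B n x y ^ p := by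
  rw [km1_gg]
  exact div_nonneg (pow_psd E (fun x w => bal A₁ B n (w + x)) p) (by positivity)

/-- [R3-KM1] (d) `∑_{x,y∈E} g*(c + x - y)^p ≤ ∑_{x,y∈E} g(x,y)^p` for `E = -E`.
PROOF. Substituting `w ↦ w + x` (`Fintype.sum_equiv`/`Equiv.sum_comp (Equiv.addRight x)`),
`n g*(c+x-y) = ∑_w h(w+x) h(c-y-w)`. Apply `pow_cs` with `u x w = h(w+x)`, `v y w = h(c-y-w)`.
The first factor is `n^p ∑∑ g(x,x')^p`. For the second substitute `w ↦ c - w`: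
`∑_w h(c-y-w) h(c-y'-w) = ∑_w h(w-y) h(w-y') = n g(-y,-y')`, and sum over `E = -E`
(`Finset.sum_bij`/`Finset.sum_nbij'` with `y ↦ -y`). So `LHS^2 ≤ RHS^2` after dividing by
`n^(2p)`, and `RHS ≥ 0` by (c): `abs_le_of_sq_le_sq`/`pow_le_pow_left` gives the claim. -/
theorem gs_le_gg (A₁ B : Finset G) (n : ℝ) (hn : 0 < n) (E : Finset G)
    (hE : ∀ x ∈ E, -x ∈ E) (c : G) (p : ℕ) :
    ∑ x ∈ E, ∑ y ∈ E, gs A₁ B n (c + x - y) ^ p ≤ ∑ x ∈ E, ∑ y ∈ E, gg A₁ B n x y ^ p := by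
  set h := bal A₁ B n with hh
  set S := ∑ x ∈ E, ∑ y ∈ E, (∑ w, h (w + x) * h (w + y)) ^ p with hS
  have hS0 : 0 ≤ S := pow_psd E (fun x w => h (w + x)) p
  have h1 : ∑ x ∈ E, ∑ y ∈ E, gs A₁ B n (c + x - y) ^ p =
      (∑ x ∈ E, ∑ y ∈ E, (∑ w, h (w + x) * h (c - y - w)) ^ p) / n ^ p := by
    simp_rw [Finset.sum_div]
    refine Finset.sum_congr rfl fun x _ => Finset.sum_congr rfl fun y _ => ?_
    rw [gs, div_pow]
    congr 2
    rw [← Equiv.sum_comp (Equiv.addRight x)]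
    refine Finset.sum_congr rfl fun w _ => ?_
    simp only [Equiv.coe_addRight]
    rw [show c + x - y - (w + x) = c - y - w by abel]
  have h2 : ∑ y ∈ E, ∑ y' ∈ E, (∑ w, h (c - y - w) * h (c - y' - w)) ^ p = S := by
    have h3 : ∀ y y', (∑ w, h (c - y - w) * h (c - y' - w)) = ∑ w, h (w + -y) * h (w + -y') := by
      intro y y'
      rw [← Equiv.sum_comp (Equiv.subLeft c)]
      refine Finset.sum_congr rfl fun w _ => ?_
      simp only [Equiv.subLeft_apply]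
      rw [show c - y - (c - w) = w + -y by abel, show c - y' - (c - w) = w + -y' by abel]
    simp_rw [h3]
    rw [hS]
    refine Finset.sum_nbij' (fun y => -y) (fun y => -y) (fun y hy => hE y hy)
      (fun y hy => hE y hy) (fun y _ => neg_neg y) (fun y _ => neg_neg y) fun y _ => ?_
    exact Finset.sum_nbij' (fun y => -y) (fun y => -y) (fun y hy => hE y hy)
      (fun y hy => hE y hy) (fun y _ => neg_neg y) (fun y _ => neg_neg y) fun y' _ => rfl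
  have h4 := pow_cs E E (fun x w => h (w + x)) (fun y w => h (c - y - w)) p
  rw [h2] at h4
  rw [h1, km1_gg]
  refine div_le_div_of_nonneg_right ?_ (by positivity)
  change _ ≤ S
  rw [← pow_two] at h4
  exact (abs_le_of_sq_le_sq' h4 hS0).2

/-- [R3-KM1] (e) the averaging step of 2.4: some translate `c ∈ C₁` does at least as well as the
average over `C₀`.
PROOF. For fixed `x, y ∈ E`: `∑_{c∈C₀} F c ≤ ∑_{c∈C₁} F (c + x - y)` since `c₀ ↦ c₀ - x + y` is an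
injection of `C₀` into `C₁` and `F ≥ 0`. Sum over `x, y`:
`#E^2 ∑_{C₀} F ≤ ∑_{c∈C₁} ∑_{x,y∈E} F (c + x - y)`; take `c` with the largest inner sum
(`Finset.exists_le_of_sum_le` / by contradiction with `Finset.sum_lt_sum_of_nonempty`). -/
theorem km_exists_translate (C₀ C₁ E : Finset G) (hC₁ : C₁.Nonempty)
    (hC : ∀ c ∈ C₀, ∀ x ∈ E, ∀ y ∈ E, c - x + y ∈ C₁) (F : G → ℝ) (hF : ∀ c, 0 ≤ F c) :
    ∃ c ∈ C₁, (#E : ℝ) ^ 2 * (∑ c ∈ C₀, F c) ≤ #C₁ * ∑ x ∈ E, ∑ y ∈ E, F (c + x - y) := by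
  have h1 : ∀ x ∈ E, ∀ y ∈ E, ∑ c ∈ C₀, F c ≤ ∑ c ∈ C₁, F (c + x - y) := by
    intro x hx y hy
    have h2 : ∑ c ∈ C₀, F c = ∑ c ∈ C₀.image (fun c => c - x + y), F (c + x - y) := by
      rw [Finset.sum_image]
      · refine Finset.sum_congr rfl fun c _ => ?_
        rw [show c - x + y + x - y = c by abel]
      · intro a _ b _ hab
        have h3 : a - x + y = b - x + y := hab
        have h4 : a - x = b - x := add_right_cancel h3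
        exact sub_left_injective h4
    rw [h2]
    refine Finset.sum_le_sum_of_subset_of_nonneg ?_ fun c _ _ => hF _
    intro c hc
    obtain ⟨a, ha, rfl⟩ := Finset.mem_image.1 hc
    exact hC a ha x hx y hy
  have h5 : (#E : ℝ) ^ 2 * (∑ c ∈ C₀, F c) ≤ ∑ c ∈ C₁, ∑ x ∈ E, ∑ y ∈ E, F (c + x - y) := by
    calc (#E : ℝ) ^ 2 * (∑ c ∈ C₀, F c) = ∑ x ∈ E, ∑ y ∈ E, ∑ c ∈ C₀, F c := by
          simp only [Finset.sum_const, nsmul_eq_mul]
          ring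
      _ ≤ ∑ x ∈ E, ∑ y ∈ E, ∑ c ∈ C₁, F (c + x - y) :=
          Finset.sum_le_sum fun x hx => Finset.sum_le_sum fun y hy => h1 x hx y hy
      _ = ∑ c ∈ C₁, ∑ x ∈ E, ∑ y ∈ E, F (c + x - y) := by
          have h9 : ∀ x ∈ E, ∑ y ∈ E, ∑ c ∈ C₁, F (c + x - y) =
              ∑ c ∈ C₁, ∑ y ∈ E, F (c + x - y) := fun x _ => Finset.sum_comm
          rw [Finset.sum_congr rfl h9]
          exact Finset.sum_comm
  by_contra hcon
  push Not at hcon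
  have h6 : ∑ c ∈ C₁, (#C₁ : ℝ) * ∑ x ∈ E, ∑ y ∈ E, F (c + x - y) <
      ∑ _c ∈ C₁, (#E : ℝ) ^ 2 * (∑ c ∈ C₀, F c) := Finset.sum_lt_sum_of_nonempty hC₁ hcon
  rw [← Finset.mul_sum, Finset.sum_const, nsmul_eq_mul] at h6
  have h7 : (0:ℝ) < #C₁ := by exact_mod_cast hC₁.card_pos
  have h8 := lt_of_mul_lt_mul_left h6 h7.le
  linarith

end R3
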