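import Pool.Agent.MP_0f71ae_nt.R3.Basic
import Pool.Agent.MP_0f71ae_nt.R3.Bohr

/-!
# [R3-KM] Definitions for the Kelley-Meka part: balanced function and its two convolutions
-/

open Finset

namespace R3

variable {G : Type*} [AddCommGroup G] [Fintype G] [DecidableEq G]

/-- the balanced function `h = (n/|A₁|) 1_{A₁} - 1_B` -/
noncomputable def bal (A₁ B : Finset G) (n : ℝ) (w : G) : ℝ :=
  (if w ∈ A₁ then n / #A₁ else 0) - (if w ∈ B then 1 else 0)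

/-- `g(x,y) = (1/n) ∑_w h(w+x) h(w+y)` -/
noncomputable def gg (A₁ B : Finset G) (n : ℝ) (x y : G) : ℝ :=
  (∑ w : G, bal A₁ B n (w + x) * bal A₁ B n (w + y)) / n

/-- `g*(c) = (1/n) ∑_w h(w) h(c-w)` -/
noncomputable def gs (A₁ B : Finset G) (n : ℝ) (c : G) : ℝ :=
  (∑ w : G, bal A₁ B n w * bal A₁ B n (c - w)) / n

/-- `R(c) = (n/|A₁|²) #{w ∈ A₁ : c - w ∈ A₁}` -/
noncomputable def RR (A₁ : Finset G) (n : ℝ) (c : G) : ℝ :=
  n / (#A₁ : ℝ) ^ 2 * #(A₁.filter fun w => c - w ∈ A₁)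

end R3
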