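import Pool.Agent.MP_0f71ae_nt.R3.FDefs

/-!
# [R3] 6.2: Riesz product estimate
-/

set_option linter.unusedSectionVars false

open Finset

namespace R3

variable {G : Type*} [AddCommGroup G] [Fintype G] [DecidableEq G]

/-- the digit sets -/
noncomputable def h1_t (Λ : Finset (AddChar G ℂ)) (ξ : AddChar G ℂ) : Finset ℤ :=
  open Classical in if ξ ∈ Λ then {-1, 0, 1} else {0}

/-- the coefficients -/
noncomputable def h1_coef (Λ : Finset (AddChar G ℂ)) (c s : ℝ) (ω : AddChar G ℂ → ℂ)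
    (ξ : AddChar G ℂ) (j : ℤ) : ℂ :=
  open Classical in
  if ξ ∈ Λ then (if j = 0 then (c : ℂ) else if j = 1 then (s / 2 : ℝ) * ω ξ
    else (s / 2 : ℝ) * (starRingEnd ℂ) (ω ξ)) else 1

theorem h1_sum_t {R : Type*} [AddCommMonoid R] (f : ℤ → R) :
    ∑ j ∈ ({-1, 0, 1} : Finset ℤ), f j = f (-1) + (f 0 + f 1) := by
  rw [Finset.sum_insert (by decide), Finset.sum_insert (by decide), Finset.sum_singleton]

theorem h1_factor (Λ : Finset (AddChar G ℂ)) (c s : ℝ) (ω : AddChar G ℂ → ℂ)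
    (ξ : AddChar G ℂ) (x : G) :
    ∑ j ∈ h1_t Λ ξ, h1_coef Λ c s ω ξ j * (ξ ^ j) x =
      open Classical in if ξ ∈ Λ then (((c + s * (ω ξ * ξ x).re : ℝ)) : ℂ) else 1 := by
  classical
  unfold h1_t h1_coef
  by_cases h : ξ ∈ Λ
  · simp only [if_pos h]
    rw [h1_sum_t]
    have e1 : ((-1 : ℤ) = 0) = False := by simp
    have e2 : ((-1 : ℤ) = 1) = False := by simp
    simp only [e1, e2, if_true, if_false, one_ne_zero, zpow_zero, zpow_one, zpow_neg_one,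
      AddChar.one_apply, mul_one]
    have h2 : (ξ⁻¹) x = (starRingEnd ℂ) (ξ x) := by
      rw [AddChar.inv_apply, AddChar.map_neg_eq_conj]
    rw [h2]
    have h3 : (((c + s * (ω ξ * ξ x).re : ℝ)) : ℂ) =
        (c : ℂ) + (s : ℂ) * (((ω ξ * ξ x).re : ℝ) : ℂ) := by push_cast; ring
    rw [h3, Complex.re_eq_add_conj, map_mul]
    push_cast
    ring
  · simp only [if_neg h, Finset.sum_singleton, zpow_zero, AddChar.one_apply, mul_one]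

theorem h1_prod (Λ : Finset (AddChar G ℂ)) (c s : ℝ) (ω : AddChar G ℂ → ℂ) (x : G) :
    (((∏ ξ ∈ Λ, (c + s * (ω ξ * ξ x).re) : ℝ)) : ℂ) =
      ∑ ε ∈ Fintype.piFinset (h1_t Λ), (∏ ξ, h1_coef Λ c s ω ξ (ε ξ)) *
        (∏ ξ ∈ Λ, ξ ^ ε ξ) x := by
  classical
  have h1 : (((∏ ξ ∈ Λ, (c + s * (ω ξ * ξ x).re) : ℝ)) : ℂ) =
      ∏ ξ : AddChar G ℂ, ∑ j ∈ h1_t Λ ξ, h1_coef Λ c s ω ξ j * (ξ ^ j) x := by
    rw [Finset.prod_congr rfl fun ξ _ => h1_factor Λ c s ω ξ x]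
    rw [Complex.ofReal_prod, Finset.prod_ite_mem, Finset.univ_inter]
  rw [h1, Finset.prod_univ_sum]
  refine Finset.sum_congr rfl fun ε hε => ?_
  rw [Finset.prod_mul_distrib]
  congr 1
  rw [AddChar.prod_apply]
  symm
  apply Finset.prod_subset (Finset.subset_univ _)
  intro ξ _ hξ
  have h2 := (Fintype.mem_piFinset.1 hε) ξ
  unfold h1_t at h2
  rw [if_neg hξ, Finset.mem_singleton] at h2
  rw [h2, zpow_zero, AddChar.one_apply]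

theorem h1_sum_coef (Λ : Finset (AddChar G ℂ)) (c s : ℝ) (hc : 0 ≤ c) (hs : 0 ≤ s)
    (ω : AddChar G ℂ → ℂ) (hω : ∀ ξ, ‖ω ξ‖ ≤ 1) :
    ∑ ε ∈ Fintype.piFinset (h1_t Λ), ‖∏ ξ, h1_coef Λ c s ω ξ (ε ξ)‖ ≤ (c + s) ^ #Λ := by
  classical
  have h1 : ∑ ε ∈ Fintype.piFinset (h1_t Λ), ‖∏ ξ, h1_coef Λ c s ω ξ (ε ξ)‖ =
      ∏ ξ : AddChar G ℂ, ∑ j ∈ h1_t Λ ξ, ‖h1_coef Λ c s ω ξ j‖ := by
    rw [Finset.prod_univ_sum]
    exact Finset.sum_congr rfl fun ε _ => norm_prod _ _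
  rw [h1]
  have h2 : ∀ ξ : AddChar G ℂ, ∑ j ∈ h1_t Λ ξ, ‖h1_coef Λ c s ω ξ j‖ ≤
      if ξ ∈ Λ then c + s else 1 := by
    intro ξ
    unfold h1_t h1_coef
    by_cases h : ξ ∈ Λ
    · simp only [if_pos h]
      rw [h1_sum_t]
      have e1 : ((-1 : ℤ) = 0) = False := by simp
      have e2 : ((-1 : ℤ) = 1) = False := by simp
      simp only [e1, e2, if_true, if_false, one_ne_zero, norm_mul, Complex.norm_real,
        RCLike.norm_conj, Real.norm_eq_abs]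
      rw [abs_of_nonneg hc, abs_of_nonneg (by positivity : (0:ℝ) ≤ s / 2)]
      have h3 := hω ξ
      nlinarith [norm_nonneg (ω ξ)]
    · simp only [if_neg h, Finset.sum_singleton, norm_one]
      exact le_refl _
  calc ∏ ξ : AddChar G ℂ, ∑ j ∈ h1_t Λ ξ, ‖h1_coef Λ c s ω ξ j‖
      ≤ ∏ ξ : AddChar G ℂ, if ξ ∈ Λ then c + s else 1 :=
        Finset.prod_le_prod (fun ξ _ => Finset.sum_nonneg fun j _ => norm_nonneg _)
          (fun ξ _ => h2 ξ)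
    _ = (c + s) ^ #Λ := by
        rw [Finset.prod_ite_mem, Finset.univ_inter, Finset.prod_const]

/-- [R3-H1] Riesz product estimate (pure).  `β ≥ 0` is a weight on `G` of total mass `≤ 2` whose
transform at every nontrivial signed product of `Λ` is at most `b`.  Then
`∑_x β(x) ∏_{ξ ∈ Λ} (c + s Re(ω_ξ ξ(x))) ≤ 2 c^k + b (c+s)^k`.
Proof. `c + s Re z = c + (s/2) z + (s/2) z̄` with `z = ω_ξ ξ(x)`, `z̄ = ω̄_ξ ξ(x)^{-1}`; expand the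
product over the functions `ε : AddChar G ℂ → ℤ` with values in `{-1,0,1}` on `Λ` and `0` off `Λ`
(`Finset.prod_univ_sum` with `t ξ = if ξ ∈ Λ then {-1,0,1} else {0}`), each term is a constant of
absolute value `∏_{ξ∈Λ} (if ε ξ = 0 then c else s/2)` times `(∏_{ξ∈Λ} ξ^{ε ξ})(x)`
(`AddChar.zpow_apply`, `AddChar.prod_apply`).  The term `ε = 0` gives `c^k ∑ β ≤ 2 c^k`; the others
give at most `b ∑_ε ∏ (..) = b (c + s/2 + s/2)^k`. -/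
theorem riesz_bound (Λ : Finset (AddChar G ℂ)) (β : G → ℝ) (hβ : ∀ x, 0 ≤ β x)
    (hβ2 : ∑ x, β x ≤ 2) (b : ℝ) (hb0 : 0 ≤ b)
    (hb : ∀ ε : AddChar G ℂ → ℤ, (∀ ξ, ε ξ = -1 ∨ ε ξ = 0 ∨ ε ξ = 1) → (∃ ξ ∈ Λ, ε ξ ≠ 0) →
      ‖∑ x, (β x : ℂ) * (∏ ξ ∈ Λ, ξ ^ ε ξ) x‖ ≤ b)
    (c s : ℝ) (hc : 0 ≤ c) (hs : 0 ≤ s) (ω : AddChar G ℂ → ℂ) (hω : ∀ ξ, ‖ω ξ‖ ≤ 1) :
    ∑ x, β x * ∏ ξ ∈ Λ, (c + s * (ω ξ * ξ x).re) ≤ 2 * c ^ #Λ + b * (c + s) ^ #Λ := by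
  classical
  set E := Fintype.piFinset (h1_t Λ) with hE
  have h1 : ((∑ x, β x * ∏ ξ ∈ Λ, (c + s * (ω ξ * ξ x).re) : ℝ) : ℂ) =
      ∑ ε ∈ E, (∏ ξ, h1_coef Λ c s ω ξ (ε ξ)) * ∑ x, (β x : ℂ) * (∏ ξ ∈ Λ, ξ ^ ε ξ) x := by
    rw [Complex.ofReal_sum]
    have h2 : ∀ x : G, ((β x * ∏ ξ ∈ Λ, (c + s * (ω ξ * ξ x).re) : ℝ) : ℂ) =
        ∑ ε ∈ E, (∏ ξ, h1_coef Λ c s ω ξ (ε ξ)) * ((β x : ℂ) * (∏ ξ ∈ Λ, ξ ^ ε ξ) x) := by
      intro x
      rw [Complex.ofReal_mul, h1_prod, Finset.mul_sum]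
      exact Finset.sum_congr rfl fun ε _ => by ring
    rw [Finset.sum_congr rfl fun x _ => h2 x, Finset.sum_comm]
    exact Finset.sum_congr rfl fun ε _ => by rw [Finset.mul_sum]
  have h0E : (0 : AddChar G ℂ → ℤ) ∈ E := by
    rw [hE, Fintype.mem_piFinset]
    intro ξ
    unfold h1_t
    split_ifs <;> simp
  have hterm : ∀ ε ∈ E, ε ≠ 0 →
      ‖(∏ ξ, h1_coef Λ c s ω ξ (ε ξ)) * ∑ x, (β x : ℂ) * (∏ ξ ∈ Λ, ξ ^ ε ξ) x‖ ≤
        ‖∏ ξ, h1_coef Λ c s ω ξ (ε ξ)‖ * b := by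
    intro ε hε hne
    rw [norm_mul]
    apply mul_le_mul_of_nonneg_left _ (norm_nonneg _)
    have h3 := Fintype.mem_piFinset.1 hε
    apply hb ε
    · intro ξ
      have h4 := h3 ξ
      unfold h1_t at h4
      split_ifs at h4
      · simpa using h4
      · right; left; simpa using h4
    · by_contra hc'
      push Not at hc'
      apply hne
      funext ξ
      by_cases hξ : ξ ∈ Λ
      · exact hc' ξ hξ
      · have h4 := h3 ξ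
        unfold h1_t at h4
        rw [if_neg hξ, Finset.mem_singleton] at h4
        exact h4
  have hzero : ‖(∏ ξ, h1_coef Λ c s ω ξ ((0 : AddChar G ℂ → ℤ) ξ)) *
      ∑ x, (β x : ℂ) * (∏ ξ ∈ Λ, ξ ^ (0 : AddChar G ℂ → ℤ) ξ) x‖ ≤ 2 * c ^ #Λ := by
    have h3 : ∏ ξ, h1_coef Λ c s ω ξ ((0 : AddChar G ℂ → ℤ) ξ) = ((c ^ #Λ : ℝ) : ℂ) := by
      unfold h1_coef
      simp only [Pi.zero_apply, if_true]
      rw [Finset.prod_ite_mem, Finset.univ_inter, Finset.prod_const]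
      push_cast
      rfl
    have h4 : ∑ x, (β x : ℂ) * (∏ ξ ∈ Λ, ξ ^ (0 : AddChar G ℂ → ℤ) ξ) x =
        ((∑ x, β x : ℝ) : ℂ) := by
      rw [Complex.ofReal_sum]
      refine Finset.sum_congr rfl fun x _ => ?_
      simp
    have h5 : 0 ≤ ∑ x, β x := Finset.sum_nonneg fun x _ => hβ x
    rw [h3, h4, norm_mul, Complex.norm_real, Complex.norm_real, Real.norm_eq_abs,
      Real.norm_eq_abs, abs_of_nonneg (by positivity), abs_of_nonneg h5, mul_comm]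
    exact mul_le_mul_of_nonneg_right hβ2 (by positivity)
  have h6 : ∑ x, β x * ∏ ξ ∈ Λ, (c + s * (ω ξ * ξ x).re) ≤
      ‖((∑ x, β x * ∏ ξ ∈ Λ, (c + s * (ω ξ * ξ x).re) : ℝ) : ℂ)‖ := by
    rw [Complex.norm_real]
    exact le_abs_self _
  refine h6.trans ?_
  rw [h1, ← Finset.add_sum_erase E _ h0E]
  refine (norm_add_le _ _).trans ?_
  apply add_le_add hzero
  refine (norm_sum_le _ _).trans ?_
  calc ∑ ε ∈ E.erase 0, ‖(∏ ξ, h1_coef Λ c s ω ξ (ε ξ)) *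
        ∑ x, (β x : ℂ) * (∏ ξ ∈ Λ, ξ ^ ε ξ) x‖
      ≤ ∑ ε ∈ E.erase 0, ‖∏ ξ, h1_coef Λ c s ω ξ (ε ξ)‖ * b :=
        Finset.sum_le_sum fun ε hε =>
          hterm ε (Finset.mem_of_mem_erase hε) (Finset.ne_of_mem_erase hε)
    _ ≤ ∑ ε ∈ E, ‖∏ ξ, h1_coef Λ c s ω ξ (ε ξ)‖ * b := by
        apply Finset.sum_le_sum_of_subset_of_nonneg (Finset.erase_subset _ _)
        intro ε _ _
        exact mul_nonneg (norm_nonneg _) hb0
    _ = b * ∑ ε ∈ E, ‖∏ ξ, h1_coef Λ c s ω ξ (ε ξ)‖ := by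
        rw [Finset.mul_sum]
        exact Finset.sum_congr rfl fun ε _ => mul_comm _ _
    _ ≤ b * (c + s) ^ #Λ :=
        mul_le_mul_of_nonneg_left (h1_sum_coef Λ c s hc hs ω hω) hb0

end R3
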