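import Pool.Agent.MP_0f71ae_nt.R3.Defs

/-!
# [R3] Sampling: counting lemmas (5.1)
-/

open Finset

namespace R3

variable {G : Type*} [DecidableEq G]

/-- number of samples with property `P` -/
def hits {m : ℕ} (P : G → Prop) [DecidablePred P] (x : Fin m → G) : ℕ := #{j : Fin m | P (x j)}

theorem p1_prod_hits {m : ℕ} (P : G → Prop) [DecidablePred P] (x : Fin m → G) (t : ℝ) :
    ∏ j : Fin m, (if P (x j) then t else 1) = t ^ hits P x := by
  unfold hits
  rw [Finset.prod_ite]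
  simp

theorem p1_sum_ite (S : Finset G) (P : G → Prop) [DecidablePred P] (t : ℝ) :
    ∑ y ∈ S, (if P y then t else 1) = t * #(S.filter P) + #(S.filter fun x => ¬ P x) := by
  rw [Finset.sum_ite]
  simp [mul_comm]

/-- [R3-P1] 5.1 first half.  With `t = e^ℓ`: if `m ≤ 2 hits` then `(√t)^m ≤ t^{hits} = ∏_j (if P(x_j) then t else 1)`;
`∑_{x⃗ ∈ S^m} ∏_j (if P (x j) then t else 1) = (∑_{x∈S} if P x then t else 1)^m ≤ (|S| + t |S∩P|)^m ≤ (2|S|)^m`
(`Finset.prod_univ_sum`/`Finset.sum_pow'`-type lemma `Fintype.piFinset`), so the count is `≤ 2^m e^{-ℓm/2}|S|^m` and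
`2 ≤ e^{ℓ/4}` (`ℓ ≥ 4`). -/
theorem card_hits_ge (S : Finset G) (P : G → Prop) [DecidablePred P] (m : ℕ) (ℓ : ℝ)
    (hℓ : 4 ≤ ℓ) (hu : (#(S.filter P) : ℝ) ≤ Real.exp (-ℓ) * #S) :
    (#((Fintype.piFinset fun _ : Fin m => S).filter fun x => m ≤ 2 * hits P x) : ℝ) ≤
      Real.exp (-ℓ * m / 4) * (#S : ℝ) ^ m := by
  set E := Fintype.piFinset fun _ : Fin m => S with hE
  set F := E.filter fun x => m ≤ 2 * hits P x with hF
  have h1 : (#F : ℝ) * Real.exp (ℓ * m / 2) ≤ ∑ x ∈ E, ∏ j : Fin m, (if P (x j) then Real.exp ℓ else 1) := by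
    calc (#F : ℝ) * Real.exp (ℓ * m / 2) = ∑ x ∈ F, Real.exp (ℓ * m / 2) := by
          rw [Finset.sum_const, nsmul_eq_mul]
      _ ≤ ∑ x ∈ F, ∏ j : Fin m, (if P (x j) then Real.exp ℓ else 1) := by
          refine Finset.sum_le_sum fun x hx => ?_
          rw [p1_prod_hits, ← Real.exp_nat_mul]
          have h2 : m ≤ 2 * hits P x := (Finset.mem_filter.1 hx).2
          have h3 : (m : ℝ) ≤ 2 * (hits P x : ℝ) := by exact_mod_cast h2
          apply Real.exp_le_exp.2
          nlinarith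
      _ ≤ ∑ x ∈ E, ∏ j : Fin m, (if P (x j) then Real.exp ℓ else 1) := by
          refine Finset.sum_le_sum_of_subset_of_nonneg (Finset.filter_subset _ _) fun x _ _ => ?_
          refine Finset.prod_nonneg fun j _ => ?_
          split_ifs
          · exact (Real.exp_pos _).le
          · exact zero_le_one
  have h2 : ∑ x ∈ E, ∏ j : Fin m, (if P (x j) then Real.exp ℓ else 1) =
      (∑ y ∈ S, (if P y then Real.exp ℓ else 1)) ^ m := by
    have := Finset.prod_univ_sum (fun _ : Fin m => S) (fun (_ : Fin m) (y : G) =>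
      (if P y then Real.exp ℓ else 1))
    rw [← hE] at this
    rw [← this, Finset.prod_const, Finset.card_univ, Fintype.card_fin]
  have h3 : ∑ y ∈ S, (if P y then Real.exp ℓ else 1) ≤ 2 * #S := by
    rw [p1_sum_ite]
    have h4 : Real.exp ℓ * (#(S.filter P) : ℝ) ≤ #S := by
      calc Real.exp ℓ * (#(S.filter P) : ℝ) ≤ Real.exp ℓ * (Real.exp (-ℓ) * #S) := by gcongr
        _ = #S := by rw [← mul_assoc, ← Real.exp_add, add_neg_cancel, Real.exp_zero, one_mul]
    have h5 : (#(S.filter fun x => ¬ P x) : ℝ) ≤ #S := by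
      exact_mod_cast Finset.card_filter_le _ _
    linarith
  have h0 : 0 ≤ ∑ y ∈ S, (if P y then Real.exp ℓ else 1) := by
    refine Finset.sum_nonneg fun y _ => ?_
    split_ifs
    · exact (Real.exp_pos _).le
    · exact zero_le_one
  have h4 : (#F : ℝ) * Real.exp (ℓ * m / 2) ≤ (2 * #S) ^ m :=
    (h1.trans_eq h2).trans (pow_le_pow_left₀ h0 h3 m)
  have h5 : (2 : ℝ) ^ m ≤ Real.exp (ℓ * m / 4) := by
    have : (2 : ℝ) ≤ Real.exp (ℓ / 4) := by
      have h6 := Real.add_one_le_exp (ℓ / 4)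
      linarith
    calc (2 : ℝ) ^ m ≤ Real.exp (ℓ / 4) ^ m := pow_le_pow_left₀ (by norm_num) this m
      _ = Real.exp (ℓ * m / 4) := by
        rw [← Real.exp_nat_mul]
        congr 1
        ring
  have h6 : (#F : ℝ) = ((#F : ℝ) * Real.exp (ℓ * m / 2)) * Real.exp (-(ℓ * m / 2)) := by
    rw [mul_assoc, ← Real.exp_add, add_neg_cancel, Real.exp_zero, mul_one]
  rw [h6]
  calc ((#F : ℝ) * Real.exp (ℓ * m / 2)) * Real.exp (-(ℓ * m / 2))
      ≤ (2 * #S) ^ m * Real.exp (-(ℓ * m / 2)) :=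
        mul_le_mul_of_nonneg_right h4 (Real.exp_pos _).le
    _ = 2 ^ m * (Real.exp (-(ℓ * m / 2)) * (#S : ℝ) ^ m) := by rw [mul_pow]; ring
    _ ≤ Real.exp (ℓ * m / 4) * (Real.exp (-(ℓ * m / 2)) * (#S : ℝ) ^ m) :=
        mul_le_mul_of_nonneg_right h5
          (mul_nonneg (Real.exp_pos _).le (pow_nonneg (Nat.cast_nonneg _) _))
    _ = Real.exp (-ℓ * m / 4) * (#S : ℝ) ^ m := by
        rw [← mul_assoc, ← Real.exp_add]
        congr 2
        ring

theorem p1_sum_coord (S : Finset G) (m : ℕ) (j : Fin m) (g : G → ℝ) :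
    (∑ x ∈ Fintype.piFinset fun _ : Fin m => S, g (x j)) * #S = (∑ y ∈ S, g y) * (#S : ℝ) ^ m := by
  have h := Finset.prod_univ_sum (fun _ : Fin m => S) (fun (i : Fin m) (y : G) =>
    (if i = j then g y else 1))
  have h1 : ∀ x : Fin m → G, ∏ i, (if i = j then g (x i) else 1) = g (x j) := by
    intro x
    rw [Finset.prod_ite_eq' Finset.univ j (fun i => g (x i))]
    simp
  simp only [h1] at h
  have h2 : ∏ i : Fin m, ∑ y ∈ S, (if i = j then g y else 1) = (∑ y ∈ S, g y) * (#S : ℝ) ^ (m - 1) := by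
    have h3 : ∀ i : Fin m, ∑ y ∈ S, (if i = j then g y else 1) =
        if i = j then ∑ y ∈ S, g y else (#S : ℝ) := by
      intro i
      split_ifs with hij
      · rfl
      · simp
    simp only [h3]
    rw [Finset.prod_ite]
    have h4 : (Finset.univ.filter fun i : Fin m => i = j) = {j} := by
      ext i; simp
    have h5 : #(Finset.univ.filter fun i : Fin m => ¬ i = j) = m - 1 := by
      have h6 := Finset.card_filter_add_card_filter_not (s := (Finset.univ : Finset (Fin m))) (fun i => i = j)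
      rw [h4, Finset.card_singleton, Finset.card_univ, Fintype.card_fin] at h6
      omega
    rw [h4, Finset.prod_singleton, Finset.prod_const, h5]
  rw [← h, h2, mul_assoc, ← pow_succ]
  have hm : 0 < m := j.pos
  congr 2
  omega

/-- [R3-P2] 5.1 second half (Markov): `2 hits < m` implies `m ≤ 2 (m - hits)`, and
`∑_{x⃗} (m - hits) = ∑_j #{x⃗ : ¬P(x_j)} = m |S∩¬P| |S|^{m-1}`  (`m = 0`: empty). -/
theorem card_hits_lt (S : Finset G) (P : G → Prop) [DecidablePred P] (m : ℕ) (hS : S.Nonempty) :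
    (#((Fintype.piFinset fun _ : Fin m => S).filter fun x => 2 * hits P x < m) : ℝ) * #S ≤
      2 * #(S.filter fun x => ¬ P x) * (#S : ℝ) ^ m := by
  set E := Fintype.piFinset fun _ : Fin m => S with hE
  set F := E.filter fun x => 2 * hits P x < m with hF
  rcases Nat.eq_zero_or_pos m with rfl | hm
  · have : F = ∅ := by
      rw [hF]
      apply Finset.filter_false_of_mem
      intro x _
      omega
    rw [this]
    simp only [Finset.card_empty, Nat.cast_zero, zero_mul]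
    positivity
  have hmr : (0 : ℝ) < m := by exact_mod_cast hm
  have hmiss : ∀ x : Fin m → G, ∑ j : Fin m, (if ¬ P (x j) then (1 : ℝ) else 0) = (m : ℝ) - hits P x := by
    intro x
    have h1 := Finset.card_filter_add_card_filter_not (s := (Finset.univ : Finset (Fin m)))
      (fun j => P (x j))
    rw [Finset.card_univ, Fintype.card_fin] at h1
    rw [Finset.sum_boole]
    unfold hits
    have h2 : (#(Finset.univ.filter fun j : Fin m => P (x j)) : ℝ) +
        #(Finset.univ.filter fun j : Fin m => ¬ P (x j)) = m := by exact_mod_cast h1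
    linarith
  have hnn : ∀ x : Fin m → G, 0 ≤ ∑ j : Fin m, (if ¬ P (x j) then (1 : ℝ) else 0) := fun x =>
    Finset.sum_nonneg fun j _ => by split_ifs <;> norm_num
  have h1 : (#F : ℝ) * m ≤ 2 * ∑ x ∈ E, ∑ j : Fin m, (if ¬ P (x j) then (1 : ℝ) else 0) := by
    calc (#F : ℝ) * m = ∑ x ∈ F, (m : ℝ) := by rw [Finset.sum_const, nsmul_eq_mul]
      _ ≤ ∑ x ∈ F, 2 * ∑ j : Fin m, (if ¬ P (x j) then (1 : ℝ) else 0) := by
          refine Finset.sum_le_sum fun x hx => ?_
          rw [hmiss]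
          have h2 : 2 * hits P x < m := (Finset.mem_filter.1 hx).2
          have h3 : 2 * (hits P x : ℝ) < m := by exact_mod_cast h2
          linarith
      _ ≤ ∑ x ∈ E, 2 * ∑ j : Fin m, (if ¬ P (x j) then (1 : ℝ) else 0) :=
          Finset.sum_le_sum_of_subset_of_nonneg (Finset.filter_subset _ _) fun x _ _ =>
            mul_nonneg (by norm_num) (hnn x)
      _ = _ := by rw [← Finset.mul_sum]
  have h2 : (∑ x ∈ E, ∑ j : Fin m, (if ¬ P (x j) then (1 : ℝ) else 0)) * #S =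
      m * (#(S.filter fun x => ¬ P x) * (#S : ℝ) ^ m) := by
    rw [Finset.sum_comm, Finset.sum_mul]
    have h3 : ∀ j ∈ (Finset.univ : Finset (Fin m)),
        (∑ x ∈ E, (if ¬ P (x j) then (1 : ℝ) else 0)) * #S =
          #(S.filter fun x => ¬ P x) * (#S : ℝ) ^ m := by
      intro j _
      have h4 := p1_sum_coord S m j (fun y => if ¬ P y then (1 : ℝ) else 0)
      have h5 : ∑ y ∈ S, (if ¬ P y then (1 : ℝ) else 0) = #(S.filter fun x => ¬ P x) :=
        Finset.sum_boole (fun x => ¬ P x) S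
      rw [h5] at h4
      exact h4
    rw [Finset.sum_congr rfl h3, Finset.sum_const, Finset.card_univ, Fintype.card_fin, nsmul_eq_mul]
  have h3 : (#F : ℝ) * m * #S ≤ 2 * (m * (#(S.filter fun x => ¬ P x) * (#S : ℝ) ^ m)) := by
    rw [← h2, ← mul_assoc]
    exact mul_le_mul_of_nonneg_right h1 (by positivity)
  have h4 : m * ((#F : ℝ) * #S) ≤ m * (2 * #(S.filter fun x => ¬ P x) * (#S : ℝ) ^ m) := by
    linarith
  exact le_of_mul_le_mul_left h4 hmr

/-- [R3-P3] Markov + union: if the two nonneg functions `a`, `b` on a finite set `E` have averages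
`≤ a0`, `≤ b0` then at least half of the `x ∈ E` satisfy `a x ≤ 4 a0` and `b x ≤ 4 b0`. -/
theorem half_good {ι : Type*} (E : Finset ι) (a b : ι → ℝ) (a0 b0 : ℝ)
    (ha : ∀ x ∈ E, 0 ≤ a x) (hb : ∀ x ∈ E, 0 ≤ b x)
    (ha0 : ∑ x ∈ E, a x ≤ a0 * #E) (hb0 : ∑ x ∈ E, b x ≤ b0 * #E) (ha1 : 0 < a0) (hb1 : 0 < b0) :
    (#E : ℝ) / 2 ≤ #(E.filter fun x => a x ≤ 4 * a0 ∧ b x ≤ 4 * b0) := by
  classical
  have key : ∀ (c : ι → ℝ) (c0 : ℝ), (∀ x ∈ E, 0 ≤ c x) → ∑ x ∈ E, c x ≤ c0 * #E → 0 < c0 →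
      (#(E.filter fun x => ¬ c x ≤ 4 * c0) : ℝ) ≤ #E / 4 := by
    intro c c0 hc hc0 hc1
    have h1 : (#(E.filter fun x => ¬ c x ≤ 4 * c0) : ℝ) * (4 * c0) ≤ c0 * #E := by
      calc (#(E.filter fun x => ¬ c x ≤ 4 * c0) : ℝ) * (4 * c0)
          = ∑ x ∈ E.filter (fun x => ¬ c x ≤ 4 * c0), 4 * c0 := by
            rw [Finset.sum_const, nsmul_eq_mul]
        _ ≤ ∑ x ∈ E.filter (fun x => ¬ c x ≤ 4 * c0), c x :=
            Finset.sum_le_sum fun x hx => (not_le.1 (Finset.mem_filter.1 hx).2).le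
        _ ≤ ∑ x ∈ E, c x :=
            Finset.sum_le_sum_of_subset_of_nonneg (Finset.filter_subset _ _) fun x hx _ => hc x hx
        _ ≤ c0 * #E := hc0
    have h2 : c0 * (4 * (#(E.filter fun x => ¬ c x ≤ 4 * c0) : ℝ)) ≤ c0 * #E := by linarith
    have h3 := le_of_mul_le_mul_left h2 hc1
    linarith
  have hA := key a a0 ha ha0 ha1
  have hB := key b b0 hb hb0 hb1
  have hsub : E ⊆ (E.filter fun x => a x ≤ 4 * a0 ∧ b x ≤ 4 * b0) ∪
      ((E.filter fun x => ¬ a x ≤ 4 * a0) ∪ (E.filter fun x => ¬ b x ≤ 4 * b0)) := by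
    intro x hx
    simp only [Finset.mem_union, Finset.mem_filter]
    by_cases h1 : a x ≤ 4 * a0
    · by_cases h2 : b x ≤ 4 * b0
      · exact Or.inl ⟨hx, h1, h2⟩
      · exact Or.inr (Or.inr ⟨hx, h2⟩)
    · exact Or.inr (Or.inl ⟨hx, h1⟩)
  have hcard := (Finset.card_le_card hsub).trans ((Finset.card_union_le _ _).trans
    (Nat.add_le_add_left (Finset.card_union_le _ _) _))
  have hcard' : (#E : ℝ) ≤ #(E.filter fun x => a x ≤ 4 * a0 ∧ b x ≤ 4 * b0) +
      (#(E.filter fun x => ¬ a x ≤ 4 * a0) + #(E.filter fun x => ¬ b x ≤ 4 * b0)) := by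
    exact_mod_cast hcard
  linarith

end R3
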