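import Pool.Agent.MP_0f71ae_nt.R3.Defs

/-!
# [R3] Sampling: translation double counting
-/

open Finset

namespace R3

variable {G : Type*} [AddCommGroup G] [Fintype G] [DecidableEq G]

/-- [R3-P4] translation double counting.
`∑_{z ∈ D'^m} #{t ∈ B : z + t ∈ Good} = ∑_{t ∈ B} #{z ∈ D'^m : z + t ∈ Good} = |B||Good|` (for `x ∈ Good`,
`t ∈ B`: `z = x - t ∈ D'^m`), `≥ |B||S|^m/2`; so some `z ∈ D'^m` has at least the average `|B||S|^m/(2|D'|^m)`. -/
theorem exists_translate (m : ℕ) (S D' B : Finset G) (Good : Finset (Fin m → G))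
    (hGood : ∀ x ∈ Good, ∀ j, x j ∈ S) (hSB : ∀ x ∈ S, ∀ t ∈ B, x - t ∈ D')
    (hhalf : (#S : ℝ) ^ m / 2 ≤ #Good) (hD' : D'.Nonempty) :
    ∃ z : Fin m → G, (#B : ℝ) * ((#S / #D' : ℝ) ^ m / 2) ≤
      #(B.filter fun t => (fun j => z j + t) ∈ Good) := by
  set E : Finset (Fin m → G) := Fintype.piFinset fun _ : Fin m => D' with hE
  have hEne : E.Nonempty := Fintype.piFinset_nonempty.2 fun _ => hD'
  have hcard : (#E : ℝ) = (#D' : ℝ) ^ m := by
    rw [hE, Fintype.card_piFinset]
    simp
  have hD0 : (0 : ℝ) < #D' := by exact_mod_cast hD'.card_pos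
  have hsum : ∑ z ∈ E, (#(B.filter fun t => (fun j => z j + t) ∈ Good) : ℝ) = #B * #Good := by
    have h1 : ∀ z ∈ E, (#(B.filter fun t => (fun j => z j + t) ∈ Good) : ℝ) =
        ∑ t ∈ B, if (fun j => z j + t) ∈ Good then (1 : ℝ) else 0 := by
      intro z _
      rw [Finset.card_filter]
      push_cast
      rfl
    rw [Finset.sum_congr rfl h1, Finset.sum_comm]
    have h2 : ∀ t ∈ B, ∑ z ∈ E, (if (fun j => z j + t) ∈ Good then (1 : ℝ) else 0) = #Good := by
      intro t ht
      rw [← Finset.sum_filter, Finset.sum_const, nsmul_eq_mul, mul_one]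
      congr 1
      refine Finset.card_bij (fun z _ => fun j => z j + t) ?_ ?_ ?_
      · intro z hz
        exact (Finset.mem_filter.1 hz).2
      · intro a _ b _ h
        funext j
        exact add_right_cancel (congrFun h j)
      · intro x hx
        refine ⟨fun j => x j - t, ?_, ?_⟩
        · rw [Finset.mem_filter]
          constructor
          · rw [hE, Fintype.mem_piFinset]
            intro j
            exact hSB _ (hGood x hx j) t ht
          · simpa using hx
        · funext j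
          simp
    rw [Finset.sum_congr rfl h2, Finset.sum_const, nsmul_eq_mul]
  have hle : ∑ _z ∈ E, (#B : ℝ) * ((#S / #D' : ℝ) ^ m / 2) ≤
      ∑ z ∈ E, (#(B.filter fun t => (fun j => z j + t) ∈ Good) : ℝ) := by
    rw [hsum, Finset.sum_const, nsmul_eq_mul, hcard]
    have e : (#D' : ℝ) ^ m * ((#B : ℝ) * ((#S / #D' : ℝ) ^ m / 2)) = #B * ((#S : ℝ) ^ m / 2) := by
      rw [div_pow]
      field_simp
    rw [e]
    exact mul_le_mul_of_nonneg_left hhalf (by positivity)
  obtain ⟨z, -, hz⟩ := Finset.exists_le_of_sum_le hEne hle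
  exact ⟨z, hz⟩

end R3
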