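import Pool.Agent.MP_0f71ae_nt.R3.Samp1
import Pool.Agent.MP_0f71ae_nt.R3.Samp2
import Pool.Agent.MP_0f71ae_nt.R3.Ext3
import Pool.Agent.MP_0f71ae_nt.R3.Ext4

/-!
# [R3] The sampling theorem (5.2, 5.3)
-/

open Finset

namespace R3

variable {G : Type*} [AddCommGroup G] [Fintype G] [DecidableEq G]

private lemma samp_K_single (A : Finset G) (n : ℝ) (S : Finset G) (y : G) :
    (#S : ℝ) * K A n S {y} = ∑ x ∈ S, X A n x y := by
  have h := card_mul_K A n S {y}
  simpa using h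

/-- the double count of the failing pairs (Chebyshev) -/
private lemma samp_cheb (A : Finset G) (n : ℝ) (S : Finset G) (hS : S.Nonempty) (k s : ℝ)
    (hk : 0 < k) (hK : k = K A n S S) (hs : Phi A n S S 2 ≤ (1 + s) * k ^ 2) :
    (∑ y ∈ S, (#(S.filter fun x => ¬ (1 - 1 / 200) * k ≤ X A n x y) : ℝ)) ≤
      40000 * s * (#S : ℝ) ^ 2 := by
  have hSpos : (0 : ℝ) < #S := by exact_mod_cast hS.card_pos
  have h1 : ∑ y ∈ S, ∑ x ∈ S, (X A n x y - k) ^ 2 = (#S : ℝ) ^ 2 * (Phi A n S S 2 - k ^ 2) := by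
    have e1 : ∀ y ∈ S, ∑ x ∈ S, (X A n x y - k) ^ 2 =
        (∑ x ∈ S, X A n x y ^ 2) - 2 * k * (∑ x ∈ S, X A n x y) + #S * k ^ 2 := by
      intro y _
      have : ∀ x ∈ S, (X A n x y - k) ^ 2 = X A n x y ^ 2 - 2 * k * X A n x y + k ^ 2 :=
        fun x _ => by ring
      rw [sum_congr rfl this, sum_add_distrib, sum_sub_distrib, ← mul_sum, sum_const,
        nsmul_eq_mul]
    rw [sum_congr rfl e1, sum_add_distrib, sum_sub_distrib, ← mul_sum, sum_const, nsmul_eq_mul]
    have e2 : ∑ y ∈ S, ∑ x ∈ S, X A n x y ^ 2 = (#S : ℝ) ^ 2 * Phi A n S S 2 := by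
      unfold Phi
      rw [sum_comm]
      field_simp
    have e3 : ∑ y ∈ S, ∑ x ∈ S, X A n x y = (#S : ℝ) ^ 2 * k := by
      rw [sum_comm, ← card_mul_K, hK]; ring
    rw [e2, e3]; ring
  have h2 : ∀ y ∈ S, (#(S.filter fun x => ¬ (1 - 1 / 200) * k ≤ X A n x y) : ℝ) *
      (k / 200) ^ 2 ≤ ∑ x ∈ S, (X A n x y - k) ^ 2 := by
    intro y _
    have e1 : (#(S.filter fun x => ¬ (1 - 1 / 200) * k ≤ X A n x y) : ℝ) * (k / 200) ^ 2 =
        ∑ x ∈ S.filter (fun x => ¬ (1 - 1 / 200) * k ≤ X A n x y), (k / 200) ^ 2 := by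
      rw [sum_const, nsmul_eq_mul]
    rw [e1]
    refine (sum_le_sum fun x hx => ?_).trans
      (sum_le_sum_of_subset_of_nonneg (filter_subset _ _) fun x _ _ => sq_nonneg _)
    rw [mem_filter, not_le] at hx
    have h3 : k / 200 ≤ k - X A n x y := by linarith [hx.2]
    have h4 : 0 ≤ k / 200 := by positivity
    nlinarith
  have h3 : (∑ y ∈ S, (#(S.filter fun x => ¬ (1 - 1 / 200) * k ≤ X A n x y) : ℝ)) *
      (k / 200) ^ 2 ≤ (#S : ℝ) ^ 2 * (s * k ^ 2) := by
    rw [sum_mul]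
    refine (sum_le_sum h2).trans ?_
    rw [h1]
    refine mul_le_mul_of_nonneg_left ?_ (by positivity)
    linarith
  have h4 : 0 < (k / 200) ^ 2 := by positivity
  rw [← mul_le_mul_iff_of_pos_right h4]
  refine h3.trans (le_of_eq ?_)
  ring

/-- [R3-P5] The sampling theorem: 5.2 + 5.3.
Proof.  `K = K(S,S)`, `d y = K(S,{y})`, `P_y x :⇔ (1-1/200) K ≤ X(x,y)`, `ℓ0 = ell0 L K ≥ 4`.
`y` passes `x⃗` iff `m ≤ 2 hits (P_y) x⃗`.  `E = S^m` (`Fintype.piFinset`), `Bad = {y ∈ D' : d y ≤ (1-1/50)K}`,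
`a x⃗ = #{y ∈ Bad : passes}`, `b x⃗ = #{y ∈ S : fails}`.
* `∑ a ≤ (1/800)|S| |E|`: the `y ∈ Bad` with `e^{-ℓ0}|S| ≤ #{x∈S: P_y x}` are the `badSet` (`key`: `< |S|/1600` many), each
  counted `≤ |E|` times; for the others `card_hits_ge`: `≤ e^{-ℓ0 m/4}|E|`, at most `|D'| ≤ e^{1/100}|D| = e^{1/100+H}|S|` many
  (`card_le`), and `hm` gives `e^{1/100 + H - ℓ0 m/4} ≤ 1/1600`.
* `∑ b ≤ (1/800)|S||E|`: `card_hits_lt` and `#{(x,y) ∈ S²: X < (1-1/200)K} ≤ ∑ (X-K)²/(K/200)² = |S|²(Φ₂-K²)·40000/K² ≤ |S|²/1600`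
  (`second_moment`).
* `half_good` (a0 = b0 = |S|/800): `Good := {x⃗ ∈ E : a ≤ |S|/200 ∧ b ≤ |S|/200}`, `|Good| ≥ |S|^m/2`.  `exists_translate`
  (`x - t = x + (0 - t) ∈ D'`) gives `z`, `T := {t ∈ B : z + t ∈ Good}`.
* `t, t' ∈ T`: for all `y ∈ S` except `≤ |S|/200`, `y` passes `z+t`, hence (translation invariance `X_add_right`)
  `y' = y + (t'-t) ∈ D'` passes `z+t'`; except for `≤ |S|/200` of them `y' ∉ Bad`, i.e. `d y' > (1-1/50) K`.  So
  `∑_{y∈S} d(y+(t'-t)) ≥ (1-1/100)|S|(1-1/50)K`, and `∑_{x,y∈S} X(x+t,y+t') = |S| ∑_{y∈S} d(y+(t'-t))`. -/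
theorem Extremal.sampling {A : Finset G} {n L : ℝ} {D D' S : Finset G}
    (hE : Extremal A n L D D' S) (hn : 0 < n) (hL : 1 ≤ L)
    (hA : A.Nonempty) (hα : Real.exp (-L) * n ≤ #A) (W : Finset G) (hW : (#W : ℝ) ≤ 2 * n)
    (hSW : ∀ x ∈ S, ∀ w, w + x ∈ A → w ∈ W) (B : Finset G) (hB0 : 0 ∈ B)
    (hB : ∀ y ∈ D, ∀ t ∈ B, ∀ t' ∈ B, y + (t' - t) ∈ D') (m : ℕ)
    (hm : 4 * (Real.log ((#D : ℝ) / #S) + 1 / 100 + Real.log 1600) ≤ m * ell0 L (K A n S S)) :
    ∃ T ⊆ B, (#B : ℝ) * ((#S / #D' : ℝ) ^ m / 2) ≤ #T ∧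
      ∀ t ∈ T, ∀ t' ∈ T, (1 - 1 / 25) * K A n S S * (#S : ℝ) ^ 2 ≤
        ∑ x ∈ S, ∑ y ∈ S, X A n (x + t) (y + t') := by
  classical
  have hSne := hE.ne
  have hSpos : (0 : ℝ) < #S := by exact_mod_cast hSne.card_pos
  have hDne : D.Nonempty := hSne.mono hE.sub
  have hDpos : (0 : ℝ) < #D := by exact_mod_cast hDne.card_pos
  have hD'ne : D'.Nonempty := hDne.mono hE.sub'
  set k := K A n S S with hk
  have hkpos : 0 < k := K_self_pos A n hn hA S hSne
  set ℓ := ell0 L k with hℓ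
  have hγ : 3 / 10 + 1 / 12 ≤ Real.log k := hE.lo
  have hγL : Real.log k ≤ L := hE.hi
  have hℓ4 : 4 ≤ ℓ := by
    have h1 : 0 < Real.log k := by linarith
    have h2 : 0 < 128 * Real.log k * L := by positivity
    rw [hℓ, ell0, hh, le_div_iff₀ h2]
    nlinarith
  let P : G → G → Prop := fun y x => (1 - 1 / 200) * k ≤ X A n x y
  have hP : ∀ y x, P y x ↔ (1 - 1 / 200) * k ≤ X A n x y := fun y x => Iff.rfl
  set E : Finset (Fin m → G) := Fintype.piFinset fun _ : Fin m => S with hEdef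
  have hEcard : (#E : ℝ) = (#S : ℝ) ^ m := by
    rw [hEdef, Fintype.card_piFinset_const]; push_cast; rfl
  have hEpos : (0 : ℝ) < #E := by rw [hEcard]; positivity
  set Bad : Finset G := D'.filter fun y => K A n S {y} ≤ (1 - 1 / 50) * k with hBad
  let a : (Fin m → G) → ℝ := fun x => #(Bad.filter fun y => m ≤ 2 * hits (P y) x)
  let b : (Fin m → G) → ℝ := fun x => #(S.filter fun y => 2 * hits (P y) x < m)
  -- `∑ a`
  have hbadset : badSet A n L D' S ⊆ Bad := by
    intro y hy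
    unfold badSet at hy
    rw [mem_filter] at hy
    rw [hBad, mem_filter]
    exact ⟨hy.1, hy.2.1⟩
  have hH : Real.log ((#D : ℝ) / #S) + 1 / 100 - ℓ * m / 4 ≤ -Real.log 1600 := by
    linarith
  have hD'S : (#D' : ℝ) * Real.exp (-ℓ * m / 4) ≤ 1 / 1600 * #S := by
    have h1 : (#D' : ℝ) ≤ Real.exp (1 / 100) * (Real.exp (Real.log ((#D : ℝ) / #S)) * #S) := by
      rw [Real.exp_log (div_pos hDpos hSpos), div_mul_cancel₀ _ hSpos.ne']
      exact hE.card_le
    calc (#D' : ℝ) * Real.exp (-ℓ * m / 4)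
        ≤ Real.exp (1 / 100) * (Real.exp (Real.log ((#D : ℝ) / #S)) * #S) *
          Real.exp (-ℓ * m / 4) := mul_le_mul_of_nonneg_right h1 (Real.exp_pos _).le
      _ = Real.exp (Real.log ((#D : ℝ) / #S) + 1 / 100 - ℓ * m / 4) * #S := by
          have : Real.exp (Real.log ((#D : ℝ) / #S) + 1 / 100 - ℓ * m / 4) =
              Real.exp (1 / 100) * Real.exp (Real.log ((#D : ℝ) / #S)) *
                Real.exp (-ℓ * m / 4) := by
            rw [← Real.exp_add, ← Real.exp_add]; congr 1; ring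
          rw [this]; ring
      _ ≤ Real.exp (-Real.log 1600) * #S :=
          mul_le_mul_of_nonneg_right (Real.exp_le_exp.2 hH) hSpos.le
      _ = 1 / 1600 * #S := by
          rw [Real.exp_neg, Real.exp_log (by norm_num)]; norm_num
  have hsuma : ∑ x ∈ E, a x ≤ (#S / 800 : ℝ) * #E := by
    have e1 : ∑ x ∈ E, a x = ∑ y ∈ Bad, (#(E.filter fun x => m ≤ 2 * hits (P y) x) : ℝ) := by
      simp only [a, Finset.card_filter]
      push_cast
      rw [sum_comm]
    rw [e1, ← sum_sdiff hbadset]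
    have e2 : ∑ y ∈ badSet A n L D' S, (#(E.filter fun x => m ≤ 2 * hits (P y) x) : ℝ) ≤
        1 / 1600 * #S * #E := by
      have h1 : ∑ y ∈ badSet A n L D' S, (#(E.filter fun x => m ≤ 2 * hits (P y) x) : ℝ) ≤
          ∑ y ∈ badSet A n L D' S, (#E : ℝ) :=
        sum_le_sum fun y _ => by exact_mod_cast card_filter_le _ _
      refine h1.trans ?_
      rw [sum_const, nsmul_eq_mul]
      exact mul_le_mul_of_nonneg_right (hE.key hn hL hA hα W hW hSW).le hEpos.le
    have e3 : ∑ y ∈ Bad \ badSet A n L D' S, (#(E.filter fun x => m ≤ 2 * hits (P y) x) : ℝ) ≤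
        1 / 1600 * #S * #E := by
      have h1 : ∀ y ∈ Bad \ badSet A n L D' S,
          (#(E.filter fun x => m ≤ 2 * hits (P y) x) : ℝ) ≤ Real.exp (-ℓ * m / 4) * #E := by
        intro y hy
        rw [mem_sdiff] at hy
        have h2 : (#(S.filter (P y)) : ℝ) ≤ Real.exp (-ℓ) * #S := by
          by_contra hcon
          push Not at hcon
          apply hy.2
          unfold badSet
          rw [mem_filter]
          have h3 := hy.1
          rw [hBad, mem_filter] at h3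
          exact ⟨h3.1, h3.2, hcon.le⟩
        have h4 := card_hits_ge S (P y) m ℓ hℓ4 h2
        rw [hEcard]
        exact h4
      refine (sum_le_sum h1).trans ?_
      rw [sum_const, nsmul_eq_mul, ← mul_assoc]
      refine mul_le_mul_of_nonneg_right ?_ hEpos.le
      refine le_trans ?_ hD'S
      refine mul_le_mul_of_nonneg_right ?_ (Real.exp_pos _).le
      exact_mod_cast card_le_card (sdiff_subset.trans (filter_subset _ _))
    linarith
  -- `∑ b`
  have hsumb : ∑ x ∈ E, b x ≤ (#S / 800 : ℝ) * #E := by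
    have e1 : ∑ x ∈ E, b x = ∑ y ∈ S, (#(E.filter fun x => 2 * hits (P y) x < m) : ℝ) := by
      simp only [b, Finset.card_filter]
      push_cast
      rw [sum_comm]
    have e2 : ∀ y ∈ S, (#(E.filter fun x => 2 * hits (P y) x < m) : ℝ) * #S ≤
        2 * #(S.filter fun x => ¬ (1 - 1 / 200) * k ≤ X A n x y) * #E := by
      intro y _
      have h1 := card_hits_lt S (P y) m hSne
      rw [hEcard]
      exact h1
    have e3 := sum_le_sum e2
    rw [← sum_mul, ← sum_mul, ← mul_sum, ← e1] at e3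
    have e4 := samp_cheb A n S hSne k (1 / 64000000) hkpos hk
      (hE.second_moment hn hL hA hα W hW hSW)
    have e5 : (∑ x ∈ E, b x) * #S ≤ (#S / 800 : ℝ) * #E * #S := by
      refine e3.trans ?_
      have e6 := mul_le_mul_of_nonneg_right e4 hEpos.le
      nlinarith
    exact le_of_mul_le_mul_right e5 hSpos
  have hgood := half_good E a b (#S / 800) (#S / 800) (fun _ _ => by positivity)
    (fun _ _ => by positivity) hsuma hsumb (by positivity) (by positivity)
  set Good := E.filter fun x => a x ≤ 4 * (#S / 800 : ℝ) ∧ b x ≤ 4 * (#S / 800 : ℝ) with hGooddef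
  obtain ⟨z, hz⟩ := exists_translate m S D' B Good
    (fun x hx j => by
      rw [hGooddef, mem_filter, hEdef, Fintype.mem_piFinset] at hx
      exact hx.1 j)
    (fun x hx t ht => by
      have := hB x (hE.sub hx) t ht 0 hB0
      rwa [zero_sub, ← sub_eq_add_neg] at this)
    (by rw [← hEcard]; exact hgood) hD'ne
  refine ⟨B.filter fun t => (fun j => z j + t) ∈ Good, filter_subset _ _, hz, ?_⟩
  intro t ht t' ht'
  rw [mem_filter] at ht ht'
  obtain ⟨htB, htG⟩ := ht
  obtain ⟨htB', htG'⟩ := ht'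
  rw [hGooddef, mem_filter] at htG htG'
  -- the double sum
  have hsum : ∑ x ∈ S, ∑ y ∈ S, X A n (x + t) (y + t') =
      #S * ∑ y ∈ S, K A n S {y + (t' - t)} := by
    rw [sum_comm, mul_sum]
    refine sum_congr rfl fun y _ => ?_
    rw [samp_K_single]
    refine sum_congr rfl fun x _ => ?_
    rw [← X_add_right A n x (y + (t' - t)) t]
    congr 1
    abel
  -- translation of the passes
  have hhits : ∀ y, hits (P y) (fun j => z j + t) = hits (P (y + (t' - t))) (fun j => z j + t') := by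
    intro y
    unfold hits
    congr 1
    ext j
    simp only [mem_filter, mem_univ, true_and, P]
    have : X A n (z j + t') (y + (t' - t)) = X A n (z j + t) y := by
      rw [← X_add_right A n (z j + t) y (t' - t)]
      congr 1
      abel
    rw [this]
  set F := S.filter fun y => 2 * hits (P y) (fun j => z j + t) < m with hF
  set F' := (S \ F).filter fun y => y + (t' - t) ∈ Bad with hF'
  have hFc : (#F : ℝ) ≤ #S / 200 := by
    have h1 := htG.2.2
    have h2 : b (fun j => z j + t) = #F := rfl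
    rw [h2] at h1
    linarith
  have hF'c : (#F' : ℝ) ≤ #S / 200 := by
    have h1 := htG'.2.1
    have h2 : (#F' : ℝ) ≤ a (fun j => z j + t') := by
      have h3 : #F' ≤ #(Bad.filter fun y => m ≤ 2 * hits (P y) (fun j => z j + t')) := by
        refine card_le_card_of_injOn (fun y => y + (t' - t)) ?_ ?_
        · intro y hy
          rw [mem_coe, hF', mem_filter, mem_sdiff, hF, mem_filter] at hy
          rw [mem_coe, mem_filter]
          refine ⟨hy.2, ?_⟩
          rw [← hhits]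
          by_contra hcon
          push Not at hcon
          exact hy.1.2 ⟨hy.1.1, hcon⟩
        · intro y _ y' _ h
          exact add_right_cancel h
      show (#F' : ℝ) ≤ (#(Bad.filter fun y => m ≤ 2 * hits (P y) (fun j => z j + t')) : ℝ)
      exact_mod_cast h3
    linarith
  set R := (S \ F) \ F' with hR
  have hRS : R ⊆ S := sdiff_subset.trans sdiff_subset
  have hRc : (1 - 1 / 100) * (#S : ℝ) ≤ #R := by
    have h1 : #F ≤ #S := card_le_card (filter_subset _ _)
    have h2 : #(S \ F) = #S - #F := card_sdiff_of_subset (filter_subset _ _)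
    have h3 : #F' ≤ #(S \ F) := card_le_card (filter_subset _ _)
    have h4 : #R = #(S \ F) - #F' := card_sdiff_of_subset (filter_subset _ _)
    have h5 : (#R : ℝ) = #S - #F - #F' := by
      rw [h4, Nat.cast_sub h3, h2, Nat.cast_sub h1]
    rw [h5]; linarith
  have hRK : ∀ y ∈ R, (1 - 1 / 50) * k ≤ K A n S {y + (t' - t)} := by
    intro y hy
    rw [hR, mem_sdiff] at hy
    by_contra hcon
    push Not at hcon
    apply hy.2
    rw [hF', mem_filter]
    refine ⟨hy.1, ?_⟩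
    rw [hBad, mem_filter]
    exact ⟨hB y (hE.sub (mem_sdiff.1 hy.1).1) t htB t' htB', hcon.le⟩
  have hfin : (1 - 1 / 100) * (#S : ℝ) * ((1 - 1 / 50) * k) ≤
      ∑ y ∈ S, K A n S {y + (t' - t)} := by
    calc (1 - 1 / 100) * (#S : ℝ) * ((1 - 1 / 50) * k)
        ≤ #R * ((1 - 1 / 50) * k) :=
          mul_le_mul_of_nonneg_right hRc (by positivity)
      _ = ∑ y ∈ R, (1 - 1 / 50) * k := by rw [sum_const, nsmul_eq_mul]
      _ ≤ ∑ y ∈ R, K A n S {y + (t' - t)} := sum_le_sum hRK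
      _ ≤ _ := sum_le_sum_of_subset_of_nonneg hRS fun y _ _ => K_nonneg A n hn _ _
  rw [hsum]
  have h1 := mul_le_mul_of_nonneg_left hfin hSpos.le
  refine le_trans ?_ h1
  have h2 : 0 ≤ k * (#S : ℝ) ^ 2 := by positivity
  nlinarith

end R3
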