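import Pool.Agent.MP_0f71ae_nt.R3.Step1
import Pool.Agent.MP_0f71ae_nt.R3.KM

/-!
# [R3] 7: one density increment step
-/

set_option linter.unusedSectionVars false

open Finset

namespace R3

variable {G : Type*} [AddCommGroup G] [Fintype G] [DecidableEq G]

/-- [R3-ST2] STEP: combine `km` and `step_large`.  In the first alternative of `km` take `Γ' = Γ`,
`g = log(1 + 1/1000) ≥ 1/2000`.  `320000 D ≤ D²`. -/
theorem step (hodd : Odd (Fintype.card G)) (A : Finset G) (hA : ThreeAPFree (A : Set G))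
    (Γ : Finset (AddChar G ℂ)) (D L : ℝ) (hL : 1 ≤ L)
    (hD : 10 ^ 24 * L ^ 4 * ll L ^ 2 ≤ D) (hΓ : (#Γ : ℝ) ≤ D / 2) (ρ : ℝ) (hρ : 0 < ρ)
    (hρ2 : ρ ≤ 2) (hreg : Reg D Γ ρ) (α₀ : ℝ) (hα₀ : Real.exp (1 - L) ≤ α₀)
    (hdens : Dens A Γ ρ α₀) :
    (#(bohr (G := G) Γ (ρ / D ^ 2)) : ℝ) ≤ 1000 * Real.exp (2 * L) ∨
    ∃ (Γ' : Finset (AddChar G ℂ)) (ρ' g : ℝ), 1 / 2000 ≤ g ∧ ρ / D ^ 10 ≤ ρ' ∧ ρ' ≤ 2 ∧
      Reg D Γ' ρ' ∧ Dens A Γ' ρ' (Real.exp g * α₀) ∧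
      (#Γ' : ℝ) ≤ #Γ + 10 ^ 24 * g * L ^ 3 * ll L ^ 2 := by
  have hll : 1 < ll L := one_lt_ll hL
  have h1 : (1 : ℝ) ≤ L ^ 4 := one_le_pow₀ hL
  have h2 : (1 : ℝ) ≤ ll L ^ 2 := one_le_pow₀ hll.le
  have h3 : (1 : ℝ) ≤ L ^ 4 * ll L ^ 2 := one_le_mul_of_one_le_of_one_le h1 h2
  have hD24 : (10 : ℝ) ^ 24 ≤ D := by nlinarith
  have hD1 : (1 : ℝ) ≤ D := le_trans (by norm_num) hD24
  have hD0 : (0 : ℝ) < D := by linarith
  rcases km hodd A hA Γ D hD1 (by linarith) ρ hρ hreg α₀ L hL hα₀ hdens with h | h | h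
  · obtain ⟨ρ', ha, hb, hc, hd⟩ := h
    right
    refine ⟨Γ, ρ', Real.log (1 + 1 / 1000), ?_, ?_, by linarith, hc, ?_, ?_⟩
    · have h4 := Real.one_sub_inv_le_log_of_pos (x := (1 + 1 / 1000 : ℝ)) (by norm_num)
      refine le_trans ?_ h4
      norm_num
    · refine le_trans ?_ ha
      apply div_le_div_of_nonneg_left hρ.le (by positivity)
      have h5 : (10 : ℝ) ^ 12 ≤ D ^ 8 := by
        calc (10 : ℝ) ^ 12 ≤ 10 ^ 24 := by norm_num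
          _ ≤ D := hD24
          _ ≤ D ^ 8 := le_self_pow₀ hD1 (by norm_num)
      calc (10 : ℝ) ^ 12 * D ^ 2 ≤ D ^ 8 * D ^ 2 := by gcongr
        _ = D ^ 10 := by ring
    · rw [Real.exp_log (by norm_num)]
      exact hd
    · have h6 : 0 ≤ Real.log (1 + 1 / 1000) := Real.log_nonneg (by norm_num)
      have h7 : 0 ≤ 10 ^ 24 * Real.log (1 + 1 / 1000) * L ^ 3 * ll L ^ 2 := by positivity
      linarith
  · left
    refine le_trans ?_ h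
    have h8 : bohr (G := G) Γ (ρ / D ^ 2) ⊆ bohr (G := G) Γ (ρ / (320000 * D)) := by
      apply bohr_mono
      apply div_le_div_of_nonneg_left hρ.le (by positivity)
      nlinarith
    exact_mod_cast Finset.card_le_card h8
  · obtain ⟨x, A₁, n, σ, hn, hA₁, hxA, hden, hσ1, hσ2, ⟨W, hW, hWs⟩, p, hp, hpL, hPhi⟩ := h
    right
    exact step_large A Γ D L hL hodd hD hΓ ρ hρ hρ2 α₀ hα₀ x A₁ n σ hn hA₁ hxA hden hσ1 hσ2 W hW hWs p hp hpL hPhi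

end R3
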