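import Pool.Agent.MP_0f71ae_nt.R3.Chang
import Pool.Agent.MP_0f71ae_nt.R3.Core

/-!
# [R3] 7: the large increment
-/

set_option linter.unusedSectionVars false

open Finset

namespace R3

variable {G : Type*} [AddCommGroup G] [Fintype G] [DecidableEq G]

/-- [R3-ST1] From `km` (third alternative), `core` and `chang_increment`: the large increment.
Everything takes place on `Γ₁ = half Γ`.  `κ₃ = 1/(2000 D)`, `k = ⌈100 L⌉₊`.
* `bohr_growth Γ₁ D (1/100)` with `r = σ/4`: `ρ₃ ∈ [σ/8, σ/4]`,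
  `|bohr Γ₁ ((1+κ₃)ρ₃)| ≤ (1+1/100) |bohr Γ₁ ρ₃| ≤ e^{1/100} |bohr Γ₁ ρ₃|`.
* `D j := bohr Γ₁ ((1 + j κ₃/k) ρ₃)`; `D 0 = bohr Γ₁ ρ₃`, `2ρ₃ ≤ σ`: hypothesis `hPhi`.
  `D k ⊆ bohr Γ (2(1+κ₃)ρ₃) ⊆ bohr Γ σ` (`bohr_half_subset`): hypothesis on `W`.
* `bohr_growth Γ₁ D 1` with `r = κ₃ρ₃/(2k)`: `ρ₄ ∈ [κ₃ρ₃/(4k), κ₃ρ₃/(2k)]`,
  `|bohr Γ₁ ((1+1/(20D))ρ₄)| ≤ 2|bohr Γ₁ ρ₄|`; `B := bohr Γ₁ ρ₄`; `D i + B - B ⊆ D (i+1)`.
* `core` gives `S`, `T`, `γ = log K ∈ [3/10+1/12, L]`, `M = 10^22 (1+γ) L³ λ²`.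
* `chang_increment` gives `Λ`, `|Λ| ≤ 4(M+2) ≤ 10^24 (γ/2) L³ λ²` (as `1+γ ≤ 4γ`, `8 ≤ ..`), and
  `Γ' := Γ₁ ∪ Λ`, `|Γ'| ≤ |Γ| + 4(M+2) ≤ D`.
* `exists_reg` for `Γ'` with `r = ρ₄/(10^8 D² (M+3))`: `ρ' ∈ [r/2, r]`, `Reg D Γ' ρ'` and
  `Dens A₁ Γ' ρ' (21/25 K |A₁|/n)`; `21/25 · e^γ · (1-4/1000) α₀ ≥ e^{γ/2} α₀` since
  `e^{γ/2} ≥ e^{0.19} ≥ 1.2`; translate from `A₁` to `A` by `x`.  `g := γ/2`.
* `ρ' ≥ ρ/D^10`: `ρ₃ ≥ σ/8 ≥ ρ/(8·10^17 D³)`, `ρ₄ ≥ ρ₃/(8000 D k) ≥ ρ₃/(8000 D²)`,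
  `ρ' ≥ ρ₄/(2·10^8 D² (M+3)) ≥ ρ₄/(2·10^8 D³)`: total `≥ ρ/(1.3·10^30 D^8)`, `D² ≥ 10^48`. -/
theorem step_large (A : Finset G) (Γ : Finset (AddChar G ℂ)) (D L : ℝ) (hL : 1 ≤ L)
    (hodd : Odd (Fintype.card G))
    (hD : 10 ^ 24 * L ^ 4 * ll L ^ 2 ≤ D) (hΓ : (#Γ : ℝ) ≤ D / 2) (ρ : ℝ) (hρ : 0 < ρ)
    (hρ2 : ρ ≤ 2) (α₀ : ℝ) (hα₀ : Real.exp (1 - L) ≤ α₀)
    (x : G) (A₁ : Finset G) (n σ : ℝ) (hn : 0 < n) (hA₁ : A₁.Nonempty)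
    (hxA : ∀ a ∈ A₁, x + a ∈ A) (hdens : (1 - 4 / 1000) * α₀ * n ≤ #A₁)
    (hσ1 : ρ / (10 ^ 17 * D ^ 3) ≤ σ) (hσ2 : σ ≤ ρ)
    (W : Finset G) (hW : (#W : ℝ) ≤ 2 * n)
    (hWs : ∀ y ∈ bohr (G := G) Γ σ, ∀ w, w + y ∈ A₁ → w ∈ W)
    (p : ℕ) (hp : 1 ≤ p) (hpL : (p : ℝ) ≤ 104 * L)
    (hPhi : ∀ δ, 0 ≤ δ → 2 * δ ≤ σ →
        (9 / 5 : ℝ) ^ p ≤ Phi A₁ n (bohr (half Γ) δ) (bohr (half Γ) δ) p) :
    ∃ (Γ' : Finset (AddChar G ℂ)) (ρ' g : ℝ), 1 / 2000 ≤ g ∧ ρ / D ^ 10 ≤ ρ' ∧ ρ' ≤ 2 ∧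
      Reg D Γ' ρ' ∧ Dens A Γ' ρ' (Real.exp g * α₀) ∧
      (#Γ' : ℝ) ≤ #Γ + 10 ^ 24 * g * L ^ 3 * ll L ^ 2 := by
  classical
  have hl : 1 < ll L := one_lt_ll hL
  have hl2 : 1 ≤ ll L ^ 2 := one_le_pow₀ hl.le
  have hL3 : 1 ≤ L ^ 3 := one_le_pow₀ hL
  have hL4 : 1 ≤ L ^ 4 := one_le_pow₀ hL
  have hLL4 : L ≤ L ^ 4 * ll L ^ 2 := by
    have h1 : L ≤ L ^ 4 := by
      calc L = L ^ 1 := (pow_one L).symm
        _ ≤ L ^ 4 := pow_le_pow_right₀ hL (by norm_num)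
    calc L ≤ L ^ 4 := h1
      _ = L ^ 4 * 1 := (mul_one _).symm
      _ ≤ L ^ 4 * ll L ^ 2 := by gcongr
  set Q : ℝ := L ^ 4 * ll L ^ 2 with hQ
  have hQ1 : 1 ≤ Q := hL.trans hLL4
  have hDQ : 10 ^ 24 * Q ≤ D := by rw [hQ, ← mul_assoc]; exact hD
  have hD24 : 10 ^ 24 ≤ D := by linarith
  have hD1 : 1 ≤ D := le_trans (by norm_num) hD24
  have hD0 : 0 < D := by linarith
  set Γ₁ := half Γ with hΓ₁
  have hcΓ₁ : (#Γ₁ : ℝ) ≤ #Γ := by exact_mod_cast card_half_le Γ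
  have hcΓ₁' : (#Γ₁ : ℝ) ≤ D := by linarith
  have hσ0 : 0 < σ := lt_of_lt_of_le (by positivity) hσ1
  -- the radius ρ₃
  obtain ⟨ρ₃, h3a, h3b, h3c⟩ := bohr_growth (G := G) Γ₁ D (1 / 100) hD1 hcΓ₁' (by norm_num)
    (by norm_num) (σ / 4) (by positivity)
  have hρ₃ : 0 < ρ₃ := by linarith
  set κ₃ : ℝ := 1 / 100 / (20 * D) with hκ₃
  have hκ₃0 : 0 < κ₃ := by positivity
  have hκ₃1 : κ₃ ≤ 1 := by
    rw [hκ₃, div_le_one (by positivity)]; linarith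
  set k : ℕ := ⌈100 * L⌉₊ with hk
  have hk1 : 100 * L ≤ k := Nat.le_ceil _
  have hk2 : (k : ℝ) ≤ 101 * L := by
    have := (Nat.ceil_lt_add_one (show 0 ≤ 100 * L by linarith)).le
    rw [← hk] at this; linarith
  have hkpos : (0 : ℝ) < k := by linarith
  have hkD : (k : ℝ) ≤ D := by
    calc (k : ℝ) ≤ 101 * L := hk2
      _ ≤ 10 ^ 24 * Q := by linarith
      _ ≤ D := hDQ
  -- the radius ρ₄
  obtain ⟨ρ₄, h4a, h4b, h4c⟩ := bohr_growth (G := G) Γ₁ D 1 hD1 hcΓ₁' one_pos le_rfl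
    (κ₃ * ρ₃ / (2 * k)) (by positivity)
  have hρ₄ : 0 < ρ₄ := lt_of_lt_of_le (by positivity) h4a
  have hρ₄2 : 2 * ρ₄ ≤ κ₃ / k * ρ₃ := by
    have : κ₃ / k * ρ₃ = 2 * (κ₃ * ρ₃ / (2 * k)) := by field_simp
    rw [this]; linarith
  set Ds : ℕ → Finset G := fun j => bohr Γ₁ ((1 + j * (κ₃ / k)) * ρ₃) with hDs
  have hDs0 : Ds 0 = bohr Γ₁ ρ₃ := by simp [hDs]
  have hDsk : Ds k = bohr Γ₁ ((1 + κ₃) * ρ₃) := by
    simp only [hDs]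
    congr 2
    field_simp
  have hα : Real.exp (-L) * n ≤ #A₁ := by
    have h1 : Real.exp (-L) ≤ (1 - 4 / 1000) * Real.exp (1 - L) := by
      have h2 : Real.exp (1 - L) = Real.exp 1 * Real.exp (-L) := by
        rw [← Real.exp_add]; ring_nf
      have h3 := Real.exp_one_gt_d9
      rw [h2]
      have h4 := Real.exp_pos (-L)
      have h5 : 1 ≤ (1 - 4 / 1000) * Real.exp 1 := by linarith
      calc Real.exp (-L) = 1 * Real.exp (-L) := (one_mul _).symm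
        _ ≤ ((1 - 4 / 1000) * Real.exp 1) * Real.exp (-L) := by gcongr
        _ = (1 - 4 / 1000) * (Real.exp 1 * Real.exp (-L)) := by ring
    calc Real.exp (-L) * n ≤ (1 - 4 / 1000) * Real.exp (1 - L) * n := by gcongr
      _ ≤ (1 - 4 / 1000) * α₀ * n := by gcongr
      _ ≤ #A₁ := hdens
  obtain ⟨S, hSD, hS, hlo, hhi, T, hTB, hT, hTcard, hTk⟩ := core A₁ n L hn hL hA₁ hα k hk1 Ds
    (by
      intro i _
      apply bohr_mono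
      push_cast
      have : 0 ≤ κ₃ / k := by positivity
      refine mul_le_mul_of_nonneg_right ?_ hρ₃.le
      linarith)
    (by rw [hDs0]; exact bohr_nonempty hρ₃.le)
    (by
      rw [hDs0, hDsk]
      refine h3c.trans ?_
      gcongr
      have := Real.add_one_le_exp (1 / 100 : ℝ)
      linarith)
    W hW
    (by
      intro y hy w hw
      refine hWs y ?_ w hw
      rw [hDsk] at hy
      have h1 := bohr_half_subset hodd Γ _ hy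
      refine bohr_mono ?_ h1
      have h2 : (1 + κ₃) * ρ₃ ≤ 2 * ρ₃ := mul_le_mul_of_nonneg_right (by linarith) hρ₃.le
      linarith)
    p hp hpL
    (by
      rw [hDs0]
      exact hPhi ρ₃ hρ₃.le (by linarith))
    (bohr Γ₁ ρ₄) (zero_mem_bohr hρ₄.le)
    (by
      intro i _ y hy t ht t' ht'
      have h1 := sub_mem_bohr ht' ht
      have h2 := add_mem_bohr hy h1
      refine bohr_mono ?_ h2
      push_cast
      have e : (1 + ((i : ℝ) + 1) * (κ₃ / k)) * ρ₃ = (1 + (i : ℝ) * (κ₃ / k)) * ρ₃ +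
        κ₃ / k * ρ₃ := by ring
      rw [e]
      linarith)
  set γ : ℝ := Real.log (K A₁ n S S) with hγ
  have hKpos : 0 < K A₁ n S S := K_self_pos A₁ n hn hA₁ S hS
  have hKexp : K A₁ n S S = Real.exp γ := by rw [hγ, Real.exp_log hKpos]
  set M : ℝ := 10 ^ 22 * (1 + γ) * L ^ 3 * Real.log (Real.exp 1 + L) ^ 2 with hM
  have hll : Real.log (Real.exp 1 + L) = ll L := rfl
  have hM' : M = 10 ^ 22 * (1 + γ) * (L ^ 3 * ll L ^ 2) := by rw [hM, hll]; ring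
  set P : ℝ := L ^ 3 * ll L ^ 2 with hP
  have hP1 : 1 ≤ P := by
    have := mul_le_mul hL3 hl2 (by norm_num) (by positivity)
    simpa using this
  have hQP : Q = L * P := by rw [hQ, hP]; ring
  have hγ0 : 0 < γ := by linarith
  have hM0 : 0 ≤ M := by rw [hM']; positivity
  have hMQ : M ≤ 2 * 10 ^ 22 * Q := by
    rw [hM', hQP]
    have : 1 + γ ≤ 2 * L := by linarith
    calc 10 ^ 22 * (1 + γ) * P ≤ 10 ^ 22 * (2 * L) * P := by gcongr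
      _ = _ := by ring
  have h4M : 4 * (M + 2) ≤ D / 2 := by linarith
  have hM3D : M + 3 ≤ D := by linarith
  have h4M' : 4 * (M + 2) ≤ 10 ^ 24 * (γ / 2) * L ^ 3 * ll L ^ 2 := by
    have e : 10 ^ 24 * (γ / 2) * L ^ 3 * ll L ^ 2 = 10 ^ 24 * (γ / 2) * P := by rw [hP]; ring
    rw [e, hM']
    have h1 : 10 ^ 22 * (1 + γ) ≤ 10 ^ 22 * (4 * γ) := by linarith
    have h2 : 10 ^ 22 * (1 + γ) * P ≤ 10 ^ 22 * (4 * γ) * P :=
      mul_le_mul_of_nonneg_right h1 (by linarith)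
    have h3 : 1 / 4 ≤ γ * P := by
      calc (1 : ℝ) / 4 ≤ γ * 1 := by linarith
        _ ≤ γ * P := mul_le_mul_of_nonneg_left hP1 hγ0.le
    linarith
  have hρ₄le : ρ₄ ≤ 2 := by
    have h1 : κ₃ / k * ρ₃ ≤ ρ₃ := by
      have : κ₃ / k ≤ 1 := by
        rw [div_le_one hkpos]; linarith
      calc κ₃ / k * ρ₃ ≤ 1 * ρ₃ := mul_le_mul_of_nonneg_right this hρ₃.le
        _ = ρ₃ := one_mul _
    linarith
  obtain ⟨Λ, hΛ, hΛd⟩ := chang_increment A₁ n hn hA₁ S hS Γ₁ D hD1 hcΓ₁' ρ₄ hρ₄ hρ₄le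
    (by
      have e : (1 : ℝ) + 1 = 2 := by norm_num
      rw [e] at h4c
      exact h4c)
    T hT hTB M hM0 hTcard hTk
  have hΓ' : (#(Γ₁ ∪ Λ) : ℝ) ≤ #Γ + 4 * (M + 2) := by
    have h1 : (#(Γ₁ ∪ Λ) : ℝ) ≤ #Γ₁ + #Λ := by exact_mod_cast Finset.card_union_le _ _
    linarith
  obtain ⟨ρ', h5a, h5b, h5c, _⟩ := exists_reg (G := G) hD1 (Γ₁ ∪ Λ) (by linarith)
    (ρ₄ / (10 ^ 8 * D ^ 2 * (M + 3))) (by positivity)
  have hρ'0 : 0 < ρ' := lt_of_lt_of_le (by positivity) h5a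
  have hdens' := hΛd (Γ₁ ∪ Λ) Finset.subset_union_left Finset.subset_union_right ρ' hρ'0 h5b
  refine ⟨Γ₁ ∪ Λ, ρ', γ / 2, by linarith, ?_, ?_, h5c, ?_, ?_⟩
  · -- lower bound for the radius
    have e1 : ρ₄ / (2 * 10 ^ 8 * D ^ 3) ≤ ρ' := by
      refine le_trans ?_ h5a
      rw [div_div]
      apply div_le_div_of_nonneg_left hρ₄.le (by positivity)
      calc 10 ^ 8 * D ^ 2 * (M + 3) * 2 ≤ 10 ^ 8 * D ^ 2 * D * 2 := by gcongr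
        _ = 2 * 10 ^ 8 * D ^ 3 := by ring
    have e2 : ρ₃ / (8000 * D ^ 2) ≤ ρ₄ := by
      refine le_trans ?_ h4a
      have e : κ₃ * ρ₃ / (2 * k) / 2 = ρ₃ / (8000 * D * k) := by
        rw [hκ₃]; field_simp; norm_num
      rw [e]
      apply div_le_div_of_nonneg_left hρ₃.le (by positivity)
      calc 8000 * D * k ≤ 8000 * D * D := by gcongr
        _ = 8000 * D ^ 2 := by ring
    have e3 : ρ / (8 * 10 ^ 17 * D ^ 3) ≤ ρ₃ := by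
      have : ρ / (8 * 10 ^ 17 * D ^ 3) = ρ / (10 ^ 17 * D ^ 3) / 8 := by
        rw [div_div]; congr 1; ring
      rw [this]; linarith
    calc ρ / D ^ 10 ≤ ρ / (8 * 10 ^ 17 * D ^ 3) / (8000 * D ^ 2) / (2 * 10 ^ 8 * D ^ 3) := by
          rw [div_div, div_div]
          apply div_le_div_of_nonneg_left hρ.le (by positivity)
          have h6 : (10 : ℝ) ^ 48 ≤ D ^ 2 := by
            calc (10 : ℝ) ^ 48 = (10 ^ 24) ^ 2 := by norm_num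
              _ ≤ D ^ 2 := by gcongr
          calc 8 * 10 ^ 17 * D ^ 3 * (8000 * D ^ 2 * (2 * 10 ^ 8 * D ^ 3))
              = (8 * 10 ^ 17 * 8000 * 2 * 10 ^ 8) * D ^ 8 := by ring
            _ ≤ D ^ 2 * D ^ 8 := by
                gcongr
                refine le_trans ?_ h6
                norm_num
            _ = D ^ 10 := by ring
      _ ≤ ρ₃ / (8000 * D ^ 2) / (2 * 10 ^ 8 * D ^ 3) := by gcongr
      _ ≤ ρ₄ / (2 * 10 ^ 8 * D ^ 3) := by gcongr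
      _ ≤ ρ' := e1
  · refine h5b.trans ?_
    rw [div_le_iff₀ (by positivity)]
    have : 1 ≤ 10 ^ 8 * D ^ 2 * (M + 3) := by
      have h1 : 1 ≤ D ^ 2 := one_le_pow₀ hD1
      have h2 : 1 ≤ M + 3 := by linarith
      exact one_le_mul_of_one_le_of_one_le
        (one_le_mul_of_one_le_of_one_le (by norm_num) h1) h2
    calc ρ₄ ≤ 2 * 1 := by linarith
      _ ≤ 2 * (10 ^ 8 * D ^ 2 * (M + 3)) := mul_le_mul_of_nonneg_left this (by norm_num)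
  · -- density
    obtain ⟨v, hv⟩ := hdens'
    refine ⟨x + v, ?_⟩
    have h1 : (#((bohr (Γ₁ ∪ Λ) ρ').filter (fun y => v + y ∈ A₁)) : ℝ) ≤
        #((bohr (Γ₁ ∪ Λ) ρ').filter (fun y => x + v + y ∈ A)) := by
      have : (bohr (Γ₁ ∪ Λ) ρ').filter (fun y => v + y ∈ A₁) ⊆
          (bohr (Γ₁ ∪ Λ) ρ').filter (fun y => x + v + y ∈ A) := by
        intro y hy
        rw [mem_filter] at hy ⊢
        refine ⟨hy.1, ?_⟩
        rw [add_assoc]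
        exact hxA _ hy.2
      exact_mod_cast Finset.card_le_card this
    refine le_trans ?_ (hv.trans h1)
    refine mul_le_mul_of_nonneg_right ?_ (Nat.cast_nonneg _)
    have hα₀pos : 0 < α₀ := lt_of_lt_of_le (Real.exp_pos _) hα₀
    have h2 : (1 - 4 / 1000) * α₀ ≤ #A₁ / n := by
      rw [le_div_iff₀ hn]; exact hdens
    have h3 : Real.exp γ = Real.exp (γ / 2) * Real.exp (γ / 2) := by
      rw [← Real.exp_add]; ring_nf
    have h4 : 1.2 ≤ Real.exp (γ / 2) := by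
      have h5 := Real.quadratic_le_exp_of_nonneg (show 0 ≤ γ / 2 by linarith)
      have h6 : (0.19 : ℝ) ^ 2 ≤ (γ / 2) ^ 2 := pow_le_pow_left₀ (by norm_num) (by linarith) 2
      linarith
    have h5 : 0 < Real.exp (γ / 2) := Real.exp_pos _
    calc Real.exp (γ / 2) * α₀ ≤ 21 / 25 * (Real.exp (γ / 2) * Real.exp (γ / 2)) *
          ((1 - 4 / 1000) * α₀) := by
            have h6 : 0 ≤ Real.exp (γ / 2) * α₀ := by positivity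
            have h7 : 1 ≤ 21 / 25 * (1 - 4 / 1000) * Real.exp (γ / 2) := by linarith
            calc Real.exp (γ / 2) * α₀ = 1 * (Real.exp (γ / 2) * α₀) := (one_mul _).symm
              _ ≤ (21 / 25 * (1 - 4 / 1000) * Real.exp (γ / 2)) * (Real.exp (γ / 2) * α₀) :=
                mul_le_mul_of_nonneg_right h7 h6
              _ = _ := by ring
      _ ≤ 21 / 25 * K A₁ n S S * (#A₁ / n) := by
            rw [hKexp, h3]; gcongr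
  · linarith

end R3
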